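import Pool.Agent.Work.MP_46fa68_h4.OB4
import Pool.Agent.Work.MP_46fa68_76.EndStmt

/-!
# MP_46fa68_co: from joint certificates to density gaps
-/

set_option autoImplicit false

open Finset Equiv

namespace Pool.JM

/-- the inequality of a joint certificate, for `S_(n+1)`, `t = n + 1 - m` -/
def JC (n m : ℕ) (W1 s11 s12 W2 s22 : ℝ) : Prop :=
  ∀ A : Finset (Perm (Fin (n + 1))),
    (∀ σ ∈ A, ∀ τ ∈ A, n + 1 - m ≤ (univ.filter fun i => σ i = τ i).card) →
    ∀ i j : Fin (n + 1),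
    0 ≤ (W1 * ((A.filter fun σ => σ i = j).card : ℝ) + W2 * ((A.filter fun σ => σ i ≠ j).card : ℝ)) -
      (s11 * ((A.filter fun σ => σ i = j).card : ℝ) ^ 2 +
        2 * s12 * ((A.filter fun σ => σ i = j).card : ℝ) * ((A.filter fun σ => σ i ≠ j).card : ℝ) +
        s22 * ((A.filter fun σ => σ i ≠ j).card : ℝ) ^ 2) / m.factorial

/-- the data of a joint certificate -/
def Cert (n m M : ℕ) (W1 s11 s12 W2 s22 : ℝ) (al ph f g : Finset ℕ → ℝ) : Prop :=
  Harm M m n al ∧ Val (n + 1) M m al W1 s11 ∧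
  Harm M m (n + 1) f ∧ (∃ f0, Val (n + 1) M m f f0 s12) ∧
  Harm M m (n + 1) g ∧ Val (n + 1) M m g W2 s22 ∧
  (∀ B ∈ Lv M (n + 1), 0 < g B) ∧
  (∀ C ∈ Lv M n, ∑ x ∈ ad C, w C x * ((f (mv C x) - ph C) ^ 2 / g (mv C x)) ≤ al C)

theorem JC_of_cert {n m M : ℕ} (hM : n + 1 < M) (hm : m ≤ n) {W1 s11 s12 W2 s22 : ℝ}
    {al ph f g : Finset ℕ → ℝ} (h : Cert n m M W1 s11 s12 W2 s22 al ph f g) :
    JC n m W1 s11 s12 W2 s22 := by
  obtain ⟨ha1, ha2, hf1, ⟨f0, hf2⟩, hg1, hg2, hg, hal⟩ := h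
  intro A hA i j
  exact joint_cell hM hm al ph f g W1 s11 f0 s12 W2 s22 ha1 ha2 hf1 hf2 hg1 hg2 hg hal A hA i j

/-- the constants may be approached -/
theorem JC_of_approx {n m : ℕ} {W1 s11 s12 W2 s22 : ℝ}
    (h : ∀ ε : ℝ, 0 < ε → JC n m W1 (s11 - ε) (s12 - ε) W2 (s22 - ε)) :
    JC n m W1 s11 s12 W2 s22 := by
  intro A hA i j
  set X : ℝ := ((A.filter fun σ => σ i = j).card : ℝ) with hX
  set Y : ℝ := ((A.filter fun σ => σ i ≠ j).card : ℝ) with hY
  have hf : (0 : ℝ) < m.factorial := by exact_mod_cast m.factorial_pos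
  have hX0 : 0 ≤ X := Nat.cast_nonneg _
  have hY0 : 0 ≤ Y := Nat.cast_nonneg _
  by_contra hneg
  rw [not_le] at hneg
  set V : ℝ := (W1 * X + W2 * Y) - (s11 * X ^ 2 + 2 * s12 * X * Y + s22 * Y ^ 2) / m.factorial
    with hV
  set D : ℝ := (X + Y) ^ 2 / m.factorial with hD
  have hD0 : 0 ≤ D := by positivity
  have hε : 0 < -V / (D + 1) := div_pos (by linarith) (by linarith)
  have h1 := h _ hε A hA i j
  rw [← hX, ← hY] at h1
  set ε : ℝ := -V / (D + 1) with hεd
  have e : (W1 * X + W2 * Y) - ((s11 - ε) * X ^ 2 + 2 * (s12 - ε) * X * Y +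
      (s22 - ε) * Y ^ 2) / m.factorial = V + ε * D := by
    rw [hV, hD]
    field_simp
    ring
  rw [e] at h1
  have h2 : ε * (D + 1) = -V := by
    rw [hεd]
    field_simp
  nlinarith

/-- **JC from one-bead functions.**  `bA`, `bF`, `bG` are overrides (on the levels `n`, `n + 1`) whose kernels are at most
`dA`, `dF`, `dG`. -/
theorem JC_of_obf {n m t L p0 : ℕ} (hn : n + 1 = m + (t + 1)) (hm : 2 ≤ m) (hL : 2 ≤ L)
    (vA vF vG : ℕ → ℕ → ℝ)
    (hvA : ∀ q p, p0 ≤ p → vA q p = 0) (hvF : ∀ q p, p0 ≤ p → vF q p = 0)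
    (hvG : ∀ q p, p0 ≤ p → vG q p = 0)
    (hA0 : sRo m p0 (vA 0) = 0) (hF0 : sRo m p0 (vF 0) = 0) (hG0 : sRo m p0 (vG 0) = 0)
    (W1 W2 dA dF dG : ℝ)
    (h : ∃ A₀ : ℕ, ∀ A, A₀ ≤ A → ∃ K : ℕ, A + (t + 1) + m + 2 ≤ K ∧ n + 1 < K ∧
      ∃ bA bF bG ph : Finset ℕ → ℝ,
        (∀ σ : Perm (Fin (n + 1)), Sn m σ → G (n + 1) K (hx K n bA) m σ 1 ≤ dA) ∧
        (∀ σ : Perm (Fin (n + 1)), Sn m σ → G (n + 1) K (hx K (n + 1) bF) m σ 1 ≤ dF) ∧
        (∀ σ : Perm (Fin (n + 1)), Sn m σ → G (n + 1) K (hx K (n + 1) bG) m σ 1 ≤ dG) ∧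
        (∀ B ∈ Lv K (n + 1), 0 < W2 - obf (t + 1) m K 1 L A vG B + bG B) ∧
        (∀ C ∈ Lv K n, ∑ x ∈ ad C, w C x *
          ((bF (mv C x) - obf (t + 1) m K 1 L A vF (mv C x) - ph C) ^ 2 /
            (W2 - obf (t + 1) m K 1 L A vG (mv C x) + bG (mv C x))) ≤
          W1 - obf t m K 1 L A vA C + bA C)) :
    JC n m W1 (sRw m p0 (vA 1) - dA * m.factorial) (sRw m p0 (vF 1) - dF * m.factorial) W2
      (sRw m p0 (vG 1) - dG * m.factorial) := by
  obtain ⟨A₀, hh⟩ := h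
  refine JC_of_approx fun ε hε => ?_
  have hf : (0 : ℝ) < m.factorial := by exact_mod_cast m.factorial_pos
  -- choose `A`
  have tA := (otl_tendsto t 1 L p0 vA).eventually (gt_mem_nhds (show (0 : ℝ) < ε / m.factorial by positivity))
  have tF := (otl_tendsto (t + 1) 1 L p0 vF).eventually
    (gt_mem_nhds (show (0 : ℝ) < ε / m.factorial by positivity))
  have tG := (otl_tendsto (t + 1) 1 L p0 vG).eventually
    (gt_mem_nhds (show (0 : ℝ) < ε / m.factorial by positivity))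
  obtain ⟨A, hA⟩ := (((tA.and tF).and tG).and
    (Filter.eventually_ge_atTop (A₀ + p0))).exists
  obtain ⟨⟨⟨eA, eF⟩, eG⟩, hAA⟩ := hA
  have mul_lt : ∀ z : ℝ, z < ε / m.factorial → z * m.factorial ≤ ε := fun z hz => by
    rw [lt_div_iff₀ hf] at hz
    exact hz.le
  obtain ⟨K, hK, hK1, bA, bF, bG, ph, hbA, hbF, hbG, hpos, hvar⟩ := hh A (by omega)
  -- the functions
  have e1 : n = m + t := by omega
  have VA := Val_obf (N := n + 1) (K := K) (A := A) (t := t) (by omega) hK1 hm hL (by omega) hvA hA0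
    (by omega) W1
  have VF := Val_obf (N := n + 1) (K := K) (A := A) (t := t + 1) (by omega) hK1 hm hL (by omega)
    hvF hF0 (by omega) 0
  have VG := Val_obf (N := n + 1) (K := K) (A := A) (t := t + 1) (by omega) hK1 hm hL (by omega)
    hvG hG0 (by omega) W2
  rw [← e1] at VA
  rw [show m + (t + 1) = n + 1 by omega] at VF VG
  have VA' := Val_add VA hbA
  have VF' := Val_add VF hbF
  have VG' := Val_add VG hbG
  have mono : ∀ {a : Finset ℕ → ℝ} {p q q' : ℝ}, Val (n + 1) K m a p q → q' ≤ q →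
      Val (n + 1) K m a p q' := fun {a p q q'} hv hq σ hσ => (hv σ hσ).trans (by
        have := div_le_div_of_nonneg_right hq hf.le
        linarith)
  set al : Finset ℕ → ℝ := hx K n (fun B => (W1 - obf t m K 1 L A vA B) + bA B) with hal
  set f : Finset ℕ → ℝ := hx K (n + 1) (fun B => (0 - obf (t + 1) m K 1 L A vF B) + bF B) with hfd
  set g : Finset ℕ → ℝ := hx K (n + 1) (fun B => (W2 - obf (t + 1) m K 1 L A vG B) + bG B) with hgd
  refine JC_of_cert hK1 (by omega) (al := al) (ph := ph) (f := f) (g := g) ⟨Harm_hx _ _ _, ?_,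
    Harm_hx _ _ _, ⟨0, ?_⟩, Harm_hx _ _ _, ?_, ?_, ?_⟩
  · refine mono (Val_congr VA' fun C _ => ?_) ?_
    · rw [hal, hx_add]
    · have := mul_lt _ eA
      linarith
  · refine mono (Val_congr VF' fun C _ => ?_) ?_
    · rw [hfd, hx_add]
    · have := mul_lt _ eF
      linarith
  · refine mono (Val_congr VG' fun C _ => ?_) ?_
    · rw [hgd, hx_add]
    · have := mul_lt _ eG
      linarith
  · intro B hB
    rw [hgd, hx_top _ hB]
    exact hpos B hB
  · intro C hC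
    rw [hal, hx_top _ hC]
    refine le_of_eq_of_le ?_ (hvar C hC)
    refine sum_congr rfl fun x hx => ?_
    rw [hfd, hgd, hx_top _ (mv_mem hC hx), hx_top _ (mv_mem hC hx)]
    congr 3
    ring

/-! ## densities -/

/-- no cell has a density in `[l, r]` -/
def Excl (n t : ℕ) (θ l r : ℝ) : Prop :=
  ∀ A : Finset (Perm (Fin n)), Pool.EG.TInt t A → θ * ((n - t).factorial : ℝ) ≤ (A.card : ℝ) →
    ∀ x y : Fin n, ¬ (l * A.card ≤ ((Pool.EG.thr A x y).card : ℝ) ∧
      ((Pool.EG.thr A x y).card : ℝ) ≤ r * A.card)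

theorem Excl.glue {n t : ℕ} {θ l r l' r' : ℝ} (h : Excl n t θ l r) (h' : Excl n t θ l' r')
    (hlr : l' ≤ r) : Excl n t θ l r' := by
  intro A hA hc x y hh
  have hA0 : (0 : ℝ) ≤ A.card := Nat.cast_nonneg _
  by_cases hx : ((Pool.EG.thr A x y).card : ℝ) ≤ r * A.card
  · exact h A hA hc x y ⟨hh.1, hx⟩
  · rw [not_le] at hx
    refine h' A hA hc x y ⟨?_, hh.2⟩
    have : l' * A.card ≤ r * A.card := mul_le_mul_of_nonneg_right hlr hA0
    linarith

theorem Excl.gap {n t : ℕ} {θ l r : ℝ} (h : Excl n t θ l r) : Pool.EG.Gap n t θ l r := by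
  intro A hA hc x y
  by_cases h1 : ((Pool.EG.thr A x y).card : ℝ) ≤ l * A.card
  · exact Or.inl h1
  · right
    rw [not_le] at h1
    by_contra h2
    rw [not_le] at h2
    exact h A hA hc x y ⟨h1.le, h2.le⟩

/-- **exclusion of an interval of densities by two inequalities** -/
theorem JC.excl {n m : ℕ} {W1 s11 s12 W2 s22 θ l r : ℝ} (h : JC n m W1 s11 s12 W2 s22)
    (hm : m ≤ n + 1) (hθ : 0 < θ) (hl0 : 0 ≤ l) (hr1 : r ≤ 1) (hW1 : 0 ≤ W1) (hW2 : 0 ≤ W2)
    (hconc : s11 + s22 ≤ 2 * s12)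
    (hl : W1 * l + W2 * (1 - l) < θ * (s11 * l ^ 2 + 2 * s12 * l * (1 - l) + s22 * (1 - l) ^ 2))
    (hr : W1 * r + W2 * (1 - r) < θ * (s11 * r ^ 2 + 2 * s12 * r * (1 - r) + s22 * (1 - r) ^ 2)) :
    Excl (n + 1) (n + 1 - m) θ l r := by
  intro A hA hc x y ⟨h1, h2⟩
  have hf : (0 : ℝ) < m.factorial := by exact_mod_cast m.factorial_pos
  rw [show n + 1 - (n + 1 - m) = m by omega] at hc
  have hJ := h A hA x y
  have hcard : ((A.filter fun σ => σ x = y).card : ℝ) + ((A.filter fun σ => σ x ≠ y).card : ℝ) =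
      A.card := by
    have := Finset.card_filter_add_card_filter_not (s := A) (fun σ => σ x = y)
    exact_mod_cast this
  have e0 : ((Pool.EG.thr A x y).card : ℝ) = ((A.filter fun σ => σ x = y).card : ℝ) := rfl
  rw [e0] at h1 h2
  set X : ℝ := ((A.filter fun σ => σ x = y).card : ℝ) with hX
  set Y : ℝ := ((A.filter fun σ => σ x ≠ y).card : ℝ) with hY
  set S : ℝ := (A.card : ℝ) with hS
  have hS0 : 0 < S := lt_of_lt_of_le (by positivity) hc
  set p : ℝ := X / S with hp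
  have hXp : X = p * S := by rw [hp]; field_simp
  have hYp : Y = (1 - p) * S := by
    have : Y = S - X := by linarith
    rw [this, hXp]; ring
  have hlp : l ≤ p := by rw [hp, le_div_iff₀ hS0]; exact h1
  have hpr : p ≤ r := by rw [hp, div_le_iff₀ hS0]; exact h2
  set q : ℝ := s11 * p ^ 2 + 2 * s12 * p * (1 - p) + s22 * (1 - p) ^ 2 with hq
  set Lp : ℝ := W1 * p + W2 * (1 - p) with hLp
  have hmain : Lp < θ * q := by
    rcases eq_or_lt_of_le (hlp.trans hpr) with heq | hlt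
    · have : p = l := le_antisymm (by rw [heq]; exact hpr) hlp
      rw [hLp, hq, this]
      exact hl
    · -- concavity
      have e1 : (r - l) * (θ * q - Lp) = (r - p) * (θ * (s11 * l ^ 2 + 2 * s12 * l * (1 - l) +
          s22 * (1 - l) ^ 2) - (W1 * l + W2 * (1 - l))) + (p - l) * (θ * (s11 * r ^ 2 +
          2 * s12 * r * (1 - r) + s22 * (1 - r) ^ 2) - (W1 * r + W2 * (1 - r))) +
          θ * (2 * s12 - s11 - s22) * ((p - l) * (r - p) * (r - l)) := by
        rw [hq, hLp]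
        ring
      have h3 : 0 ≤ (r - p) * (θ * (s11 * l ^ 2 + 2 * s12 * l * (1 - l) +
          s22 * (1 - l) ^ 2) - (W1 * l + W2 * (1 - l))) :=
        mul_nonneg (by linarith) (by linarith)
      have h4 : 0 ≤ (p - l) * (θ * (s11 * r ^ 2 +
          2 * s12 * r * (1 - r) + s22 * (1 - r) ^ 2) - (W1 * r + W2 * (1 - r))) :=
        mul_nonneg (by linarith) (by linarith)
      have h5 : 0 ≤ θ * (2 * s12 - s11 - s22) * ((p - l) * (r - p) * (r - l)) := by
        refine mul_nonneg (mul_nonneg hθ.le (by linarith)) ?_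
        exact mul_nonneg (mul_nonneg (by linarith) (by linarith)) (by linarith)
      have h6 : 0 < (r - l) * (θ * q - Lp) := by
        rw [e1]
        rcases eq_or_lt_of_le hpr with h7 | h7
        · have : 0 < (p - l) * (θ * (s11 * r ^ 2 +
            2 * s12 * r * (1 - r) + s22 * (1 - r) ^ 2) - (W1 * r + W2 * (1 - r))) :=
            mul_pos (by linarith) (by linarith)
          linarith
        · have : 0 < (r - p) * (θ * (s11 * l ^ 2 + 2 * s12 * l * (1 - l) +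
            s22 * (1 - l) ^ 2) - (W1 * l + W2 * (1 - l))) :=
            mul_pos (by linarith) (by linarith)
          linarith
      have h8 : 0 < r - l := by linarith
      by_contra hneg
      rw [not_lt] at hneg
      have := mul_nonpos_of_nonneg_of_nonpos h8.le (by linarith : θ * q - Lp ≤ 0)
      linarith
  have hp0 : 0 ≤ p := hl0.trans hlp
  have hp1 : p ≤ 1 := hpr.trans hr1
  have hL0 : 0 ≤ Lp := by
    rw [hLp]
    have := mul_nonneg hW1 hp0
    have := mul_nonneg hW2 (by linarith : 0 ≤ 1 - p)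
    linarith
  have hq0 : 0 < q := by
    by_contra hneg
    rw [not_lt] at hneg
    have : θ * q ≤ 0 := mul_nonpos_of_nonneg_of_nonpos hθ.le hneg
    linarith
  have e2 : W1 * X + W2 * Y = S * Lp := by rw [hXp, hYp, hLp]; ring
  have e3 : s11 * X ^ 2 + 2 * s12 * X * Y + s22 * Y ^ 2 = S * (S * q) := by
    rw [hXp, hYp, hq]; ring
  rw [e2, e3] at hJ
  have h10 : S * (S * q) / m.factorial ≤ S * Lp := by linarith
  rw [div_le_iff₀ hf] at h10
  have h11 : S * q ≤ Lp * m.factorial := by nlinarith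
  have h12 : θ * m.factorial * q ≤ S * q := mul_le_mul_of_nonneg_right hc hq0.le
  have h13 : θ * q * m.factorial ≤ Lp * m.factorial := by linarith
  have h14 := le_of_mul_le_mul_right h13 hf
  linarith

end Pool.JM
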