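import Pool.Agent.Work.MP_46fa68_h4.Kx

/-!
# MP_46fa68_co: the layers of the full kernel

With the weights `vv t g1 g2` the kernel `kf M0 (vv t g1 g2) (bi t)` is, at the bead `M0 - 2`, exactly
`1 - (1 + g1 S + g2 S^2)`; at the beads `M0 - 1` and `M0 - j` it is given by explicit coefficients.
-/

set_option autoImplicit false

open Finset Equiv

namespace Pool.JM

/-- the geometric series -/
noncomputable def Ig : PowerSeries ℝ := PowerSeries.mk 1

theorem Ig_mul : Ig * (1 - PowerSeries.X) = 1 := PowerSeries.mk_one_mul_one_sub_eq_one ℝ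

theorem Ig_mul_pow (n : ℕ) : Ig ^ n * (1 - PowerSeries.X) ^ n = 1 := by
  rw [← mul_pow, Ig_mul, one_pow]

theorem coeff_Ig (n P : ℕ) : PowerSeries.coeff P (Ig ^ n) = ((n + P - 1).choose P : ℝ) := by
  cases n with
  | zero =>
    rw [pow_zero, PowerSeries.coeff_one]
    cases P with
    | zero => simp
    | succ P =>
      rw [if_neg (Nat.succ_ne_zero P), Nat.zero_add, Nat.add_sub_cancel,
        Nat.choose_eq_zero_of_lt (Nat.lt_succ_self P)]
      simp
  | succ d =>
    unfold Ig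
    rw [PowerSeries.mk_one_pow_eq_mk_choose_add, PowerSeries.coeff_mk,
      show d + 1 + P - 1 = d + P by omega, Nat.choose_symm_add]

theorem coeff_one_sub (n : ℕ) : ∀ p, PowerSeries.coeff p ((1 - PowerSeries.X : PowerSeries ℝ) ^ n) =
    (-1) ^ p * (n.choose p : ℝ) := by
  induction n with
  | zero =>
    intro p
    rw [pow_zero, PowerSeries.coeff_one]
    cases p with
    | zero => simp
    | succ p => simp
  | succ n ih =>
    intro p
    rw [pow_succ', sub_mul, one_mul, map_sub]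
    cases p with
    | zero =>
      rw [ih 0]
      simp
    | succ p =>
      rw [PowerSeries.coeff_succ_X_mul, ih, ih, Nat.choose_succ_succ]
      push_cast
      ring

/-- the series of the layer 2 -/
noncomputable def Gq (g1 g2 : ℝ) : PowerSeries ℝ :=
  1 + PowerSeries.C g1 * PowerSeries.X + PowerSeries.C g2 * PowerSeries.X ^ 2

theorem coeff_Gq_mul (g1 g2 : ℝ) (f : PowerSeries ℝ) (P : ℕ) :
    PowerSeries.coeff P (Gq g1 g2 * f) = PowerSeries.coeff P f +
      g1 * (if 1 ≤ P then PowerSeries.coeff (P - 1) f else 0) +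
      g2 * (if 2 ≤ P then PowerSeries.coeff (P - 2) f else 0) := by
  unfold Gq
  rw [add_mul, add_mul, one_mul, map_add, map_add, mul_assoc, mul_assoc, PowerSeries.coeff_C_mul,
    PowerSeries.coeff_C_mul, PowerSeries.coeff_X_pow_mul']
  congr 2
  have := PowerSeries.coeff_X_pow_mul' f 1 P
  rw [pow_one] at this
  rw [this]

theorem coeff_Gq (g1 g2 : ℝ) (P : ℕ) : PowerSeries.coeff P (Gq g1 g2) =
    if P = 0 then 1 else if P = 1 then g1 else if P = 2 then g2 else 0 := by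
  have := coeff_Gq_mul g1 g2 1 P
  rw [mul_one] at this
  rw [this, PowerSeries.coeff_one, PowerSeries.coeff_one, PowerSeries.coeff_one]
  rcases P with _ | _ | _ | P
  · simp
  · simp
  · simp
  · simp

/-- the series `(1 - X) - G (1 - X)^(t+1)` -/
noncomputable def qs (t : ℕ) (g1 g2 : ℝ) : PowerSeries ℝ :=
  (1 - PowerSeries.X) - Gq g1 g2 * (1 - PowerSeries.X) ^ (t + 1)

/-- the weights of the extra kernel -/
noncomputable def vv (t : ℕ) (g1 g2 : ℝ) (p : ℕ) : ℝ :=
  (if p = 0 then 1 else 0) - PowerSeries.coeff (p + 1) (qs t g1 g2) / t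

theorem coeff_qs_zero (t : ℕ) (g1 g2 : ℝ) : PowerSeries.coeff 0 (qs t g1 g2) = 0 := by
  unfold qs
  rw [map_sub, coeff_Gq_mul, coeff_one_sub, map_sub]
  simp

theorem coeff_qs (t : ℕ) (g1 g2 : ℝ) (p : ℕ) (hp : 2 ≤ p) :
    PowerSeries.coeff p (qs t g1 g2) = -((-1) ^ p * ((t + 1).choose p : ℝ) +
      g1 * ((-1) ^ (p - 1) * ((t + 1).choose (p - 1) : ℝ)) +
      g2 * ((-1) ^ (p - 2) * ((t + 1).choose (p - 2) : ℝ))) := by
  unfold qs
  rw [map_sub, coeff_Gq_mul, coeff_one_sub, coeff_one_sub, coeff_one_sub, if_pos (by omega),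
    if_pos hp, map_sub, PowerSeries.coeff_one, PowerSeries.coeff_X, if_neg (by omega),
    if_neg (by omega)]
  ring

theorem coeff_qs_one (t : ℕ) (g1 g2 : ℝ) : PowerSeries.coeff 1 (qs t g1 g2) = t - g1 := by
  unfold qs
  rw [map_sub, coeff_Gq_mul, coeff_one_sub, coeff_one_sub, if_pos (by omega), if_neg (by omega),
    map_sub, PowerSeries.coeff_one, PowerSeries.coeff_X]
  simp
  ring

theorem vv_zero {t : ℕ} (ht : 0 < t) (g1 g2 : ℝ) : vv t g1 g2 0 = g1 / t := by
  unfold vv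
  rw [coeff_qs_one, if_pos rfl]
  have : (t : ℝ) ≠ 0 := by exact_mod_cast ht.ne'
  field_simp
  ring

theorem vv_big {t : ℕ} (g1 g2 : ℝ) {p : ℕ} (hp : t + 2 < p) : vv t g1 g2 p = 0 := by
  unfold vv
  rw [coeff_qs _ _ _ _ (by omega), if_neg (by omega), Nat.choose_eq_zero_of_lt (by omega : t + 1 < p + 1),
    Nat.choose_eq_zero_of_lt (by omega : t + 1 < p + 1 - 1),
    Nat.choose_eq_zero_of_lt (by omega : t + 1 < p + 1 - 2)]
  simp

/-- the series of the weights -/
noncomputable def Vs (t : ℕ) (g1 g2 : ℝ) : PowerSeries ℝ := PowerSeries.mk (vv t g1 g2)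

theorem X_Vs {t : ℕ} (ht : 0 < t) (g1 g2 : ℝ) :
    PowerSeries.C (t : ℝ) * (PowerSeries.X * Vs t g1 g2) =
      PowerSeries.C (t : ℝ) * PowerSeries.X - qs t g1 g2 := by
  have ht' : (t : ℝ) ≠ 0 := by exact_mod_cast ht.ne'
  ext P
  rw [PowerSeries.coeff_C_mul, map_sub, PowerSeries.coeff_C_mul]
  cases P with
  | zero =>
    rw [coeff_qs_zero]
    simp
  | succ P =>
    rw [PowerSeries.coeff_succ_X_mul, PowerSeries.coeff_X]
    unfold Vs
    rw [PowerSeries.coeff_mk]
    unfold vv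
    by_cases h : P = 0
    · subst h
      rw [if_pos rfl, if_pos rfl]
      field_simp
    · rw [if_neg h, if_neg (by omega)]
      field_simp

/-- the binomial series `∑ C(t+a-1, a) C(a, b) X^a` -/
theorem coeff_W (t b a : ℕ) : ((t + a - 1).choose a : ℝ) * (a.choose b : ℝ) =
    ((t + b - 1).choose b : ℝ) * PowerSeries.coeff a (PowerSeries.X ^ b * Ig ^ (t + b)) := by
  rw [PowerSeries.coeff_X_pow_mul', coeff_Ig]
  split_ifs with h
  · obtain ⟨d, rfl⟩ : ∃ d, a = b + d := ⟨a - b, by omega⟩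
    rw [Nat.add_sub_cancel_left, show t + (b + d) - 1 = t + b + d - 1 by omega]
    have e1 : (t + b + d - 1).choose (b + d) * (b + d).choose b =
        (t + b - 1).choose b * (t + b + d - 1).choose d := by
      by_cases ht : t + b = 0
      · obtain ⟨rfl, rfl⟩ : t = 0 ∧ b = 0 := by omega
        cases d with
        | zero => rfl
        | succ d => simp
      · have h1 := Nat.choose_mul (n := t + b + d - 1) (k := b + d) (s := d)
        rw [show t + b + d - 1 - d = t + b - 1 by omega, show b + d - d = b by omega] at h1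
        have h2 : (b + d).choose b = (b + d).choose d := by
          rw [Nat.choose_symm_add]
        rw [h2, h1 (by omega)]
        ring
    exact_mod_cast e1
  · rw [Nat.choose_eq_zero_of_lt (by omega : a < b)]
    simp

/-- the extra kernel as a coefficient -/
theorem kx_eq {t j : ℕ} (g1 g2 : ℝ) {M0 P : ℕ} (hj : 1 ≤ j) (hM : j ≤ M0) :
    kx M0 (vv t g1 g2) (bi t) (M0 - j) P = (-1) ^ (j - 1) * (((t + j - 2).choose (j - 1) : ℝ) *
      PowerSeries.coeff P (PowerSeries.X ^ (j - 1) * Ig ^ (t + j - 1) * Vs t g1 g2)) := by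
  unfold kx
  rw [if_pos (by omega), show M0 - 1 - (M0 - j) = j - 1 by omega]
  obtain ⟨b, rfl⟩ : ∃ b, j = b + 1 := ⟨j - 1, by omega⟩
  rw [Nat.add_sub_cancel, show t + (b + 1) - 2 = t + b - 1 by omega,
    show t + (b + 1) - 1 = t + b by omega, PowerSeries.coeff_mul,
    Finset.Nat.sum_antidiagonal_eq_sum_range_succ_mk, mul_sum, mul_sum]
  refine sum_congr rfl fun a _ => ?_
  unfold Vs bi
  rw [PowerSeries.coeff_mk, ← mul_assoc ((t + b - 1).choose b : ℝ), ← coeff_W, pow_add]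
  have h : ((-1 : ℝ)) ^ a * (-1) ^ a = 1 := by rw [← mul_pow]; norm_num
  linear_combination ((t + a - 1).choose a : ℝ) * ((-1) ^ b * (a.choose b : ℝ)) *
    vv t g1 g2 (P - a) * h

/-- **Layer 1.** -/
theorem kf_one {t : ℕ} (ht : 0 < t) (g1 g2 : ℝ) {M0 : ℕ} (hM : 1 ≤ M0) (P : ℕ) :
    kf M0 (vv t g1 g2) (bi t) (M0 - 1) P = (if P = 0 then 1 else 0) -
      (1 / (t : ℝ)) * PowerSeries.coeff (P + 1)
        (Ig ^ (t - 1) - Gq g1 g2 * (1 - PowerSeries.X)) := by
  have ht' : (t : ℝ) ≠ 0 := by exact_mod_cast ht.ne'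
  unfold kf
  rw [kx_eq g1 g2 le_rfl hM, Nat.sub_self, pow_zero, pow_zero, one_mul, one_mul,
    Nat.choose_zero_right, Nat.add_sub_cancel]
  -- `t X (1 - V) I^t = I^(t-1) - G (1 - X)`
  have h1 : PowerSeries.C (t : ℝ) * (PowerSeries.X * (Ig ^ t - Ig ^ t * Vs t g1 g2)) =
      Ig ^ (t - 1) - Gq g1 g2 * (1 - PowerSeries.X) := by
    have e1 := X_Vs ht g1 g2
    have e2 : Ig ^ t * (1 - PowerSeries.X) = Ig ^ (t - 1) := by
      obtain ⟨s, rfl⟩ : ∃ s, t = s + 1 := ⟨t - 1, by omega⟩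
      rw [pow_succ, mul_assoc, Ig_mul, mul_one, Nat.add_sub_cancel]
    have e3 : Ig ^ t * (1 - PowerSeries.X) ^ (t + 1) = 1 - PowerSeries.X := by
      rw [pow_succ, ← mul_assoc, Ig_mul_pow, one_mul]
    unfold qs at e1
    linear_combination (-Ig ^ t) * e1 + e2 - Gq g1 g2 * e3
  have h2 : PowerSeries.coeff (P + 1) (Ig ^ (t - 1) - Gq g1 g2 * (1 - PowerSeries.X)) =
      t * (PowerSeries.coeff P (Ig ^ t) - PowerSeries.coeff P (Ig ^ t * Vs t g1 g2)) := by
    rw [← h1, PowerSeries.coeff_C_mul, PowerSeries.coeff_succ_X_mul, map_sub]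
  rw [h2, coeff_Ig]
  have h3 : kc M0 (bi t) (M0 - 1) P = (if P = 0 then 1 else 0) - ((t + P - 1).choose P : ℝ) := by
    unfold kc bi
    by_cases hP : P = 0
    · subst hP
      rw [kp_zero, if_neg (by omega)]
      simp
    · unfold kp
      rw [if_neg hP, if_neg hP, if_pos (by omega), show M0 - (M0 - 1) = 1 by omega, Nat.sub_self,
        Nat.choose_zero_right]
      have h : ((-1 : ℝ)) ^ P * (-1) ^ P = 1 := by rw [← mul_pow]; norm_num
      rw [pow_succ]
      push_cast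
      linear_combination (-((t + P - 1).choose P : ℝ)) * h
  rw [h3]
  field_simp
  push_cast
  ring

/-- **The layers `j ≥ 2`.** -/
theorem kf_layer {t j : ℕ} (ht : 0 < t) (g1 g2 : ℝ) {M0 : ℕ} (hj : 2 ≤ j) (hM : j ≤ M0) (P : ℕ) :
    kf M0 (vv t g1 g2) (bi t) (M0 - j) P = (-1) ^ j * (
      ((t : ℝ) + j - 2) / (t * (j - 1)) * (((t + P - 1).choose P : ℝ) * (P.choose (j - 2) : ℝ)) -
      (if P = 0 then 0 else ((t + P - 1).choose P : ℝ) * ((P - 1).choose (j - 2) : ℝ)) -
      (((t + j - 2).choose (j - 1) : ℝ) / t) *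
        PowerSeries.coeff P (PowerSeries.X ^ (j - 2) * Ig ^ (j - 2) * Gq g1 g2)) := by
  have ht' : (t : ℝ) ≠ 0 := by exact_mod_cast ht.ne'
  obtain ⟨i, rfl⟩ : ∃ i, j = i + 2 := ⟨j - 2, by omega⟩
  unfold kf
  rw [kx_eq g1 g2 (by omega) hM, Nat.add_sub_cancel, show i + 2 - 1 = i + 1 by omega,
    show t + (i + 2) - 2 = t + i by omega, show t + (i + 2) - 1 = t + (i + 1) by omega]
  -- the series identity
  have h1 : PowerSeries.C (t : ℝ) * (PowerSeries.X ^ (i + 1) * Ig ^ (t + (i + 1)) * Vs t g1 g2) =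
      PowerSeries.C (t : ℝ) * (PowerSeries.X ^ (i + 1) * Ig ^ (t + (i + 1))) -
      PowerSeries.X ^ i * Ig ^ (t + i) +
      PowerSeries.X ^ i * Ig ^ i * Gq g1 g2 := by
    have e1 := X_Vs ht g1 g2
    have e2 : Ig ^ (t + (i + 1)) * (1 - PowerSeries.X) = Ig ^ (t + i) := by
      rw [show t + (i + 1) = (t + i) + 1 by omega, pow_succ, mul_assoc, Ig_mul, mul_one]
    have e3 : Ig ^ (t + (i + 1)) * (1 - PowerSeries.X) ^ (t + 1) = Ig ^ i := by
      rw [show t + (i + 1) = i + (t + 1) by omega, pow_add, mul_assoc, Ig_mul_pow, mul_one]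
    unfold qs at e1
    linear_combination (PowerSeries.X ^ i * Ig ^ (t + (i + 1))) * e1 - PowerSeries.X ^ i * e2 +
      PowerSeries.X ^ i * Gq g1 g2 * e3
  have h2 : (t : ℝ) * PowerSeries.coeff P
      (PowerSeries.X ^ (i + 1) * Ig ^ (t + (i + 1)) * Vs t g1 g2) =
      t * PowerSeries.coeff P (PowerSeries.X ^ (i + 1) * Ig ^ (t + (i + 1))) -
      PowerSeries.coeff P (PowerSeries.X ^ i * Ig ^ (t + i)) +
      PowerSeries.coeff P (PowerSeries.X ^ i * Ig ^ i * Gq g1 g2) := by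
    rw [← PowerSeries.coeff_C_mul, h1, map_add, map_sub, PowerSeries.coeff_C_mul]
  -- the two binomial series
  have w1 := coeff_W t (i + 1) P
  have w2 := coeff_W t i P
  rw [show t + (i + 1) - 1 = t + i by omega] at w1
  have w3 : ((t + i).choose (i + 1) : ℝ) * (i + 1) = ((t + i - 1).choose i : ℝ) * (t + i) := by
    by_cases hti : t + i = 0
    · omega
    · obtain ⟨n, hn⟩ : ∃ n, t + i = n + 1 := ⟨t + i - 1, by omega⟩
      rw [hn, Nat.add_sub_cancel]
      have := Nat.add_one_mul_choose_eq n i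
      have e : ((t + i : ℕ) : ℝ) = n + 1 := by rw [hn]; push_cast; ring
      push_cast at e
      rw [e]
      have e2 : ((n : ℝ) + 1) * (n.choose i : ℝ) = ((n + 1).choose (i + 1) : ℝ) * ((i : ℝ) + 1) := by
        exact_mod_cast this
      linarith
  -- the canonical part
  have h3 : kc M0 (bi t) (M0 - (i + 2)) P = (-1) ^ (i + 2) *
      (if P = 0 then 0 else ((t + P - 1).choose P : ℝ) * ((P - 1).choose (i + 1) : ℝ)) := by
    unfold kc bi
    by_cases hP : P = 0
    · subst hP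
      rw [kp_zero, if_neg (by omega), if_pos rfl]
      ring
    · unfold kp
      rw [if_neg hP, if_neg hP, if_pos (by omega), show M0 - (M0 - (i + 2)) = i + 2 by omega,
        show i + 2 - 1 = i + 1 by omega]
      have h : ((-1 : ℝ)) ^ P * (-1) ^ P = 1 := by rw [← mul_pow]; norm_num
      rw [pow_add]
      linear_combination (((t + P - 1).choose P : ℝ) * ((-1) ^ (i + 2) *
        ((P - 1).choose (i + 1) : ℝ))) * h
  rw [h3]
  have hs : ((-1 : ℝ)) ^ (i + 1) = -(-1) ^ (i + 2) := by rw [pow_succ (-1 : ℝ) (i + 1)]; ring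
  rw [hs]
  -- Pascal
  have h4 : (if P = 0 then (0 : ℝ) else ((t + P - 1).choose P : ℝ) * ((P - 1).choose (i + 1) : ℝ)) =
      ((t + P - 1).choose P : ℝ) * (P.choose (i + 1) : ℝ) -
      (if P = 0 then (0 : ℝ) else ((t + P - 1).choose P : ℝ) * ((P - 1).choose i : ℝ)) := by
    by_cases hP : P = 0
    · subst hP
      simp
    · rw [if_neg hP, if_neg hP]
      obtain ⟨Q, rfl⟩ : ∃ Q, P = Q + 1 := ⟨P - 1, by omega⟩
      rw [Nat.add_sub_cancel, Nat.choose_succ_succ]
      push_cast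
      ring
  rw [h4]
  have hi1 : (i : ℝ) + 1 ≠ 0 := by positivity
  have e7 : ((i + 2 : ℕ) : ℝ) - 1 = i + 1 := by push_cast; ring
  have e8 : (t : ℝ) + ((i + 2 : ℕ) : ℝ) - 2 = t + i := by push_cast; ring
  rw [e7, e8]
  have e9 : ((t : ℝ) + i) / (t * (i + 1)) * (((t + P - 1).choose P : ℝ) * (P.choose i : ℝ)) =
      ((t + i).choose (i + 1) : ℝ) / t *
        PowerSeries.coeff P (PowerSeries.X ^ i * Ig ^ (t + i)) := by
    rw [w2]
    field_simp
    linear_combination (-PowerSeries.coeff P (PowerSeries.X ^ i * Ig ^ (t + i))) * w3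
  rw [e9, w1]
  set S1 := PowerSeries.coeff P (PowerSeries.X ^ (i + 1) * Ig ^ (t + (i + 1)) * Vs t g1 g2)
  set S2 := PowerSeries.coeff P (PowerSeries.X ^ (i + 1) * Ig ^ (t + (i + 1)))
  set S3 := PowerSeries.coeff P (PowerSeries.X ^ i * Ig ^ (t + i))
  set S4 := PowerSeries.coeff P (PowerSeries.X ^ i * Ig ^ i * Gq g1 g2)
  have h5 : S1 = S2 - S3 / t + S4 / t := by
    field_simp
    linarith
  rw [h5]
  ring

/-- **Layer 2** is exactly `1 - G`. -/
theorem kf_two {t : ℕ} (ht : 0 < t) (g1 g2 : ℝ) {M0 : ℕ} (hM : 2 ≤ M0) (P : ℕ) :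
    kf M0 (vv t g1 g2) (bi t) (M0 - 2) P = (if P = 0 then 1 else 0) -
      (if P = 0 then 1 else if P = 1 then g1 else if P = 2 then g2 else 0) := by
  have ht' : (t : ℝ) ≠ 0 := by exact_mod_cast ht.ne'
  rw [kf_layer ht g1 g2 le_rfl hM, Nat.sub_self, pow_zero, pow_zero, one_mul, one_mul, coeff_Gq,
    Nat.choose_zero_right, Nat.choose_zero_right, show t + 2 - 2 = t by omega,
    show 2 - 1 = 1 from rfl, Nat.choose_one_right]
  have e : ((2 : ℕ) : ℝ) - 1 = 1 := by norm_num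
  have e' : (t : ℝ) + ((2 : ℕ) : ℝ) - 2 = t := by push_cast; ring
  rw [e, e', mul_one, div_self ht']
  by_cases hP : P = 0
  · subst hP
    simp
  · simp [hP]

end Pool.JM
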