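import Pool.Agent.Work.MP_46fa68_h4.Uniq

/-!
# MP_46fa68_co, interface: the bound and the case of equality from one function on the top level

`Dw wl` is the restriction operator with a wall: no bead goes beyond `wl = K + m - 2`, that is, the first row
stays shorter than `m`. If `u` is a function on the sets of beads of level `m + t` below the wall, positive
(or nonnegative), and its `t`-th restriction is `1` on the level `m`, then every `t`-intersecting family of
permutations of `m + t` points has at most `m!` members (with equality only for stars).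
-/

set_option autoImplicit false

open Finset Equiv

namespace Pool.JM

/-- the restriction operator with a wall: no bead goes beyond `wl` -/
noncomputable def Dw (wl : ℕ) (u : Finset ℕ → ℝ) (B : Finset ℕ) : ℝ :=
  ∑ x ∈ (ad B).filter (fun x => x < wl), w B x * u (mv B x)

theorem Dw_congr {wl : ℕ} {f g : Finset ℕ → ℝ} {B : Finset ℕ}
    (h : ∀ x ∈ ad B, x < wl → f (mv B x) = g (mv B x)) : Dw wl f B = Dw wl g B := by
  unfold Dw
  refine sum_congr rfl fun x hx => ?_
  rw [h x (mem_filter.1 hx).1 (mem_filter.1 hx).2]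

/-- iterated restriction -/
noncomputable def Dwi (wl : ℕ) : ℕ → (Finset ℕ → ℝ) → Finset ℕ → ℝ
  | 0, u => u
  | j + 1, u => Dw wl (Dwi wl j u)

/-- all beads below the wall: the first row is shorter than `m` -/
def Bl (m K : ℕ) (B : Finset ℕ) : Prop := ∀ x ∈ B, x < K - 1 + m

/-- level of a set of beads -/
def lev (K : ℕ) (B : Finset ℕ) : ℕ := ∑ y ∈ B, y - ∑ y ∈ range K, y

theorem lev_of {K n : ℕ} {B : Finset ℕ} (h : B ∈ Lv K n) : lev K B = n := by
  unfold lev
  rw [(Lv_spec h).2.2.2, Nat.add_sub_cancel_left]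

open Classical in
/-- the harmonic function of the ratio bound from a family `v` -/
noncomputable def ah (m K : ℕ) (v : ℕ → Finset ℕ → ℝ) (B : Finset ℕ) : ℝ :=
  (if Bl m K B then v (lev K B - m) B else 0) +
    if B = Rw K (lev K B) then ((lev K B).factorial : ℝ) / m.factorial else 0

theorem not_Bl_Rw {m K n : ℕ} (hn : m ≤ n) : ¬ Bl m K (Rw K n) := by
  intro h
  have := h (K - 1 + n) (by unfold Rw; exact mem_insert_self _ _)
  omega

theorem Bl_mv {m K : ℕ} (hK : 0 < K) (hm : 2 ≤ m) {B : Finset ℕ} {x : ℕ} (hB : Bl m K B) :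
    Bl m K (mv B x) ↔ x < K + m - 2 := by
  constructor
  · intro h
    have := h (x + 1) (mem_insert_self _ _)
    omega
  · intro h y hy
    unfold mv at hy
    rw [mem_insert, mem_erase] at hy
    rcases hy with rfl | hy
    · omega
    · exact hB y hy.2

theorem not_Bl_mv {m K : ℕ} {B : Finset ℕ} {x : ℕ} (hB : ¬ Bl m K B) :
    ¬ Bl m K (mv B x) := by
  intro h
  apply hB
  intro y hy
  by_cases hyx : y = x
  · subst hyx
    have := h (y + 1) (mem_insert_self _ _)
    omega
  · exact h y (mem_insert_of_mem (mem_erase.2 ⟨hyx, hy⟩))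

theorem ah_harm {m K t : ℕ} (hm : 2 ≤ m) (hN : m + t < K) (v : ℕ → Finset ℕ → ℝ)
    (hv : ∀ r < t, ∀ B ∈ Lv K (m + r), Bl m K B → Dw (K + m - 2) (v (r + 1)) B = v r B)
    (k : ℕ) (hk : m ≤ k) (hkN : k < m + t) (C : Finset ℕ) (hC : C ∈ Lv K k) :
    ah m K v C = ∑ x ∈ ad C, w C x * ah m K v (mv C x) := by
  classical
  have hl : lev K C = k := lev_of hC
  have hl' : ∀ x ∈ ad C, lev K (mv C x) = k + 1 := fun x hx => lev_of (mv_mem hC hx)
  by_cases hB : Bl m K C
  · have hne : C ≠ Rw K k := by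
      rintro rfl; exact not_Bl_Rw hk hB
    have e1 : ah m K v C = v (k - m) C := by
      unfold ah
      rw [if_pos hB, hl, if_neg hne, add_zero]
    have e2 : ∀ x ∈ ad C, w C x * ah m K v (mv C x) =
        if x < K + m - 2 then w C x * v (k - m + 1) (mv C x) else 0 := by
      intro x hx
      have hne' : mv C x ≠ Rw K (k + 1) := by
        intro h
        exact hne (Rw_of_mv (by omega) hC hx h).1
      unfold ah
      rw [hl' x hx, if_neg hne', add_zero]
      by_cases hx1 : x < K + m - 2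
      · rw [if_pos ((Bl_mv (by omega) hm hB).2 hx1), if_pos hx1, show k + 1 - m = k - m + 1 by omega]
      · rw [if_neg fun h => hx1 ((Bl_mv (by omega) hm hB).1 h), if_neg hx1, mul_zero]
    rw [e1, sum_congr rfl e2, ← sum_filter]
    refine (hv (k - m) (by omega) C ?_ hB).symm
    rwa [Nat.add_sub_cancel' hk]
  · have e1 : ah m K v C = if C = Rw K k then (k.factorial : ℝ) / m.factorial else 0 := by
      unfold ah
      rw [if_neg hB, hl, zero_add]
    have e2 : ∀ x ∈ ad C, w C x * ah m K v (mv C x) =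
        if mv C x = Rw K (k + 1) then w C x * (((k + 1).factorial : ℝ) / m.factorial) else 0 := by
      intro x hx
      unfold ah
      rw [hl' x hx, if_neg (not_Bl_mv hB), zero_add]
      split_ifs
      · rfl
      · rw [mul_zero]
    rw [e1, sum_congr rfl e2]
    by_cases hR : C = Rw K k
    · rw [if_pos hR, hR, sum_eq_single (K - 1 + k)]
      · rw [if_pos (Rw_mv K k), w_Rw, Nat.factorial_succ]
        push_cast
        have h1 : (k : ℝ) + 1 ≠ 0 := by positivity
        have h2 : (m.factorial : ℝ) ≠ 0 := by exact_mod_cast m.factorial_ne_zero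
        field_simp
      · intro x hx hne
        rw [if_neg]
        intro h
        exact hne (Rw_of_mv (by omega) (Rw_mem (by omega) k) hx h).2
      · intro h
        exact absurd (Rw_ad K k) h
    · rw [if_neg hR]
      symm
      refine sum_eq_zero fun x hx => ?_
      rw [if_neg]
      intro h
      exact hR (Rw_of_mv (by omega) hC hx h).1

theorem Bl_of_ne {m K : ℕ} (hK : 0 < K) {C : Finset ℕ} (hC : C ∈ Lv K m) (hne : C ≠ Rw K m) :
    Bl m K C := by
  intro x hx
  exact mem_range.1 ((mem_gd.1 (mem_gd_of_ne hK hC hne)).2 hx)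

theorem ah_level {m K : ℕ} (hK : 0 < K) (v : ℕ → Finset ℕ → ℝ)
    (hv : ∀ B ∈ Lv K m, Bl m K B → v 0 B = 1) (C : Finset ℕ) (hC : C ∈ Lv K m) :
    ah m K v C = 1 := by
  classical
  unfold ah
  rw [lev_of hC]
  by_cases hne : C = Rw K m
  · rw [if_neg (by rw [hne]; exact not_Bl_Rw le_rfl), if_pos hne, zero_add, div_self]
    exact_mod_cast m.factorial_ne_zero
  · rw [if_pos (Bl_of_ne hK hC hne), if_neg hne, add_zero, Nat.sub_self,
      hv C hC (Bl_of_ne hK hC hne)]

/-- **The bound** from a family of functions on the levels `m, ..., m + t`. -/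
theorem bound_of_family {m t K : ℕ} (hm : 2 ≤ m) (hK : m + t < K) (v : ℕ → Finset ℕ → ℝ)
    (h0 : ∀ B ∈ Lv K m, Bl m K B → v 0 B = 1)
    (hv : ∀ r < t, ∀ B ∈ Lv K (m + r), Bl m K B → Dw (K + m - 2) (v (r + 1)) B = v r B)
    (hP : ∀ B ∈ Lv K (m + t), Bl m K B → 0 ≤ v t B)
    (A : Finset (Perm (Fin (m + t))))
    (hA : ∀ σ ∈ A, ∀ τ ∈ A, t ≤ (univ.filter fun i => σ i = τ i).card) :
    A.card ≤ m.factorial := by
  classical
  have hA' : ∀ σ ∈ A, ∀ τ ∈ A, (m + t) - m ≤ (univ.filter fun i => σ i = τ i).card := by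
    intro σ hσ τ hτ
    rw [Nat.add_sub_cancel_left]; exact hA σ hσ τ hτ
  have h1 := ah_harm hm hK v hv
  have h2 := ah_level (K := K) (by omega) v h0
  have hR : ah m K v (Rw K (m + t)) = ((m + t).factorial : ℝ) / m.factorial := by
    unfold ah
    rw [lev_of (Rw_mem (by omega) _), if_neg (not_Bl_Rw (by omega)), if_pos rfl, zero_add]
  have h3 : ∀ B ∈ Lv K (m + t), 0 ≤ ah m K v B := by
    intro B hB
    unfold ah
    rw [lev_of hB, Nat.add_sub_cancel_left]
    refine add_nonneg ?_ ?_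
    · split_ifs with hb
      · exact hP B hB hb
      · exact le_rfl
    · split_ifs
      · positivity
      · exact le_rfl
  have hf : (0 : ℝ) < m.factorial := by exact_mod_cast m.factorial_pos
  have h5 := ratio (ah m K v) hK (by omega : m ≤ m + t) h1 h2 h3 A hA'
  rw [hR] at h5
  have h6 : (0 : ℝ) < (m + t).factorial := by exact_mod_cast (m + t).factorial_pos
  have h7 : (A.card : ℝ) * ((m + t).factorial / m.factorial) =
      (A.card / m.factorial) * (m + t).factorial := by ring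
  rw [h7] at h5
  have h8 : (A.card : ℝ) / m.factorial ≤ 1 := by
    by_contra hcon
    push Not at hcon
    have := mul_lt_mul_of_pos_right hcon h6
    linarith
  rw [div_le_one hf] at h8
  exact_mod_cast h8

/-- **The case of equality** from a family which is positive on the top level. -/
theorem star_of_family {m t K : ℕ} (hm : 3 ≤ m) (hK : m + t < K) (v : ℕ → Finset ℕ → ℝ)
    (h0 : ∀ B ∈ Lv K m, Bl m K B → v 0 B = 1)
    (hv : ∀ r < t, ∀ B ∈ Lv K (m + r), Bl m K B → Dw (K + m - 2) (v (r + 1)) B = v r B)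
    (hP : ∀ B ∈ Lv K (m + t), Bl m K B → 0 < v t B)
    (A : Finset (Perm (Fin (m + t))))
    (hA : ∀ σ ∈ A, ∀ τ ∈ A, t ≤ (univ.filter fun i => σ i = τ i).card)
    (hc : A.card = m.factorial) :
    ∃ X : Finset (Fin (m + t)), X.card = m ∧
      ∃ τ ∈ A, ∀ σ : Perm (Fin (m + t)), σ ∈ A ↔ ∀ i, i ∉ X → σ i = τ i := by
  classical
  have hA' : ∀ σ ∈ A, ∀ τ ∈ A, (m + t) - m ≤ (univ.filter fun i => σ i = τ i).card := by
    intro σ hσ τ hτ
    rw [Nat.add_sub_cancel_left]; exact hA σ hσ τ hτ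
  have h1 := ah_harm (by omega : 2 ≤ m) hK v hv
  have h2 := ah_level (K := K) (by omega) v h0
  have hR : ah m K v (Rw K (m + t)) = ((m + t).factorial : ℝ) / m.factorial := by
    unfold ah
    rw [lev_of (Rw_mem (by omega) _), if_neg (not_Bl_Rw (by omega)), if_pos rfl, zero_add]
  have hpos : ∀ B ∈ Lv K (m + t), (∀ x ∈ B, x < K - 1 + m) → 0 < ah m K v B := by
    intro B hB hb
    have hb' : Bl m K B := hb
    unfold ah
    rw [lev_of hB, if_pos hb', Nat.add_sub_cancel_left]
    have := hP B hB hb'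
    split_ifs
    · positivity
    · linarith
  have h3 : ∀ B ∈ Lv K (m + t), 0 ≤ ah m K v B := by
    intro B hB
    by_cases hb : Bl m K B
    · exact (hpos B hB hb).le
    · unfold ah
      rw [if_neg hb, zero_add]
      split_ifs
      · positivity
      · exact le_rfl
  exact star hK hm (by omega) (ah m K v) h1 h2 h3 hpos hR.ge A hA' hc

theorem Dwi_family {m t K : ℕ} (u : Finset ℕ → ℝ)
    (h0 : ∀ B ∈ Lv K m, Bl m K B → Dwi (K + m - 2) t u B = 1) :
    (∀ B ∈ Lv K m, Bl m K B → (fun r => Dwi (K + m - 2) (t - r) u) 0 B = 1) ∧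
    (∀ r < t, ∀ B ∈ Lv K (m + r), Bl m K B →
      Dw (K + m - 2) ((fun r => Dwi (K + m - 2) (t - r) u) (r + 1)) B =
        (fun r => Dwi (K + m - 2) (t - r) u) r B) := by
  refine ⟨h0, fun r hr B _ _ => ?_⟩
  simp only
  obtain ⟨j, hj⟩ : ∃ j, t - r = j + 1 := ⟨t - r - 1, by omega⟩
  rw [hj, show t - (r + 1) = j by omega]
  rfl

/-- **The bound** from one nonnegative function `u` on the level `m + t`. -/
theorem bound_of_top {m t K : ℕ} (hm : 2 ≤ m) (hK : m + t < K) (u : Finset ℕ → ℝ)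
    (h0 : ∀ B ∈ Lv K m, Bl m K B → Dwi (K + m - 2) t u B = 1)
    (hP : ∀ B ∈ Lv K (m + t), Bl m K B → 0 ≤ u B)
    (A : Finset (Perm (Fin (m + t))))
    (hA : ∀ σ ∈ A, ∀ τ ∈ A, t ≤ (univ.filter fun i => σ i = τ i).card) :
    A.card ≤ m.factorial := by
  obtain ⟨h1, h2⟩ := Dwi_family u h0
  refine bound_of_family hm hK (fun r => Dwi (K + m - 2) (t - r) u) h1 h2 ?_ A hA
  intro B hB hb
  simp only [Nat.sub_self]
  exact hP B hB hb

/-- **The case of equality** from one positive function `u` on the level `m + t`. -/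
theorem star_of_top {m t K : ℕ} (hm : 3 ≤ m) (hK : m + t < K) (u : Finset ℕ → ℝ)
    (h0 : ∀ B ∈ Lv K m, Bl m K B → Dwi (K + m - 2) t u B = 1)
    (hP : ∀ B ∈ Lv K (m + t), Bl m K B → 0 < u B)
    (A : Finset (Perm (Fin (m + t))))
    (hA : ∀ σ ∈ A, ∀ τ ∈ A, t ≤ (univ.filter fun i => σ i = τ i).card)
    (hc : A.card = m.factorial) :
    ∃ X : Finset (Fin (m + t)), X.card = m ∧
      ∃ τ ∈ A, ∀ σ : Perm (Fin (m + t)), σ ∈ A ↔ ∀ i, i ∉ X → σ i = τ i := by
  obtain ⟨h1, h2⟩ := Dwi_family u h0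
  refine star_of_family hm hK (fun r => Dwi (K + m - 2) (t - r) u) h1 h2 ?_ A hA hc
  intro B hB hb
  simp only [Nat.sub_self]
  exact hP B hB hb

/-- locality of the iterated restriction: only the values on the level `n + j` below the wall matter -/
theorem Dwi_congr {m K : ℕ} (hK : 0 < K) (hm : 2 ≤ m) : ∀ (j n : ℕ) (f g : Finset ℕ → ℝ),
    (∀ B ∈ Lv K (n + j), Bl m K B → f B = g B) →
    ∀ B ∈ Lv K n, Bl m K B → Dwi (K + m - 2) j f B = Dwi (K + m - 2) j g B
  | 0, _, _, _, h, B, hB, hb => h B hB hb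
  | j + 1, n, f, g, h, B, hB, hb => by
    have e1 : Dwi (K + m - 2) (j + 1) f B = Dw (K + m - 2) (Dwi (K + m - 2) j f) B := rfl
    have e2 : Dwi (K + m - 2) (j + 1) g B = Dw (K + m - 2) (Dwi (K + m - 2) j g) B := rfl
    rw [e1, e2]
    refine Dw_congr fun x hx hxw => ?_
    refine Dwi_congr hK hm j (n + 1) f g ?_ _ (mv_mem hB hx) ((Bl_mv hK hm hb).2 hxw)
    intro B' hB' hb'
    exact h B' (by rwa [show n + (j + 1) = n + 1 + j by omega]) hb'

theorem Dw_add (wl : ℕ) (f g : Finset ℕ → ℝ) (B : Finset ℕ) :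
    Dw wl (fun C => f C + g C) B = Dw wl f B + Dw wl g B := by
  unfold Dw
  rw [← sum_add_distrib]
  exact sum_congr rfl fun x _ => by ring

theorem Dw_smul (wl : ℕ) (a : ℝ) (f : Finset ℕ → ℝ) (B : Finset ℕ) :
    Dw wl (fun C => a * f C) B = a * Dw wl f B := by
  unfold Dw
  rw [mul_sum]
  exact sum_congr rfl fun x _ => by ring

theorem Dwi_add (wl : ℕ) : ∀ (j : ℕ) (f g : Finset ℕ → ℝ),
    Dwi wl j (fun C => f C + g C) = fun C => Dwi wl j f C + Dwi wl j g C
  | 0, _, _ => rfl
  | j + 1, f, g => by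
    funext B
    have e1 : Dwi wl (j + 1) (fun C => f C + g C) B =
      Dw wl (Dwi wl j (fun C => f C + g C)) B := rfl
    rw [e1, Dwi_add wl j f g, Dw_add]
    rfl

theorem Dwi_smul (wl : ℕ) (a : ℝ) : ∀ (j : ℕ) (f : Finset ℕ → ℝ),
    Dwi wl j (fun C => a * f C) = fun C => a * Dwi wl j f C
  | 0, _ => rfl
  | j + 1, f => by
    funext B
    have e1 : Dwi wl (j + 1) (fun C => a * f C) B = Dw wl (Dwi wl j (fun C => a * f C)) B := rfl
    rw [e1, Dwi_smul wl a j f, Dw_smul]
    rfl

end Pool.JM
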