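import Pool.Agent.Work.MP_46fa68_h4.Far
import Pool.Agent.Work.MP_46fa68_T.Inst

/-!
# MP_46fa68_co: the safe range `n - t ≥ 900`, `(n - 2t)^2 ≥ 144 (n - t)`
-/

set_option autoImplicit false

open Finset Equiv

namespace Pool.JM

theorem norm_bound {m t h : ℕ} (hm : 900 ≤ m) (htm : t < m)
    (hh : (h : ℝ) = ((m : ℝ) - 1) * m - 2 * m) (hth : t ≤ h) :
    ∑ s ∈ range (m + 1), |cS h t s| * (((m : ℝ) - 1) * m) ^ (t + s) *
      ((m + t).descFactorial (t + s) : ℝ) ≤ 9 ^ m := by
  have hmR : (900 : ℝ) ≤ m := by exact_mod_cast hm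
  have htR : (t : ℝ) ≤ m := by exact_mod_cast htm.le
  have hW : (0 : ℝ) ≤ ((m : ℝ) - 1) * m := by nlinarith
  refine (norm_S hth hW).trans ?_
  have e1 : (((h - t : ℕ) : ℝ) + 1) = (m : ℝ) ^ 2 - 3 * m - t + 1 := by
    rw [Nat.cast_sub hth, hh]; ring
  rw [e1]
  have hpos : (0 : ℝ) < (m : ℝ) ^ 2 - 3 * m - t + 1 := by nlinarith
  set r := ((m : ℝ) - 1) * m / ((m : ℝ) ^ 2 - 3 * m - t + 1) with hr
  have hr0 : 0 ≤ r := by positivity
  have hr1 : r ≤ 251 / 250 := by
    rw [hr, div_le_div_iff₀ hpos (by norm_num)]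
    nlinarith
  have c1 : ((m + t).choose t : ℝ) ≤ 4 ^ m := by
    have h1 : (m + t).choose t ≤ 2 ^ (m + t) := Nat.choose_le_two_pow _ _
    have h2 : 2 ^ (m + t) ≤ 2 ^ (2 * m) := Nat.pow_le_pow_right (by norm_num) (by omega)
    have h3 : 2 ^ (2 * m) = 4 ^ m := by rw [pow_mul]; norm_num
    rw [h3] at h2
    exact_mod_cast h1.trans h2
  have c2 : r ^ t ≤ (251 / 250) ^ m := by
    calc r ^ t ≤ (251 / 250) ^ t := pow_le_pow_left₀ hr0 hr1 t
      _ ≤ (251 / 250) ^ m := pow_le_pow_right₀ (by norm_num) htm.le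
  have c3 : (1 + r) ^ m ≤ (501 / 250) ^ m := pow_le_pow_left₀ (by positivity) (by linarith) m
  calc ((m + t).choose t : ℝ) * r ^ t * (1 + r) ^ m
      ≤ (4 ^ m * (251 / 250) ^ m) * (501 / 250) ^ m := by
        refine mul_le_mul (mul_le_mul c1 c2 (by positivity) (by positivity)) c3 (by positivity)
          (by positivity)
    _ = (4 * (251 / 250) * (501 / 250)) ^ m := by rw [mul_pow, mul_pow]
    _ ≤ 9 ^ m := pow_le_pow_left₀ (by norm_num) (by norm_num) m

theorem inv_factorial_le {n : ℕ} (hn : 0 < n) {c : ℝ} (hc : Real.exp 1 ≤ c * n) :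
    1 / (n.factorial : ℝ) ≤ c ^ n := by
  have hn0 : (0 : ℝ) < n := by exact_mod_cast hn
  have h1 : (n : ℝ) ^ n / (n.factorial : ℝ) ≤ Real.exp n :=
    Real.pow_div_factorial_le_exp (n : ℝ) hn0.le n
  have h2 : Real.exp n = Real.exp 1 ^ n := by
    rw [← Real.exp_nat_mul]; simp
  have h3 : Real.exp 1 ^ n ≤ (c * n) ^ n := pow_le_pow_left₀ (Real.exp_pos 1).le hc n
  rw [h2] at h1
  have h4 := h1.trans h3
  rw [mul_pow] at h4
  have h5 : (0 : ℝ) < (n : ℝ) ^ n := by positivity
  have h6 : (n : ℝ) ^ n * (1 / (n.factorial : ℝ)) ≤ (n : ℝ) ^ n * c ^ n := by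
    calc (n : ℝ) ^ n * (1 / (n.factorial : ℝ)) = (n : ℝ) ^ n / (n.factorial : ℝ) := by ring
      _ ≤ c ^ n * (n : ℝ) ^ n := h4
      _ = _ := by ring
  exact le_of_mul_le_mul_left h6 h5

theorem eps_bound {m t A : ℕ} (hm : 900 ≤ m) (htm : t < m) (hA : A = 2 * m) :
    9 ^ m * (2 ^ t * (16 ^ (m + 1) / (8 * ((m + 1).factorial : ℝ))) +
        2 ^ (3 * t + A) * (16 * (4 ^ (A + 1) / ((A + 1).factorial : ℝ)))) ≤ 1 / (2 * (m : ℝ)) := by
  have hmR : (900 : ℝ) ≤ m := by exact_mod_cast hm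
  have hm0 : (0 : ℝ) < m := by linarith
  have he := Real.exp_one_lt_d9
  have f1 : 1 / (m.factorial : ℝ) ≤ (31 / 10000) ^ m :=
    inv_factorial_le (by omega) (by linarith)
  have f2 : 1 / ((2 * m).factorial : ℝ) ≤ (31 / 20000) ^ (2 * m) :=
    inv_factorial_le (by omega) (by push_cast; linarith)
  have hf1 : (0 : ℝ) < m.factorial := by exact_mod_cast m.factorial_pos
  have hf2 : (0 : ℝ) < (2 * m).factorial := by exact_mod_cast (2 * m).factorial_pos
  -- first part
  have p1 : (9 : ℝ) ^ m * (2 ^ t * (16 ^ (m + 1) / (8 * ((m + 1).factorial : ℝ)))) ≤ (1 / 4) / m := by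
    have a1 : ((m + 1).factorial : ℝ) = ((m : ℝ) + 1) * m.factorial := by
      rw [Nat.factorial_succ]; push_cast; ring
    have a2 : (2 : ℝ) ^ t ≤ 2 ^ m := pow_le_pow_right₀ (by norm_num) htm.le
    rw [a1]
    calc (9 : ℝ) ^ m * (2 ^ t * (16 ^ (m + 1) / (8 * (((m : ℝ) + 1) * m.factorial))))
        = (9 : ℝ) ^ m * 2 ^ t * 16 ^ m * (2 / ((m : ℝ) + 1)) * (1 / m.factorial) := by
          rw [pow_succ]; field_simp; ring
      _ ≤ (9 : ℝ) ^ m * 2 ^ m * 16 ^ m * (2 / ((m : ℝ) + 1)) * (31 / 10000) ^ m := by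
          refine mul_le_mul ?_ f1 (by positivity) (by positivity)
          refine mul_le_mul_of_nonneg_right ?_ (by positivity)
          refine mul_le_mul_of_nonneg_right ?_ (by positivity)
          exact mul_le_mul_of_nonneg_left a2 (by positivity)
      _ = (9 * 2 * 16 * (31 / 10000)) ^ m * (2 / ((m : ℝ) + 1)) := by
          rw [mul_pow, mul_pow, mul_pow]; ring
      _ ≤ (1 / 8) * (2 / (m : ℝ)) := by
          refine mul_le_mul ?_ ?_ (by positivity) (by norm_num)
          · calc (9 * 2 * 16 * (31 / 10000) : ℝ) ^ m ≤ (9 * 2 * 16 * (31 / 10000) : ℝ) ^ 20 :=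
                pow_le_pow_of_le_one (by norm_num) (by norm_num) (by omega)
              _ ≤ 1 / 8 := by norm_num
          · exact div_le_div_of_nonneg_left (by norm_num) hm0 (by linarith)
      _ = _ := by ring
  have p2 : (9 : ℝ) ^ m * (2 ^ (3 * t + A) * (16 * (4 ^ (A + 1) / ((A + 1).factorial : ℝ)))) ≤
      (1 / 4) / m := by
    rw [hA]
    have a1 : ((2 * m + 1).factorial : ℝ) = (2 * (m : ℝ) + 1) * (2 * m).factorial := by
      rw [Nat.factorial_succ]; push_cast; ring
    have a2 : (2 : ℝ) ^ (3 * t + 2 * m) ≤ 2 ^ (5 * m) :=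
      pow_le_pow_right₀ (by norm_num) (by omega)
    have a3 : (2 : ℝ) ^ (5 * m) = 32 ^ m := by rw [pow_mul]; norm_num
    have a4 : (4 : ℝ) ^ (2 * m + 1) = 16 ^ m * 4 := by rw [pow_succ, pow_mul]; norm_num
    have a5 : ((31 : ℝ) / 20000) ^ (2 * m) = ((31 / 20000) ^ 2) ^ m := by rw [pow_mul]
    rw [a3] at a2
    rw [a1, a4]
    rw [a5] at f2
    calc (9 : ℝ) ^ m * (2 ^ (3 * t + 2 * m) * (16 * (16 ^ m * 4 / ((2 * (m : ℝ) + 1) *
          (2 * m).factorial))))
        = (9 : ℝ) ^ m * 2 ^ (3 * t + 2 * m) * 16 ^ m * (64 / (2 * (m : ℝ) + 1)) *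
          (1 / (2 * m).factorial) := by
          field_simp; ring
      _ ≤ (9 : ℝ) ^ m * 32 ^ m * 16 ^ m * (64 / (2 * (m : ℝ) + 1)) * ((31 / 20000) ^ 2) ^ m := by
          refine mul_le_mul ?_ f2 (by positivity) (by positivity)
          refine mul_le_mul_of_nonneg_right ?_ (by positivity)
          refine mul_le_mul_of_nonneg_right ?_ (by positivity)
          exact mul_le_mul_of_nonneg_left a2 (by positivity)
      _ = (9 * 32 * 16 * (31 / 20000) ^ 2) ^ m * (64 / (2 * (m : ℝ) + 1)) := by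
          rw [mul_pow, mul_pow, mul_pow]; ring
      _ ≤ (1 / 256) * (64 / (m : ℝ)) := by
          refine mul_le_mul ?_ ?_ (by positivity) (by norm_num)
          · calc (9 * 32 * 16 * (31 / 20000) ^ 2 : ℝ) ^ m ≤ (9 * 32 * 16 * (31 / 20000) ^ 2 : ℝ) ^ 2 :=
                pow_le_pow_of_le_one (by norm_num) (by norm_num) (by omega)
              _ ≤ 1 / 256 := by norm_num
          · exact div_le_div_of_nonneg_left (by norm_num) hm0 (by linarith)
      _ = _ := by ring
  rw [mul_add]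
  have e1 : (1 : ℝ) / (2 * m) = (1 / 4) / m + (1 / 4) / m := by field_simp; norm_num
  rw [e1]
  exact add_le_add p1 p2

/-- **The function on the top level.** -/
theorem exists_top_safe {m t : ℕ} (hm : 900 ≤ m) (htm : t < m)
    (hd : 144 * m ≤ (m - t) * (m - t)) : ∃ K, m + t < K ∧ ∃ u : Finset ℕ → ℝ,
    (∀ B ∈ Lv K m, Bl m K B → Dwi (K + m - 2) t u B = 1) ∧
    ∀ B ∈ Lv K (m + t), Bl m K B → 0 < u B := by
  obtain ⟨A, hA⟩ : ∃ A, A = 2 * m := ⟨_, rfl⟩
  obtain ⟨P, hP⟩ : ∃ P, P = A + 1 + t := ⟨_, rfl⟩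
  obtain ⟨k, hk⟩ : ∃ k, k = A + t + m := ⟨_, rfl⟩
  refine ⟨k + 1, by omega, ?_⟩
  have hmR : (900 : ℝ) ≤ m := by exact_mod_cast hm
  have hm0 : (0 : ℝ) < m := by linarith
  set u₀ : Finset ℕ → ℝ := fun C => 1 - E1 (k + 1) P (kc (k + 1 - 1 + m) (bt t A)) C with hu₀
  set ε : ℝ := 2 ^ t * (16 ^ (m + 1) / (8 * ((m + 1).factorial : ℝ))) +
        2 ^ (3 * t + A) * (16 * (4 ^ (A + 1) / ((A + 1).factorial : ℝ))) with hε
  have hε0 : 0 ≤ ε := by positivity
  obtain ⟨h, hh⟩ : ∃ h : ℕ, h = (m - 1) * m - 2 * m := ⟨_, rfl⟩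
  have hh1 : h + 2 * m = (m - 1) * m := by
    have : 2 * m ≤ (m - 1) * m := Nat.mul_le_mul_right m (by omega)
    omega
  have hhR : (h : ℝ) = ((m : ℝ) - 1) * m - 2 * m := by
    have e1 : ((h + 2 * m : ℕ) : ℝ) = (((m - 1) * m : ℕ) : ℝ) := by rw [hh1]
    push_cast [Nat.cast_sub (by omega : 1 ≤ m)] at e1
    linarith
  have hth : t ≤ h := by
    have : 3 * m ≤ (m - 1) * m := Nat.mul_le_mul_right m (by omega)
    omega
  obtain ⟨u, hu1, hu2⟩ := exists_top_S (m := m) (t := t) (K := k + 1) (R := m) (h := h) (by omega)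
    (Or.inr rfl) (by omega) hhR hth u₀ (fun B => 1 - Dwi (k + 1 + m - 2) t u₀ B) hε0
    (fun B _ _ => by ring)
    (fun B hB hb hnR => by
      exfalso
      apply hnR
      refine ⟨hb, fun i hi => ?_⟩
      by_contra hcon
      -- a hole at `i`, so all the `k + 1 - i` beads beyond `i` are shifted
      obtain ⟨hc, -, -, hs⟩ := Lv_spec hB
      have h1 : i ∉ B := hcon
      -- the sum of the beads is at least `sum range (k+1) + (k + 1 - i)`
      have h2 : ∑ z ∈ range (k + 1), z + (k + 1 - i) ≤ ∑ z ∈ B, z := by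
        -- shift the beads beyond `i` down by one
        set C := B.image (fun z => if z < i then z else z - 1) with hC
        have hinj : ∀ z ∈ B, ∀ z' ∈ B, (if z < i then z else z - 1) = (if z' < i then z' else z' - 1) →
            z = z' := by
          intro z hz z' hz' hzz
          have n1 : z ≠ i := fun h => h1 (h ▸ hz)
          have n2 : z' ≠ i := fun h => h1 (h ▸ hz')
          split_ifs at hzz <;> omega
        have hcC : C.card = k + 1 := by
          rw [hC, card_image_of_injOn, hc]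
          intro z hz z' hz' hzz
          exact hinj z hz z' hz' hzz
        have h3 := sum_range_le hcC
        have h4 : ∑ z ∈ C, z = ∑ z ∈ B, (if z < i then z else z - 1) := by
          rw [hC, sum_image (fun z hz z' hz' hzz => hinj z hz z' hz' hzz)]
        have h5 : ∑ z ∈ B, z = ∑ z ∈ B, (if z < i then z else z - 1) +
            (B.filter fun z => ¬ z < i).card := by
          rw [card_filter, ← sum_add_distrib]
          refine sum_congr rfl fun z hz => ?_
          have n1 : z ≠ i := fun h => h1 (h ▸ hz)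
          split_ifs <;> omega
        have h6 : k + 1 - i ≤ (B.filter fun z => ¬ z < i).card := by
          have h7 := card_filter_add_card_filter_not (s := B) (fun z => z < i)
          have h8 : (B.filter fun z => z < i).card ≤ i := by
            have : B.filter (fun z => z < i) ⊆ range i := fun z hz =>
              mem_range.2 (mem_filter.1 hz).2
            have := card_le_card this
            rwa [card_range] at this
          omega
        omega
      omega)
    (fun B hB hb => by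
      have := defect_canon (m := m) (t := t) (P := P) (A := A) (K := k + 1) (by omega) htm hA
        (by omega) hP hB hb
      rw [abs_sub_comm]
      exact this)
  refine ⟨u, hu1, fun B hB hb => ?_⟩
  have h1 := hu2 B hB hb
  have h2 := norm_bound hm htm hhR hth
  have h3 := mul_le_mul_of_nonneg_right h2 hε0
  have h4 := eps_bound (t := t) (A := A) hm htm hA
  have h5 := (abs_le.1 (h1.trans (h3.trans h4))).1
  have h6 := E1_canon_le (k := k) (m := m) (t := t) (A := A) (P := P) hm htm hd hA (by omega) rfl hB hb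
  have e1 : (1 : ℝ) / (2 * m) = (1 / 2) / m := by field_simp
  have e2 : (9 : ℝ) / (10 * m) = (9 / 10) / m := by field_simp
  have h7 : (1 / 2 : ℝ) / m < (9 / 10) / m := by
    rw [div_lt_div_iff_of_pos_right hm0]; norm_num
  rw [e1] at h5
  rw [e2] at h6
  have h8 : u₀ B = 1 - E1 (k + 1) P (kc (k + 1 - 1 + m) (bt t A)) B := rfl
  rw [h8] at h5
  linarith

/-- **The safe range**: the bound and the case of equality. -/
theorem safe {m t : ℕ} (hm : 900 ≤ m) (htm : t < m) (hd : 144 * m ≤ (m - t) * (m - t))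
    (A : Finset (Perm (Fin (m + t))))
    (hA : ∀ σ ∈ A, ∀ τ ∈ A, t ≤ (univ.filter fun i => σ i = τ i).card) :
    A.card ≤ m.factorial ∧ (A.card = m.factorial →
      ∃ X : Finset (Fin (m + t)), X.card = m ∧
        ∃ τ ∈ A, ∀ σ : Perm (Fin (m + t)), σ ∈ A ↔ ∀ i, i ∉ X → σ i = τ i) := by
  obtain ⟨K, hK, u, h1, h2⟩ := exists_top_safe hm htm hd
  exact ⟨bound_of_top (by omega) hK u h1 (fun B hB hb => (h2 B hB hb).le) A hA,
    fun hc => star_of_top (by omega) hK u h1 h2 A hA hc⟩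

end Pool.JM
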