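import Pool.Agent.Work.MP_46fa68_h4.Kth

/-!
# MP_46fa68_co: exactness of the kernel on the interior

`E1 K P (pk^[t] (kth m A M0)) B` (`t = m - 3`, `B` on the level `m`, below the wall) is a tail, which
tends to `0` for `A → ∞`.
-/

set_option autoImplicit false

open Finset Equiv

namespace Pool.JM

variable {K : ℕ}

/-- the shapes with the bead `M0 - 1` -/
theorem shape_one {m : ℕ} (hm : 2 ≤ m) (hK : 1 ≤ K) {B : Finset ℕ} (hB : B ∈ Lv K m)
    (hx : K - 1 + (m - 1) ∈ B) : (B.erase (K - 1 + (m - 1))).card = K - 1 ∧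
      ∑ y ∈ B.erase (K - 1 + (m - 1)), y = ∑ y ∈ range (K - 1), y + 1 := by
  obtain ⟨hc, -, -, hs⟩ := Lv_spec hB
  refine ⟨by rw [card_erase_of_mem hx, hc], ?_⟩
  have e1 := add_sum_erase B (fun z => z) hx
  have e2 : ∑ y ∈ range K, y = ∑ y ∈ range (K - 1), y + (K - 1) := by
    obtain ⟨k, rfl⟩ : ∃ k, K = k + 1 := ⟨K - 1, by omega⟩
    rw [Nat.add_sub_cancel, sum_range_succ]
  omega

theorem row_zero {m A : ℕ} (hm : 16 ≤ m) (hK : 1 ≤ K) (hA : m ≤ A) {B : Finset ℕ}
    (hB : B ∈ Lv K m) (hx : K - 1 + (m - 1) ∈ B) :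
    ∑ p ∈ range (A + 1), vm m p * Rr B (K - 1 + (m - 1)) p = 0 := by
  obtain ⟨h1, h2⟩ := shape_one (by omega) hK hB hx
  have hv : ∀ p, m ≤ p → vm m p = 0 := fun p hp => vv_big _ _ (by omega)
  rw [← sum_subset (range_subset_range.2 (by omega : m ≤ A + 1))
    (fun p _ hp => by
      rw [mem_range, not_lt] at hp
      rw [hv p hp, zero_mul])]
  have hm1 : (0 : ℝ) < ((m - 1 : ℕ) : ℝ) := by
    have : 0 < m - 1 := by omega
    exact_mod_cast this
  have hR : ∀ p, vm m p * Rr B (K - 1 + (m - 1)) p =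
      ((m.factorial : ℝ) / ((m - 1 : ℕ) : ℝ)) * (vm m p * wf (m - 1 + p)) := by
    intro p
    rw [Rr_one (by omega) h1 h2, show m - 1 + 1 = m by omega]
    unfold wf
    rw [show m - 1 + p + 1 = m + p by omega]
    have g : (0 : ℝ) < ((m + p).factorial : ℝ) := by exact_mod_cast Nat.factorial_pos _
    push_cast
    field_simp
  simp only [hR]
  rw [← mul_sum, cond hm, mul_zero]

/-- **Exactness**: only the tail remains. -/
theorem E1_exact {m A P : ℕ} (hm : 16 ≤ m) (hK : 1 ≤ K) (hA : m ≤ A) (hP : A + (m - 3) < P)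
    {B : Finset ℕ} (hB : B ∈ Lv K m) (hb : Bl m K B) :
    E1 K P (pk^[m - 3] (kth m A (K - 1 + m))) B =
      ∑ x ∈ B, ∑ p ∈ Ico (A + 1) (A + 1 + (m - 3)),
        pk^[m - 3] (kth m A (K - 1 + m)) x p * Rr B x p := by
  obtain ⟨hc, -, -, -⟩ := Lv_spec hB
  rw [E1_eq _ hc]
  have h1 : ∀ x ∈ B, ∑ p ∈ range P, pk^[m - 3] (kth m A (K - 1 + m)) x p * Rr B x p =
      (if x = K - 1 + (m - 1) then ∑ p ∈ range (A + 1), vm m p * Rr B x p else 0) +
      ∑ p ∈ Ico (A + 1) (A + 1 + (m - 3)),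
        pk^[m - 3] (kth m A (K - 1 + m)) x p * Rr B x p := by
    intro x hx
    have hxM := hb x hx
    have e1 : range (A + 1 + (m - 3)) ⊆ range P := range_subset_range.2 (by omega)
    rw [← sum_subset e1 (fun p _ hp => by
      rw [mem_range, not_lt] at hp
      unfold kth
      rw [pk_cut_zero _ _ _ _ _ (by omega), zero_mul]),
      range_eq_Ico, ← sum_Ico_consecutive _ (by omega : 0 ≤ A + 1) (by omega), ← range_eq_Ico]
    congr 1
    have e2 : ∀ p ∈ range (A + 1), pk^[m - 3] (kth m A (K - 1 + m)) x p * Rr B x p =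
        if x = K - 1 + (m - 1) then vm m p * Rr B x p else 0 := by
      intro p hp
      rw [mem_range] at hp
      unfold kth kh
      rw [pk_cut _ _ _ _ _ (by omega), pkn_kf, psn_bi']
      unfold kf
      rw [← K0_eq, kx_dlt _ _ _ _ (by omega), show K - 1 + m - 1 = K - 1 + (m - 1) by omega]
      unfold K0
      rw [if_neg (by omega), zero_add]
      split_ifs
      · rfl
      · rw [zero_mul]
    rw [sum_congr rfl e2]
    split_ifs
    · rfl
    · simp
  rw [sum_congr rfl h1, sum_add_distrib, sum_ite_eq' B (K - 1 + (m - 1))]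
  split_ifs with hx
  · rw [row_zero hm hK hA hB hx, zero_add]
  · rw [zero_add]

theorem kp_abs (M0 p x : ℕ) : |kp M0 p x| ≤ 2 ^ p := by
  unfold kp
  split_ifs with h1 h2 h3
  · rw [abs_one]
    exact one_le_pow₀ (by norm_num)
  · rw [abs_zero]; positivity
  · rw [abs_mul, abs_pow, abs_neg, abs_one, one_pow, one_mul, abs_of_nonneg (Nat.cast_nonneg _)]
    have h4 : (p - 1).choose (M0 - x - 1) ≤ 2 ^ (p - 1) := Nat.choose_le_two_pow _ _
    calc (((p - 1).choose (M0 - x - 1) : ℕ) : ℝ) ≤ ((2 ^ (p - 1) : ℕ) : ℝ) := by exact_mod_cast h4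
      _ = (2 : ℝ) ^ (p - 1) := by push_cast; ring
      _ ≤ 2 ^ p := pow_le_pow_right₀ (by norm_num) (by omega)
  · rw [abs_zero]; positivity

theorem bi_abs (t p : ℕ) : |bi t p| ≤ 2 ^ t * 2 ^ p := by
  unfold bi
  rw [abs_mul, abs_pow, abs_neg, abs_one, one_pow, one_mul, abs_of_nonneg (Nat.cast_nonneg _)]
  have h4 : (t + p - 1).choose p ≤ 2 ^ (t + p - 1) := Nat.choose_le_two_pow _ _
  calc (((t + p - 1).choose p : ℕ) : ℝ) ≤ ((2 ^ (t + p - 1) : ℕ) : ℝ) := by exact_mod_cast h4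
    _ = (2 : ℝ) ^ (t + p - 1) := by push_cast; ring
    _ ≤ 2 ^ (t + p) := pow_le_pow_right₀ (by norm_num) (by omega)
    _ = _ := by rw [pow_add]

/-- the sum of the weights -/
noncomputable def vsum (m : ℕ) : ℝ := ∑ p ∈ range m, |vm m p|

theorem vm_sum_le {m : ℕ} (hm : 3 ≤ m) (n : ℕ) : ∑ p ∈ range n, |vm m p| ≤ vsum m := by
  unfold vsum
  by_cases h : n ≤ m
  · exact sum_le_sum_of_subset_of_nonneg (range_subset_range.2 h) fun _ _ _ => abs_nonneg _
  · rw [← sum_subset (range_subset_range.2 (by omega : m ≤ n))]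
    intro p _ hp
    rw [mem_range, not_lt] at hp
    have : vm m p = 0 := vv_big _ _ (by omega)
    rw [this, abs_zero]

theorem kh_abs {m : ℕ} (hm : 3 ≤ m) (M0 x p : ℕ) :
    |kh m M0 x p| ≤ (1 + vsum m) * 2 ^ (m - 3) * 4 ^ p := by
  have h4 : ∀ a : ℕ, (4 : ℝ) ^ a = 2 ^ a * 2 ^ a := fun a => by
    rw [← mul_pow]; norm_num
  unfold kh kf
  have e1 : |kc M0 (bi (m - 3)) x p| ≤ 2 ^ (m - 3) * 4 ^ p := by
    unfold kc
    rw [abs_mul, h4, ← mul_assoc]
    exact mul_le_mul (bi_abs _ _) (kp_abs _ _ _) (abs_nonneg _) (by positivity)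
  have e2 : |kx M0 (vm m) (bi (m - 3)) x p| ≤ vsum m * (2 ^ (m - 3) * 4 ^ p) := by
    unfold kx
    split_ifs
    · refine (abs_sum_le_sum_abs _ _).trans ?_
      have h : ∀ a ∈ range (p + 1), |bi (m - 3) a * ((-1) ^ (a + (M0 - 1 - x)) *
          (a.choose (M0 - 1 - x) : ℝ)) * vm m (p - a)| ≤ (2 ^ (m - 3) * 4 ^ p) * |vm m (p - a)| := by
        intro a ha
        rw [mem_range] at ha
        rw [abs_mul]
        refine mul_le_mul_of_nonneg_right ?_ (abs_nonneg _)
        have h7 : |((-1 : ℝ)) ^ (a + (M0 - 1 - x)) * (a.choose (M0 - 1 - x) : ℝ)| =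
            (a.choose (M0 - 1 - x) : ℝ) := by
          rw [abs_mul, abs_pow, abs_neg, abs_one, one_pow, one_mul,
            abs_of_nonneg (Nat.cast_nonneg (a.choose (M0 - 1 - x)))]
        rw [abs_mul, h7]
        have h5 : a.choose (M0 - 1 - x) ≤ 2 ^ a := Nat.choose_le_two_pow _ _
        have h5' : ((a.choose (M0 - 1 - x) : ℕ) : ℝ) ≤ 2 ^ a := by exact_mod_cast h5
        calc |bi (m - 3) a| * ((a.choose (M0 - 1 - x) : ℕ) : ℝ)
            ≤ (2 ^ (m - 3) * 2 ^ a) * 2 ^ a :=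
              mul_le_mul (bi_abs _ _) h5' (Nat.cast_nonneg _) (by positivity)
          _ = 2 ^ (m - 3) * 4 ^ a := by rw [h4]; ring
          _ ≤ _ := mul_le_mul_of_nonneg_left (pow_le_pow_right₀ (by norm_num) (by omega))
              (by positivity)
      refine (sum_le_sum h).trans ?_
      rw [← mul_sum, mul_comm]
      refine mul_le_mul_of_nonneg_right ?_ (by positivity)
      have h6 : ∑ a ∈ range (p + 1), |vm m (p - a)| = ∑ a ∈ range (p + 1), |vm m a| := by
        have := sum_range_reflect (fun a => |vm m a|) (p + 1)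
        rw [← this]
        refine sum_congr rfl fun a _ => ?_
        rw [Nat.add_sub_cancel]
      rw [h6]
      exact vm_sum_le hm _
    · rw [abs_zero]
      have : 0 ≤ vsum m := sum_nonneg fun _ _ => abs_nonneg _
      positivity
  calc _ ≤ |kc M0 (bi (m - 3)) x p| + |kx M0 (vm m) (bi (m - 3)) x p| := abs_add_le _ _
    _ ≤ 2 ^ (m - 3) * 4 ^ p + vsum m * (2 ^ (m - 3) * 4 ^ p) := add_le_add e1 e2
    _ = _ := by ring

/-- the constant of the tail -/
noncomputable def tc (m : ℕ) : ℝ := m * (3 ^ m * ((1 + vsum m) * 2 ^ (m - 3))) * 2 ^ m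

theorem tc_nonneg (m : ℕ) : 0 ≤ tc m := by
  have : 0 ≤ vsum m := sum_nonneg fun _ _ => abs_nonneg _
  unfold tc
  positivity

/-- **the tail** -/
theorem E1_tail {m A P : ℕ} (hm : 16 ≤ m) (hK : 1 ≤ K) (hA : m ≤ A) (hP : A + (m - 3) < P)
    {B : Finset ℕ} (hB : B ∈ Lv K m) (hb : Bl m K B) :
    |E1 K P (pk^[m - 3] (kth m A (K - 1 + m))) B| ≤ tc m * (K * (8 ^ A / (A.factorial : ℝ))) := by
  rw [E1_exact hm hK hA hP hB hb]
  obtain ⟨hc, -, -, -⟩ := Lv_spec hB
  have hvs : 0 ≤ vsum m := sum_nonneg fun _ _ => abs_nonneg _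
  set Q : ℝ := (1 + vsum m) * 2 ^ (m - 3) * 4 ^ A with hQ
  have hQ0 : 0 ≤ Q := by positivity
  have hk : ∀ x p, |kth m A (K - 1 + m) x p| ≤ Q := by
    intro x p
    unfold kth cut
    split_ifs with h
    · refine (kh_abs (by omega) _ _ _).trans ?_
      exact mul_le_mul_of_nonneg_left (pow_le_pow_right₀ (by norm_num) h) (by positivity)
    · rw [abs_zero]; exact hQ0
  have hterm : ∀ x ∈ B, ∀ p ∈ Ico (A + 1) (A + 1 + (m - 3)),
      |pk^[m - 3] (kth m A (K - 1 + m)) x p * Rr B x p| ≤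
        3 ^ m * Q * (2 ^ (A + m) / (A.factorial : ℝ)) := by
    intro x _ p hp
    rw [mem_Ico] at hp
    rw [abs_mul]
    refine mul_le_mul ?_ ?_ (abs_nonneg _) (by positivity)
    · refine (pk_abs_le hk (m - 3) x p).trans (mul_le_mul_of_nonneg_right ?_ hQ0)
      exact pow_le_pow_right₀ (by norm_num) (by omega)
    · refine (Rr_le' B x p (by omega)).trans ?_
      have h1 : (2 : ℝ) ^ (p - 1) ≤ 2 ^ (A + m) := pow_le_pow_right₀ (by norm_num) (by omega)
      have h2 : (A.factorial : ℝ) ≤ p.factorial := by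
        exact_mod_cast Nat.factorial_le (by omega : A ≤ p)
      have h3 : (0 : ℝ) < A.factorial := by exact_mod_cast Nat.factorial_pos _
      exact div_le_div₀ (by positivity) h1 h3 h2
  refine (abs_sum_le_sum_abs _ _).trans ?_
  have h1 : ∀ x ∈ B, |∑ p ∈ Ico (A + 1) (A + 1 + (m - 3)),
      pk^[m - 3] (kth m A (K - 1 + m)) x p * Rr B x p| ≤
      m * (3 ^ m * Q * (2 ^ (A + m) / (A.factorial : ℝ))) := by
    intro x hx
    refine (abs_sum_le_sum_abs _ _).trans ((sum_le_sum (hterm x hx)).trans ?_)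
    rw [sum_const, Nat.card_Ico, nsmul_eq_mul]
    refine mul_le_mul_of_nonneg_right ?_ (by positivity)
    have : A + 1 + (m - 3) - (A + 1) ≤ m := by omega
    exact_mod_cast this
  refine (sum_le_sum h1).trans ?_
  rw [sum_const, hc, nsmul_eq_mul, hQ]
  unfold tc
  have e8 : (8 : ℝ) ^ A = 4 ^ A * 2 ^ A := by rw [← mul_pow]; norm_num
  rw [e8, pow_add]
  refine le_of_eq ?_
  ring

/-! ## the link to the operator `Dl` -/

theorem Dl_exu (u : Finset ℕ → ℝ) (B : Finset ℕ) : Dl (fun C => ex C * u C) B = ex B * Dop u B := by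
  unfold Dl Dop
  rw [mul_sum]
  refine sum_congr rfl fun x hx => ?_
  show ex (mv B x) * u (mv B x) = _
  rw [ex_mv hx]
  ring

theorem Dli_ex : ∀ (j : ℕ) (u : Finset ℕ → ℝ),
    Dl^[j] (fun C => ex C * u C) = fun B => ex B * Dopi j u B
  | 0, _ => rfl
  | j + 1, u => by
    rw [Function.iterate_succ_apply', Dli_ex j u]
    funext B
    rw [Dl_exu]
    rfl

/-- **The function `z₁`**: `Dl^[t] z₁` is the tail. -/
theorem Dli_z1 {m A P : ℕ} (hm : 16 ≤ m) (hA : m ≤ A) (hP : P = A + m) (hK : A + m ≤ K)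
    {B : Finset ℕ} (hB : B ∈ Lv K m) (hb : Bl m K B) :
    |Dl^[m - 3] (fun C => ex C * E1 K P (kth m A (K - 1 + m)) C) B| ≤
      ex B * (tc m * (K * (8 ^ A / (A.factorial : ℝ)))) := by
  rw [Dli_ex]
  simp only
  rw [abs_mul, abs_of_pos (ex_pos B), Dopi_E1 (Sup_kth (m := m) (A := A) (M0 := K - 1 + m))
    (m - 3) m (by omega) (by omega) (by omega) B hB]
  exact mul_le_mul_of_nonneg_left (E1_tail hm (by omega) hA (by omega) hB hb) (ex_pos B).le

theorem tail_tendsto (m D : ℕ) : Filter.Tendsto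
    (fun A : ℕ => tc m * (((A + D : ℕ) : ℝ) * (8 ^ A / (A.factorial : ℝ)))) Filter.atTop (nhds 0) := by
  have h1 := FloorSemiring.tendsto_pow_div_factorial_atTop (16 : ℝ)
  have h2 : Filter.Tendsto (fun A : ℕ => tc m * ((1 + (D : ℝ)) * (16 ^ A / (A.factorial : ℝ))))
      Filter.atTop (nhds 0) := by
    have := (h1.const_mul (1 + (D : ℝ))).const_mul (tc m)
    simpa using this
  refine squeeze_zero (fun A => ?_) (fun A => ?_) h2
  · have := tc_nonneg m
    positivity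
  · refine mul_le_mul_of_nonneg_left ?_ (tc_nonneg m)
    have h3 : ((A + D : ℕ) : ℝ) ≤ (1 + D) * 2 ^ A := by
      have h4 : (A : ℝ) ≤ 2 ^ A := by
        have := @Nat.lt_two_pow_self A
        exact_mod_cast this.le
      have h5 : (1 : ℝ) ≤ 2 ^ A := one_le_pow₀ (by norm_num)
      have h6 : (0 : ℝ) ≤ D := Nat.cast_nonneg D
      push_cast
      nlinarith
    calc ((A + D : ℕ) : ℝ) * (8 ^ A / (A.factorial : ℝ))
        ≤ ((1 + D) * 2 ^ A) * (8 ^ A / (A.factorial : ℝ)) :=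
          mul_le_mul_of_nonneg_right h3 (by positivity)
      _ = (1 + (D : ℝ)) * (16 ^ A / (A.factorial : ℝ)) := by
          have e : (16 : ℝ) ^ A = 2 ^ A * 8 ^ A := by rw [← mul_pow]; norm_num
          rw [e]
          ring

end Pool.JM
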