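import Pool.Agent.Work.MP_46fa68_h4.Lay7

/-!
# MP_46fa68_co: the first row, layer 5: the inequality
-/

set_option autoImplicit false

open Finset Equiv

namespace Pool.JM

theorem lay5_uf {t : ℕ} (ht : 17 ≤ t) {R : ℕ → ℝ} (hR : RS ((t : ℝ) - 2) (2 * t + 3) R) (n : ℕ) :
    ∑ q ∈ range n, uf t 3 R q ≤ 23 / 10 * (3 * t * (t + 4) / 10 * R 5) := by
  have htR : (17 : ℝ) ≤ t := by exact_mod_cast ht
  have ht0 : (0 : ℝ) < t := by linarith
  have step : ∀ q : ℕ, uf t 3 R (q + 1) * (((q : ℝ) + 3) * (q + 1) * (q + 6) ^ 2) ≤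
      (q + 2) * (q + 5) * (q + 8) * uf t 3 R q := by
    intro q
    have hq : (0 : ℝ) ≤ q := Nat.cast_nonneg q
    have h1 := uf_succ t 3 R q
    have h2 := hR.ratio (by linarith) (by linarith) (3 + 2 + q) (u := q + 8)
      (v := (t + 5 + q) * (q + 6)) (by positivity) (by
      push_cast
      have k : (2 * (t : ℝ) + 3 + (3 + 2 + q) * (t - 2)) * (t + 5 + q) ≤
          (q + 8) * ((t - 2) ^ 2 + (2 * t + 3) + (3 + 2 + q) * (t - 2)) := by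
        obtain ⟨x, hx⟩ : ∃ x : ℝ, (t : ℝ) = x + 17 := ⟨t - 17, by ring⟩
        have hx0 : 0 ≤ x := by linarith
        rw [hx]
        have k1 : 0 ≤ (q : ℝ) * x := by positivity
        nlinarith [mul_nonneg hx0 hx0]
      have := mul_le_mul_of_nonneg_right k (by linarith : (0 : ℝ) ≤ (q : ℝ) + 6)
      nlinarith [this])
    have hu := uf_nonneg t 3 hR.pos q
    have hRp := hR.pos (3 + 2 + q)
    push_cast at h1
    have h3 : uf t 3 R (q + 1) * (((q : ℝ) + 3) * (q + 1) * (q + 6) ^ 2) * R (3 + 2 + q) ≤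
        (q + 2) * (q + 5) * (q + 8) * uf t 3 R q * R (3 + 2 + q) := by
      calc uf t 3 R (q + 1) * (((q : ℝ) + 3) * (q + 1) * (q + 6) ^ 2) * R (3 + 2 + q)
          = uf t 3 R q * ((q + 2) * (q + 5)) * (R (3 + 2 + q + 1) * ((t + 5 + q) * (q + 6))) := by
            rw [show 3 + 2 + (q + 1) = 3 + 2 + q + 1 by omega] at h1
            linear_combination ((q : ℝ) + 6) * h1
        _ ≤ uf t 3 R q * ((q + 2) * (q + 5)) * (R (3 + 2 + q) * (q + 8)) :=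
            mul_le_mul_of_nonneg_left h2 (by positivity)
        _ = _ := by ring
    exact le_of_mul_le_mul_right h3 hRp
  have s1 := sum_geo1 (ρ := 21 / 50) (by norm_num) n (uf t 3 R) (uf_nonneg t 3 hR.pos) (by
    intro q hq
    have hq' : (1 : ℝ) ≤ q := by exact_mod_cast hq
    have h1 := step q
    have hu := uf_nonneg t 3 hR.pos q
    have hp : (0 : ℝ) < ((q : ℝ) + 3) * (q + 1) * (q + 6) ^ 2 := by positivity
    refine le_of_mul_le_mul_right (h1.trans ?_) hp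
    have h2 : ((q : ℝ) + 2) * (q + 5) * (q + 8) ≤ 21 / 50 * (((q : ℝ) + 3) * (q + 1) * (q + 6) ^ 2) := by
      obtain ⟨s, hs⟩ : ∃ s : ℝ, (q : ℝ) = s + 1 := ⟨q - 1, by ring⟩
      have hs0 : 0 ≤ s := by linarith
      rw [hs]
      have : 0 ≤ 21 / 50 * ((s + 1 + 3) * (s + 1 + 1) * (s + 1 + 6) ^ 2) -
          (s + 1 + 2) * (s + 1 + 5) * (s + 1 + 8) := by
        ring_nf
        positivity
      linarith
    calc ((q : ℝ) + 2) * (q + 5) * (q + 8) * uf t 3 R q ≤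
        21 / 50 * (((q : ℝ) + 3) * (q + 1) * (q + 6) ^ 2) * uf t 3 R q :=
          mul_le_mul_of_nonneg_right h2 hu
      _ = _ := by ring)
  have s2 := step 0
  have e : uf t 3 R (0 + 1) = uf t 3 R 1 := rfl
  rw [e] at s2
  push_cast at s2
  have hu0 := uf_zero t 3 R
  rw [show 3 + 2 = 5 from rfl] at hu0
  push_cast at hu0
  have hu0' : uf t 3 R 0 = 3 * t * (t + 4) / 10 * R 5 := by rw [hu0]; ring
  rw [← hu0']
  have hun := uf_nonneg t 3 hR.pos 0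
  linarith

theorem lay5_core {t : ℕ} (ht : 17 ≤ t) {μ : ℝ} (hμ7 : 7 / 8 ≤ μ) {g1 g2 : ℝ}
    (hg1 : g1 = -μ * (3 * t + 10)) (hg2 : g2 = μ * (2 * (t + 3) * (t + 4))) {R : ℕ → ℝ}
    (hR : RS ((t : ℝ) - 2) (2 * t + 3) R) (n : ℕ) :
    -(6 / 5 * (t * R 4)) ≤
      -g1 * R 4 - ∑ q ∈ range n, (gq g1 g2 3 (q + 2) - nq t 3 (q + 2)) * R (3 + 2 + q) := by
  have htR : (17 : ℝ) ≤ t := by exact_mod_cast ht
  have ht0 : (0 : ℝ) < t := by linarith
  have hg1' : g1 ≤ 0 := by rw [hg1]; nlinarith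
  have hg2' : 0 ≤ g2 := by rw [hg2]; positivity
  have h1 := odd_upper (t := t) (i := 3) (by norm_num) hg1' (le_refl g2) hR.pos n
  have s1 := lay5_uf ht hR n
  have s2 := Gc_sum (u := 1) (v := 0) (w := g2) (by norm_num) le_rfl hg2' (by norm_num : 1 ≤ 3) hR.pos
    (ρ := 1 / 6) (by norm_num) (by
      intro q
      have hq : (0 : ℝ) ≤ q := Nat.cast_nonneg q
      have h1 := hR.ratio (by linarith) (by linarith) (3 + 2 + q) (u := 1) (v := 18) (by norm_num) (by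
        push_cast
        obtain ⟨x, hx⟩ : ∃ x : ℝ, (t : ℝ) = x + 17 := ⟨t - 17, by ring⟩
        have hx0 : 0 ≤ x := by linarith
        rw [hx]
        have k1 : 0 ≤ (q : ℝ) * x := by positivity
        have k2 : 0 ≤ (q : ℝ) * x ^ 2 := by positivity
        have k3 : 0 ≤ (q : ℝ) ^ 2 * x := by positivity
        nlinarith [mul_nonneg hx0 hx0, mul_nonneg hq hq])
      rw [show 3 + 2 + q + 1 = 3 + 2 + (q + 1) by omega] at h1
      push_cast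
      linarith) n
  rw [Gc_zero _ _ _ (by norm_num : 1 ≤ 3), show 3 + 2 = 5 from rfl] at s2
  push_cast at s2
  have r4 := hR.pos 4
  have r5 := hR.pos 5
  have h5 := hR.ratio (by linarith) (by linarith) 4 (u := 6 * t - 5) (v := 5 * (t ^ 2 + 2 * t - 1))
    (by nlinarith) (by
      push_cast
      refine le_of_eq ?_
      ring)
  have e5 : R (4 + 1) = R 5 := rfl
  rw [e5] at h5
  obtain ⟨S, hS⟩ : ∃ S : ℝ, S = ∑ q ∈ range n, Gc 1 0 g2 3 q * R (5 + q) := ⟨_, rfl⟩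
  rw [← hS] at s2
  have e : 3 + 2 = 5 := rfl
  rw [e] at h1 ⊢
  rw [← hS] at h1
  have hc : (0 : ℝ) ≤ 6 / 5 * (6 + g2) + 23 / 10 * (3 * t * (t + 4) / 10) := by positivity
  have h6 : ∑ q ∈ range n, (gq g1 g2 3 (q + 2) - nq t 3 (q + 2)) * R (5 + q) ≤
      (6 / 5 * (6 + g2) + 23 / 10 * (3 * t * (t + 4) / 10)) * R 5 := by
    linarith
  have hq : (0 : ℝ) < 5 * ((t : ℝ) ^ 2 + 2 * t - 1) := by nlinarith
  refine le_trans ?_ (sub_le_sub_left h6 _)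
  refine le_of_mul_le_mul_right ?_ hq
  have h7 := mul_le_mul_of_nonneg_left h5 hc
  have h8 : 0 ≤ R 4 * (μ * (3 * t + 10) * (5 * ((t : ℝ) ^ 2 + 2 * t - 1)) +
      6 / 5 * t * (5 * ((t : ℝ) ^ 2 + 2 * t - 1)) -
      (6 / 5 * (6 + g2) + 23 / 10 * (3 * t * (t + 4) / 10)) * (6 * t - 5)) := by
    refine mul_nonneg r4.le ?_
    obtain ⟨x, hx⟩ : ∃ x : ℝ, (t : ℝ) = x + 17 := ⟨t - 17, by ring⟩
    have hx0 : 0 ≤ x := by linarith
    obtain ⟨ν, hν⟩ : ∃ ν : ℝ, μ = ν + 7 / 8 := ⟨μ - 7 / 8, by ring⟩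
    have hν0 : 0 ≤ ν := by linarith
    rw [hg2, hx, hν]
    have k1 : 0 ≤ ν * ((3 * (x + 17) + 10) * (5 * ((x + 17) ^ 2 + 2 * (x + 17) - 1)) -
        6 / 5 * (2 * ((x + 17) + 3) * ((x + 17) + 4)) * (6 * (x + 17) - 5)) := by
      refine mul_nonneg hν0 ?_
      ring_nf
      positivity
    have k2 : 0 ≤ 7 / 8 * (3 * (x + 17) + 10) * (5 * ((x + 17) ^ 2 + 2 * (x + 17) - 1)) +
      6 / 5 * (x + 17) * (5 * ((x + 17) ^ 2 + 2 * (x + 17) - 1)) -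
      (6 / 5 * (6 + 7 / 8 * (2 * ((x + 17) + 3) * ((x + 17) + 4))) +
        23 / 10 * (3 * (x + 17) * ((x + 17) + 4) / 10)) * (6 * (x + 17) - 5) := by
      ring_nf
      positivity
    linear_combination k1 + k2
  have e1 : -g1 = μ * (3 * t + 10) := by rw [hg1]; ring
  rw [e1]
  linarith

theorem lay5_R {t : ℕ} (ht : 17 ≤ t) {R : ℕ → ℝ} (hR : RS ((t : ℝ) - 2) (2 * t + 3) R) :
    Zz t 3 * (t * R 4) ≤ 1 / 3 := by
  have htR : (17 : ℝ) ≤ t := by exact_mod_cast ht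
  have ht0 : (0 : ℝ) < t := by linarith
  have ha : (0 : ℝ) < (t : ℝ) - 2 := by linarith
  have hN : (0 : ℝ) < 2 * (t : ℝ) + 3 := by linarith
  have q0 : (0 : ℝ) < (t : ℝ) ^ 2 - 2 * t + 7 := by nlinarith
  have q1 : (0 : ℝ) < 2 * ((t : ℝ) ^ 2 - t + 5) := by nlinarith
  have q2 : (0 : ℝ) < 3 * ((t : ℝ) ^ 2 + 3) := by positivity
  have q3 : (0 : ℝ) < 4 * ((t : ℝ) ^ 2 + t + 1) := by positivity
  have h0 := hR.ratio ha hN 0 (u := 2 * t + 3) (v := (t : ℝ) ^ 2 - 2 * t + 7) q0 (by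
    push_cast; exact le_of_eq (by ring))
  have h1 := hR.ratio ha hN 1 (u := 3 * t + 1) (v := 2 * ((t : ℝ) ^ 2 - t + 5)) q1 (by
    push_cast; exact le_of_eq (by ring))
  have h2 := hR.ratio ha hN 2 (u := 4 * t - 1) (v := 3 * ((t : ℝ) ^ 2 + 3)) q2 (by
    push_cast; exact le_of_eq (by ring))
  have h3 := hR.ratio ha hN 3 (u := 5 * t - 3) (v := 4 * ((t : ℝ) ^ 2 + t + 1)) q3 (by
    push_cast; exact le_of_eq (by ring))
  rw [hR.zero, one_mul] at h0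
  have e1 : R (0 + 1) = R 1 := rfl
  have e2 : R (1 + 1) = R 2 := rfl
  have e3 : R (2 + 1) = R 3 := rfl
  have e4 : R (3 + 1) = R 4 := rfl
  rw [e1] at h0
  rw [e2] at h1
  rw [e3] at h2
  rw [e4] at h3
  have k1 : R 1 ≤ (2 * t + 3) / ((t : ℝ) ^ 2 - 2 * t + 7) := by rw [le_div_iff₀ q0]; exact h0
  have k2 : R 2 ≤ R 1 * ((3 * t + 1) / (2 * ((t : ℝ) ^ 2 - t + 5))) := by
    rw [mul_div_assoc', le_div_iff₀ q1]; exact h1
  have k3 : R 3 ≤ R 2 * ((4 * t - 1) / (3 * ((t : ℝ) ^ 2 + 3))) := by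
    rw [mul_div_assoc', le_div_iff₀ q2]; exact h2
  have k4 : R 4 ≤ R 3 * ((5 * t - 3) / (4 * ((t : ℝ) ^ 2 + t + 1))) := by
    rw [mul_div_assoc', le_div_iff₀ q3]; exact h3
  have p1 : 0 ≤ (3 * (t : ℝ) + 1) / (2 * ((t : ℝ) ^ 2 - t + 5)) := div_nonneg (by linarith) q1.le
  have p2 : 0 ≤ (4 * (t : ℝ) - 1) / (3 * ((t : ℝ) ^ 2 + 3)) := div_nonneg (by linarith) q2.le
  have p3 : 0 ≤ (5 * (t : ℝ) - 3) / (4 * ((t : ℝ) ^ 2 + t + 1)) := div_nonneg (by linarith) q3.le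
  have k : R 4 ≤ (2 * t + 3) / ((t : ℝ) ^ 2 - 2 * t + 7) * ((3 * t + 1) / (2 * ((t : ℝ) ^ 2 - t + 5))) *
      ((4 * t - 1) / (3 * ((t : ℝ) ^ 2 + 3))) * ((5 * t - 3) / (4 * ((t : ℝ) ^ 2 + t + 1))) := by
    refine k4.trans (mul_le_mul_of_nonneg_right ?_ p3)
    refine k3.trans (mul_le_mul_of_nonneg_right ?_ p2)
    exact k2.trans (mul_le_mul_of_nonneg_right k1 p1)
  have hZ : Zz t 3 = ((t : ℝ) + 3) * (t + 2) * (t + 1) / 24 := by
    unfold Zz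
    have h5 : ((t + 3).choose (3 + 1) : ℝ) * (3 + 1) = (t + 3) * ((t + 2).choose 3 : ℝ) := by
      have h6 := choose_step (n := t + 2) (k := 3)
      push_cast at h6
      rw [show t + 3 = t + 2 + 1 by omega]
      linear_combination h6
    rw [choose_three] at h5
    push_cast at h5
    rw [div_eq_iff ht0.ne']
    linear_combination h5 / 4
  rw [hZ]
  have h9 : 0 ≤ ((t : ℝ) + 3) * (t + 2) * (t + 1) / 24 * t := by positivity
  have h10 := mul_le_mul_of_nonneg_left k h9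
  have h11 : ((t : ℝ) + 3) * (t + 2) * (t + 1) / 24 * (t * R 4) ≤
      ((t : ℝ) + 3) * (t + 2) * (t + 1) / 24 * t * ((2 * t + 3) / ((t : ℝ) ^ 2 - 2 * t + 7) *
      ((3 * t + 1) / (2 * ((t : ℝ) ^ 2 - t + 5))) *
      ((4 * t - 1) / (3 * ((t : ℝ) ^ 2 + 3))) * ((5 * t - 3) / (4 * ((t : ℝ) ^ 2 + t + 1)))) := by
    linarith
  refine h11.trans ?_
  have e : ((t : ℝ) + 3) * (t + 2) * (t + 1) / 24 * t * ((2 * t + 3) / ((t : ℝ) ^ 2 - 2 * t + 7) *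
      ((3 * t + 1) / (2 * ((t : ℝ) ^ 2 - t + 5))) *
      ((4 * t - 1) / (3 * ((t : ℝ) ^ 2 + 3))) * ((5 * t - 3) / (4 * ((t : ℝ) ^ 2 + t + 1)))) =
      (((t : ℝ) + 3) * (t + 2) * (t + 1) * t * (2 * t + 3) * (3 * t + 1) * (4 * t - 1) * (5 * t - 3)) /
      (24 * (((t : ℝ) ^ 2 - 2 * t + 7) * (2 * ((t : ℝ) ^ 2 - t + 5)) * (3 * ((t : ℝ) ^ 2 + 3)) *
        (4 * ((t : ℝ) ^ 2 + t + 1)))) := by
    have a0 := q0.ne'
    have a1 := q1.ne'
    have a2 := q2.ne'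
    have a3 := q3.ne'
    rw [div_mul_div_comm, div_mul_div_comm, div_mul_div_comm, div_mul_eq_mul_div, div_mul_div_comm]
    congr 1
    ring
  rw [e, div_le_iff₀ (by positivity)]
  obtain ⟨x, hx⟩ : ∃ x : ℝ, (t : ℝ) = x + 17 := ⟨t - 17, by ring⟩
  have hx0 : 0 ≤ x := by linarith
  rw [hx]
  have : 0 ≤ 1 / 3 * (24 * (((x + 17) ^ 2 - 2 * (x + 17) + 7) * (2 * ((x + 17) ^ 2 - (x + 17) + 5)) *
      (3 * ((x + 17) ^ 2 + 3)) * (4 * ((x + 17) ^ 2 + (x + 17) + 1)))) -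
      (x + 17 + 3) * (x + 17 + 2) * (x + 17 + 1) * (x + 17) * (2 * (x + 17) + 3) * (3 * (x + 17) + 1) *
        (4 * (x + 17) - 1) * (5 * (x + 17) - 3) := by
    ring_nf
    positivity
  linarith

end Pool.JM
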