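import Pool.Agent.Work.MP_46fa68_h4.Lay6
import Pool.Agent.Work.MP_46fa68_h4.Lay8
import Pool.Agent.Work.MP_46fa68_T.Near2

/-!
# MP_46fa68_co: the first row, all layers
-/

set_option autoImplicit false

open Finset Equiv

namespace Pool.JM

/-- **Row 1, layers `≥ 5`.** `a` = length of the first row. -/
theorem layer_five {m A k a : ℕ} (hm : 20 ≤ m) (hA : m ≤ A) (ha : 1 ≤ a) (ham : a + 5 ≤ m)
    {B : Finset ℕ} (hB : B ∈ Lv (k + 1) (m + (m - 3))) (hx : k + a ∈ B)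
    (hmax : ∀ y ∈ B, y ≤ k + a) : 3 / 5 ≤ 1 - Cr m A (k + m) B (k + a) := by
  have hR := RS_top ha hB hx hmax
  obtain ⟨i, hi⟩ : ∃ i, a + (i + 2) = m := ⟨m - a - 2, by omega⟩
  have hM : k + a = k + m - (i + 2) := by omega
  obtain ⟨t, rfl⟩ : ∃ t, m = t + 3 := ⟨m - 3, by omega⟩
  have hcm1 := cm_le' (by omega : 16 ≤ t + 3)
  have hcm0 := cm_pos (by omega : 16 ≤ t + 3)
  have h1 := Cr_norm (i := i) (by omega : 16 ≤ t + 3) (A := A) (M0 := k + (t + 3)) (by omega)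
    (by omega) B
  rw [← hM] at h1
  rw [Nat.add_sub_cancel] at h1 hR
  have hN : ((t + 3 + t : ℕ) : ℝ) = 2 * t + 3 := by push_cast; ring
  rw [hN] at hR
  obtain ⟨n, hn⟩ : ∃ n, n = A - 1 - i := ⟨_, rfl⟩
  have hn1 : 1 ≤ n := by omega
  rw [← hn] at h1
  obtain ⟨R, hRd⟩ : ∃ R : ℕ → ℝ, R = Rr B (k + a) := ⟨_, rfl⟩
  rw [← hRd] at h1 hR
  have ht : 17 ≤ t := by omega
  have htR : (17 : ℝ) ≤ t := by exact_mod_cast ht
  have hg1 : g1m (t + 3) = -(1 - cm (t + 3)) * (3 * t + 10) := by unfold g1m; push_cast; ring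
  have hg2 : g2m (t + 3) = (1 - cm (t + 3)) * (2 * (t + 3) * (t + 4)) := by unfold g2m; push_cast; ring
  have hμ0 : 0 ≤ 1 - cm (t + 3) := by linarith
  have hμ1 : 1 - cm (t + 3) ≤ 1 := by linarith
  have hμ7 : 7 / 8 ≤ 1 - cm (t + 3) := by linarith
  have hZ : ∀ i, 0 ≤ Zz t i := fun i => by unfold Zz; positivity
  have hEE := Zz_R_le ha (by omega : 5 ≤ i + 2) (by omega : t + 3 = a + (i + 2)) hR
  rw [show i + 2 - 2 = i by omega, show i + 2 - 1 = i + 1 by omega] at hEE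
  have hEE' : Zz t i * ((3 * t + 10) * R (i + 1)) ≤ EEl a (i + 2) := by linarith
  rw [h1]
  have hcase : i = 3 ∨ i = 4 ∨ i = 5 ∨ i = 6 ∨ 7 ≤ i := by omega
  rcases hcase with rfl | rfl | rfl | rfl | hi7
  · -- layer 5
    have ha' : (a : ℝ) = t - 2 := by
      have : a + 2 = t := by omega
      have := congrArg (fun z : ℕ => (z : ℝ)) this
      push_cast at this
      linarith
    rw [ha'] at hR
    have h2 := lay5_core ht hμ7 hg1 hg2 hR n
    have h3 := lay5_R ht hR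
    have h4 := mul_le_mul_of_nonneg_left h2 (hZ 3)
    have e : (-1 : ℝ) ^ 3 = -1 := by norm_num
    rw [e, show 3 + 1 = 4 from rfl]
    linarith
  · -- layer 6
    have ha' : (a : ℝ) = t - 3 := by
      have : a + 3 = t := by omega
      have := congrArg (fun z : ℕ => (z : ℝ)) this
      push_cast at this
      linarith
    rw [ha'] at hR
    have h2 := lay6_core ht hμ0 hμ1 hg1 hg2 hR hn1
    have h4 := mul_le_mul_of_nonneg_left h2 (hZ 4)
    have h5 := EEl_six (a := a) (by omega)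
    have e : (-1 : ℝ) ^ 4 = 1 := by norm_num
    rw [show 4 + 1 = 5 from rfl, show 4 + 2 = 6 from rfl] at hEE'
    rw [e, show 4 + 1 = 5 from rfl]
    linarith
  · -- layer 7
    have ha' : (a : ℝ) = t - 4 := by
      have : a + 4 = t := by omega
      have := congrArg (fun z : ℕ => (z : ℝ)) this
      push_cast at this
      linarith
    rw [ha'] at hR
    have h2 := lay7_core ht hμ0 hμ1 hg1 hg2 hR n
    have h4 := mul_le_mul_of_nonneg_left h2 (hZ 5)
    have h5 := EEl_seven (a := a) (by omega)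
    have e : (-1 : ℝ) ^ 5 = -1 := by norm_num
    rw [show 5 + 1 = 6 from rfl, show 5 + 2 = 7 from rfl] at hEE'
    rw [e, show 5 + 1 = 6 from rfl]
    linarith
  · -- layer 8
    have hg1' : g1m (t + 3) ≤ 0 := by
      rw [hg1]
      have : 0 ≤ (1 - cm (t + 3)) * (3 * t + 10) := mul_nonneg hμ0 (by linarith)
      linarith
    have hh : 0 ≤ ((6 : ℕ) : ℝ) * g1m (t + 3) + g2m (t + 3) := by
      rw [hg1, hg2]
      push_cast
      have : 0 ≤ (1 - cm (t + 3)) * (2 * (t + 3) * (t + 4) - 6 * (3 * t + 10)) :=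
        mul_nonneg hμ0 (by nlinarith)
      linarith
    have h2 : 0 ≤ ∑ q ∈ range n, (gq (g1m (t + 3)) (g2m (t + 3)) 6 (q + 2) - nq t 6 (q + 2)) *
        R (6 + 2 + q) := sum_nonneg fun q _ =>
      even_core (by norm_num) (by omega) hg1' hh hR.pos q
    have r7 := hR.pos (6 + 1)
    have h3 : -g1m (t + 3) * R (6 + 1) ≤ (3 * t + 10) * R (6 + 1) := by
      refine mul_le_mul_of_nonneg_right ?_ r7.le
      rw [hg1]
      nlinarith
    have h4 := mul_le_mul_of_nonneg_left (sub_le_self (-g1m (t + 3) * R (6 + 1)) h2) (hZ 6)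
    have h5 := mul_le_mul_of_nonneg_left h3 (hZ 6)
    have h6 := EEl_eight (a := a) (by omega)
    have e : (-1 : ℝ) ^ 6 = 1 := by norm_num
    rw [show 6 + 2 = 8 from rfl] at hEE'
    rw [e]
    linarith
  · -- layers ≥ 9
    have h2 := lay_abs_core ht hi7 ha (by omega : a + i = t + 1) hμ0 hμ1 hg1 hg2 hR n
    obtain ⟨D, hD⟩ : ∃ D : ℝ, D = -g1m (t + 3) * R (i + 1) -
      ∑ q ∈ range n, (gq (g1m (t + 3)) (g2m (t + 3)) i (q + 2) - nq t i (q + 2)) * R (i + 2 + q) :=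
      ⟨_, rfl⟩
    rw [← hD] at h2 ⊢
    have h3 : |(-1) ^ i * (Zz t i * D)| ≤ 2 / 5 := by
      rw [abs_mul, abs_pow, abs_neg, abs_one, one_pow, one_mul, abs_mul, abs_of_nonneg (hZ i)]
      have h4 := mul_le_mul_of_nonneg_left h2 (hZ i)
      have hc : (0 : ℝ) ≤ 4 + 5 / 6 * ((i : ℝ) + 3) := by positivity
      have h5 := mul_le_mul_of_nonneg_left hEE' hc
      have h6 : (4 + 5 / 6 * ((i : ℝ) + 3)) * EEl a (i + 2) ≤ 2 / 5 := by
        have e : (4 + 5 / 6 * ((i : ℝ) + 3)) = 4 + 5 / 6 * (((i + 2 : ℕ) : ℝ) + 1) := by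
          push_cast; ring
        rw [e]
        rcases le_or_gt (i + 2) 18 with h | h
        · exact EEl_mid (by omega) h (by omega)
        · exact EEl_far (by omega) ha
      calc Zz t i * |D| ≤ Zz t i * ((4 + 5 / 6 * ((i : ℝ) + 3)) * ((3 * t + 10) * R (i + 1))) := h4
        _ = (4 + 5 / 6 * ((i : ℝ) + 3)) * (Zz t i * ((3 * t + 10) * R (i + 1))) := by ring
        _ ≤ (4 + 5 / 6 * ((i : ℝ) + 3)) * EEl a (i + 2) := h5
        _ ≤ 2 / 5 := h6
    have h4 := (abs_le.1 h3).2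
    linarith

/-- **Row 1, layers `≥ 4`.** -/
theorem layer_ge_four {m A k a : ℕ} (hm : 20 ≤ m) (hA : m ≤ A) (ha : 1 ≤ a) (ham : a + 4 ≤ m)
    {B : Finset ℕ} (hB : B ∈ Lv (k + 1) (m + (m - 3))) (hx : k + a ∈ B)
    (hmax : ∀ y ∈ B, y ≤ k + a) : 3 / 5 ≤ 1 - Cr m A (k + m) B (k + a) := by
  rcases (by omega : a + 5 ≤ m ∨ a = m - 4) with h | rfl
  · exact layer_five hm hA ha h hB hx hmax
  · exact layer_four (by omega) (by omega) hB hx hmax

theorem tb_spec {M n : ℕ} (hn : 1 ≤ n) {B : Finset ℕ} (hB : B ∈ Lv (M + 1) n) :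
    tb B ∈ B ∧ (∀ y ∈ B, y ≤ tb B) ∧ M + 1 ≤ tb B := by
  obtain ⟨hc, -, -, -⟩ := Lv_spec hB
  have hne : B.Nonempty := card_pos.1 (by omega)
  have hmem : tb B ∈ B := by
    obtain ⟨x, hx, h⟩ := exists_mem_eq_sup B hne id
    have : tb B = x := h
    rw [this]
    exact hx
  have hle : ∀ y ∈ B, y ≤ tb B := fun y hy => le_sup (f := id) hy
  refine ⟨hmem, hle, ?_⟩
  obtain ⟨a, b, h1, h2, h3, h4, h5⟩ := top_spec hB hmem hle
  rcases Nat.eq_zero_or_pos a with ha | ha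
  · exfalso
    subst ha
    have h6 : B.erase (tb B) = range M := by
      refine eq_of_subset_of_card_le (fun y hy => mem_range.2 ?_) (by rw [card_range, h3])
      have := h5 y hy
      omega
    rw [h6] at h4
    omega
  · omega

/-- **Row 1.** All layers below the wall, `m ≥ 20`. -/
theorem row_one {m A M : ℕ} (hm : 20 ≤ m) (hA : m ≤ A) (hM : 1 ≤ M) {B : Finset ℕ}
    (hB : B ∈ Lv (M + 1) (m + (m - 3))) (hBl : Bl m (M + 1) B) :
    (tb B = M + (m - 1) ∧ 3 / 2 ≤ 1 - Cr m A (M + m) B (tb B)) ∨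
    (tb B = M + (m - 2) ∧ M ≤ tb (B.erase (tb B)) + 1 ∧
      cm m + (1 - cm m) * ((tb (B.erase (tb B)) + 1 - M : ℕ) /
        (m * ((m : ℝ) - 1 - (tb (B.erase (tb B)) + 1 - M : ℕ)))) ≤
        1 - Cr m A (M + m) B (tb B)) ∨
    (tb B = M + (m - 3) ∧ 7 / 10 ≤ 1 - Cr m A (M + m) B (tb B)) ∨
    (tb B + 4 ≤ M + m ∧ 3 / 5 ≤ 1 - Cr m A (M + m) B (tb B)) := by
  obtain ⟨hmem, hle, hgt⟩ := tb_spec (by omega) hB
  obtain ⟨a, ha⟩ : ∃ a, tb B = M + a := ⟨tb B - M, by omega⟩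
  have ha1 : 1 ≤ a := by omega
  have hwall := hBl _ hmem
  rcases (by omega : a = m - 1 ∨ a = m - 2 ∨ a = m - 3 ∨ a + 4 ≤ m) with h | h | h | h
  · refine Or.inl ⟨by omega, ?_⟩
    rw [h] at ha
    rw [ha] at hmem hle ⊢
    exact layer_one (by omega) (by omega) hB hmem hle
  · right; left
    obtain ⟨k, rfl⟩ : ∃ k, M = k + 1 := ⟨M - 1, by omega⟩
    rw [h] at ha
    obtain ⟨-, hc, -, hb⟩ := top_spec' hB (ha ▸ hmem) (ha ▸ hle)
    have hne : (B.erase (k + 1 + (m - 2))).Nonempty := card_pos.1 (by omega)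
    have hmem2 : tb (B.erase (k + 1 + (m - 2))) ∈ B.erase (k + 1 + (m - 2)) := by
      obtain ⟨x, hx, h⟩ := exists_mem_eq_sup (B.erase (k + 1 + (m - 2))) hne id
      have : tb (B.erase (k + 1 + (m - 2))) = x := h
      rw [this]
      exact hx
    have hle2 : ∀ y ∈ B.erase (k + 1 + (m - 2)), y ≤ tb (B.erase (k + 1 + (m - 2))) :=
      fun y hy => le_sup (f := id) hy
    have hge2 : k ≤ tb (B.erase (k + 1 + (m - 2))) := by
      have h1 : B.erase (k + 1 + (m - 2)) ⊆ range (tb (B.erase (k + 1 + (m - 2))) + 1) :=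
        fun y hy => mem_range.2 (by have := hle2 y hy; omega)
      have := card_le_card h1
      rw [card_range, hc] at this
      omega
    rw [ha]
    refine ⟨rfl, by omega, ?_⟩
    obtain ⟨c, hcc⟩ : ∃ c, tb (B.erase (k + 1 + (m - 2))) = k + c := ⟨_, (Nat.add_sub_cancel' hge2).symm⟩
    rw [show tb (B.erase (k + 1 + (m - 2))) + 1 - (k + 1) = c by omega]
    rw [hcc] at hmem2 hle2
    exact layer_two (by omega) (by omega) hc hb hmem2 hle2
  · right; right; left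
    refine ⟨by omega, ?_⟩
    rw [h] at ha
    rw [ha] at hmem hle ⊢
    exact layer_three (by omega) (by omega) hB hmem hle
  · right; right; right
    refine ⟨by omega, ?_⟩
    rw [ha] at hmem hle ⊢
    exact layer_ge_four hm hA ha1 h hB hmem hle

end Pool.JM
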