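import Pool.Agent.Work.MP_46fa68_h4.Pos1

/-!
# MP_46fa68_co: the sequence `Rr B x p` for the largest bead

`Rr_ratio_le`, `Rr_ratio_ge`, `Rr_convex`: the three inequalities used for the first row.
-/

set_option autoImplicit false

open Finset Equiv

namespace Pool.JM

/-! ## products over sets of positive integers -/

theorem sum_le_top : ∀ (n : ℕ) (D : Finset ℕ) (M : ℕ), D.card = n → (∀ d ∈ D, d ≤ M) →
    2 * ∑ d ∈ D, d + n * (n - 1) ≤ 2 * n * M
  | 0, D, M, hc, _ => by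
    rw [card_eq_zero] at hc
    subst hc
    simp
  | n + 1, D, M, hc, hM => by
    have hne : D.Nonempty := by rw [← card_pos, hc]; omega
    set d0 := D.max' hne with hd0
    have h0 : d0 ∈ D := D.max'_mem hne
    have h1 : (D.erase d0).card = n := by rw [card_erase_of_mem h0, hc]; omega
    have h2 : ∀ d ∈ D.erase d0, d ≤ d0 - 1 := by
      intro d hd
      rw [mem_erase] at hd
      have := D.le_max' d hd.2
      omega
    have ih := sum_le_top n (D.erase d0) (d0 - 1) h1 h2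
    have e1 := add_sum_erase D (fun z => z) h0
    have hM0 := hM d0 h0
    have e2 : ∑ d ∈ D, d = d0 + ∑ d ∈ D.erase d0, d := e1.symm
    rw [e2]
    rcases n with _ | n
    · rw [card_eq_zero] at h1
      rw [h1]
      simp
      omega
    · have hd1 : 1 ≤ d0 := by
        by_contra hcon
        have : D ⊆ {0} := fun d hd => by
          have := D.le_max' d hd
          rw [mem_singleton]
          omega
        have := card_le_card this
        rw [card_singleton] at this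
        omega
      obtain ⟨d1, hd1'⟩ : ∃ d1, d0 = d1 + 1 := ⟨d0 - 1, by omega⟩
      rw [hd1'] at ih hM0 ⊢
      rw [Nat.add_sub_cancel] at ih ⊢
      rw [Nat.add_sub_cancel] at ih
      have : 2 * (n + 1 + 1) * (d1 + 1) ≤ 2 * (n + 1 + 1) * M := Nat.mul_le_mul_left _ hM0
      nlinarith

theorem card_le_max {n : ℕ} {D : Finset ℕ} {M : ℕ} (hc : D.card = n) (h1 : ∀ d ∈ D, 1 ≤ d)
    (hM : ∀ d ∈ D, d ≤ M) : n ≤ M := by
  have : D ⊆ Icc 1 M := fun d hd => mem_Icc.2 ⟨h1 d hd, hM d hd⟩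
  have := card_le_card this
  rw [hc, Nat.card_Icc] at this
  omega

theorem sum_ge_tri : ∀ (n : ℕ) (D : Finset ℕ), D.card = n → (∀ d ∈ D, 1 ≤ d) →
    n * (n + 1) ≤ 2 * ∑ d ∈ D, d
  | 0, D, _, _ => by simp
  | n + 1, D, hc, h1 => by
    have hne : D.Nonempty := by rw [← card_pos, hc]; omega
    set d0 := D.max' hne with hd0
    have h0 : d0 ∈ D := D.max'_mem hne
    have hc1 : (D.erase d0).card = n := by rw [card_erase_of_mem h0, hc]; omega
    have ih := sum_ge_tri n (D.erase d0) hc1 fun d hd => h1 d (mem_of_mem_erase hd)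
    have e1 : ∑ d ∈ D, d = d0 + ∑ d ∈ D.erase d0, d := (add_sum_erase D (fun z => z) h0).symm
    have hd : n + 1 ≤ d0 := card_le_max hc h1 fun d hd => D.le_max' d hd
    rw [e1]
    nlinarith

/-- **The product over the holes**, upper bound. -/
theorem hole_le (q : ℝ) (hq : 0 ≤ q) : ∀ (a : ℕ) (D : Finset ℕ), D.card = a + 1 →
    (∀ d ∈ D, 1 ≤ d) → ∀ σ : ℝ, ((a : ℝ) + 1) * σ = (∑ d ∈ D, (d : ℝ)) - (a + 1) * (a + 2) / 2 →
    ∏ d ∈ D, (((d : ℝ) + q) / (d + q + 1)) ≤ (σ + q + 1) / (σ + q + 1 + (a + 1))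
  | 0, D, hc, h1, σ, hσ => by
    obtain ⟨d, rfl⟩ := card_eq_one.1 hc
    rw [prod_singleton]
    rw [sum_singleton] at hσ
    have : σ = d - 1 := by push_cast at hσ; linarith
    rw [this]
    refine le_of_eq ?_
    congr 1
    · ring
    · push_cast; ring
  | a + 1, D, hc, h1, σ, hσ => by
    have hne : D.Nonempty := by rw [← card_pos, hc]; omega
    set M := D.max' hne with hMd
    have h0 : M ∈ D := D.max'_mem hne
    have hc1 : (D.erase M).card = a + 1 := by rw [card_erase_of_mem h0, hc]; omega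
    have h1' : ∀ d ∈ D.erase M, 1 ≤ d := fun d hd => h1 d (mem_of_mem_erase hd)
    have hS : ∑ d ∈ D, (d : ℝ) = M + ∑ d ∈ D.erase M, (d : ℝ) :=
      (add_sum_erase D (fun z => (z : ℝ)) h0).symm
    obtain ⟨σ', hσ'⟩ : ∃ σ' : ℝ, ((a : ℝ) + 1) * σ' = (∑ d ∈ D.erase M, (d : ℝ)) -
        (a + 1) * (a + 2) / 2 := ⟨((∑ d ∈ D.erase M, (d : ℝ)) - (a + 1) * (a + 2) / 2) / (a + 1), by
      field_simp⟩
    have ih := hole_le q hq a (D.erase M) hc1 h1' σ' hσ'
    -- `σ' ≥ 0`, `σ' ≤ σ`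
    have ha : (0 : ℝ) ≤ a := Nat.cast_nonneg a
    have t1 : (((a + 1) * (a + 1 + 1) : ℕ) : ℝ) ≤ ((2 * ∑ d ∈ D.erase M, d : ℕ) : ℝ) := by
      exact_mod_cast sum_ge_tri (a + 1) (D.erase M) hc1 h1'
    push_cast at t1
    have s0 : 0 ≤ σ' := by
      have : 0 ≤ ((a : ℝ) + 1) * σ' := by rw [hσ']; linarith
      exact nonneg_of_mul_nonneg_right this (by linarith)
    have t2 : ((2 * ∑ d ∈ D, d + (a + 1 + 1) * (a + 1 + 1 - 1) : ℕ) : ℝ) ≤
        ((2 * (a + 1 + 1) * M : ℕ) : ℝ) := by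
      exact_mod_cast sum_le_top (a + 1 + 1) D M hc fun d hd => D.le_max' d hd
    rw [Nat.add_sub_cancel] at t2
    push_cast at t2
    push_cast at hσ
    have s1 : σ ≤ (M : ℝ) - (a + 2) := by
      have : ((a : ℝ) + 1 + 1) * σ ≤ (a + 1 + 1) * ((M : ℝ) - (a + 2)) := by
        rw [hσ]
        linarith
      exact le_of_mul_le_mul_left this (by linarith)
    have s2 : ((a : ℝ) + 2) * σ = (a + 1) * σ' + ((M : ℝ) - (a + 2)) := by
      rw [hσ', show (a : ℝ) + 2 = a + 1 + 1 by ring, hσ, hS]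
      ring
    obtain ⟨δ, hδ⟩ : ∃ δ : ℝ, δ = σ - σ' := ⟨_, rfl⟩
    have s3 : 0 ≤ δ := by
      have : 0 ≤ ((a : ℝ) + 1) * δ := by rw [hδ]; linarith
      exact nonneg_of_mul_nonneg_right this (by linarith)
    have hM' : (M : ℝ) = (a + 2) + σ + (a + 1) * δ := by
      rw [hδ]; linarith
    rw [← mul_prod_erase D _ h0]
    have hpos : 0 < (M : ℝ) + q + 1 := by positivity
    obtain ⟨w, hw⟩ : ∃ w : ℝ, w = σ + q + 1 := ⟨_, rfl⟩
    have hw0 : 0 < w := by rw [hw]; linarith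
    have e1 : σ' + q + 1 = w - δ := by rw [hw, hδ]; ring
    have hu : 0 < w - δ := by rw [← e1]; linarith
    rw [e1] at ih
    calc ((M : ℝ) + q) / (M + q + 1) * ∏ d ∈ D.erase M, (((d : ℝ) + q) / (d + q + 1))
        ≤ ((M : ℝ) + q) / (M + q + 1) * ((w - δ) / (w - δ + (a + 1))) :=
          mul_le_mul_of_nonneg_left ih (by positivity)
      _ ≤ w / (w + (a + 1 + 1)) := by
          rw [div_mul_div_comm, div_le_div_iff₀ (by positivity) (by positivity), hM',
            show σ = w - q - 1 by rw [hw]; ring]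
          have : 0 ≤ ((a : ℝ) + 1) * (a + 2) * δ * (1 + δ) := by positivity
          nlinarith
      _ = _ := by rw [hw]; push_cast; ring

/-- **The product over the holes**, lower bound. -/
theorem hole_ge (q : ℝ) (hq : 0 ≤ q) : ∀ (a : ℕ) (D : Finset ℕ), D.card = a →
    (∀ d ∈ D, 1 ≤ d) → (q + 1) / (q + 1 + a) ≤ ∏ d ∈ D, (((d : ℝ) + q) / (d + q + 1))
  | 0, D, hc, _ => by
    rw [card_eq_zero] at hc
    subst hc
    rw [prod_empty, Nat.cast_zero, add_zero, div_self (by linarith)]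
  | a + 1, D, hc, h1 => by
    have hne : D.Nonempty := by rw [← card_pos, hc]; omega
    set M := D.max' hne with hMd
    have h0 : M ∈ D := D.max'_mem hne
    have hc1 : (D.erase M).card = a := by rw [card_erase_of_mem h0, hc]; omega
    have ih := hole_ge q hq a (D.erase M) hc1 fun d hd => h1 d (mem_of_mem_erase hd)
    have hd : a + 1 ≤ M := card_le_max hc h1 fun d hd => D.le_max' d hd
    have hd' : (a : ℝ) + 1 ≤ M := by exact_mod_cast hd
    have ha : (0 : ℝ) ≤ a := Nat.cast_nonneg a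
    rw [← mul_prod_erase D _ h0]
    calc (q + 1) / (q + 1 + ((a + 1 : ℕ) : ℝ))
        = ((a + 1 + q) / (a + 1 + q + 1)) * ((q + 1) / (q + 1 + a)) := by
          push_cast
          have : (a : ℝ) + 1 + q ≠ 0 := by positivity
          have : q + 1 + (a : ℝ) ≠ 0 := by positivity
          field_simp
          ring
      _ ≤ (((M : ℝ) + q) / (M + q + 1)) * ((q + 1) / (q + 1 + a)) := by
          refine mul_le_mul_of_nonneg_right ?_ (by positivity)
          rw [div_le_div_iff₀ (by positivity) (by positivity)]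
          nlinarith
      _ ≤ _ := mul_le_mul_of_nonneg_left ih (by positivity)

/-! ## the ratio for the largest bead -/

theorem prod_range_ratio (q : ℝ) (hq : 0 ≤ q) : ∀ x : ℕ,
    ∏ y ∈ range x, (((x : ℝ) + q + 1 - y) / (x + q - y)) = (x + q + 1) / (q + 1)
  | 0 => by
    rw [range_zero, prod_empty]
    push_cast
    rw [zero_add, div_self (by linarith)]
  | x + 1 => by
    rw [prod_range_succ']
    have ih := prod_range_ratio q hq x
    have e1 : ∏ k ∈ range x, ((((x + 1 : ℕ) : ℝ) + q + 1 - ((k + 1 : ℕ) : ℝ)) /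
        (((x + 1 : ℕ) : ℝ) + q - ((k + 1 : ℕ) : ℝ))) =
        ∏ y ∈ range x, (((x : ℝ) + q + 1 - y) / (x + q - y)) := by
      refine prod_congr rfl fun y _ => ?_
      push_cast
      congr 1 <;> ring
    rw [e1, ih]
    have hx : (0 : ℝ) ≤ x := Nat.cast_nonneg x
    have h1 : (x : ℝ) + q + 1 ≠ 0 := by positivity
    have h2 : q + 1 ≠ 0 := by positivity
    push_cast
    have h3 : (x : ℝ) + 1 + q ≠ 0 := by positivity
    field_simp
    ring

/-- one step in `p` -/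
theorem Rr_succ {B : Finset ℕ} {x : ℕ} (hmax : ∀ y ∈ B, y ≤ x) (p : ℕ) :
    Rr B x (p + 1) = Rr B x p * ((∏ y ∈ B.erase x, (((x : ℝ) + p + 1 - y) / (x + p - y))) /
      (x + p + 1)) := by
  unfold Rr
  have hf : (((x + (p + 1)).factorial : ℕ) : ℝ) = ((x : ℝ) + p + 1) * ((x + p).factorial : ℝ) := by
    rw [show x + (p + 1) = (x + p) + 1 by omega, Nat.factorial_succ]
    push_cast
    ring
  have hp : ∏ y ∈ B.erase x, (((x : ℝ) + ((p + 1 : ℕ) : ℝ) - y) / ((x : ℝ) - y)) =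
      (∏ y ∈ B.erase x, (((x : ℝ) + p - y) / ((x : ℝ) - y))) *
        ∏ y ∈ B.erase x, (((x : ℝ) + p + 1 - y) / (x + p - y)) := by
    rw [← prod_mul_distrib]
    refine prod_congr rfl fun y hy => ?_
    have hyx : (y : ℝ) + 1 ≤ x := by
      rw [mem_erase] at hy
      have := hmax y hy.2
      exact_mod_cast (by omega : y + 1 ≤ x)
    have h1 : (x : ℝ) - y ≠ 0 := by
      have : 0 < (x : ℝ) - y := by linarith
      exact this.ne'
    have h2 : (x : ℝ) + p - y ≠ 0 := by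
      have : 0 < (x : ℝ) + p - y := by
        have := Nat.cast_nonneg (α := ℝ) p
        linarith
      exact this.ne'
    push_cast
    field_simp
    ring
  rw [hf, hp]
  have g1 : ((x + p).factorial : ℝ) ≠ 0 := by exact_mod_cast Nat.factorial_ne_zero _
  have g2 : (x : ℝ) + p + 1 ≠ 0 := by positivity
  field_simp

/-- the product over the other beads by the product over the holes -/
theorem prod_holes {k a b : ℕ} {C : Finset ℕ} (hc : C.card = k)
    (hs : ∑ y ∈ C, y = ∑ y ∈ range k, y + b) (hb : ∀ y ∈ C, y < k + a) :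
    ∃ D : Finset ℕ, D.card = a ∧ (∀ d ∈ D, 1 ≤ d) ∧
      (∑ d ∈ D, (d : ℝ)) = (a : ℝ) * (a + 1) / 2 + b ∧
      ∀ p : ℕ, (∏ y ∈ C, ((((k + a : ℕ) : ℝ) + p + 1 - y) / (((k + a : ℕ) : ℝ) + p - y))) /
        (((k + a : ℕ) : ℝ) + p + 1) =
        (∏ d ∈ D, (((d : ℝ) + p) / (d + p + 1))) / (p + 1) := by
  have hsub : C ⊆ range (k + a) := fun y hy => mem_range.2 (hb y hy)
  set H := range (k + a) \ C with hH
  have hHc : H.card = a := by rw [hH, card_sdiff_of_subset hsub, card_range, hc]; omega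
  have hHlt : ∀ h ∈ H, h < k + a := fun h hh => mem_range.1 (mem_sdiff.1 hh).1
  set D := H.image (fun h => k + a - h) with hD
  have hinj : ∀ u ∈ H, ∀ v ∈ H, k + a - u = k + a - v → u = v := fun u hu v hv h => by
    have := hHlt u hu
    have := hHlt v hv
    omega
  refine ⟨D, ?_, ?_, ?_, ?_⟩
  · rw [hD, card_image_of_injOn hinj, hHc]
  · intro d hd
    rw [hD, mem_image] at hd
    obtain ⟨h, hh, rfl⟩ := hd
    have := hHlt h hh
    omega
  · rw [hD, sum_image hinj]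
    have e1 : ∑ h ∈ H, (((k + a - h : ℕ)) : ℝ) = a * ((k : ℝ) + a) - ∑ h ∈ H, (h : ℝ) := by
      rw [← hHc, ← nsmul_eq_mul, ← sum_const, ← sum_sub_distrib]
      refine sum_congr rfl fun h hh => ?_
      have := hHlt h hh
      rw [Nat.cast_sub (by omega)]
      rw [hHc]
      push_cast
      ring
    have e2 : ∑ h ∈ H, (h : ℝ) + ∑ y ∈ C, (y : ℝ) = ∑ y ∈ range (k + a), (y : ℝ) := by
      rw [hH, sum_sdiff hsub]
    have e3 : ∑ y ∈ C, (y : ℝ) = ∑ y ∈ range k, (y : ℝ) + b := by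
      have h0 := congrArg (fun n : ℕ => (n : ℝ)) hs
      push_cast at h0
      exact h0
    have e4 : ∀ n : ℕ, ∑ y ∈ range n, (y : ℝ) = n * (n - 1) / 2 := by
      intro n
      induction n with
      | zero => simp
      | succ n ih => rw [sum_range_succ, ih]; push_cast; ring
    rw [e1]
    rw [e3, e4, e4] at e2
    push_cast at e2
    linarith
  · intro p
    have hp : (0 : ℝ) ≤ p := Nat.cast_nonneg p
    have h1 := prod_range_ratio (p : ℝ) hp (k + a)
    rw [← prod_sdiff hsub, ← hH] at h1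
    have hx : (0 : ℝ) < ((k + a : ℕ) : ℝ) + p + 1 := by positivity
    have hp1 : (0 : ℝ) < (p : ℝ) + 1 := by positivity
    have h2 : (∏ h ∈ H, ((((k + a : ℕ) : ℝ) + p + 1 - h) / (((k + a : ℕ) : ℝ) + p - h))) *
        ∏ d ∈ D, (((d : ℝ) + p) / (d + p + 1)) = 1 := by
      rw [hD, prod_image hinj, ← prod_mul_distrib]
      refine prod_eq_one fun h hh => ?_
      have hlt := hHlt h hh
      have e : (((k + a - h : ℕ)) : ℝ) = ((k + a : ℕ) : ℝ) - h := by
        rw [Nat.cast_sub (by omega)]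
      have hlt' : (h : ℝ) + 1 ≤ ((k + a : ℕ) : ℝ) := by exact_mod_cast (by omega : h + 1 ≤ k + a)
      rw [e]
      have f1 : ((k + a : ℕ) : ℝ) + p + 1 - h ≠ 0 := by
        have : 0 < ((k + a : ℕ) : ℝ) + p + 1 - h := by linarith
        exact this.ne'
      have f2 : ((k + a : ℕ) : ℝ) + p - h ≠ 0 := by
        have : 0 < ((k + a : ℕ) : ℝ) + p - h := by linarith
        exact this.ne'
      rw [show ((k + a : ℕ) : ℝ) - h + p = ((k + a : ℕ) : ℝ) + p - h by ring,
        show ((k + a : ℕ) : ℝ) + p - h + 1 = ((k + a : ℕ) : ℝ) + p + 1 - h by ring]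
      field_simp
    set PH := ∏ h ∈ H, ((((k + a : ℕ) : ℝ) + p + 1 - h) / (((k + a : ℕ) : ℝ) + p - h))
    set PC := ∏ y ∈ C, ((((k + a : ℕ) : ℝ) + p + 1 - y) / (((k + a : ℕ) : ℝ) + p - y))
    set PD := ∏ d ∈ D, (((d : ℝ) + p) / (d + p + 1))
    have h3 : PC = PD * ((((k + a : ℕ) : ℝ) + p + 1) / (p + 1)) := by
      calc PC = (PH * PD) * PC := by rw [h2, one_mul]
        _ = PD * (PH * PC) := by ring
        _ = _ := by rw [h1]
    rw [h3]
    field_simp

/-- **the ratio, upper bound** -/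
theorem Rr_ratio_le {k a b : ℕ} (ha : 1 ≤ a) {B : Finset ℕ} (hc : (B.erase (k + a)).card = k)
    (hs : ∑ y ∈ B.erase (k + a), y = ∑ y ∈ range k, y + b)
    (hb : ∀ y ∈ B.erase (k + a), y < k + a) (hmax : ∀ y ∈ B, y ≤ k + a) (p : ℕ) :
    Rr B (k + a) (p + 1) * (((p : ℝ) + 1) * ((a : ℝ) ^ 2 + (a + b) + p * a)) ≤
      Rr B (k + a) p * ((a + b) + p * a) := by
  obtain ⟨D, hDc, hD1, hDs, hDp⟩ := prod_holes hc hs hb
  rw [Rr_succ hmax p, hDp p]
  obtain ⟨a', rfl⟩ : ∃ a', a = a' + 1 := ⟨a - 1, by omega⟩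
  have ha' : (0 : ℝ) ≤ a' := Nat.cast_nonneg a'
  have hb' : (0 : ℝ) ≤ b := Nat.cast_nonneg b
  have hp : (0 : ℝ) ≤ p := Nat.cast_nonneg p
  have h1 := hole_le (p : ℝ) hp a' D hDc hD1 ((b : ℝ) / (a' + 1)) (by
    rw [hDs]
    push_cast
    field_simp
    ring)
  have hpos := Rr_pos hmax p
  set PD := ∏ d ∈ D, (((d : ℝ) + p) / (d + p + 1))
  have e : ((b : ℝ) / (a' + 1) + p + 1) / ((b : ℝ) / (a' + 1) + p + 1 + (a' + 1)) =
      (((a' + 1 : ℕ) : ℝ) + b + p * ((a' + 1 : ℕ) : ℝ)) /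
      ((((a' + 1 : ℕ) : ℝ)) ^ 2 + (((a' + 1 : ℕ) : ℝ) + b) + p * ((a' + 1 : ℕ) : ℝ)) := by
    push_cast
    field_simp
    ring
  rw [e, le_div_iff₀ (by positivity)] at h1
  have h2 : Rr B (k + (a' + 1)) p * (PD / (p + 1)) * (((p : ℝ) + 1) *
      ((((a' + 1 : ℕ) : ℝ)) ^ 2 + (((a' + 1 : ℕ) : ℝ) + b) + p * ((a' + 1 : ℕ) : ℝ))) =
      Rr B (k + (a' + 1)) p * (PD * ((((a' + 1 : ℕ) : ℝ)) ^ 2 + (((a' + 1 : ℕ) : ℝ) + b) +
        p * ((a' + 1 : ℕ) : ℝ))) := by
    field_simp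
  rw [h2]
  exact mul_le_mul_of_nonneg_left h1 hpos.le

/-- **the ratio, lower bound** -/
theorem Rr_ratio_ge {k a b : ℕ} {B : Finset ℕ} (hc : (B.erase (k + a)).card = k)
    (hs : ∑ y ∈ B.erase (k + a), y = ∑ y ∈ range k, y + b)
    (hb : ∀ y ∈ B.erase (k + a), y < k + a) (hmax : ∀ y ∈ B, y ≤ k + a) (p : ℕ) :
    Rr B (k + a) p ≤ Rr B (k + a) (p + 1) * ((a : ℝ) + p + 1) := by
  obtain ⟨D, hDc, hD1, -, hDp⟩ := prod_holes hc hs hb
  rw [Rr_succ hmax p, hDp p]
  have hp : (0 : ℝ) ≤ p := Nat.cast_nonneg p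
  have h1 := hole_ge (p : ℝ) hp a D hDc hD1
  have hpos := Rr_pos hmax p
  set PD := ∏ d ∈ D, (((d : ℝ) + p) / (d + p + 1))
  rw [div_le_iff₀ (by positivity)] at h1
  have h2 : Rr B (k + a) p * (PD / (p + 1)) * ((a : ℝ) + p + 1) =
      Rr B (k + a) p * ((PD * ((p : ℝ) + 1 + a)) / (p + 1)) := by ring
  rw [h2]
  refine le_mul_of_one_le_right hpos.le ?_
  rw [le_div_iff₀ (by positivity)]
  linarith

end Pool.JM
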