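import Pool.Agent.Work.MP_46fa68_R.Kern

/-!
# MP_46fa68_co, U2: the sum and the product of the Jucys-Murphy elements, the trivial component

`Y N n = X_1 ... X_(n-1)` and `W N n = X_0 + ... + X_(n-1)` (unshifted) are elements `G` of the centre; the
first is supported on `n`-cycles, the second is the indicator of the transpositions. The idempotent of the
one-row shape of level `m` is the average over `S_m`.
-/

set_option autoImplicit false

open Finset Equiv

namespace Pool.JM

variable {N : ℕ}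

theorem X_split (c : ℝ) (n : ℕ) : (X c n : Mat N) = c • 1 + X 0 n := by
  unfold X
  rw [zero_smul, zero_add]

theorem X0_Pc {M n : ℕ} (hM : N < M) (hn : n < N) {C : Finset ℕ} (hC : C ∈ Lv M n) {x : ℕ}
    (hx : x ∈ ad C) : X 0 n * Pc N M n C x = ((x : ℝ) - ((M : ℝ) - 1)) • Pc N M n C x := by
  have h1 := (good hM n (by omega)).eig hn hC hx
  rw [X_split, add_mul, Matrix.smul_mul, one_mul] at h1
  rw [sub_smul, ← h1]
  abel

/-! ## the product -/

/-- `X_1 ... X_(n-1)` -/
noncomputable def Y (N : ℕ) : ℕ → Mat N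
  | 0 => 1
  | 1 => 1
  | n + 2 => Y N (n + 1) * X 0 (n + 1)

/-- contribution of a bead -/
noncomputable def gb (M b : ℕ) : ℝ := ∏ j ∈ (range b).erase (M - 1), ((j : ℝ) - ((M : ℝ) - 1))

theorem gb_ne {M : ℕ} (hM : 0 < M) (b : ℕ) : gb M b ≠ 0 := by
  unfold gb
  refine Finset.prod_ne_zero_iff.2 fun j hj => ?_
  rw [mem_erase] at hj
  rw [sub_ne_zero]
  intro h
  apply hj.1
  have : (j : ℝ) = ((M - 1 : ℕ) : ℝ) := by rw [h, Nat.cast_sub hM, Nat.cast_one]
  exact_mod_cast this

theorem gb_succ {M u : ℕ} (hu : u ≠ M - 1) :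
    gb M (u + 1) = gb M u * ((u : ℝ) - ((M : ℝ) - 1)) := by
  unfold gb
  rw [Finset.range_add_one, Finset.erase_insert_of_ne hu, Finset.prod_insert, mul_comm]
  intro h
  exact absurd (mem_of_mem_erase h) (by simp)

theorem gb_diag {M : ℕ} : gb M (M - 1 + 1) = gb M (M - 1) := by
  unfold gb
  rw [Finset.range_add_one, Finset.erase_insert (by simp)]
  congr 1
  rw [Finset.erase_eq_of_notMem (by simp)]

/-- product over the beads -/
noncomputable def Ph (M : ℕ) (B : Finset ℕ) : ℝ := ∏ b ∈ B, gb M b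

theorem Ph_ne {M : ℕ} (hM : 0 < M) (B : Finset ℕ) : Ph M B ≠ 0 :=
  Finset.prod_ne_zero_iff.2 fun b _ => gb_ne hM b

theorem Ph_mv {M : ℕ} {C : Finset ℕ} {u : ℕ} (hu : u ∈ C) (hu1 : u + 1 ∉ C) :
    Ph M (mv C u) * gb M u = Ph M C * gb M (u + 1) := by
  have n1 : u + 1 ∉ C.erase u := fun h => hu1 (mem_of_mem_erase h)
  unfold Ph mv
  rw [prod_insert n1, ← mul_prod_erase C _ hu]
  ring

/-- size of the diagonal -/
def dg (M : ℕ) (B : Finset ℕ) : ℕ := (B.filter fun b => M ≤ b).card

theorem dg_mv {M : ℕ} {C : Finset ℕ} {u : ℕ} (hu : u ∈ C) (hu1 : u + 1 ∉ C) (hne : u ≠ M - 1) :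
    dg M (mv C u) = dg M C := by
  have n1 : u + 1 ∉ C.erase u := fun h => hu1 (mem_of_mem_erase h)
  unfold dg
  rw [Finset.card_filter, Finset.card_filter]
  have e : mv C u = insert (u + 1) (C.erase u) := rfl
  rw [e, sum_insert n1, ← add_sum_erase C _ hu]
  congr 1
  refine if_congr ?_ rfl rfl
  omega

theorem dg_mv_diag {M : ℕ} (hM : 0 < M) {C : Finset ℕ} (hu : M - 1 ∈ C) (hu1 : M - 1 + 1 ∉ C) :
    dg M (mv C (M - 1)) = dg M C + 1 := by
  have n1 : M - 1 + 1 ∉ C.erase (M - 1) := fun h => hu1 (mem_of_mem_erase h)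
  unfold dg
  rw [Finset.card_filter, Finset.card_filter]
  have e : mv C (M - 1) = insert (M - 1 + 1) (C.erase (M - 1)) := rfl
  rw [e, sum_insert n1, ← add_sum_erase C _ hu, if_pos (by omega), if_neg (by omega), zero_add,
    add_comm]

theorem dg_pos {M n : ℕ} (hn : 1 ≤ n) {C : Finset ℕ} (hC : C ∈ Lv M n) : 1 ≤ dg M C := by
  by_contra h
  have h0 : dg M C = 0 := by omega
  unfold dg at h0
  rw [Finset.card_eq_zero, Finset.filter_eq_empty_iff] at h0
  have hsub : C ⊆ range M := fun y hy => by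
    rw [mem_range]
    have := h0 hy
    omega
  have he : C = range M := Finset.eq_of_subset_of_card_le hsub (by
    rw [card_range, (Lv_spec hC).1])
  have := (Lv_spec hC).2.2.2
  rw [he] at this
  omega

/-- the product of the non-zero-diagonal contents -/
noncomputable def yv (M : ℕ) (B : Finset ℕ) : ℝ :=
  if dg M B ≤ 1 then Ph M B / Ph M (range M) else 0

theorem yv_mv {M n : ℕ} (hM : 0 < M) (hn : 1 ≤ n) {C : Finset ℕ} (hC : C ∈ Lv M n) {u : ℕ}
    (hu : u ∈ ad C) : yv M (mv C u) = yv M C * ((u : ℝ) - ((M : ℝ) - 1)) := by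
  obtain ⟨hu, hu1⟩ := mem_ad.1 hu
  unfold yv
  by_cases hd : u = M - 1
  · subst hd
    have h1 := dg_mv_diag hM hu hu1
    have h2 := dg_pos hn hC
    rw [if_neg (by omega), Nat.cast_sub hM, Nat.cast_one, sub_self, mul_zero]
  · rw [dg_mv hu hu1 hd]
    split_ifs
    · have h1 := Ph_mv (M := M) hu hu1
      rw [gb_succ hd, ← mul_assoc, mul_right_comm] at h1
      have h2 := mul_right_cancel₀ (gb_ne hM u) h1
      rw [h2]
      ring
    · rw [zero_mul]

theorem ad_range {M : ℕ} (hM : 0 < M) : ad (range M) = {M - 1} := by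
  ext x
  rw [mem_ad, mem_singleton, mem_range, mem_range]
  omega

theorem Y_P {M : ℕ} (hM : N < M) : ∀ n, n + 1 ≤ N → ∀ B ∈ Lv M (n + 1),
    Y N (n + 1) * P N M (n + 1) B = yv M B • P N M (n + 1) B
  | 0, _, B, hB => by
    have hM0 : 0 < M := by omega
    have e : Y N 1 = 1 := rfl
    simp only [Lv, singleton_biUnion, ad_range hM0, image_singleton, mem_singleton] at hB
    have h1 : yv M B = 1 := by
      rw [hB]
      have hr : M - 1 ∈ range M := mem_range.2 (by omega)
      have hr1 : M - 1 + 1 ∉ range M := by rw [mem_range]; omega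
      have h2 := dg_mv_diag hM0 hr hr1
      have h3 : dg M (range M) = 0 := by
        unfold dg
        rw [Finset.card_eq_zero, Finset.filter_eq_empty_iff]
        intro x hx
        have := mem_range.1 hx
        omega
      have h4 := Ph_mv (M := M) hr hr1
      rw [gb_diag] at h4
      have h5 := mul_right_cancel₀ (gb_ne hM0 (M - 1)) h4
      unfold yv
      rw [if_pos (by omega), h5, div_self (Ph_ne hM0 _)]
    rw [show (0 : ℕ) + 1 = 1 from rfl, e, one_mul, h1, one_smul]
  | n + 1, h, B, _ => by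
    have hM0 : 0 < M := by omega
    have e : Y N (n + 1 + 1) = Y N (n + 1) * X 0 (n + 1) := rfl
    rw [P_succ, Finset.mul_sum, Finset.smul_sum]
    refine Finset.sum_congr rfl fun q hq => ?_
    obtain ⟨hC, hu⟩ := mem_sigma.1 hq
    split_ifs with hB
    · have e2 : Y N (n + 1) * Pc N M (n + 1) q.1 q.2 = yv M q.1 • Pc N M (n + 1) q.1 q.2 := by
        unfold Pc
        rw [← mul_assoc, Y_P hM n (by omega) q.1 hC, Matrix.smul_mul]
      rw [e, mul_assoc]
      erw [X0_Pc hM (by omega) hC hu]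
      rw [Matrix.mul_smul]
      erw [e2]
      rw [smul_smul, ← hB, yv_mv hM0 (by omega) hC hu, mul_comm]
    · rw [mul_zero, smul_zero]

theorem G_yv {M : ℕ} (hM : N < M) {m : ℕ} (hm : 1 ≤ m) (hmN : m ≤ N) :
    G N M (yv M) m = Y N m := by
  obtain ⟨n, rfl⟩ : ∃ n, m = n + 1 := ⟨m - 1, by omega⟩
  unfold G
  rw [← Finset.sum_congr rfl fun B hB => Y_P hM n hmN B hB, ← Finset.mul_sum,
    (good (N := N) hM (n + 1) hmN).tot, mul_one]

/-! ## the sum -/

/-- `X_0 + ... + X_(n-1)` -/
noncomputable def W (N n : ℕ) : Mat N := ∑ k ∈ range n, X 0 k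

/-- the content sum -/
noncomputable def cs1 (M : ℕ) (B : Finset ℕ) : ℝ :=
  ∑ b ∈ B, ∑ j ∈ range b, ((j : ℝ) - ((M : ℝ) - 1)) -
    ∑ b ∈ range M, ∑ j ∈ range b, ((j : ℝ) - ((M : ℝ) - 1))

theorem cs1_mv {M : ℕ} {C : Finset ℕ} {u : ℕ} (hu : u ∈ C) (hu1 : u + 1 ∉ C) :
    cs1 M (mv C u) = cs1 M C + ((u : ℝ) - ((M : ℝ) - 1)) := by
  have n1 : u + 1 ∉ C.erase u := fun h => hu1 (mem_of_mem_erase h)
  have e : mv C u = insert (u + 1) (C.erase u) := rfl
  unfold cs1
  rw [e, sum_insert n1, ← add_sum_erase C _ hu, sum_range_succ]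
  ring

theorem W_P {M : ℕ} (hM : N < M) : ∀ n, n ≤ N → ∀ B,
    W N n * P N M n B = cs1 M B • P N M n B
  | 0, _, B => by
    have e : P N M 0 B = if B = range M then 1 else 0 := rfl
    have e' : W N 0 = 0 := rfl
    rw [e, e', zero_mul]
    split_ifs with h
    · rw [h]
      unfold cs1
      rw [sub_self, zero_smul]
    · rw [smul_zero]
  | n + 1, h, B => by
    have e : W N (n + 1) = W N n + X 0 n := by unfold W; rw [sum_range_succ]
    rw [P_succ, Finset.mul_sum, Finset.smul_sum]
    refine Finset.sum_congr rfl fun q hq => ?_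
    obtain ⟨hC, hu⟩ := mem_sigma.1 hq
    split_ifs with hB
    · have e2 : W N n * Pc N M n q.1 q.2 = cs1 M q.1 • Pc N M n q.1 q.2 := by
        unfold Pc
        rw [← mul_assoc, W_P hM n (by omega) q.1, Matrix.smul_mul]
      rw [e, add_mul]
      erw [X0_Pc hM (by omega) hC hu, e2]
      rw [← add_smul, ← hB, cs1_mv (mem_ad.1 hu).1 (mem_ad.1 hu).2]
    · rw [mul_zero, smul_zero]

theorem G_cs1 {M : ℕ} (hM : N < M) {m : ℕ} (hmN : m ≤ N) : G N M (cs1 M) m = W N m := by
  unfold G
  rw [← Finset.sum_congr rfl fun B _ => W_P hM m hmN B, ← Finset.mul_sum,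
    (good (N := N) hM m hmN).tot, mul_one]

theorem cs1_Rw {M : ℕ} (hM : 0 < M) : ∀ m, cs1 M (Rw M m) = (m.choose 2 : ℝ)
  | 0 => by
    rw [Rw_zero hM]
    unfold cs1
    simp
  | m + 1 => by
    have h := Rw_ad M m
    rw [← Rw_mv, cs1_mv (mem_ad.1 h).1 (mem_ad.1 h).2, cs1_Rw hM m, Nat.choose_succ_left _ _ (by omega)]
    push_cast [Nat.cast_sub hM]
    simp only [Nat.choose_one_right]
    ring

/-! ## supports -/

/-- the coefficients of `W` -/
theorem W_apply {n : ℕ} (g : Perm (Fin N)) (hg : Sn n g) :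
    W N n g 1 = if g.support.card = 2 then 1 else 0 := by
  have e : W N n g 1 = ∑ i : Fin N, ∑ j : Fin N,
      if ((i : ℕ) < j ∧ (j : ℕ) < n) ∧ g = swap i j then (1 : ℝ) else 0 := by
    unfold W
    rw [Matrix.sum_apply]
    have e1 : ∀ k ∈ range n, (X 0 k : Mat N) g 1 = ∑ i : Fin N, ∑ j : Fin N,
        if ((i : ℕ) < j ∧ (j : ℕ) = k) ∧ g = swap i j then (1 : ℝ) else 0 := by
      intro k _
      unfold X
      rw [zero_smul, zero_add, Matrix.sum_apply]
      refine Finset.sum_congr rfl fun i _ => ?_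
      rw [Matrix.sum_apply]
      refine Finset.sum_congr rfl fun j _ => ?_
      by_cases h : (i : ℕ) < j ∧ (j : ℕ) = k
      · rw [if_pos h]
        unfold U
        rw [mul_one]
        refine if_congr ?_ rfl rfl
        exact ⟨fun h' => ⟨h, h'⟩, fun h' => h'.2⟩
      · rw [if_neg h, if_neg fun h' => h h'.1]
        rfl
    rw [Finset.sum_congr rfl e1, Finset.sum_comm]
    refine Finset.sum_congr rfl fun i _ => ?_
    rw [Finset.sum_comm]
    refine Finset.sum_congr rfl fun j _ => ?_
    by_cases h : ((i : ℕ) < j ∧ (j : ℕ) < n) ∧ g = swap i j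
    · rw [if_pos h, Finset.sum_eq_single (j : ℕ)]
      · rw [if_pos ⟨⟨h.1.1, rfl⟩, h.2⟩]
      · intro b _ hb
        rw [if_neg fun h' => hb h'.1.2.symm]
      · intro h'
        exact absurd (mem_range.2 h.1.2) h'
    · rw [if_neg h]
      refine Finset.sum_eq_zero fun k hk => ?_
      rw [if_neg]
      rintro ⟨⟨h1, h2⟩, h3⟩
      exact h ⟨⟨h1, by rw [h2]; exact mem_range.1 hk⟩, h3⟩
  rw [e]
  by_cases hs : g.support.card = 2
  · rw [if_pos hs]
    rw [Perm.card_support_eq_two] at hs
    obtain ⟨x, y, hxy, rfl⟩ := hs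
    -- order the two points
    wlog hlt : (x : ℕ) < y generalizing x y
    · have hne : (x : ℕ) ≠ y := fun h => hxy (Fin.ext h)
      have := this y x hxy.symm (by rw [swap_comm]; exact hg) (by rw [swap_comm]; exact e) (by omega)
      rw [swap_comm]
      exact this
    have hyn : (y : ℕ) < n := by
      by_contra h
      have := hg y (by omega)
      rw [swap_apply_right] at this
      exact hxy this
    rw [Finset.sum_eq_single x, Finset.sum_eq_single y]
    · rw [if_pos ⟨⟨hlt, hyn⟩, rfl⟩]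
    · intro j _ hj
      rw [if_neg]
      rintro ⟨⟨h1, h2⟩, h3⟩
      apply hj
      have h4 : swap x y x = swap x j x := by rw [← h3]
      rw [swap_apply_left, swap_apply_left] at h4
      exact h4.symm
    · intro h; exact absurd (mem_univ _) h
    · intro i _ hi
      refine Finset.sum_eq_zero fun j _ => ?_
      rw [if_neg]
      rintro ⟨⟨h1, h2⟩, h3⟩
      have h4 : swap x y i = j := by rw [h3, swap_apply_left]
      have h5 : i ≠ j := fun h => by rw [h] at h1; exact lt_irrefl _ h1
      by_cases hiy : i = y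
      · rw [hiy, swap_apply_right] at h4
        rw [hiy, ← h4] at h1
        omega
      · rw [swap_apply_of_ne_of_ne hi hiy] at h4
        exact h5 h4
    · intro h; exact absurd (mem_univ _) h
  · rw [if_neg hs]
    refine Finset.sum_eq_zero fun i _ => Finset.sum_eq_zero fun j _ => ?_
    rw [if_neg]
    rintro ⟨⟨h1, h2⟩, h3⟩
    apply hs
    rw [h3, Perm.card_support_swap]
    intro h
    rw [h] at h1
    exact lt_irrefl _ h1

theorem cycle_step {α : Type*} [DecidableEq α] [Fintype α] {c : Perm α} (hc : c.IsCycle) {i k : α}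
    (hi : i ∈ c.support) (hk : k ∉ c.support) : (c * swap i k).IsCycle := by
  have hck : c k = k := by simpa using hk
  have hci : c i ∈ c.support := by
    rw [Perm.apply_mem_support]; exact hi
  have e1 : c * swap i k = swap k (c i) * c := by
    have := Equiv.swap_apply_apply c i k
    rw [hck] at this
    rw [swap_comm k, this]
    group
  have h2 := Perm.formPerm_toList c (c i)
  rw [hc.cycleOf_eq (by simpa using hci)] at h2
  have hmem : c i ∈ Perm.toList c (c i) := by
    rw [Perm.mem_toList_iff]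
    exact ⟨Perm.SameCycle.refl _ _, hci⟩
  -- the list starts with `c i`
  obtain ⟨l, hl⟩ : ∃ l, Perm.toList c (c i) = c i :: l := by
    unfold Perm.toList
    have hpos : 0 < (Perm.cycleOf c (c i)).support.card := by
      rw [hc.cycleOf_eq (by simpa using hci)]
      exact Finset.card_pos.2 ⟨_, hi⟩
    obtain ⟨n, hn⟩ : ∃ n, (Perm.cycleOf c (c i)).support.card = n + 1 := ⟨_, (Nat.succ_pred_eq_of_pos hpos).symm⟩
    rw [hn]
    exact ⟨_, rfl⟩
  have hnd := Perm.nodup_toList c (c i)
  have hkn : k ∉ Perm.toList c (c i) := by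
    intro h
    rw [Perm.mem_toList_iff] at h
    have := (Perm.SameCycle.mem_support_iff h.1).1 h.2
    exact hk this
  have h3 : swap k (c i) * c = (k :: c i :: l).formPerm := by
    rw [List.formPerm_cons_cons, ← hl, h2]
  rw [e1, h3]
  apply List.isCycle_formPerm
  · rw [List.nodup_cons, ← hl]
    exact ⟨hkn, hnd⟩
  · simp

theorem support_step {α : Type*} [DecidableEq α] [Fintype α] {c : Perm α} {i k : α}
    (hk : k ∉ c.support) (hik : i ≠ k) :
    (c * swap i k).support = insert i (insert k c.support) := by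
  have hck : c k = k := by simpa using hk
  ext x
  simp only [Perm.mem_support, Finset.mem_insert, Perm.mul_apply, ne_eq]
  by_cases hxi : x = i
  · subst hxi
    rw [swap_apply_left]
    simp only [true_or, iff_true]
    rw [hck]
    exact fun h => hik h.symm
  · by_cases hxk : x = k
    · subst hxk
      rw [swap_apply_right]
      simp only [true_or, or_true, iff_true]
      intro h
      apply hik
      apply c.injective
      rw [h, hck]
    · rw [swap_apply_of_ne_of_ne hxi hxk]
      simp [hxi, hxk]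

/-- the support of the product of the Jucys-Murphy elements -/
theorem Y_support : ∀ n, n + 2 ≤ N → ∀ g h : Perm (Fin N), Y N (n + 2) g h ≠ 0 →
    (g * h⁻¹).IsCycle ∧ (g * h⁻¹).support = univ.filter fun i : Fin N => (i : ℕ) < n + 2
  | 0, hN, g, h, hne => by
    have e : Y N 2 = X 0 1 := by
      have : Y N 2 = Y N 1 * X 0 1 := rfl
      rw [this, show Y N 1 = 1 from rfl, one_mul]
    rw [show (0 : ℕ) + 2 = 2 from rfl, e, X_eq 0 (by omega : 1 < N), zero_smul, zero_add,
      Matrix.sum_apply] at hne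
    obtain ⟨i, _, hi⟩ := Finset.exists_ne_zero_of_sum_ne_zero hne
    split_ifs at hi with hlt
    · unfold U at hi
      have hg : g = swap i ⟨1, by omega⟩ * h := by
        by_contra hcon
        exact hi (if_neg hcon)
      have e2 : g * h⁻¹ = swap i ⟨1, by omega⟩ := by rw [hg]; group
      have hi1 : i ≠ ⟨1, by omega⟩ := fun h' => by rw [h'] at hlt; simp at hlt
      rw [e2]
      refine ⟨Perm.isCycle_swap hi1, ?_⟩
      rw [Perm.support_swap hi1]
      ext x
      simp only [mem_insert, mem_singleton, mem_filter, mem_univ, true_and, Fin.ext_iff]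
      omega
    · exact absurd rfl hi
  | n + 1, hN, g, h, hne => by
    have hn : n + 2 < N := by omega
    have e : Y N (n + 1 + 2) = Y N (n + 2) * X 0 (n + 2) := rfl
    rw [e, X_eq 0 hn, zero_smul, zero_add, Finset.mul_sum, Matrix.sum_apply] at hne
    obtain ⟨i, _, hi⟩ := Finset.exists_ne_zero_of_sum_ne_zero hne
    split_ifs at hi with hlt
    · rw [mul_U_apply] at hi
      obtain ⟨h1, h2⟩ := Y_support n (by omega) _ _ hi
      have hin : i ≠ ⟨n + 2, hn⟩ := fun h' => by rw [h'] at hlt; simp at hlt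
      have e2 : g * h⁻¹ = g * (swap i ⟨n + 2, hn⟩ * h)⁻¹ * swap i ⟨n + 2, hn⟩ := by
        rw [mul_inv_rev, swap_inv, ← mul_assoc, mul_assoc (g * h⁻¹), swap_mul_self, mul_one]
      have hisup : i ∈ (g * (swap i ⟨n + 2, hn⟩ * h)⁻¹).support := by
        rw [h2, mem_filter]; exact ⟨mem_univ _, hlt⟩
      have hnsup : (⟨n + 2, hn⟩ : Fin N) ∉ (g * (swap i ⟨n + 2, hn⟩ * h)⁻¹).support := by
        rw [h2, mem_filter]; simp
      rw [e2]
      refine ⟨cycle_step h1 hisup hnsup, ?_⟩
      rw [support_step hnsup hin, h2]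
      ext x
      simp only [mem_insert, mem_filter, mem_univ, true_and, Fin.ext_iff]
      omega
    · rw [mul_zero] at hi
      exact absurd rfl hi

/-! ## the trivial component -/

theorem card_Sn {m : ℕ} (hm : m ≤ N) :
    (univ.filter fun g : Perm (Fin N) => ∀ k : Fin N, m ≤ (k : ℕ) → g k = k).card = m.factorial := by
  classical
  have h1 := Fintype.card_congr (Equiv.Perm.subtypeEquivSubtypePerm (fun k : Fin N => (k : ℕ) < m))
  rw [Fintype.card_perm] at h1
  have h2 : Fintype.card {k : Fin N // (k : ℕ) < m} = m := by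
    rw [Fintype.card_subtype, Fin.card_filter_val_lt, min_eq_right hm]
  rw [h2] at h1
  rw [h1, Fintype.card_subtype]
  congr 1
  ext g
  simp only [mem_filter, mem_univ, true_and, not_lt]

theorem w_Rw {M n : ℕ} : w (Rw M n) (M - 1 + n) = 1 / ((n : ℝ) + 1) := by
  have h1 : (Rw M n).erase (M - 1 + n) = range (M - 1) := by
    unfold Rw
    rw [erase_insert]
    rw [mem_range]; omega
  have h2 : ∀ k, k ≤ M - 1 → ∏ y ∈ range k, ((((M - 1 + n : ℕ) : ℝ) + 1 - y) / (((M - 1 + n : ℕ) : ℝ) - y)) =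
      (((M - 1 + n : ℕ) : ℝ) + 1) / (((M - 1 + n : ℕ) : ℝ) + 1 - k) := by
    intro k
    induction k with
    | zero =>
      intro _
      have : ((M - 1 + n : ℕ) : ℝ) + 1 ≠ 0 := by positivity
      rw [prod_range_zero, Nat.cast_zero, sub_zero, div_self this]
    | succ k ih =>
      intro hk
      rw [prod_range_succ, ih (by omega)]
      have hk' : (k : ℝ) + 1 ≤ ((M - 1 + n : ℕ) : ℝ) := by exact_mod_cast (by omega)
      have n1 : ((M - 1 + n : ℕ) : ℝ) + 1 - k ≠ 0 := by linarith
      have n2 : ((M - 1 + n : ℕ) : ℝ) - k ≠ 0 := by linarith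
      push_cast at n1 n2 ⊢
      rw [show ((M - 1 : ℕ) : ℝ) + n + 1 - (k + 1) = ((M - 1 : ℕ) : ℝ) + n - k by ring]
      field_simp
  unfold w
  rw [h1, h2 (M - 1) le_rfl]
  have n3 : ((M - 1 + n : ℕ) : ℝ) + 1 ≠ 0 := by positivity
  have n4 : (n : ℝ) + 1 ≠ 0 := by positivity
  have e : ((M - 1 + n : ℕ) : ℝ) + 1 - ((M - 1 : ℕ) : ℝ) = (n : ℝ) + 1 := by
    push_cast; ring
  rw [e]
  field_simp

theorem Rw_of_mv {M n : ℕ} (hM : 0 < M) {C : Finset ℕ} (hC : C ∈ Lv M n) {x : ℕ} (hx : x ∈ ad C)
    (h : mv C x = Rw M (n + 1)) : C = Rw M n ∧ x = M - 1 + n := by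
  have h3 := (Lv_spec hC).2.2.1
  have h1 : M - 1 + (n + 1) ∈ mv C x := by
    rw [h]; unfold Rw; exact mem_insert_self _ _
  unfold mv at h1
  rw [mem_insert, mem_erase] at h1
  have hxe : x = M - 1 + n := by
    rcases h1 with h1 | h1
    · omega
    · have := h3 _ h1.2
      omega
  subst hxe
  refine ⟨?_, rfl⟩
  have e1 : C.erase (M - 1 + n) = range (M - 1) := by
    have h4 : (mv C (M - 1 + n)).erase (M - 1 + (n + 1)) = (Rw M (n + 1)).erase (M - 1 + (n + 1)) := by
      rw [h]
    have h5 : M - 1 + n + 1 ∉ C.erase (M - 1 + n) :=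
      fun h' => (mem_ad.1 hx).2 (mem_of_mem_erase h')
    unfold mv Rw at h4
    rw [show M - 1 + (n + 1) = M - 1 + n + 1 from rfl, erase_insert h5, erase_insert] at h4
    · exact h4
    · rw [mem_range]; omega
  rw [← insert_erase (mem_ad.1 hx).1, e1]
  rfl

theorem P_Rw_diag {M : ℕ} (hM : N < M) : ∀ n, n ≤ N →
    P N M n (Rw M n) 1 1 = 1 / (n.factorial : ℝ)
  | 0, _ => by
    have e : P N M 0 (Rw M 0) = if Rw M 0 = range M then 1 else 0 := rfl
    rw [e, if_pos (Rw_zero (by omega)), Matrix.one_apply_eq]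
    simp
  | n + 1, h => by
    have h1 : Sn n ((1 : Perm (Fin N)) * 1⁻¹) := by simpa using Sn_one (N := N) n
    have e1 := E_apply_of (T := P N M (n + 1) (Rw M (n + 1))) h1
    rw [← e1, E_P (by omega) hM, Matrix.sum_apply,
      Finset.sum_eq_single ⟨Rw M n, M - 1 + n⟩]
    · rw [if_pos (Rw_mv M n), Matrix.smul_apply, P_Rw_diag hM n (by omega)]
      simp only
      rw [w_Rw, smul_eq_mul, Nat.factorial_succ]
      push_cast
      have : (n.factorial : ℝ) ≠ 0 := by exact_mod_cast n.factorial_ne_zero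
      field_simp
    · intro q hq hne
      obtain ⟨hC, hu⟩ := mem_sigma.1 hq
      rw [if_neg]
      · rfl
      · intro h'
        obtain ⟨h2, h3⟩ := Rw_of_mv (by omega) hC hu h'
        apply hne
        obtain ⟨C, x⟩ := q
        simp only at h2 h3
        rw [h2, h3]
    · intro h'
      exact absurd (mem_sigma.2 ⟨Rw_mem (by omega) n, Rw_ad M n⟩) h'

/-- the idempotent of the one-row shape -/
theorem P_Rw {M : ℕ} (hM : N < M) {m : ℕ} (hm : m ≤ N) {g : Perm (Fin N)} (hg : Sn m g) :
    P N M m (Rw M m) g 1 = 1 / (m.factorial : ℝ) := by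
  classical
  have hgd := good (N := N) hM m hm
  set Pr := P N M m (Rw M m) with hPr
  set K : Mat N := E m J with hK
  have hKal : Al m K := E_Al fun _ _ _ => rfl
  have hPK : Pr * K = K := by
    have h1 := P_J (N := N) hM m hm (Rw M m)
    rw [if_pos rfl] at h1
    rw [hK, ← E_mul_left (hgd.al _).1, h1]
  have hKs : K.transpose = K := by
    rw [hK, ← E_transpose]
    rfl
  have hKP : K * Pr = K := by
    have := congrArg Matrix.transpose hPK
    rwa [Matrix.transpose_mul, hKs, hgd.symm] at this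
  have hKK : (K * K) 1 1 = m.factorial := by
    rw [Matrix.mul_apply, ← card_Sn hm, Finset.card_filter]
    push_cast
    refine Finset.sum_congr rfl fun x _ => ?_
    by_cases hx : Sn m x
    · have hx1 : Sn m (1 * x⁻¹) := by simpa using Sn_inv hx
      have hx2 : Sn m (x * 1⁻¹) := by simpa using hx
      rw [hK, E_apply_of hx1, E_apply_of hx2]
      have : ∀ k : Fin N, m ≤ (k : ℕ) → x k = k := hx
      rw [if_pos this]
      simp [J]
    · have hx2 : ¬ Sn m (x * 1⁻¹) := by simpa using hx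
      rw [hK, E_apply_not hx2, mul_zero]
      have : ¬ ∀ k : Fin N, m ≤ (k : ℕ) → x k = k := hx
      rw [if_neg this]
  have hK11 : K 1 1 = 1 := by
    have h1 : Sn m ((1 : Perm (Fin N)) * 1⁻¹) := by simpa using Sn_one (N := N) m
    rw [hK, E_apply_of h1]
    rfl
  have hf : (m.factorial : ℝ) ≠ 0 := by exact_mod_cast m.factorial_ne_zero
  set Q : Mat N := Pr - (1 / (m.factorial : ℝ)) • K with hQ
  have hQal : Al m Q := (hgd.al _).sub (hKal.smul _)
  have hQs : Q.transpose = Q := by
    rw [hQ, Matrix.transpose_sub, Matrix.transpose_smul, hKs, hgd.symm]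
  have hQQ : (Q * Q) 1 1 = 0 := by
    have e : Q * Q = Pr - (2 / (m.factorial : ℝ)) • K +
        ((1 / (m.factorial : ℝ)) * (1 / (m.factorial : ℝ))) • (K * K) := by
      rw [hQ, sub_mul, mul_sub, mul_sub, hgd.idem, Matrix.mul_smul, Matrix.smul_mul,
        Matrix.smul_mul, Matrix.mul_smul, hPK, hKP, smul_smul]
      have : (2 / (m.factorial : ℝ)) • K = (1 / (m.factorial : ℝ)) • K + (1 / (m.factorial : ℝ)) • K := by
        rw [← add_smul]; congr 1; ring
      rw [this]
      abel
    rw [e, Matrix.add_apply, Matrix.sub_apply, Matrix.smul_apply, Matrix.smul_apply, hKK, hK11,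
      hPr, P_Rw_diag hM m hm, smul_eq_mul, smul_eq_mul]
    field_simp
    ring
  have hQ0 : Q = 0 := by
    -- the column sums of squares vanish by right invariance
    ext a b
    have h1 : (Q.transpose * Q) b b = 0 := by
      have := (hQal.transpose.mul hQal).2 1 1 b
      rw [one_mul] at this
      rw [this, hQs, hQQ]
    rw [Matrix.mul_apply] at h1
    have h3 : ∀ x ∈ (univ : Finset (Perm (Fin N))), 0 ≤ Q.transpose b x * Q x b := by
      intro x _
      rw [Matrix.transpose_apply]
      exact mul_self_nonneg _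
    have h4 := (Finset.sum_eq_zero_iff_of_nonneg h3).1 h1 a (mem_univ _)
    rw [Matrix.transpose_apply] at h4
    simpa using mul_self_eq_zero.1 h4
  have h5 : Pr = (1 / (m.factorial : ℝ)) • K := sub_eq_zero.1 hQ0
  have hg1 : Sn m (g * 1⁻¹) := by simpa using hg
  rw [h5, Matrix.smul_apply, hK, E_apply_of hg1]
  simp [J]

end Pool.JM
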