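import Mathlib

/-!
# MP_46fa68_co, part A1: the transition measure of a set of beads

A partition with at most `M` rows is the finset `B` of the `M` natural numbers `λ_l + M - l`. Adding a box
to a row moves the bead `x` to `x + 1`. The number `w B x` is the ratio of the hook products; it is `0` when
`x + 1` is in `B`. The functional `mu B q` is the sum of `w B x * q x`.
-/

namespace Pool.TInt

open Finset Polynomial

/-- move the bead `x` of `B` to `x + 1` -/
def mv (B : Finset ℕ) (x : ℕ) : Finset ℕ := insert (x + 1) (B.erase x)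

/-- the weight of the bead `x` -/
noncomputable def wt (B : Finset ℕ) (x : ℕ) : ℝ :=
  1 / ((x : ℝ) + 1) * ∏ y ∈ B.erase x, ((x : ℝ) + 1 - y) / ((x : ℝ) - y)

/-- the transition measure -/
noncomputable def mu (B : Finset ℕ) (q : ℝ → ℝ) : ℝ := ∑ x ∈ B, wt B x * q x

theorem wt_eq_zero {B : Finset ℕ} {x : ℕ} (hx1 : x + 1 ∈ B) : wt B x = 0 := by
  unfold wt
  rw [Finset.prod_eq_zero (i := x + 1), mul_zero]
  · rw [Finset.mem_erase]; exact ⟨by omega, hx1⟩
  · push_cast; simp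

theorem wt_pos {B : Finset ℕ} {x : ℕ} (hx1 : x + 1 ∉ B) : 0 < wt B x := by
  unfold wt
  apply mul_pos (by positivity)
  apply Finset.prod_pos
  intro y hy
  rw [Finset.mem_erase] at hy
  have hyx : y ≠ x + 1 := by rintro rfl; exact hx1 hy.2
  rcases lt_or_gt_of_ne hy.1 with h | h
  · have h' : (y : ℝ) < x := by exact_mod_cast h
    exact div_pos (by linarith) (by linarith)
  · have h2 : x + 1 < y := by omega
    have h' : (x : ℝ) + 1 < y := by exact_mod_cast h2
    exact div_pos_of_neg_of_neg (by linarith) (by linarith)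

theorem wt_nonneg (B : Finset ℕ) (x : ℕ) : 0 ≤ wt B x := by
  by_cases h : x + 1 ∈ B
  · rw [wt_eq_zero h]
  · exact (wt_pos h).le

theorem card_mv {B : Finset ℕ} {x : ℕ} (hx : x ∈ B) (hx1 : x + 1 ∉ B) :
    (mv B x).card = B.card := by
  unfold mv
  rw [Finset.card_insert_of_notMem (by rw [Finset.mem_erase]; tauto), Finset.card_erase_of_mem hx]
  have := Finset.card_pos.2 ⟨x, hx⟩
  omega

theorem sum_mv {B : Finset ℕ} {x : ℕ} (hx : x ∈ B) (hx1 : x + 1 ∉ B) :
    ∑ y ∈ mv B x, y = ∑ y ∈ B, y + 1 := by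
  unfold mv
  rw [Finset.sum_insert (by rw [Finset.mem_erase]; tauto), ← Finset.add_sum_erase _ _ hx]
  ring

theorem mv_injOn {B : Finset ℕ} {x y : ℕ} (hx1 : x + 1 ∉ B) (h : mv B x = mv B y) : x = y := by
  have h1 : x + 1 ∈ mv B y := by rw [← h]; exact Finset.mem_insert_self _ _
  unfold mv at h1
  rw [Finset.mem_insert, Finset.mem_erase] at h1
  rcases h1 with h1 | h1
  · omega
  · exact absurd h1.2 hx1

/-- the ratio of the weights before and after the move of the bead `c` -/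
theorem wt_mv {C : Finset ℕ} {c x : ℕ} (hc : c ∈ C) (hc1 : c + 1 ∉ C) (hx : x ∈ C) (hxc : x ≠ c) :
    wt (mv C c) x * (((x : ℝ) - c) ^ 2 - 1) = wt C x * ((x : ℝ) - c) ^ 2 := by
  unfold wt mv
  have hxc1 : x ≠ c + 1 := by rintro rfl; exact hc1 hx
  have e1 : (insert (c + 1) (C.erase c)).erase x = insert (c + 1) ((C.erase x).erase c) := by
    ext y
    simp only [Finset.mem_erase, Finset.mem_insert]
    constructor
    · rintro ⟨h1, h2 | h2⟩
      · left; exact h2
      · right; exact ⟨h2.1, h1, h2.2⟩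
    · rintro (h1 | h1)
      · exact ⟨by rw [h1]; exact hxc1.symm, Or.inl h1⟩
      · exact ⟨h1.2.1, Or.inr ⟨h1.1, h1.2.2⟩⟩
  have e2 : C.erase x = insert c ((C.erase x).erase c) := by
    rw [Finset.insert_erase]
    rw [Finset.mem_erase]; exact ⟨hxc.symm, hc⟩
  have hn1 : c + 1 ∉ (C.erase x).erase c := by
    simp only [Finset.mem_erase, not_and]
    intro _ _; exact hc1
  have hn2 : c ∉ (C.erase x).erase c := Finset.notMem_erase _ _
  rw [e1, Finset.prod_insert hn1]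
  conv_rhs => rw [e2, Finset.prod_insert hn2]
  have h1 : (x : ℝ) - c ≠ 0 := by
    rw [sub_ne_zero]; exact_mod_cast hxc
  have h2 : (x : ℝ) - (c + 1) ≠ 0 := by
    rw [sub_ne_zero]; exact_mod_cast hxc1
  push_cast
  set P := ∏ y ∈ (C.erase x).erase c, ((x : ℝ) + 1 - y) / ((x : ℝ) - y) with hP
  field_simp
  ring

/-- the relation between the transition measures of neighbours -/
theorem mu_mv {C : Finset ℕ} {c : ℕ} (hc : c ∈ C) (hc1 : c + 1 ∉ C) (p : ℝ → ℝ) :
    mu (mv C c) (fun z => p z * ((z - c) ^ 2 - 1)) = mu C (fun z => p z * (z - c) ^ 2) := by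
  unfold mu
  have hn : c + 1 ∉ C.erase c := by rw [Finset.mem_erase]; tauto
  have e1 : ∑ x ∈ mv C c, wt (mv C c) x * (p x * (((x : ℝ) - c) ^ 2 - 1)) =
      ∑ x ∈ C.erase c, wt (mv C c) x * (p x * (((x : ℝ) - c) ^ 2 - 1)) := by
    have h := Finset.sum_insert (f := fun x : ℕ => wt (mv C c) x * (p x * (((x : ℝ) - c) ^ 2 - 1))) hn
    have h2 : insert (c + 1) (C.erase c) = mv C c := rfl
    rw [h2] at h
    rw [h]
    push_cast
    have h3 : ((c : ℝ) + 1 - c) ^ 2 - 1 = 0 := by ring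
    rw [h3, mul_zero, mul_zero, zero_add]
  have e2 : ∑ x ∈ C, wt C x * (p x * ((x : ℝ) - c) ^ 2) =
      ∑ x ∈ C.erase c, wt C x * (p x * ((x : ℝ) - c) ^ 2) := by
    rw [← Finset.add_sum_erase _ _ hc]
    simp
  rw [e1, e2]
  apply Finset.sum_congr rfl
  intro x hx
  rw [Finset.mem_erase] at hx
  have h := wt_mv hc hc1 hx.2 hx.1
  calc wt (mv C c) x * (p x * (((x : ℝ) - c) ^ 2 - 1))
      = p x * (wt (mv C c) x * (((x : ℝ) - c) ^ 2 - 1)) := by ring
    _ = p x * (wt C x * ((x : ℝ) - c) ^ 2) := by rw [h]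
    _ = _ := by ring

theorem wt_eq_div {B : Finset ℕ} (h0 : 0 ∈ B) {x : ℕ} (hx : x ∈ B) :
    wt B x = (∏ y ∈ B.erase 0, ((x : ℝ) + 1 - y)) / ∏ y ∈ B.erase x, ((x : ℝ) - y) := by
  unfold wt
  have hx1 : (x : ℝ) + 1 ≠ 0 := by positivity
  have e : (∏ y ∈ B.erase 0, ((x : ℝ) + 1 - y)) * ((x : ℝ) + 1) = ∏ y ∈ B.erase x, ((x : ℝ) + 1 - y) := by
    have e1 : ∏ y ∈ B, ((x : ℝ) + 1 - y) = ((x : ℝ) + 1 - (0 : ℕ)) *
        ∏ y ∈ B.erase 0, ((x : ℝ) + 1 - y) := (Finset.mul_prod_erase _ _ h0).symm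
    have e2 : ∏ y ∈ B, ((x : ℝ) + 1 - y) = ((x : ℝ) + 1 - x) *
        ∏ y ∈ B.erase x, ((x : ℝ) + 1 - y) := (Finset.mul_prod_erase _ _ hx).symm
    rw [e1] at e2
    push_cast at e2
    linear_combination e2
  rw [Finset.prod_div_distrib, ← e]
  field_simp

/-- total mass one -/
theorem mu_one {B : Finset ℕ} (h0 : 0 ∈ B) : mu B (fun _ => 1) = 1 := by
  unfold mu
  have hinj : Set.InjOn (fun y : ℕ => (y : ℝ)) B := fun a _ b _ h => Nat.cast_injective h
  have hpos : 0 < B.card := Finset.card_pos.2 ⟨0, h0⟩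
  set P : ℝ[X] := ∏ y ∈ B.erase 0, (X - C ((y : ℝ) - 1)) with hP
  have hmon : P.Monic := monic_prod_of_monic _ _ fun y _ => monic_X_sub_C _
  have hdeg : P.natDegree = B.card - 1 := by
    rw [hP, natDegree_prod_of_monic _ _ fun y _ => monic_X_sub_C _]
    simp only [natDegree_X_sub_C, Finset.sum_const, smul_eq_mul, mul_one]
    rw [Finset.card_erase_of_mem h0]
  have hdeg' : P.degree < B.card := by
    rw [degree_eq_natDegree hmon.ne_zero, hdeg]
    exact_mod_cast (by omega)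
  have h := Lagrange.coeff_eq_sum hinj hdeg'
  have hc : P.coeff (B.card - 1) = 1 := by
    rw [← hdeg]; exact hmon
  rw [hc] at h
  refine Eq.trans ?_ h.symm
  apply Finset.sum_congr rfl
  intro x hx
  rw [mul_one, wt_eq_div h0 hx, hP, eval_prod]
  congr 1
  apply Finset.prod_congr rfl
  intro y _
  simp only [eval_sub, eval_X, eval_C]
  ring

/-- the mean -/
theorem mu_id {B : Finset ℕ} (h0 : 0 ∈ B) : mu B (fun z => z) = (B.card : ℝ) - 1 := by
  unfold mu
  have hinj : Set.InjOn (fun y : ℕ => (y : ℝ)) B := fun a _ b _ h => Nat.cast_injective h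
  have hpos : 0 < B.card := Finset.card_pos.2 ⟨0, h0⟩
  have hce : (B.erase 0).card = B.card - 1 := Finset.card_erase_of_mem h0
  set P : ℝ[X] := ∏ y ∈ B.erase 0, (X - C ((y : ℝ) - 1)) with hP
  set Q : ℝ[X] := ∏ y ∈ B, (X - C (y : ℝ)) with hQ
  have hmon : P.Monic := monic_prod_of_monic _ _ fun y _ => monic_X_sub_C _
  have hmonQ : Q.Monic := monic_prod_of_monic _ _ fun y _ => monic_X_sub_C _
  have hdeg : P.natDegree = B.card - 1 := by
    rw [hP, natDegree_prod_of_monic _ _ fun y _ => monic_X_sub_C _]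
    simp only [natDegree_X_sub_C, Finset.sum_const, smul_eq_mul, mul_one]
    rw [Finset.card_erase_of_mem h0]
  have hdegQ : Q.natDegree = B.card := by
    rw [hQ, natDegree_prod_of_monic _ _ fun y _ => monic_X_sub_C _]
    simp only [natDegree_X_sub_C, Finset.sum_const, smul_eq_mul, mul_one]
  have hmonX : (X * P).Monic := monic_X.mul hmon
  have hdegX : (X * P).natDegree = B.card := by
    rw [natDegree_X_mul hmon.ne_zero, hdeg]; omega
  have hdeg' : (X * P - Q).degree < (B.card : WithBot ℕ) := by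
    have h1 : (X * P).degree = Q.degree := by
      rw [degree_eq_natDegree hmonX.ne_zero, degree_eq_natDegree hmonQ.ne_zero, hdegX, hdegQ]
    have h2 := degree_sub_lt_left h1 hmonX.ne_zero (by rw [hmonX.leadingCoeff, hmonQ.leadingCoeff])
    rw [degree_eq_natDegree hmonX.ne_zero, hdegX] at h2
    exact h2
  have h := Lagrange.coeff_eq_sum hinj hdeg'
  have hcQ : Q.coeff (B.card - 1) = -∑ y ∈ B, (y : ℝ) := by
    rw [hQ]
    exact prod_X_sub_C_coeff_card_pred B (fun y : ℕ => (y : ℝ)) hpos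
  have hcX : (X * P).coeff (B.card - 1) = -∑ y ∈ B.erase 0, ((y : ℝ) - 1) := by
    rcases Nat.eq_zero_or_pos (B.card - 1) with hz | hz
    · have hB : B.erase 0 = ∅ := by
        rw [← Finset.card_eq_zero, hce, hz]
      rw [hz, hP, hB]
      simp
    · obtain ⟨k, hk⟩ : ∃ k, B.card - 1 = k + 1 := ⟨B.card - 2, by omega⟩
      rw [hk, coeff_X_mul]
      have hk' : k = (B.erase 0).card - 1 := by omega
      rw [hk', hP]
      exact prod_X_sub_C_coeff_card_pred (B.erase 0) (fun y : ℕ => (y : ℝ) - 1) (by omega)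
  have hsumB : ∑ y ∈ B, (y : ℝ) = ∑ y ∈ B.erase 0, (y : ℝ) := by
    rw [← Finset.add_sum_erase _ _ h0]; simp
  have hc : (X * P - Q).coeff (B.card - 1) = (B.card : ℝ) - 1 := by
    rw [coeff_sub, hcQ, hcX, hsumB, Finset.sum_sub_distrib]
    simp only [Finset.sum_const, nsmul_eq_mul, mul_one]
    rw [hce, Nat.cast_sub (by omega)]
    push_cast; ring
  rw [hc] at h
  rw [h]
  apply Finset.sum_congr rfl
  intro x hx
  have hQ0 : Q.eval (x : ℝ) = 0 := by
    rw [hQ, eval_prod]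
    exact Finset.prod_eq_zero hx (by simp)
  rw [wt_eq_div h0 hx, eval_sub, hQ0, sub_zero, eval_mul, eval_X, hP, eval_prod]
  have e : ∏ y ∈ B.erase 0, ((x : ℝ) + 1 - y) = ∏ y ∈ B.erase 0, (X - C ((y : ℝ) - 1)).eval (x : ℝ) := by
    apply Finset.prod_congr rfl
    intro y _
    simp only [eval_sub, eval_X, eval_C]
    ring
  rw [e]
  ring

theorem mu_add (B : Finset ℕ) (p q : ℝ → ℝ) : mu B (fun z => p z + q z) = mu B p + mu B q := by
  unfold mu
  rw [← Finset.sum_add_distrib]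
  exact Finset.sum_congr rfl fun x _ => by ring

theorem mu_smul (B : Finset ℕ) (a : ℝ) (q : ℝ → ℝ) : mu B (fun z => a * q z) = a * mu B q := by
  unfold mu
  rw [Finset.mul_sum]
  exact Finset.sum_congr rfl fun x _ => by ring

theorem zero_mem_mv {C : Finset ℕ} {c : ℕ} (h0 : 0 ∈ C) (hc : 0 < c) : 0 ∈ mv C c := by
  unfold mv
  rw [Finset.mem_insert, Finset.mem_erase]
  right; exact ⟨hc.ne, h0⟩

/-- **The moment recursion**, for functions: `q = a + b (z - c) + p (z) (z - c)^2`. -/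
theorem mu_rec {C : Finset ℕ} {c : ℕ} (hc : c ∈ C) (hc1 : c + 1 ∉ C) (h0 : 0 ∈ C) (hcpos : 0 < c)
    (a b : ℝ) (p : ℝ → ℝ) :
    mu (mv C c) (fun z => a + b * z + p z * (z - c) ^ 2) =
      mu C (fun z => a + b * z + p z * (z - c) ^ 2) + mu (mv C c) p := by
  have h0' := zero_mem_mv h0 hcpos
  have hcard := card_mv hc hc1
  have e1 : mu (mv C c) (fun z => a + b * z + p z * (z - c) ^ 2) =
      a * mu (mv C c) (fun _ => 1) + b * mu (mv C c) (fun z => z) +
        (mu (mv C c) (fun z => p z * ((z - c) ^ 2 - 1)) + mu (mv C c) p) := by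
    rw [← mu_smul, ← mu_smul, ← mu_add, ← mu_add, ← mu_add]
    congr 1; funext z; ring
  have e2 : mu C (fun z => a + b * z + p z * (z - c) ^ 2) =
      a * mu C (fun _ => 1) + b * mu C (fun z => z) + mu C (fun z => p z * (z - c) ^ 2) := by
    rw [← mu_smul, ← mu_smul, ← mu_add, ← mu_add]
    congr 1; funext z; ring
  rw [e1, e2, mu_one h0', mu_one h0, mu_id h0', mu_id h0, mu_mv hc hc1, hcard]
  ring

/-- **The moment recursion** for powers. -/
theorem mu_pow {C : Finset ℕ} {c : ℕ} (hc : c ∈ C) (hc1 : c + 1 ∉ C) (h0 : 0 ∈ C) (hcpos : 0 < c)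
    (j : ℕ) :
    mu (mv C c) (fun z => z ^ (j + 2)) = mu C (fun z => z ^ (j + 2)) +
      ∑ l ∈ Finset.range (j + 1), ((j + 1 - l : ℕ) : ℝ) * (c : ℝ) ^ (j - l) *
        mu (mv C c) (fun z => z ^ l) := by
  have key : ∀ (j : ℕ) (z : ℝ), z ^ (j + 2) = (-((j + 1 : ℕ) : ℝ) * (c : ℝ) ^ (j + 2)) +
      (((j + 2 : ℕ) : ℝ) * (c : ℝ) ^ (j + 1)) * z +
      (∑ l ∈ Finset.range (j + 1), ((j + 1 - l : ℕ) : ℝ) * (c : ℝ) ^ (j - l) * z ^ l) *
        (z - c) ^ 2 := by
    intro j z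
    induction j with
    | zero => simp; ring
    | succ j ih =>
      rw [Finset.sum_range_succ' _ (j + 1)]
      have e : ∑ l ∈ Finset.range (j + 1), ((j + 1 + 1 - (l + 1) : ℕ) : ℝ) *
          (c : ℝ) ^ (j + 1 - (l + 1)) * z ^ (l + 1) =
          z * ∑ l ∈ Finset.range (j + 1), ((j + 1 - l : ℕ) : ℝ) * (c : ℝ) ^ (j - l) * z ^ l := by
        rw [Finset.mul_sum]
        apply Finset.sum_congr rfl
        intro l _
        rw [show j + 1 + 1 - (l + 1) = j + 1 - l by omega, show j + 1 - (l + 1) = j - l by omega]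
        ring
      rw [e]
      set S := ∑ l ∈ Finset.range (j + 1), ((j + 1 - l : ℕ) : ℝ) * (c : ℝ) ^ (j - l) * z ^ l with hS
      have h2 : z ^ (j + 1 + 2) = z * z ^ (j + 2) := by ring
      rw [h2, ih]
      push_cast
      simp only [pow_zero, mul_one]
      ring
  have h1 : (fun z : ℝ => z ^ (j + 2)) = fun z => (-((j + 1 : ℕ) : ℝ) * (c : ℝ) ^ (j + 2)) +
      (((j + 2 : ℕ) : ℝ) * (c : ℝ) ^ (j + 1)) * z +
      (fun z => ∑ l ∈ Finset.range (j + 1), ((j + 1 - l : ℕ) : ℝ) * (c : ℝ) ^ (j - l) * z ^ l) z *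
        (z - c) ^ 2 := by
    funext z; exact key j z
  have h2 := mu_rec hc hc1 h0 hcpos (-((j + 1 : ℕ) : ℝ) * (c : ℝ) ^ (j + 2))
    (((j + 2 : ℕ) : ℝ) * (c : ℝ) ^ (j + 1))
    (fun z => ∑ l ∈ Finset.range (j + 1), ((j + 1 - l : ℕ) : ℝ) * (c : ℝ) ^ (j - l) * z ^ l)
  rw [h1, h2]
  congr 1
  unfold mu
  simp_rw [Finset.mul_sum]
  rw [Finset.sum_comm]
  apply Finset.sum_congr rfl
  intro l _
  apply Finset.sum_congr rfl
  intro x _
  ring

end Pool.TInt
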