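import Pool.Agent.Work.MP_46fa68_h4.Defect

/-!
# MP_46fa68_co: crude bounds for one-body and two-body functions

Every single move of a bead by `p` changes `FF` by a factor at most `C(p-1, (p-1)/2) / p! ≤ 2^(p-1) / p!`.
Consequently `|E1 (ad^a K0)| ≤ 4^(a-1) / a!`, and `|E2 (ad^a K0) (ad^b K0)| ≤ 4^(a-1) 4^(b-1) / (a! b!)` on
the shapes below the wall; on the level `m` the latter vanishes unless `a + b ≥ m + 1`.
-/

set_option autoImplicit false

open Finset Equiv

namespace Pool.JM

variable {K : ℕ}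

theorem prod_le_of_cases {ι : Type*} [DecidableEq ι] (s t : Finset ι) (f : ι → ℝ)
    (h0 : ∀ i ∈ s, 0 ≤ f i) (h1 : ∀ i ∈ s, i ∉ t → f i ≤ 1) (h2 : ∀ i ∈ t, 1 ≤ f i) :
    ∏ i ∈ s, f i ≤ ∏ i ∈ t, f i := by
  rw [← prod_inter_mul_prod_sdiff s t f, ← prod_inter_mul_prod_sdiff t s f, inter_comm t s]
  have hc : 0 ≤ ∏ i ∈ s ∩ t, f i := prod_nonneg fun i hi => h0 i (mem_of_mem_inter_left hi)
  have a1 : ∏ i ∈ s \ t, f i ≤ 1 := by
    have := prod_le_prod (s := s \ t) (f := f) (g := fun _ => 1)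
      (fun i hi => h0 i (mem_sdiff.1 hi).1) (fun i hi => h1 i (mem_sdiff.1 hi).1 (mem_sdiff.1 hi).2)
    rwa [prod_const_one] at this
  have a2 : 1 ≤ ∏ i ∈ t \ s, f i := by
    have := prod_le_prod (s := t \ s) (f := fun _ => (1 : ℝ)) (g := f)
      (fun _ _ => zero_le_one) (fun i hi => h2 i (mem_sdiff.1 hi).1)
    rwa [prod_const_one] at this
  calc (∏ i ∈ s ∩ t, f i) * ∏ i ∈ s \ t, f i ≤ (∏ i ∈ s ∩ t, f i) * 1 :=
        mul_le_mul_of_nonneg_left a1 hc
    _ ≤ _ := mul_le_mul_of_nonneg_left a2 hc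

/-- the ratio for one move -/
noncomputable def Rr (B : Finset ℕ) (x p : ℕ) : ℝ :=
  (∏ y ∈ B.erase x, (((x : ℝ) + p - y) / ((x : ℝ) - y))) *
    ((x.factorial : ℝ) / ((x + p).factorial : ℝ))

theorem FF_up {x : Fin K → ℕ} (hx : Function.Injective x) (i : Fin K) (p : ℕ) :
    FF (up x i p) = Rr (univ.image x) (x i) p * FF x := by
  have h1 := FF_up_ratio x i p
  have p0 : ∏ j ∈ univ.erase i, ((x i : ℝ) - x j) ≠ 0 := by
    refine prod_ne_zero_iff.2 fun j hj => ?_
    rw [sub_ne_zero]
    intro h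
    exact ne_of_mem_erase hj (hx (Nat.cast_injective h)).symm
  have e1 : (univ.image x).erase (x i) = (univ.erase i).image x := by
    rw [image_erase hx]
  have p2 : ((x i + p).factorial : ℝ) ≠ 0 := by exact_mod_cast (x i + p).factorial_ne_zero
  unfold Rr
  rw [e1, prod_image (fun a _ b _ h => hx h), prod_div_distrib]
  field_simp
  linear_combination h1

theorem prod_below (x p : ℕ) :
    ∏ y ∈ range x, (((x : ℝ) + p - y) / ((x : ℝ) - y)) =
      ((x + p).factorial : ℝ) / (x.factorial * p.factorial) := by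
  have e1 : ∏ y ∈ range x, ((x : ℝ) + p - y) = ((x + p).descFactorial x : ℝ) := by
    rw [Nat.descFactorial_eq_prod_range]
    push_cast
    refine prod_congr rfl fun y hy => ?_
    have := mem_range.1 hy
    rw [Nat.cast_sub (by omega)]
    push_cast; ring
  have e2 : ∏ y ∈ range x, ((x : ℝ) - y) = (x.factorial : ℝ) := by
    rw [← Nat.descFactorial_self, Nat.descFactorial_eq_prod_range]
    push_cast
    refine prod_congr rfl fun y hy => ?_
    have := mem_range.1 hy
    rw [Nat.cast_sub (by omega)]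
  have e3 : (p.factorial : ℝ) * ((x + p).descFactorial x : ℝ) = ((x + p).factorial : ℝ) := by
    have := Nat.factorial_mul_descFactorial (show x ≤ x + p by omega)
    rw [Nat.add_sub_cancel_left] at this
    exact_mod_cast this
  rw [prod_div_distrib, e1, e2, ← e3]
  have h1 : (p.factorial : ℝ) ≠ 0 := by exact_mod_cast p.factorial_ne_zero
  have h2 : (x.factorial : ℝ) ≠ 0 := by exact_mod_cast x.factorial_ne_zero
  field_simp

theorem prod_between (x p h : ℕ) (hh : h ≤ p - 1) (hp : 1 ≤ p) :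
    ∏ y ∈ Ioc x (x + h), (((x : ℝ) + p - y) / ((y : ℝ) - x)) = ((p - 1).choose h : ℝ) := by
  have e0 : Ioc x (x + h) = (range h).image fun i => x + 1 + i := by
    ext y
    rw [mem_Ioc, mem_image]
    constructor
    · rintro ⟨h1, h2⟩
      exact ⟨y - x - 1, mem_range.2 (by omega), by omega⟩
    · rintro ⟨i, hi, rfl⟩
      have := mem_range.1 hi
      omega
  rw [e0, prod_image (fun a _ b _ hab => by omega)]
  have e1 : ∏ i ∈ range h, (((x : ℝ) + p - ((x + 1 + i : ℕ) : ℝ)) / (((x + 1 + i : ℕ) : ℝ) - x)) =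
      (∏ i ∈ range h, ((p : ℝ) - 1 - i)) / ∏ i ∈ range h, ((i : ℝ) + 1) := by
    rw [← prod_div_distrib]
    refine prod_congr rfl fun i _ => ?_
    push_cast
    congr 1 <;> ring
  have e2 : ∏ i ∈ range h, ((p : ℝ) - 1 - i) = ((p - 1).descFactorial h : ℝ) := by
    rw [Nat.descFactorial_eq_prod_range]
    push_cast
    refine prod_congr rfl fun i hi => ?_
    have := mem_range.1 hi
    rw [Nat.cast_sub (by omega), Nat.cast_sub hp]
    push_cast; ring
  have e3 : ∏ i ∈ range h, ((i : ℝ) + 1) = (h.factorial : ℝ) := by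
    rw [← prod_range_add_one_eq_factorial]
    push_cast; rfl
  rw [e1, e2, e3, Nat.descFactorial_eq_factorial_mul_choose]
  push_cast
  have h2 : (h.factorial : ℝ) ≠ 0 := by exact_mod_cast h.factorial_ne_zero
  field_simp

/-- **The single move bound.** -/
theorem Rr_le (B : Finset ℕ) (x p : ℕ) (hp : 1 ≤ p) :
    |Rr B x p| ≤ ((p - 1).choose ((p - 1) / 2) : ℝ) / p.factorial := by
  unfold Rr
  set h := (p - 1) / 2 with hh
  rw [abs_mul, abs_prod, abs_of_nonneg (by positivity : (0 : ℝ) ≤ (x.factorial : ℝ) / ((x + p).factorial : ℝ))]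
  have hle : ∏ y ∈ B.erase x, |((x : ℝ) + p - y) / ((x : ℝ) - y)| ≤
      ∏ y ∈ range x ∪ Ioc x (x + h), |((x : ℝ) + p - y) / ((x : ℝ) - y)| := by
    refine prod_le_of_cases _ _ _ (fun _ _ => abs_nonneg _) ?_ ?_
    · intro y hy hyt
      rw [mem_union, mem_range, mem_Ioc] at hyt
      have hyx : y ≠ x := ne_of_mem_erase hy
      have hy2 : x + h < y := by omega
      have hy3 : (x : ℝ) < y := by exact_mod_cast (by omega : x < y)
      rw [abs_div, div_le_one (abs_pos.2 (by linarith)), abs_sub_comm (x : ℝ) y,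
        abs_of_pos (by linarith : (0 : ℝ) < (y : ℝ) - x), abs_le]
      have h4 : p ≤ 2 * (y - x) := by omega
      have h5 : (p : ℝ) ≤ 2 * ((y : ℝ) - x) := by
        have : ((y - x : ℕ) : ℝ) = (y : ℝ) - x := Nat.cast_sub (by omega)
        rw [← this]
        exact_mod_cast h4
      have h6 : (0 : ℝ) ≤ p := Nat.cast_nonneg p
      constructor <;> linarith
    · intro y hy
      rw [mem_union, mem_range, mem_Ioc] at hy
      rcases hy with hy | ⟨h1, h2⟩
      · have hy' : (y : ℝ) < x := by exact_mod_cast hy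
        have h6 : (0 : ℝ) ≤ p := Nat.cast_nonneg p
        rw [abs_div, le_div_iff₀ (abs_pos.2 (by linarith)), one_mul,
          abs_of_pos (by linarith : (0 : ℝ) < (x : ℝ) - y),
          abs_of_nonneg (by linarith : (0 : ℝ) ≤ (x : ℝ) + p - y)]
        linarith
      · have hy' : (x : ℝ) < y := by exact_mod_cast h1
        have h4 : 2 * (y - x) ≤ p - 1 := by omega
        have h5 : 2 * ((y : ℝ) - x) ≤ (p : ℝ) - 1 := by
          have e1 : ((y - x : ℕ) : ℝ) = (y : ℝ) - x := Nat.cast_sub (by omega)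
          have e2 : ((p - 1 : ℕ) : ℝ) = (p : ℝ) - 1 := by rw [Nat.cast_sub hp, Nat.cast_one]
          rw [← e1, ← e2]
          exact_mod_cast h4
        rw [abs_div, le_div_iff₀ (abs_pos.2 (by linarith)), one_mul, abs_sub_comm (x : ℝ) y,
          abs_of_pos (by linarith : (0 : ℝ) < (y : ℝ) - x),
          abs_of_nonneg (by linarith : (0 : ℝ) ≤ (x : ℝ) + p - y)]
        linarith
  have hdisj : Disjoint (range x) (Ioc x (x + h)) := by
    rw [Finset.disjoint_left]
    intro y h1 h2
    rw [mem_range] at h1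
    rw [mem_Ioc] at h2
    omega
  have hprod : ∏ y ∈ range x ∪ Ioc x (x + h), |((x : ℝ) + p - y) / ((x : ℝ) - y)| =
      ((x + p).factorial : ℝ) / (x.factorial * p.factorial) * ((p - 1).choose h : ℝ) := by
    rw [prod_union hdisj, ← prod_below, ← prod_between x p h (by omega) hp]
    congr 1
    · refine prod_congr rfl fun y hy => ?_
      have hy' : (y : ℝ) < x := by exact_mod_cast mem_range.1 hy
      have h6 : (0 : ℝ) ≤ p := Nat.cast_nonneg p
      rw [abs_of_nonneg]
      exact div_nonneg (by linarith) (by linarith)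
    · refine prod_congr rfl fun y hy => ?_
      rw [mem_Ioc] at hy
      have hy' : (x : ℝ) < y := by exact_mod_cast hy.1
      have h4 : y - x ≤ p := by omega
      have h5 : (y : ℝ) - x ≤ (p : ℝ) := by
        have e1 : ((y - x : ℕ) : ℝ) = (y : ℝ) - x := Nat.cast_sub (by omega)
        rw [← e1]
        exact_mod_cast h4
      rw [abs_div, abs_sub_comm (x : ℝ) y, abs_of_pos (by linarith : (0 : ℝ) < (y : ℝ) - x),
        abs_of_nonneg (by linarith : (0 : ℝ) ≤ (x : ℝ) + p - y)]
  rw [hprod] at hle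
  have h1 : (0 : ℝ) < x.factorial := by exact_mod_cast x.factorial_pos
  have h2 : (0 : ℝ) < (x + p).factorial := by exact_mod_cast (x + p).factorial_pos
  have h3 : (0 : ℝ) < p.factorial := by exact_mod_cast p.factorial_pos
  calc (∏ y ∈ B.erase x, |((x : ℝ) + p - y) / ((x : ℝ) - y)|) *
        ((x.factorial : ℝ) / ((x + p).factorial : ℝ))
      ≤ (((x + p).factorial : ℝ) / (x.factorial * p.factorial) * ((p - 1).choose h : ℝ)) *
        ((x.factorial : ℝ) / ((x + p).factorial : ℝ)) :=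
        mul_le_mul_of_nonneg_right hle (by positivity)
    _ = _ := by field_simp

theorem Rr_le' (B : Finset ℕ) (x p : ℕ) (hp : 1 ≤ p) :
    |Rr B x p| ≤ 2 ^ (p - 1) / p.factorial := by
  refine (Rr_le B x p hp).trans ?_
  have h3 : (0 : ℝ) < p.factorial := by exact_mod_cast p.factorial_pos
  rw [div_le_div_iff_of_pos_right h3]
  exact_mod_cast Nat.choose_le_two_pow _ _

theorem FF_up_le {x : Fin K → ℕ} (hx : Function.Injective x) (i : Fin K) {p : ℕ} (hp : 1 ≤ p) :
    |FF (up x i p)| ≤ 2 ^ (p - 1) / p.factorial * |FF x| := by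
  rw [FF_up hx, abs_mul]
  exact mul_le_mul_of_nonneg_right (Rr_le' _ _ _ hp) (abs_nonneg _)

/-! ## the kernels `ad^a K0` -/

/-- weight of the kernel `ad^p K0` at the bead `x` -/
noncomputable def kp (M0 p x : ℕ) : ℝ :=
  if p = 0 then (if M0 ≤ x then 1 else 0)
  else if x < M0 then (-1) ^ (p + (M0 - x)) * ((p - 1).choose (M0 - x - 1) : ℝ) else 0

theorem kp_zero (M0 x : ℕ) : kp M0 0 x = if M0 ≤ x then 1 else 0 := if_pos rfl

theorem kp_succ (M0 p x : ℕ) : kp M0 (p + 1) x = kp M0 p (x + 1) - kp M0 p x := by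
  have e : kp M0 (p + 1) x =
      if x < M0 then (-1) ^ (p + 1 + (M0 - x)) * (p.choose (M0 - x - 1) : ℝ) else 0 :=
    if_neg (Nat.succ_ne_zero p)
  rw [e]
  cases p with
  | zero =>
    rw [kp_zero, kp_zero]
    rcases lt_trichotomy (x + 1) M0 with h | h | h
    · rw [if_pos (by omega), if_neg (by omega), if_neg (by omega),
        Nat.choose_eq_zero_of_lt (by omega)]
      simp
    · rw [if_pos (by omega), if_pos (by omega), if_neg (by omega), show M0 - x = 1 by omega]
      simp
    · rw [if_neg (by omega), if_pos (by omega), if_pos (by omega), sub_self]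
  | succ p =>
    have e1 : kp M0 (p + 1) (x + 1) = if x + 1 < M0 then
        (-1) ^ (p + 1 + (M0 - (x + 1))) * (p.choose (M0 - (x + 1) - 1) : ℝ) else 0 :=
      if_neg (Nat.succ_ne_zero p)
    have e2 : kp M0 (p + 1) x = if x < M0 then
        (-1) ^ (p + 1 + (M0 - x)) * (p.choose (M0 - x - 1) : ℝ) else 0 :=
      if_neg (Nat.succ_ne_zero p)
    rw [e1, e2]
    rcases lt_trichotomy (x + 1) M0 with h | h | h
    · obtain ⟨j, hj⟩ : ∃ j, M0 = x + 2 + j := ⟨M0 - (x + 2), by omega⟩
      subst hj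
      rw [if_pos (by omega), if_pos (by omega), if_pos (by omega),
        show x + 2 + j - x - 1 = j + 1 by omega, show x + 2 + j - (x + 1) - 1 = j by omega,
        show x + 2 + j - x = j + 2 by omega, show x + 2 + j - (x + 1) = j + 1 by omega,
        Nat.choose_succ_succ]
      push_cast
      ring
    · rw [if_pos (by omega), if_neg (by omega), if_pos (by omega), show M0 - x = 1 by omega]
      simp
      ring
    · rw [if_neg (by omega), if_neg (by omega), if_neg (by omega), sub_self]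

/-- the kernel with coefficients `c` -/
noncomputable def kc (M0 : ℕ) (c : ℕ → ℝ) : ℕ → ℕ → ℝ := fun x p => c p * kp M0 p x

/-- shift of a sequence -/
def shs (c : ℕ → ℝ) : ℕ → ℝ
  | 0 => 0
  | p + 1 => c p

theorem adk_kc (M0 : ℕ) (c : ℕ → ℝ) : adk (kc M0 c) = kc M0 (shs c) := by
  funext x p
  cases p with
  | zero => simp [adk, kc, shs]
  | succ p =>
    simp only [adk, kc, shs]
    rw [kp_succ]
    ring

theorem pk_kc (M0 : ℕ) (c : ℕ → ℝ) : pk (kc M0 c) = kc M0 (fun p => c p + shs c p) := by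
  unfold pk
  rw [adk_kc]
  funext x p
  simp only [kc]
  ring

/-- the sequence concentrated at `a` -/
def dlt (a : ℕ) : ℕ → ℝ := fun p => if p = a then 1 else 0

theorem K0_eq (M0 : ℕ) : K0 M0 = kc M0 (dlt 0) := by
  funext x p
  unfold K0 kc dlt
  by_cases hp : p = 0
  · subst hp
    rw [kp_zero]
    simp
  · rw [if_neg fun h => hp h.1, if_neg hp, zero_mul]

theorem adn_K0 (M0 : ℕ) : ∀ a, adk^[a] (K0 M0) = kc M0 (dlt a)
  | 0 => K0_eq M0
  | a + 1 => by
    rw [Function.iterate_succ_apply', adn_K0 M0 a, adk_kc]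
    congr 1
    funext p
    cases p with
    | zero => simp [shs, dlt]
    | succ p => simp [shs, dlt]

/-- `c p + c (p-1)` -/
def ps (c : ℕ → ℝ) : ℕ → ℝ := fun p => c p + shs c p

theorem pkn_kc (M0 : ℕ) (c : ℕ → ℝ) : ∀ s, pk^[s] (kc M0 c) = kc M0 (ps^[s] c)
  | 0 => rfl
  | s + 1 => by
    rw [Function.iterate_succ_apply', pkn_kc M0 c s, pk_kc, Function.iterate_succ_apply']
    rfl

theorem abs_kp {M0 p x : ℕ} (hp : 1 ≤ p) (hx : x < M0) :
    |kp M0 p x| = ((p - 1).choose (M0 - 1 - x) : ℝ) := by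
  unfold kp
  rw [if_neg (by omega), if_pos hx, abs_mul, abs_pow, abs_neg, abs_one, one_pow, one_mul,
    abs_of_nonneg (by positivity), show M0 - x - 1 = M0 - 1 - x by omega]

/-- the sum over the beads -/
theorem sum_abs_kp {M0 p : ℕ} (hp : 1 ≤ p) (B : Finset ℕ) :
    ∑ x ∈ B, |kp M0 p x| ≤ 2 ^ (p - 1) := by
  have h1 : ∑ x ∈ B, |kp M0 p x| = ∑ x ∈ B.filter (fun x => x < M0),
      ((p - 1).choose (M0 - 1 - x) : ℝ) := by
    rw [sum_filter]
    refine sum_congr rfl fun x _ => ?_
    split_ifs with h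
    · exact abs_kp hp h
    · unfold kp
      rw [if_neg (by omega), if_neg h, abs_zero]
  rw [h1]
  have h2 : ∑ x ∈ B.filter (fun x => x < M0), ((p - 1).choose (M0 - 1 - x) : ℝ) =
      ∑ j ∈ (B.filter fun x => x < M0).image (fun x => M0 - 1 - x), ((p - 1).choose j : ℝ) := by
    rw [sum_image]
    intro a ha b hb hab
    have ha' := (mem_filter.1 (mem_coe.1 ha)).2
    have hb' := (mem_filter.1 (mem_coe.1 hb)).2
    simp only at hab
    omega
  rw [h2]
  have h3 : ∑ j ∈ (B.filter fun x => x < M0).image (fun x => M0 - 1 - x), ((p - 1).choose j : ℝ) ≤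
      ∑ j ∈ range (p - 1 + 1), ((p - 1).choose j : ℝ) := by
    set T := (B.filter fun x => x < M0).image (fun x => M0 - 1 - x)
    rw [← sum_filter_add_sum_filter_not T (fun j => j ∈ range (p - 1 + 1))]
    have a1 : ∑ j ∈ T.filter (fun j => ¬ j ∈ range (p - 1 + 1)), ((p - 1).choose j : ℝ) = 0 := by
      refine sum_eq_zero fun j hj => ?_
      have := (mem_filter.1 hj).2
      rw [mem_range] at this
      rw [Nat.choose_eq_zero_of_lt (by omega)]
      simp
    rw [a1, add_zero]
    exact sum_le_sum_of_subset_of_nonneg (fun j hj => (mem_filter.1 hj).2)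
      (fun _ _ _ => Nat.cast_nonneg _)
  refine h3.trans (le_of_eq ?_)
  rw [← Nat.cast_sum, Nat.sum_range_choose]
  push_cast; rfl

/-- **One-body bound.** -/
theorem E1_kc_le {P : ℕ} {M0 : ℕ} (c : ℕ → ℝ) {B : Finset ℕ} (hc : B.card = K)
    (hb : ∀ x ∈ B, x < M0) :
    |E1 K P (kc M0 c) B| ≤ ∑ p ∈ Ico 1 P, |c p| * (2 ^ (p - 1) * (2 ^ (p - 1) / p.factorial)) := by
  have hF := cf_pos hc
  have hm := cf_mono hc
  set x := cf K B with hx
  unfold E1 toF e1
  rw [← hx, abs_div, abs_of_pos hF, div_le_iff₀ hF, sum_comm]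
  have h0 : ∀ i, M0 ≤ x i → False := fun i h => by
    have := hb _ (cf_mem hc i)
    rw [hx] at h; omega
  have h1 : ∀ p ∈ range P, |∑ i, kc M0 c (x i) p * FF (up x i p)| ≤
      if 1 ≤ p then |c p| * (2 ^ (p - 1) * (2 ^ (p - 1) / p.factorial)) * FF x else 0 := by
    intro p _
    split_ifs with hp
    · refine (abs_sum_le_sum_abs _ _).trans ?_
      have h2 : ∀ i ∈ (univ : Finset (Fin K)), |kc M0 c (x i) p * FF (up x i p)| ≤
          |kp M0 p (x i)| * (|c p| * (2 ^ (p - 1) / p.factorial * FF x)) := by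
        intro i _
        have h3 := FF_up_le hm.injective i hp
        rw [abs_of_pos hF] at h3
        unfold kc
        rw [abs_mul, abs_mul]
        calc |c p| * |kp M0 p (x i)| * |FF (up x i p)|
            ≤ |c p| * |kp M0 p (x i)| * (2 ^ (p - 1) / p.factorial * FF x) :=
              mul_le_mul_of_nonneg_left h3 (by positivity)
          _ = _ := by ring
      refine (sum_le_sum h2).trans ?_
      rw [← sum_mul]
      have h4 : ∑ i, |kp M0 p (x i)| = ∑ y ∈ B, |kp M0 p y| := by
        have e4 : ∑ y ∈ univ.image x, |kp M0 p y| = ∑ i, |kp M0 p (x i)| :=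
          sum_image (fun a _ b _ h => hm.injective h)
        rw [← e4, hx, cf_image hc]
      rw [h4]
      have h5 := sum_abs_kp (M0 := M0) hp B
      have h6 : 0 ≤ |c p| * (2 ^ (p - 1) / p.factorial * FF x) := by positivity
      calc (∑ y ∈ B, |kp M0 p y|) * (|c p| * (2 ^ (p - 1) / p.factorial * FF x))
          ≤ 2 ^ (p - 1) * (|c p| * (2 ^ (p - 1) / p.factorial * FF x)) :=
            mul_le_mul_of_nonneg_right h5 h6
        _ = _ := by ring
    · have hp0 : p = 0 := by omega
      subst hp0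
      rw [abs_nonpos_iff]
      refine sum_eq_zero fun i _ => ?_
      unfold kc
      rw [kp_zero, if_neg fun h => h0 i h]
      ring
  refine (abs_sum_le_sum_abs _ _).trans ((sum_le_sum h1).trans (le_of_eq ?_))
  rw [← sum_filter, sum_mul]
  refine sum_congr ?_ fun _ _ => rfl
  ext p
  rw [mem_filter, mem_range, mem_Ico]
  tauto

end Pool.JM
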