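import Pool.Agent.Work.MP_46fa68_h4.Bounds

/-!
# MP_46fa68_co: the bound for two-body functions and for the defect of a kernel `kc`
-/

set_option autoImplicit false

open Finset Equiv

namespace Pool.JM

variable {K : ℕ}

/-- the size of a one-body term -/
noncomputable def gz (p : ℕ) : ℝ := 2 ^ (p - 1) * (2 ^ (p - 1) / (p.factorial : ℝ))

theorem gz_nonneg (p : ℕ) : 0 ≤ gz p := by unfold gz; positivity

/-- two beads of a set of level `m` -/
theorem two_beads {m : ℕ} {B : Finset ℕ} (hB : B ∈ Lv K m) {x y : ℕ} (hx : x ∈ B) (hy : y ∈ B)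
    (hne : x ≠ y) : x + y + 3 ≤ 2 * K + m := by
  obtain ⟨hc, -, -, hs⟩ := Lv_spec hB
  have hK : 2 ≤ K := by
    rw [← hc]
    have : ({x, y} : Finset ℕ) ⊆ B := by
      intro z hz
      rw [mem_insert, mem_singleton] at hz
      rcases hz with rfl | rfl
      · exact hx
      · exact hy
    have := card_le_card this
    rwa [card_pair hne] at this
  have e1 := add_sum_erase B (fun z => z) hx
  have hy' : y ∈ B.erase x := mem_erase.2 ⟨fun h => hne h.symm, hy⟩
  have e2 := add_sum_erase (B.erase x) (fun z => z) hy'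
  have hc2 : ((B.erase x).erase y).card = K - 2 := by
    rw [card_erase_of_mem hy', card_erase_of_mem hx, hc]
    omega
  have hmin : ∑ z ∈ range (K - 2), z ≤ ∑ z ∈ (B.erase x).erase y, z := by
    by_contra hcon
    push Not at hcon
    have := eq_range_of_sum hc2 hcon.le
    rw [this] at hcon
    exact lt_irrefl _ hcon
  obtain ⟨k, rfl⟩ : ∃ k, K = k + 2 := ⟨K - 2, by omega⟩
  rw [sum_range_succ, sum_range_succ] at hs
  simp only [Nat.add_sub_cancel] at hmin
  omega

theorem kp_ne {M0 p x : ℕ} (hx : x < M0) (h : kp M0 p x ≠ 0) : 1 ≤ p ∧ M0 ≤ x + p := by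
  unfold kp at h
  by_cases hp : p = 0
  · subst hp
    rw [if_pos rfl, if_neg (by omega)] at h
    exact absurd rfl h
  · rw [if_neg hp, if_pos hx] at h
    have h1 := right_ne_zero_of_mul h
    refine ⟨by omega, ?_⟩
    by_contra hcon
    apply h1
    rw [Nat.choose_eq_zero_of_lt (by omega)]
    simp

/-- **Two-body bound.** -/
theorem E2_kc_le {P m : ℕ} (c c' : ℕ → ℝ) {B : Finset ℕ} (hB : B ∈ Lv K m)
    (hb : Bl m K B) :
    |E2 K P (kc (K - 1 + m) c) (kc (K - 1 + m) c') B| ≤
      ∑ a ∈ Ico 1 P, ∑ b ∈ Ico 1 P, if m + 1 ≤ a + b then |c a| * |c' b| * (gz a * gz b) else 0 := by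
  have hc := (Lv_spec hB).1
  have hF := cf_pos hc
  have hm := cf_mono hc
  set M0 := K - 1 + m with hM0
  have hmem := fun i => cf_mem hc i
  have himg := cf_image hc
  unfold E2 toF
  generalize cf K B = x at hF hm hmem himg ⊢
  have hx0 : ∀ i, x i < M0 := fun i => hb _ (hmem i)
  rw [abs_div, abs_of_pos hF, div_le_iff₀ hF]
  -- bound of one term
  have key : ∀ i, ∀ j ∈ univ.erase i, ∀ a b, |kc M0 c (x i) a * kc M0 c' (x j) b *
      FF (up (up x i a) j b)| ≤ (if 1 ≤ a ∧ 1 ≤ b ∧ m + 1 ≤ a + b then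
        (|kp M0 a (x i)| * |kp M0 b (x j)|) * (|c a| * |c' b| *
          ((2 ^ (a - 1) / a.factorial) * (2 ^ (b - 1) / b.factorial)) * FF x) else 0) := by
    intro i j hj a b
    have hji : j ≠ i := ne_of_mem_erase hj
    by_cases hz : kp M0 a (x i) = 0
    · unfold kc
      rw [hz]
      simp
    by_cases hz' : kp M0 b (x j) = 0
    · unfold kc
      rw [hz']
      simp
    obtain ⟨h1, h2⟩ := kp_ne (hx0 i) hz
    obtain ⟨h3, h4⟩ := kp_ne (hx0 j) hz'
    have h5 := two_beads hB (hmem i) (hmem j) (fun h => hji (hm.injective h).symm)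
    rw [if_pos ⟨h1, h3, by omega⟩]
    have hinj : Function.Injective (up x i a) := by
      intro p q hpq
      by_cases hp : p = i
      · by_cases hq : q = i
        · rw [hp, hq]
        · exfalso
          rw [hp, up_same, up_ne _ hq] at hpq
          have := hx0 q
          omega
      · by_cases hq : q = i
        · exfalso
          rw [hq, up_same, up_ne _ hp] at hpq
          have := hx0 p
          omega
        · rw [up_ne _ hp, up_ne _ hq] at hpq
          exact hm.injective hpq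
    have h6 := FF_up_le hinj j h3
    have h7 := FF_up_le hm.injective i h1
    rw [abs_of_pos hF] at h7
    have h8 : |FF (up (up x i a) j b)| ≤
        ((2 ^ (a - 1) / a.factorial) * (2 ^ (b - 1) / b.factorial)) * FF x := by
      refine h6.trans ?_
      calc (2 : ℝ) ^ (b - 1) / b.factorial * |FF (up x i a)|
          ≤ 2 ^ (b - 1) / b.factorial * (2 ^ (a - 1) / a.factorial * FF x) :=
            mul_le_mul_of_nonneg_left h7 (by positivity)
        _ = _ := by ring
    unfold kc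
    rw [abs_mul, abs_mul, abs_mul, abs_mul]
    calc |c a| * |kp M0 a (x i)| * (|c' b| * |kp M0 b (x j)|) * |FF (up (up x i a) j b)|
        ≤ |c a| * |kp M0 a (x i)| * (|c' b| * |kp M0 b (x j)|) *
          (((2 ^ (a - 1) / a.factorial) * (2 ^ (b - 1) / b.factorial)) * FF x) :=
          mul_le_mul_of_nonneg_left h8 (by positivity)
      _ = _ := by ring
  have hsum : ∀ p, 1 ≤ p → ∑ i, |kp M0 p (x i)| ≤ 2 ^ (p - 1) := by
    intro p hp
    have h5 := sum_abs_kp (M0 := M0) hp B
    have e4 : ∑ y ∈ univ.image x, |kp M0 p y| = ∑ i, |kp M0 p (x i)| :=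
      sum_image (fun a _ b _ h => hm.injective h)
    rwa [← himg, e4] at h5
  -- reorder the sums
  have hre : e2 P (kc M0 c) (kc M0 c') x = ∑ a ∈ range P, ∑ b ∈ range P, ∑ i, ∑ j ∈ univ.erase i,
      kc M0 c (x i) a * kc M0 c' (x j) b * FF (up (up x i a) j b) := by
    unfold e2
    have s1 : ∀ i : Fin K, ∑ j ∈ univ.erase i, ∑ p ∈ range P, ∑ q ∈ range P,
        kc M0 c (x i) p * kc M0 c' (x j) q * FF (up (up x i p) j q) =
        ∑ p ∈ range P, ∑ q ∈ range P, ∑ j ∈ univ.erase i,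
        kc M0 c (x i) p * kc M0 c' (x j) q * FF (up (up x i p) j q) := by
      intro i
      rw [sum_comm]
      refine sum_congr rfl fun p _ => ?_
      rw [sum_comm]
    rw [sum_congr rfl fun i _ => s1 i, sum_comm]
    refine sum_congr rfl fun p _ => ?_
    rw [sum_comm]
  rw [hre]
  have hab : ∀ a ∈ range P, ∀ b ∈ range P, |∑ i, ∑ j ∈ univ.erase i,
      kc M0 c (x i) a * kc M0 c' (x j) b * FF (up (up x i a) j b)| ≤
      if 1 ≤ a ∧ 1 ≤ b ∧ m + 1 ≤ a + b then |c a| * |c' b| * (gz a * gz b) * FF x else 0 := by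
    intro a _ b _
    by_cases hcond : 1 ≤ a ∧ 1 ≤ b ∧ m + 1 ≤ a + b
    · rw [if_pos hcond]
      have t1 : |∑ i, ∑ j ∈ univ.erase i,
          kc M0 c (x i) a * kc M0 c' (x j) b * FF (up (up x i a) j b)| ≤
          ∑ i, ∑ j, (|kp M0 a (x i)| * |kp M0 b (x j)|) * (|c a| * |c' b| *
          ((2 ^ (a - 1) / a.factorial) * (2 ^ (b - 1) / b.factorial)) * FF x) := by
        refine (abs_sum_le_sum_abs _ _).trans (sum_le_sum fun i _ => ?_)
        refine (abs_sum_le_sum_abs _ _).trans ?_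
        have t2 : ∀ j ∈ univ.erase i, |kc M0 c (x i) a * kc M0 c' (x j) b *
            FF (up (up x i a) j b)| ≤ (|kp M0 a (x i)| * |kp M0 b (x j)|) * (|c a| * |c' b| *
          ((2 ^ (a - 1) / a.factorial) * (2 ^ (b - 1) / b.factorial)) * FF x) := by
          intro j hj
          have := key i j hj a b
          rwa [if_pos hcond] at this
        refine (sum_le_sum t2).trans ?_
        refine sum_le_sum_of_subset_of_nonneg (erase_subset _ _) fun _ _ _ => ?_
        positivity
      refine t1.trans ?_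
      rw [show ∑ i, ∑ j, (|kp M0 a (x i)| * |kp M0 b (x j)|) * (|c a| * |c' b| *
          ((2 ^ (a - 1) / a.factorial) * (2 ^ (b - 1) / b.factorial)) * FF x) =
          (∑ i, |kp M0 a (x i)|) * (∑ j, |kp M0 b (x j)|) * (|c a| * |c' b| *
          ((2 ^ (a - 1) / a.factorial) * (2 ^ (b - 1) / b.factorial)) * FF x) by
        rw [sum_mul_sum, sum_mul]
        refine sum_congr rfl fun i _ => ?_
        rw [sum_mul]]
      have h9 : (∑ i, |kp M0 a (x i)|) * (∑ j, |kp M0 b (x j)|) ≤ 2 ^ (a - 1) * 2 ^ (b - 1) :=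
        mul_le_mul (hsum a hcond.1) (hsum b hcond.2.1) (sum_nonneg fun _ _ => abs_nonneg _)
          (by positivity)
      refine (mul_le_mul_of_nonneg_right h9 (by positivity)).trans (le_of_eq ?_)
      unfold gz
      ring
    · rw [if_neg hcond, abs_nonpos_iff]
      refine sum_eq_zero fun i _ => sum_eq_zero fun j hj => ?_
      have := key i j hj a b
      rw [if_neg hcond] at this
      exact abs_nonpos_iff.1 this
  refine (abs_sum_le_sum_abs _ _).trans ?_
  refine (sum_le_sum fun a ha => (abs_sum_le_sum_abs _ _).trans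
    (sum_le_sum fun b hb' => hab a ha b hb')).trans ?_
  rw [sum_mul]
  have u1 : ∀ a ∈ range P, ∑ b ∈ range P,
      (if 1 ≤ a ∧ 1 ≤ b ∧ m + 1 ≤ a + b then |c a| * |c' b| * (gz a * gz b) * FF x else 0) =
      if 1 ≤ a then (∑ b ∈ Ico 1 P, if m + 1 ≤ a + b then |c a| * |c' b| * (gz a * gz b) else 0) *
        FF x else 0 := by
    intro a _
    split_ifs with ha
    · rw [sum_mul]
      have : Ico 1 P = (range P).filter fun b => 1 ≤ b := by
        ext b; rw [mem_filter, mem_range, mem_Ico]; tauto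
      rw [this, sum_filter]
      refine sum_congr rfl fun b _ => ?_
      by_cases hb1 : 1 ≤ b
      · by_cases hab1 : m + 1 ≤ a + b
        · rw [if_pos ⟨ha, hb1, hab1⟩, if_pos hb1, if_pos hab1]
        · rw [if_neg fun h => hab1 h.2.2, if_pos hb1, if_neg hab1, zero_mul]
      · rw [if_neg fun h => hb1 h.2.1, if_neg hb1]
    · refine sum_eq_zero fun b _ => ?_
      rw [if_neg fun h => ha h.1]
  rw [sum_congr rfl u1, ← sum_filter]
  refine le_of_eq (sum_congr ?_ fun _ _ => rfl)
  ext p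
  rw [mem_filter, mem_range, mem_Ico]
  tauto

/-- **The defect of a kernel `kc`**, crude bound. -/
theorem defect_kc {m t P A : ℕ} (hm : 2 ≤ m) (htm : t < m) (hK : m + t ≤ K) (hAK : A + t < K + m)
    (c : ℕ → ℝ) (h0 : c 0 = 1) (hA : ∀ p, A < p → c p = 0) (hP : A + 1 + t ≤ P)
    {B : Finset ℕ} (hB : B ∈ Lv K m) (hb : Bl m K B) :
    |Dwi (K + m - 2) t (fun C => 1 - E1 K P (kc (K - 1 + m) c) C) B - 1| ≤
      ∑ p ∈ Ico 1 P, |ps^[t] c p| * gz p +
        ∑ a ∈ Ico 1 (t + 1), (t.choose a : ℝ) *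
          ∑ b ∈ Ico 1 P, if m + 1 ≤ a + b then |ps^[t - a] c b| * (gz a * gz b) else 0 := by
  have hk : ∀ x p, K - 1 + m ≤ x → kc (K - 1 + m) c x p = K0 (K - 1 + m) x p := by
    intro x p hx
    unfold kc K0
    by_cases hp : p = 0
    · subst hp
      rw [kp_zero, if_pos hx, if_pos ⟨rfl, hx⟩, h0, one_mul]
    · unfold kp
      rw [if_neg hp, if_neg (by omega), mul_zero, if_neg fun h => hp h.1]
  have hks : Sup (kc (K - 1 + m) c) (K - 1 + m - A) (A + 1) := by
    intro x p hxp
    unfold kc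
    by_cases hpA : A < p
    · rw [hA p hpA, zero_mul]
    · have hx : x < K - 1 + m - A := by omega
      by_cases hz : kp (K - 1 + m) p x = 0
      · rw [hz, mul_zero]
      · exfalso
        have := (kp_ne (by omega) hz).2
        omega
  rw [defect_formula hm htm hK hk hks (by omega) (by omega) (by omega) hB hb, pkn_kc,
    sum_range_succ']
  have e0 : E2 K P (adk^[0] (K0 (K - 1 + m))) (pk^[t - 0] (kc (K - 1 + m) c)) B = 0 := by
    rw [pkn_kc]
    have e : adk^[0] (K0 (K - 1 + m)) = kc (K - 1 + m) (dlt 0) := adn_K0 _ 0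
    rw [e]
    have h1 := E2_kc_le (P := P) (dlt 0) (ps^[t - 0] c) hB hb
    have h2 : ∑ a ∈ Ico 1 P, ∑ b ∈ Ico 1 P, (if m + 1 ≤ a + b then
        |dlt 0 a| * |ps^[t - 0] c b| * (gz a * gz b) else 0) = 0 := by
      refine sum_eq_zero fun a ha => sum_eq_zero fun b _ => ?_
      have : dlt 0 a = 0 := by
        unfold dlt
        rw [if_neg]
        have := (mem_Ico.1 ha).1
        omega
      rw [this]
      simp
    rw [h2] at h1
    exact abs_nonpos_iff.1 h1
  rw [e0, mul_zero, add_zero]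
  have h3 : |E1 K P (kc (K - 1 + m) (ps^[t] c)) B| ≤ ∑ p ∈ Ico 1 P, |ps^[t] c p| * gz p :=
    E1_kc_le (ps^[t] c) (Lv_spec hB).1 hb
  have h4 : |∑ a ∈ range t, (t.choose (a + 1) : ℝ) *
      E2 K P (adk^[a + 1] (K0 (K - 1 + m))) (pk^[t - (a + 1)] (kc (K - 1 + m) c)) B| ≤
      ∑ a ∈ Ico 1 (t + 1), (t.choose a : ℝ) *
          ∑ b ∈ Ico 1 P, if m + 1 ≤ a + b then |ps^[t - a] c b| * (gz a * gz b) else 0 := by
    rw [show ∑ a ∈ Ico 1 (t + 1), (t.choose a : ℝ) *
          (∑ b ∈ Ico 1 P, if m + 1 ≤ a + b then |ps^[t - a] c b| * (gz a * gz b) else 0) =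
        ∑ a ∈ range t, (t.choose (a + 1) : ℝ) *
          (∑ b ∈ Ico 1 P, if m + 1 ≤ (a + 1) + b then |ps^[t - (a + 1)] c b| *
            (gz (a + 1) * gz b) else 0) by
      rw [Finset.sum_Ico_eq_sum_range]
      simp only [Nat.add_sub_cancel]
      refine sum_congr rfl fun a _ => ?_
      rw [add_comm 1 a]]
    refine (abs_sum_le_sum_abs _ _).trans (sum_le_sum fun a ha => ?_)
    have hat := mem_range.1 ha
    rw [abs_mul, abs_of_nonneg (Nat.cast_nonneg _)]
    refine mul_le_mul_of_nonneg_left ?_ (Nat.cast_nonneg _)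
    rw [pkn_kc, adn_K0]
    refine (E2_kc_le (dlt (a + 1)) (ps^[t - (a + 1)] c) hB hb).trans (le_of_eq ?_)
    have haP : a + 1 ∈ Ico 1 P := mem_Ico.2 ⟨by omega, by omega⟩
    rw [sum_eq_single_of_mem (a + 1) haP]
    · refine sum_congr rfl fun b _ => ?_
      unfold dlt
      rw [if_pos rfl, abs_one, one_mul]
    · intro a' _ hne
      refine sum_eq_zero fun b _ => ?_
      unfold dlt
      rw [if_neg hne]
      simp
  have h5 : (1 : ℝ) - E1 K P (kc (K - 1 + m) (ps^[t] c)) B +
      ∑ a ∈ range t, (t.choose (a + 1) : ℝ) *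
      E2 K P (adk^[a + 1] (K0 (K - 1 + m))) (pk^[t - (a + 1)] (kc (K - 1 + m) c)) B - 1 =
      -E1 K P (kc (K - 1 + m) (ps^[t] c)) B +
      ∑ a ∈ range t, (t.choose (a + 1) : ℝ) *
      E2 K P (adk^[a + 1] (K0 (K - 1 + m))) (pk^[t - (a + 1)] (kc (K - 1 + m) c)) B := by ring
  rw [h5]
  refine (abs_add_le _ _).trans (add_le_add ?_ h4)
  rw [abs_neg]
  exact h3

end Pool.JM
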