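import Pool.Agent.Work.MP_46fa68_h4.Bounds2

/-!
# MP_46fa68_co: the truncated canonical one-body solution and its defect
-/

set_option autoImplicit false

open Finset Equiv

namespace Pool.JM

variable {K : ℕ}

/-- truncated coefficients of `(1 + X)^(-t)` -/
noncomputable def bt (t A : ℕ) : ℕ → ℝ := fun p =>
  if p ≤ A then (-1) ^ p * ((t + p - 1).choose p : ℝ) else 0

theorem bt_zero (t A : ℕ) : bt t A 0 = 1 := by
  unfold bt; simp

theorem ps_zero (c : ℕ → ℝ) : ps c 0 = c 0 := by
  unfold ps; simp [shs]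

theorem ps_succ (c : ℕ → ℝ) (p : ℕ) : ps c (p + 1) = c (p + 1) + c p := rfl

theorem ps_bt {t A : ℕ} : ∀ s, s ≤ t → ∀ p, p ≤ A →
    ps^[s] (bt t A) p = (-1) ^ p * ((t - s + p - 1).choose p : ℝ)
  | 0, _, p, hp => by
    rw [Function.iterate_zero_apply]
    unfold bt
    rw [if_pos hp, Nat.sub_zero]
  | s + 1, hs, p, hp => by
    rw [Function.iterate_succ_apply']
    cases p with
    | zero =>
      rw [ps_zero, ps_bt s (by omega) 0 hp]
      simp
    | succ p =>
      rw [ps_succ, ps_bt s (by omega) (p + 1) hp, ps_bt s (by omega) p (by omega)]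
      obtain ⟨u, hu⟩ : ∃ u, t - s = u + 1 := ⟨t - s - 1, by omega⟩
      rw [hu, show t - (s + 1) = u by omega, show u + 1 + (p + 1) - 1 = (u + p) + 1 by omega,
        show u + 1 + p - 1 = u + p by omega, show u + (p + 1) - 1 = u + p by omega,
        Nat.choose_succ_succ]
      push_cast
      ring

theorem ps_bt_zero {t A : ℕ} : ∀ s p, A + s < p → ps^[s] (bt t A) p = 0
  | 0, p, hp => by
    rw [Function.iterate_zero_apply]
    unfold bt
    rw [if_neg (by omega)]
  | s + 1, p, hp => by
    rw [Function.iterate_succ_apply']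
    cases p with
    | zero => omega
    | succ p => rw [ps_succ, ps_bt_zero s _ (by omega), ps_bt_zero s _ (by omega), add_zero]

theorem ps_bt_abs {t A : ℕ} : ∀ s p, |ps^[s] (bt t A) p| ≤ 2 ^ s * 2 ^ (t + A)
  | 0, p => by
    rw [Function.iterate_zero_apply, pow_zero, one_mul]
    unfold bt
    split_ifs with hp
    · rw [abs_mul, abs_pow, abs_neg, abs_one, one_pow, one_mul, abs_of_nonneg (Nat.cast_nonneg _)]
      have h1 : (t + p - 1).choose p ≤ 2 ^ (t + p - 1) := Nat.choose_le_two_pow _ _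
      have h2 : 2 ^ (t + p - 1) ≤ 2 ^ (t + A) := Nat.pow_le_pow_right (by norm_num) (by omega)
      exact_mod_cast h1.trans h2
    · rw [abs_zero]; positivity
  | s + 1, p => by
    rw [Function.iterate_succ_apply', pow_succ]
    cases p with
    | zero =>
      rw [ps_zero]
      have := ps_bt_abs (t := t) (A := A) s 0
      have h2 : (0 : ℝ) ≤ 2 ^ s * 2 ^ (t + A) := by positivity
      linarith
    | succ p =>
      rw [ps_succ]
      have h1 := ps_bt_abs (t := t) (A := A) s (p + 1)
      have h2 := ps_bt_abs (t := t) (A := A) s p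
      refine (abs_add_le _ _).trans ?_
      linarith

/-- tails of the exponential series -/
theorem tail_le (z : ℝ) (hz : 0 ≤ z) (a : ℕ) (ha : 2 * z ≤ a + 1) : ∀ b,
    ∑ s ∈ Ico a b, z ^ s / (s.factorial : ℝ) ≤ 2 * (z ^ a / a.factorial) := by
  have hterm : ∀ i, z ^ (a + i) / ((a + i).factorial : ℝ) ≤ (z ^ a / a.factorial) * (1 / 2) ^ i := by
    intro i
    induction i with
    | zero => simp
    | succ i ih =>
      rw [show a + (i + 1) = (a + i) + 1 from rfl, Nat.factorial_succ, pow_succ, pow_succ]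
      push_cast
      have h1 : (0 : ℝ) < (a + i).factorial := by exact_mod_cast (a + i).factorial_pos
      have h2 : (0 : ℝ) < (a : ℝ) + i + 1 := by positivity
      have h3 : z / ((a : ℝ) + i + 1) ≤ 1 / 2 := by
        rw [div_le_div_iff₀ h2 (by norm_num)]
        have : (0 : ℝ) ≤ i := Nat.cast_nonneg i
        linarith
      calc z ^ (a + i) * z / (((a : ℝ) + i + 1) * (a + i).factorial)
          = (z ^ (a + i) / ((a + i).factorial : ℝ)) * (z / ((a : ℝ) + i + 1)) := by field_simp
        _ ≤ ((z ^ a / a.factorial) * (1 / 2) ^ i) * (1 / 2) :=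
            mul_le_mul ih h3 (by positivity) (by positivity)
        _ = _ := by ring
  intro b
  rw [Finset.sum_Ico_eq_sum_range]
  refine (sum_le_sum fun i _ => hterm i).trans ?_
  rw [← mul_sum]
  have h4 : ∑ i ∈ range (b - a), ((1 : ℝ) / 2) ^ i ≤ 2 := by
    have := geom_sum_eq (x := (1 / 2 : ℝ)) (by norm_num) (b - a)
    rw [this]
    have h5 : (0 : ℝ) ≤ (1 / 2) ^ (b - a) := by positivity
    rw [div_le_iff_of_neg (by norm_num)]
    linarith
  have h6 : (0 : ℝ) ≤ z ^ a / a.factorial := by positivity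
  calc (z ^ a / a.factorial) * ∑ i ∈ range (b - a), ((1 : ℝ) / 2) ^ i
      ≤ (z ^ a / a.factorial) * 2 := mul_le_mul_of_nonneg_left h4 h6
    _ = _ := by ring

theorem gz_eq {p : ℕ} (hp : 1 ≤ p) : gz p = 4 ^ p / (4 * (p.factorial : ℝ)) := by
  unfold gz
  obtain ⟨q, rfl⟩ : ∃ q, p = q + 1 := ⟨p - 1, by omega⟩
  have h : ((q + 1).factorial : ℝ) ≠ 0 := by exact_mod_cast (q + 1).factorial_ne_zero
  rw [Nat.add_sub_cancel, show (4 : ℝ) ^ (q + 1) = 2 ^ q * 2 ^ q * 4 by
    rw [show (4 : ℝ) = 2 * 2 by norm_num, mul_pow, pow_succ]; ring]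
  field_simp

theorem gz_mul_le {a b : ℕ} (ha : 1 ≤ a) (hb : 1 ≤ b) :
    gz a * gz b ≤ 8 ^ (a + b) / (16 * ((a + b).factorial : ℝ)) := by
  rw [gz_eq ha, gz_eq hb]
  have h1 : (0 : ℝ) < a.factorial := by exact_mod_cast a.factorial_pos
  have h2 : (0 : ℝ) < b.factorial := by exact_mod_cast b.factorial_pos
  have h3 : (0 : ℝ) < (a + b).factorial := by exact_mod_cast (a + b).factorial_pos
  have h4 : ((a + b).factorial : ℝ) ≤ 2 ^ (a + b) * (a.factorial * b.factorial) := by
    have e := Nat.add_choose_mul_factorial_mul_factorial a b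
    have h5 := Nat.choose_le_two_pow (a + b) b
    have h6 : (a + b).factorial ≤ 2 ^ (a + b) * (a.factorial * b.factorial) := by
      rw [← e, mul_assoc]
      exact Nat.mul_le_mul_right _ h5
    exact_mod_cast h6
  rw [div_mul_div_comm, div_le_div_iff₀ (by positivity) (by positivity)]
  have h7 : (8 : ℝ) ^ (a + b) = 4 ^ a * 4 ^ b * 2 ^ (a + b) := by
    rw [← pow_add, ← mul_pow]; norm_num
  rw [h7]
  have h8 : (0 : ℝ) < 4 ^ a * 4 ^ b := by positivity
  calc (4 : ℝ) ^ a * 4 ^ b * (16 * ((a + b).factorial : ℝ))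
      ≤ 4 ^ a * 4 ^ b * (16 * (2 ^ (a + b) * (a.factorial * b.factorial))) := by
        refine mul_le_mul_of_nonneg_left ?_ h8.le
        linarith
    _ = _ := by ring

/-- **The defect of the truncated canonical solution.** -/
theorem defect_canon {m t P A : ℕ} (hm : 32 ≤ m) (htm : t < m) (hA : A = 2 * m) (hK : A + t ≤ K)
    (hP : P = A + 1 + t) {B : Finset ℕ} (hB : B ∈ Lv K m) (hb : Bl m K B) :
    |Dwi (K + m - 2) t (fun C => 1 - E1 K P (kc (K - 1 + m) (bt t A)) C) B - 1| ≤
      2 ^ t * (16 ^ (m + 1) / (8 * ((m + 1).factorial : ℝ))) +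
        2 ^ (3 * t + A) * (16 * (4 ^ (A + 1) / ((A + 1).factorial : ℝ))) := by
  refine (defect_kc (A := A) (by omega) htm (by omega) (by omega) (bt t A) (bt_zero t A) (fun p hp => by
    unfold bt; rw [if_neg (by omega)]) (by omega) hB hb).trans ?_
  have hf : ∀ n : ℕ, (0 : ℝ) < n.factorial := fun n => by exact_mod_cast n.factorial_pos
  -- the tail of the series of `4^p / p!`
  have htail : ∀ b, ∑ p ∈ Ico (A + 1) b, (4 : ℝ) ^ p / (p.factorial : ℝ) ≤
      2 * (4 ^ (A + 1) / (A + 1).factorial) := by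
    refine tail_le 4 (by norm_num) (A + 1) ?_
    have : (7 : ℝ) ≤ ((A + 1 : ℕ) : ℝ) := by exact_mod_cast (by omega)
    push_cast at this ⊢
    linarith
  set X : ℝ := 4 ^ (A + 1) / (A + 1).factorial with hX
  have hX0 : 0 ≤ X := by positivity
  -- first sum
  have s1 : ∑ p ∈ Ico 1 P, |ps^[t] (bt t A) p| * gz p ≤ 2 ^ (2 * t + A) * X := by
    have e1 : ∑ p ∈ Ico 1 P, |ps^[t] (bt t A) p| * gz p =
        ∑ p ∈ Ico (A + 1) P, |ps^[t] (bt t A) p| * gz p := by
      rw [← Finset.sum_Ico_consecutive _ (by omega : 1 ≤ A + 1) (by omega : A + 1 ≤ P)]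
      have : ∑ p ∈ Ico 1 (A + 1), |ps^[t] (bt t A) p| * gz p = 0 := by
        refine sum_eq_zero fun p hp => ?_
        rw [mem_Ico] at hp
        rw [ps_bt t le_rfl p (by omega), Nat.sub_self, Nat.choose_eq_zero_of_lt (by omega)]
        simp
      rw [this, zero_add]
    rw [e1]
    have e2 : ∀ p ∈ Ico (A + 1) P, |ps^[t] (bt t A) p| * gz p ≤
        2 ^ (2 * t + A) * ((1 / 4) * (4 ^ p / (p.factorial : ℝ))) := by
      intro p hp
      rw [mem_Ico] at hp
      have h1 := ps_bt_abs (t := t) (A := A) t p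
      have h2 : (2 : ℝ) ^ t * 2 ^ (t + A) = 2 ^ (2 * t + A) := by rw [← pow_add]; congr 1; omega
      rw [h2] at h1
      have h3 : gz p = (1 / 4) * (4 ^ p / (p.factorial : ℝ)) := by
        rw [gz_eq (by omega)]
        have := (hf p).ne'
        field_simp
      rw [h3]
      exact mul_le_mul_of_nonneg_right h1 (by positivity)
    refine (sum_le_sum e2).trans ?_
    rw [← mul_sum, ← mul_sum]
    refine mul_le_mul_of_nonneg_left ?_ (by positivity)
    have := htail P
    linarith
  -- second sum, for fixed `a`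
  have s2 : ∀ a ∈ Ico 1 (t + 1), ∑ b ∈ Ico 1 P,
      (if m + 1 ≤ a + b then |ps^[t - a] (bt t A) b| * (gz a * gz b) else 0) ≤
      16 ^ (m + 1) / (8 * ((m + 1).factorial : ℝ)) + 2 ^ (2 * t + A) * (15 * X) := by
    intro a ha
    rw [mem_Ico] at ha
    rw [← Finset.sum_Ico_consecutive _ (by omega : 1 ≤ A + 1) (by omega : A + 1 ≤ P)]
    refine add_le_add ?_ ?_
    · -- small `b`
      have e1 : ∀ b ∈ Ico 1 (A + 1), (if m + 1 ≤ a + b then
          |ps^[t - a] (bt t A) b| * (gz a * gz b) else 0) ≤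
          if m + 1 ≤ a + b then (1 / 16) * ((16 : ℝ) ^ (a + b) / ((a + b).factorial : ℝ)) else 0 := by
        intro b hb'
        rw [mem_Ico] at hb'
        split_ifs with hab
        · have h1 : |ps^[t - a] (bt t A) b| ≤ 2 ^ (a + b) := by
            rw [ps_bt (t - a) (by omega) b (by omega), abs_mul, abs_pow, abs_neg, abs_one, one_pow,
              one_mul, abs_of_nonneg (Nat.cast_nonneg _), show t - (t - a) = a by omega]
            have h2 : (a + b - 1).choose b ≤ 2 ^ (a + b - 1) := Nat.choose_le_two_pow _ _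
            have h3 : 2 ^ (a + b - 1) ≤ 2 ^ (a + b) := Nat.pow_le_pow_right (by norm_num) (by omega)
            exact_mod_cast h2.trans h3
          have h4 := gz_mul_le ha.1 hb'.1
          have h5 : 0 ≤ gz a * gz b := mul_nonneg (gz_nonneg _) (gz_nonneg _)
          refine (mul_le_mul h1 h4 h5 (by positivity)).trans (le_of_eq ?_)
          have h6 : (16 : ℝ) ^ (a + b) = 2 ^ (a + b) * 8 ^ (a + b) := by
            rw [← mul_pow]; norm_num
          rw [h6]
          have := (hf (a + b)).ne'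
          field_simp
        · exact le_rfl
      refine (sum_le_sum e1).trans ?_
      have e2 : ∑ b ∈ Ico 1 (A + 1), (if m + 1 ≤ a + b then
          (1 / 16) * ((16 : ℝ) ^ (a + b) / ((a + b).factorial : ℝ)) else 0) ≤
          (1 / 16) * ∑ s ∈ Ico (m + 1) (a + A + 1), (16 : ℝ) ^ s / (s.factorial : ℝ) := by
        rw [← sum_filter, mul_sum]
        have e3 : ∑ b ∈ (Ico 1 (A + 1)).filter (fun b => m + 1 ≤ a + b),
            (1 / 16) * ((16 : ℝ) ^ (a + b) / ((a + b).factorial : ℝ)) =
            ∑ s ∈ ((Ico 1 (A + 1)).filter (fun b => m + 1 ≤ a + b)).image (fun b => a + b),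
            (1 / 16) * ((16 : ℝ) ^ s / (s.factorial : ℝ)) := by
          rw [sum_image (fun x _ y _ h => by omega)]
        rw [e3]
        refine sum_le_sum_of_subset_of_nonneg ?_ fun _ _ _ => by positivity
        intro s hs
        obtain ⟨b, hb', rfl⟩ := mem_image.1 hs
        rw [mem_filter, mem_Ico] at hb'
        rw [mem_Ico]
        omega
      refine e2.trans ?_
      have h7 := tail_le 16 (by norm_num) (m + 1) (by
        have : (32 : ℝ) ≤ (m : ℝ) := by exact_mod_cast hm
        push_cast; linarith) (a + A + 1)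
      have h8 : (16 : ℝ) ^ (m + 1) / (8 * ((m + 1).factorial : ℝ)) =
          (1 / 16) * (2 * (16 ^ (m + 1) / ((m + 1).factorial : ℝ))) := by
        have := (hf (m + 1)).ne'
        field_simp
        ring
      rw [h8]
      exact mul_le_mul_of_nonneg_left h7 (by norm_num)
    · -- large `b`
      have e1 : ∀ b ∈ Ico (A + 1) P, (if m + 1 ≤ a + b then
          |ps^[t - a] (bt t A) b| * (gz a * gz b) else 0) ≤
          2 ^ (2 * t + A) * (7 * (4 ^ b / (b.factorial : ℝ))) := by
        intro b hb'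
        rw [mem_Ico] at hb'
        rw [if_pos (by omega)]
        have h1 := ps_bt_abs (t := t) (A := A) (t - a) b
        have h2 : (2 : ℝ) ^ (t - a) * 2 ^ (t + A) ≤ 2 ^ (2 * t + A) := by
          rw [← pow_add]
          exact pow_le_pow_right₀ (by norm_num) (by omega)
        have h3 : gz a ≤ 15 := by
          -- `4^a / (4 a!) ≤ e^4 / 4`
          rw [gz_eq ha.1]
          have h4 : (4 : ℝ) ^ a / (a.factorial : ℝ) ≤ Real.exp 4 :=
            Real.pow_div_factorial_le_exp 4 (by norm_num) a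
          have h5 : Real.exp 4 ≤ 55 := by
            have : Real.exp 4 = Real.exp 1 ^ 4 := by rw [← Real.exp_nat_mul]; norm_num
            rw [this]
            have h6 := Real.exp_one_lt_d9
            have h7 : (0 : ℝ) < Real.exp 1 := Real.exp_pos 1
            have h8 : Real.exp 1 ^ 4 ≤ (2.7182818286 : ℝ) ^ 4 := by
              exact pow_le_pow_left₀ h7.le h6.le 4
            refine h8.trans (by norm_num)
          have h9 : (4 : ℝ) ^ a / (4 * (a.factorial : ℝ)) = (1 / 4) * (4 ^ a / a.factorial) := by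
            have := (hf a).ne'
            field_simp
          rw [h9]
          linarith
        have h4 : gz b = (1 / 4) * (4 ^ b / (b.factorial : ℝ)) := by
          rw [gz_eq (by omega)]
          have := (hf b).ne'
          field_simp
        have h5 : gz a * gz b ≤ 7 * (4 ^ b / (b.factorial : ℝ)) := by
          rw [h4]
          have h6 : (0 : ℝ) ≤ 4 ^ b / (b.factorial : ℝ) := by positivity
          have h7 := mul_le_mul_of_nonneg_right h3 h6
          have h8 : gz a * (1 / 4 * (4 ^ b / (b.factorial : ℝ))) =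
            (1 / 4) * (gz a * (4 ^ b / (b.factorial : ℝ))) := by ring
          rw [h8]
          linarith
        exact mul_le_mul (h1.trans h2) h5 (mul_nonneg (gz_nonneg _) (gz_nonneg _)) (by positivity)
      refine (sum_le_sum e1).trans ?_
      rw [← mul_sum, ← mul_sum]
      refine mul_le_mul_of_nonneg_left ?_ (by positivity)
      have := htail P
      linarith
  have s3 : ∑ a ∈ Ico 1 (t + 1), (t.choose a : ℝ) * ∑ b ∈ Ico 1 P,
      (if m + 1 ≤ a + b then |ps^[t - a] (bt t A) b| * (gz a * gz b) else 0) ≤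
      2 ^ t * (16 ^ (m + 1) / (8 * ((m + 1).factorial : ℝ)) + 2 ^ (2 * t + A) * (15 * X)) := by
    refine (sum_le_sum fun a ha => mul_le_mul_of_nonneg_left (s2 a ha) (Nat.cast_nonneg _)).trans ?_
    rw [← sum_mul]
    refine mul_le_mul_of_nonneg_right ?_ (by positivity)
    have h1 : ∑ a ∈ Ico 1 (t + 1), (t.choose a : ℝ) ≤ ∑ a ∈ range (t + 1), (t.choose a : ℝ) := by
      refine sum_le_sum_of_subset_of_nonneg ?_ fun _ _ _ => Nat.cast_nonneg _
      intro a ha
      rw [mem_Ico] at ha
      exact mem_range.2 ha.2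
    refine h1.trans (le_of_eq ?_)
    rw [← Nat.cast_sum, Nat.sum_range_choose]
    push_cast; rfl
  refine (add_le_add s1 s3).trans ?_
  have h1 : (2 : ℝ) ^ (3 * t + A) = 2 ^ t * 2 ^ (2 * t + A) := by rw [← pow_add]; congr 1; omega
  rw [h1, mul_add]
  have h2 : (1 : ℝ) ≤ 2 ^ t := one_le_pow₀ (by norm_num)
  have h3 : (0 : ℝ) ≤ 2 ^ (2 * t + A) * X := by positivity
  have h4 := mul_le_mul_of_nonneg_right h2 h3
  nlinarith [h4]

end Pool.JM
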