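import Pool.Agent.Work.MP_46fa68_h4.Layer

/-!
# MP_46fa68_co: the constant of the kernel

`cm m` is the constant `c` for which the kernel `kf` with the weights `vv (m-3) (g1m m) (g2m m)` is
exact at the shape `(m-1, 1)`; `1/m ≤ cm m ≤ 2/m` for `m ≥ 16`.
-/

set_option autoImplicit false

open Finset Equiv

namespace Pool.JM

/-- alternating sums of a decreasing sequence -/
theorem alt_bound : ∀ (n : ℕ) (f : ℕ → ℝ), (∀ k, 0 ≤ f k) → (∀ k, f (k + 1) ≤ f k) →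
    0 ≤ ∑ k ∈ range n, (-1) ^ k * f k ∧ ∑ k ∈ range n, (-1) ^ k * f k ≤ f 0
  | 0, f, h0, _ => by simp [h0 0]
  | n + 1, f, h0, h1 => by
    obtain ⟨a, b⟩ := alt_bound n (fun k => f (k + 1)) (fun k => h0 _) fun k => h1 _
    rw [sum_range_succ']
    have e : ∑ k ∈ range n, (-1 : ℝ) ^ (k + 1) * f (k + 1) =
        -∑ k ∈ range n, (-1) ^ k * f (k + 1) := by
      rw [← sum_neg_distrib]
      refine sum_congr rfl fun k _ => ?_
      rw [pow_succ]
      ring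
    rw [e, pow_zero, one_mul]
    have := h1 0
    constructor
    · linarith
    · linarith

/-- `C(m-2, k) m! / (m+1+k)!` -/
noncomputable def tk (m k : ℕ) : ℝ :=
  ((m - 2).choose k : ℝ) * (m.factorial : ℝ) / ((m + 1 + k).factorial : ℝ)

noncomputable def bk (m k : ℝ) : ℝ :=
  (3 * m + 1) * ((m + k) ^ 2 - 1) - 2 * m * (m + 1) * (m + k)

noncomputable def hq (m k : ℝ) : ℝ :=
  (m + k + 1) - k * ((m + k) ^ 2 + 2 * (m + k) + 3) + 2 * k ^ 2 * (m + k)

noncomputable def sA (m : ℕ) : ℝ := ∑ k ∈ range (m - 1), (-1) ^ k * (bk m k * tk m k)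

noncomputable def sB (m : ℕ) : ℝ :=
  ((m : ℝ) - 2) - ∑ k ∈ range (m - 1), (-1) ^ k * (hq m k * tk m k)

/-- the constant -/
noncomputable def cm (m : ℕ) : ℝ := sB m / sA m

theorem tk_nonneg (m k : ℕ) : 0 ≤ tk m k := by unfold tk; positivity

theorem tk_zero (m : ℕ) : tk m 0 = 1 / ((m : ℝ) + 1) := by
  unfold tk
  rw [Nat.choose_zero_right, add_zero, Nat.factorial_succ]
  have h : (0 : ℝ) < m.factorial := by exact_mod_cast Nat.factorial_pos _
  push_cast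
  field_simp

theorem tk_succ {m : ℕ} (hm : 2 ≤ m) (k : ℕ) (hk : k ≤ m - 2) :
    tk m (k + 1) = tk m k * (((m : ℝ) - 2 - k) / (((k : ℝ) + 1) * ((m : ℝ) + 2 + k))) := by
  unfold tk
  have h1 := Nat.choose_succ_right_eq (m - 2) k
  have h2 : (((m - 2).choose (k + 1) : ℕ) : ℝ) * ((k : ℝ) + 1) =
      ((m - 2).choose k : ℝ) * ((m : ℝ) - 2 - k) := by
    have e : ((m - 2 - k : ℕ) : ℝ) = (m : ℝ) - 2 - k := by
      rw [Nat.cast_sub hk, Nat.cast_sub hm]
      push_cast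
      ring
    rw [← e]
    exact_mod_cast h1
  have h3 : (((m + 1 + (k + 1)).factorial : ℕ) : ℝ) = ((m : ℝ) + 2 + k) * (m + 1 + k).factorial := by
    rw [show m + 1 + (k + 1) = (m + 1 + k) + 1 by omega, Nat.factorial_succ]
    push_cast
    ring
  have h4 : (0 : ℝ) < (m + 1 + k).factorial := by exact_mod_cast Nat.factorial_pos _
  have h5 : (0 : ℝ) < (k : ℝ) + 1 := by positivity
  have h6 : (0 : ℝ) < (m : ℝ) + 2 + k := by positivity
  rw [h3]
  field_simp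
  linear_combination h2

theorem tk_big {m k : ℕ} (hk : m - 2 < k) : tk m k = 0 := by
  unfold tk
  rw [Nat.choose_eq_zero_of_lt hk]
  simp

theorem bk_nonneg {m k : ℝ} (hm : 4 ≤ m) (hk : 0 ≤ k) : 0 ≤ bk m k := by
  unfold bk
  have h1 : 0 ≤ (m + k) * ((3 * m + 1) * (m + k) - 2 * m * (m + 1) - (3 * m + 1) / 4) +
      (3 * m + 1) * ((m + k) / 4 - 1) := by
    have : 0 ≤ (3 * m + 1) * (m + k) - 2 * m * (m + 1) - (3 * m + 1) / 4 := by nlinarith
    have h2 : 0 ≤ (m + k) / 4 - 1 := by linarith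
    positivity
  nlinarith

theorem nhk_nonneg {m k : ℝ} (hm : 4 ≤ m) (hk : 1 ≤ k) (hkm : k ≤ m) : 0 ≤ -hq m k := by
  unfold hq
  have h1 : 0 ≤ k * (m + k) * (m - k) := by
    have : 0 ≤ m - k := by linarith
    have : 0 ≤ m + k := by linarith
    positivity
  nlinarith

/-- the terms of `sA` decrease -/
theorem bt_dec {m : ℕ} (hm : 16 ≤ m) {k : ℕ} (hk : 1 ≤ k) :
    bk m ((k + 1 : ℕ) : ℝ) * tk m (k + 1) ≤ bk m (k : ℝ) * tk m k := by
  have hm' : (16 : ℝ) ≤ m := by exact_mod_cast hm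
  have hk' : (1 : ℝ) ≤ k := by exact_mod_cast hk
  by_cases h : k ≤ m - 2
  · rw [tk_succ (by omega) k h]
    have hkm : (k : ℝ) ≤ m - 2 := by
      have : k + 2 ≤ m := by omega
      have : ((k + 2 : ℕ) : ℝ) ≤ m := by exact_mod_cast this
      push_cast at this
      linarith
    have hpos : (0 : ℝ) < ((k : ℝ) + 1) * ((m : ℝ) + 2 + k) := by positivity
    have key : bk m ((k + 1 : ℕ) : ℝ) * (((m : ℝ) - 2 - k) / (((k : ℝ) + 1) * ((m : ℝ) + 2 + k))) ≤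
        bk m k := by
      rw [mul_div_assoc', div_le_iff₀ hpos]
      have hb := bk_nonneg (m := m) (k := k) (by linarith) (by linarith)
      have e : bk m ((k + 1 : ℕ) : ℝ) = bk m k + ((3 * (m : ℝ) + 1) * (2 * (m + k) + 1) -
          2 * m * (m + 1)) := by
        unfold bk
        push_cast
        ring
      rw [e]
      have h1 : bk (m : ℝ) k * (2 * ((m : ℝ) + 2 + k)) ≤
          bk m k * (((k : ℝ) + 1) * ((m : ℝ) + 2 + k)) := by
        refine mul_le_mul_of_nonneg_left ?_ hb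
        nlinarith
      refine le_trans ?_ h1
      -- `bk ≥ m (m + k)^2 / ...`
      have hb2 : (m : ℝ) * ((m : ℝ) + k) ^ 2 * (3 / 4) ≤ bk m k := by
        unfold bk
        nlinarith [mul_nonneg (by linarith : (0:ℝ) ≤ m) (by linarith : (0:ℝ) ≤ k),
          mul_nonneg (mul_nonneg (by linarith : (0:ℝ) ≤ m) (by linarith : (0:ℝ) ≤ m))
            (by linarith : (0:ℝ) ≤ k), mul_nonneg (mul_nonneg (by linarith : (0:ℝ) ≤ m)
            (by linarith : (0:ℝ) ≤ k)) (by linarith : (0:ℝ) ≤ k),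
            mul_nonneg (mul_nonneg (by linarith : (0:ℝ) ≤ m) (by linarith : (0:ℝ) ≤ m))
            (by linarith : (0:ℝ) ≤ (m : ℝ) - 16)]
      have h2 : (bk (m : ℝ) k + ((3 * (m : ℝ) + 1) * (2 * (m + k) + 1) - 2 * m * (m + 1))) *
          ((m : ℝ) - 2 - k) ≤ bk m k * m + ((3 * (m : ℝ) + 1) * (2 * (m + k) + 1)) * m := by
        have h3 : 0 ≤ (m : ℝ) - 2 - k := by linarith
        have h4 : 0 ≤ 2 * (m : ℝ) * (m + 1) := by positivity
        have h5 : 0 ≤ (3 * (m : ℝ) + 1) * (2 * (m + k) + 1) := by positivity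
        nlinarith [mul_nonneg hb (by linarith : (0:ℝ) ≤ 2 + k), mul_nonneg h5 (by linarith : (0:ℝ) ≤ 2 + (k:ℝ)),
          mul_nonneg h4 h3]
      refine h2.trans ?_
      have h6 : ((3 * (m : ℝ) + 1) * (2 * (m + k) + 1)) * m ≤ bk m k * (m + 2 * k + 4) := by
        calc ((3 * (m : ℝ) + 1) * (2 * (m + k) + 1)) * m
            ≤ (m : ℝ) * ((m : ℝ) + k) ^ 2 * (3 / 4) * (m + 2 * k + 4) := by
              nlinarith [mul_nonneg (by linarith : (0:ℝ) ≤ m) (by linarith : (0:ℝ) ≤ k),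
                mul_nonneg (mul_nonneg (by linarith : (0:ℝ) ≤ m) (by linarith : (0:ℝ) ≤ m))
                (by linarith : (0:ℝ) ≤ (m : ℝ) - 16),
                mul_nonneg (mul_nonneg (mul_nonneg (by linarith : (0:ℝ) ≤ m) (by linarith : (0:ℝ) ≤ m))
                (by linarith : (0:ℝ) ≤ (m : ℝ))) (by linarith : (0:ℝ) ≤ (m:ℝ) - 16)]
          _ ≤ _ := mul_le_mul_of_nonneg_right hb2 (by linarith)
      nlinarith
    calc _ = (bk m ((k + 1 : ℕ) : ℝ) * (((m : ℝ) - 2 - k) / (((k : ℝ) + 1) * ((m : ℝ) + 2 + k)))) *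
          tk m k := by ring
      _ ≤ _ := mul_le_mul_of_nonneg_right key (tk_nonneg _ _)
  · rw [tk_big (by omega)]
    rw [mul_zero]
    exact mul_nonneg (bk_nonneg (by linarith) (by linarith)) (tk_nonneg _ _)

/-- the terms of `sB` decrease -/
theorem ht_dec {m : ℕ} (hm : 16 ≤ m) {k : ℕ} (hk2 : 2 ≤ k) :
    -hq m ((k + 1 : ℕ) : ℝ) * tk m (k + 1) ≤ -hq m (k : ℝ) * tk m k := by
  have hm' : (16 : ℝ) ≤ m := by exact_mod_cast hm
  have hk' : (2 : ℝ) ≤ k := by exact_mod_cast hk2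
  by_cases h : k ≤ m - 2
  · rw [tk_succ (by omega) k h]
    have hkm : (k : ℝ) ≤ m - 2 := by
      have : k + 2 ≤ m := by omega
      have : ((k + 2 : ℕ) : ℝ) ≤ m := by exact_mod_cast this
      push_cast at this
      linarith
    have hpos : (0 : ℝ) < ((k : ℝ) + 1) * ((m : ℝ) + 2 + k) := by positivity
    have key : -hq m ((k + 1 : ℕ) : ℝ) * (((m : ℝ) - 2 - k) / (((k : ℝ) + 1) * ((m : ℝ) + 2 + k))) ≤
        -hq m k := by
      rw [mul_div_assoc', div_le_iff₀ hpos]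
      obtain ⟨s, hs⟩ : ∃ s : ℝ, s = (m : ℝ) - 2 - k := ⟨_, rfl⟩
      obtain ⟨y, hy⟩ : ∃ y : ℝ, y = (m : ℝ) + k := ⟨_, rfl⟩
      have hs0 : 0 ≤ s := by linarith
      have hy0 : 18 ≤ y := by linarith
      have hsy : s + 6 ≤ y := by linarith
      have e1 : -hq m ((k + 1 : ℕ) : ℝ) = ((k : ℝ) + 1) * ((y + 1) * (s + 3) + 3) - y - 2 := by
        rw [hs, hy]
        unfold hq
        push_cast
        ring
      have e2 : -hq m k = k * (y * (s + 4) + 3) - y - 1 := by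
        rw [hs, hy]
        unfold hq
        ring
      have e3 : (m : ℝ) + 2 + k = y + 2 := by rw [hy]; ring
      rw [e1, e2, e3, ← hs]
      have h1 : (((k : ℝ) + 1) * ((y + 1) * (s + 3) + 3) - y - 2) * s ≤
          ((k : ℝ) + 1) * (((y + 1) * (s + 3) + 3) * s) := by nlinarith
      refine h1.trans ?_
      have h2 : ((y + 1) * (s + 3) + 3) * s ≤ (y * (s + 4)) * (y + 2) := by
        nlinarith [mul_nonneg hs0 hs0, mul_nonneg hs0 (by linarith : (0:ℝ) ≤ y),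
          mul_nonneg (mul_nonneg hs0 (by linarith : (0:ℝ) ≤ y)) (by linarith : (0:ℝ) ≤ y - s)]
      have h3 : y * (s + 4) ≤ k * (y * (s + 4) + 3) - y - 1 := by
        nlinarith [mul_nonneg (by linarith : (0:ℝ) ≤ y) hs0]
      calc ((k : ℝ) + 1) * (((y + 1) * (s + 3) + 3) * s)
          ≤ ((k : ℝ) + 1) * ((y * (s + 4)) * (y + 2)) := mul_le_mul_of_nonneg_left h2 (by linarith)
        _ = (y * (s + 4)) * (((k : ℝ) + 1) * (y + 2)) := by ring
        _ ≤ _ := mul_le_mul_of_nonneg_right h3 (by positivity)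
    calc _ = (-hq m ((k + 1 : ℕ) : ℝ) * (((m : ℝ) - 2 - k) / (((k : ℝ) + 1) * ((m : ℝ) + 2 + k)))) *
          tk m k := by ring
      _ ≤ _ := mul_le_mul_of_nonneg_right key (tk_nonneg _ _)
  · rw [tk_big (by omega : m - 2 < k + 1), mul_zero, tk_big (by omega), mul_zero]

theorem bk_tk_nonneg {m : ℕ} (hm : 16 ≤ m) (k : ℕ) : 0 ≤ bk m (k : ℝ) * tk m k := by
  have hm' : (16 : ℝ) ≤ m := by exact_mod_cast hm
  exact mul_nonneg (bk_nonneg (by linarith) (Nat.cast_nonneg k)) (tk_nonneg _ _)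

theorem hq_tk_nonneg {m : ℕ} (hm : 16 ≤ m) {k : ℕ} (hk : 1 ≤ k) : 0 ≤ -hq m (k : ℝ) * tk m k := by
  have hm' : (16 : ℝ) ≤ m := by exact_mod_cast hm
  by_cases h : k ≤ m
  · exact mul_nonneg (nhk_nonneg (by linarith) (by exact_mod_cast hk) (by exact_mod_cast h))
      (tk_nonneg _ _)
  · rw [tk_big (by omega), mul_zero]

theorem split_alt {F : ℕ → ℝ} {j n : ℕ} (h0 : ∀ k, j ≤ k → 0 ≤ F k)
    (h1 : ∀ k, j ≤ k → F (k + 1) ≤ F k) (hn : j ≤ n) :
    ∃ e : ℝ, 0 ≤ e ∧ e ≤ F j ∧ ∑ k ∈ range n, (-1) ^ k * F k =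
      ∑ k ∈ range j, (-1) ^ k * F k + (-1) ^ j * e := by
  obtain ⟨d, rfl⟩ : ∃ d, n = j + d := ⟨n - j, by omega⟩
  obtain ⟨a, b⟩ := alt_bound d (fun i => F (j + i)) (fun i => h0 _ (Nat.le_add_right _ _))
    fun i => h1 _ (Nat.le_add_right _ _)
  refine ⟨_, a, by simpa using b, ?_⟩
  rw [sum_range_add, mul_sum]
  congr 1
  refine sum_congr rfl fun i _ => ?_
  rw [pow_add]
  ring

theorem tk_vals {m : ℕ} (hm : 16 ≤ m) :
    tk m 1 = ((m : ℝ) - 2) / (((m : ℝ) + 1) * (m + 2)) ∧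
    tk m 2 = ((m : ℝ) - 2) * (m - 3) / (2 * ((m : ℝ) + 1) * (m + 2) * (m + 3)) ∧
    tk m 3 = ((m : ℝ) - 2) * (m - 3) * (m - 4) / (6 * ((m : ℝ) + 1) * (m + 2) * (m + 3) * (m + 4)) ∧
    tk m 4 = ((m : ℝ) - 2) * (m - 3) * (m - 4) * (m - 5) /
      (24 * ((m : ℝ) + 1) * (m + 2) * (m + 3) * (m + 4) * (m + 5)) ∧
    tk m 5 = ((m : ℝ) - 2) * (m - 3) * (m - 4) * (m - 5) * (m - 6) /
      (120 * ((m : ℝ) + 1) * (m + 2) * (m + 3) * (m + 4) * (m + 5) * (m + 6)) := by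
  have e1 : tk m 1 = ((m : ℝ) - 2) / (((m : ℝ) + 1) * (m + 2)) := by
    rw [tk_succ (by omega) 0 (by omega), tk_zero]
    push_cast
    field_simp
    ring
  have e2 : tk m 2 = ((m : ℝ) - 2) * (m - 3) / (2 * ((m : ℝ) + 1) * (m + 2) * (m + 3)) := by
    rw [tk_succ (by omega) 1 (by omega), e1]
    push_cast
    field_simp
    ring
  have e3 : tk m 3 = ((m : ℝ) - 2) * (m - 3) * (m - 4) /
      (6 * ((m : ℝ) + 1) * (m + 2) * (m + 3) * (m + 4)) := by
    rw [tk_succ (by omega) 2 (by omega), e2]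
    push_cast
    field_simp
    ring
  have e4 : tk m 4 = ((m : ℝ) - 2) * (m - 3) * (m - 4) * (m - 5) /
      (24 * ((m : ℝ) + 1) * (m + 2) * (m + 3) * (m + 4) * (m + 5)) := by
    rw [tk_succ (by omega) 3 (by omega), e3]
    push_cast
    field_simp
    ring
  have e5 : tk m 5 = ((m : ℝ) - 2) * (m - 3) * (m - 4) * (m - 5) * (m - 6) /
      (120 * ((m : ℝ) + 1) * (m + 2) * (m + 3) * (m + 4) * (m + 5) * (m + 6)) := by
    rw [tk_succ (by omega) 4 (by omega), e4]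
    push_cast
    field_simp
    ring
  exact ⟨e1, e2, e3, e4, e5⟩

theorem sA_ge {m : ℕ} (hm : 16 ≤ m) : ∑ k ∈ range 6, (-1) ^ k * (bk m (k : ℝ) * tk m k) ≤ sA m := by
  obtain ⟨e, e0, -, he⟩ := split_alt (F := fun k => bk m (k : ℝ) * tk m k) (j := 6) (n := m - 1)
    (fun k _ => bk_tk_nonneg hm k) (fun k hk => bt_dec hm (by omega)) (by omega)
  unfold sA
  rw [he]
  norm_num
  exact e0

theorem sA_le {m : ℕ} (hm : 16 ≤ m) : sA m ≤ ∑ k ∈ range 5, (-1) ^ k * (bk m (k : ℝ) * tk m k) := by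
  obtain ⟨e, e0, -, he⟩ := split_alt (F := fun k => bk m (k : ℝ) * tk m k) (j := 5) (n := m - 1)
    (fun k _ => bk_tk_nonneg hm k) (fun k hk => bt_dec hm (by omega)) (by omega)
  unfold sA
  rw [he]
  norm_num
  exact e0

theorem sB_eq (m : ℕ) : sB m = ((m : ℝ) - 2) + ∑ k ∈ range (m - 1), (-1) ^ k * (-hq m k * tk m k) := by
  unfold sB
  rw [sub_eq_add_neg, ← sum_neg_distrib]
  congr 1
  refine sum_congr rfl fun k _ => ?_
  ring

theorem sB_ge {m : ℕ} (hm : 16 ≤ m) :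
    ((m : ℝ) - 2) + ∑ k ∈ range 4, (-1) ^ k * (-hq m (k : ℝ) * tk m k) ≤ sB m := by
  obtain ⟨e, e0, -, he⟩ := split_alt (F := fun k => -hq m (k : ℝ) * tk m k) (j := 4) (n := m - 1)
    (fun k _ => hq_tk_nonneg hm (by omega)) (fun k hk => ht_dec hm (by omega)) (by omega)
  rw [sB_eq, he]
  norm_num
  exact e0

theorem sB_le {m : ℕ} (hm : 16 ≤ m) :
    sB m ≤ ((m : ℝ) - 2) + ∑ k ∈ range 5, (-1) ^ k * (-hq m (k : ℝ) * tk m k) := by
  obtain ⟨e, e0, -, he⟩ := split_alt (F := fun k => -hq m (k : ℝ) * tk m k) (j := 5) (n := m - 1)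
    (fun k _ => hq_tk_nonneg hm (by omega)) (fun k hk => ht_dec hm (by omega)) (by omega)
  rw [sB_eq, he]
  have h5 : ((-1 : ℝ)) ^ 5 * e = -e := by norm_num
  rw [h5]
  linarith

theorem sA_pos {m : ℕ} (hm : 16 ≤ m) : 0 < sA m := by
  refine lt_of_lt_of_le ?_ (sA_ge hm)
  obtain ⟨e1, e2, e3, e4, e5⟩ := tk_vals hm
  simp only [sum_range_succ, sum_range_zero, e1, e2, e3, e4, e5, tk_zero]
  obtain ⟨n, rfl⟩ : ∃ n, m = n + 16 := ⟨m - 16, by omega⟩
  unfold bk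
  push_cast
  rw [← sub_pos]
  field_simp
  ring_nf
  positivity

theorem cm_ge {m : ℕ} (hm : 16 ≤ m) : 1 / (m : ℝ) ≤ cm m := by
  have hm0 : (0 : ℝ) < m := by
    have : 0 < m := by omega
    exact_mod_cast this
  unfold cm
  rw [div_le_div_iff₀ hm0 (sA_pos hm), one_mul]
  refine (sA_le hm).trans (le_trans ?_ (mul_le_mul_of_nonneg_right (sB_ge hm) hm0.le))
  obtain ⟨e1, e2, e3, e4, -⟩ := tk_vals hm
  simp only [sum_range_succ, sum_range_zero, e1, e2, e3, e4, tk_zero]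
  obtain ⟨n, rfl⟩ : ∃ n, m = n + 16 := ⟨m - 16, by omega⟩
  unfold bk hq
  push_cast
  rw [← sub_nonneg]
  field_simp
  ring_nf
  positivity

theorem cm_le {m : ℕ} (hm : 16 ≤ m) : cm m ≤ 2 / (m : ℝ) := by
  have hm0 : (0 : ℝ) < m := by
    have : 0 < m := by omega
    exact_mod_cast this
  unfold cm
  rw [div_le_div_iff₀ (sA_pos hm) hm0]
  refine (mul_le_mul_of_nonneg_right (sB_le hm) hm0.le).trans (le_trans ?_
    (mul_le_mul_of_nonneg_left (sA_ge hm) (by norm_num)))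
  obtain ⟨e1, e2, e3, e4, e5⟩ := tk_vals hm
  simp only [sum_range_succ, sum_range_zero, e1, e2, e3, e4, e5, tk_zero]
  obtain ⟨n, rfl⟩ : ∃ n, m = n + 16 := ⟨m - 16, by omega⟩
  unfold bk hq
  push_cast
  rw [← sub_nonneg]
  field_simp
  ring_nf
  positivity

end Pool.JM
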