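import Pool.Agent.Work.MP_46fa68_h4.Rho

/-!
# MP_46fa68_co: convexity of the normalized sequence for the largest bead
-/

set_option autoImplicit false

open Finset Equiv

namespace Pool.JM

/-- the product over the rest relative to the empty rest -/
noncomputable def rh (k a : ℕ) (C : Finset ℕ) (q : ℕ) : ℝ :=
  (∏ y ∈ C, ((((k + a : ℕ) : ℝ) + q - y) / (((k + a : ℕ) : ℝ) - y))) /
    ∏ y ∈ range k, ((((k + a : ℕ) : ℝ) + q - y) / (((k + a : ℕ) : ℝ) - y))

theorem base_pos (k a q : ℕ) :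
    0 < ∏ y ∈ range k, ((((k + a : ℕ) : ℝ) + q - y) / (((k + a : ℕ) : ℝ) - y)) := by
  refine prod_pos fun y hy => ?_
  have hy' : (y : ℝ) + 1 ≤ k := by
    have := mem_range.1 hy
    exact_mod_cast (by omega : y + 1 ≤ k)
  have hq : (0 : ℝ) ≤ q := Nat.cast_nonneg q
  have ha : (0 : ℝ) ≤ a := Nat.cast_nonneg a
  refine div_pos ?_ ?_
  · push_cast; linarith
  · push_cast; linarith

/-- the factor of one row of the rest -/
noncomputable def gg (Z c q : ℝ) : ℝ := Z * (Z - c + q) / ((Z - c) * (Z + q))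

theorem rh_step {k a : ℕ} {C : Finset ℕ} (hc : C.card = k + 1) (hb : ∀ y ∈ C, y < k + 1 + a) :
    ∃ c, c ≤ a ∧ k + c ∈ C ∧ (∀ y ∈ C, y ≤ k + c) ∧
      ∀ q : ℕ, rh (k + 1) a C q = gg ((a : ℝ) + 1) c q * rh k (a + 1) (C.erase (k + c)) q := by
  have hne : C.Nonempty := by rw [← card_pos, hc]; omega
  obtain ⟨y1, hy1, hmax⟩ := C.exists_max_image (fun z => z) hne
  have hk : k ≤ y1 := by
    have : C ⊆ range (y1 + 1) := fun y hy => mem_range.2 (by have := hmax y hy; omega)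
    have := card_le_card this
    rw [card_range, hc] at this
    omega
  obtain ⟨c, rfl⟩ : ∃ c, y1 = k + c := ⟨y1 - k, by omega⟩
  have hca : c ≤ a := by have := hb _ hy1; omega
  refine ⟨c, hca, hy1, fun y hy => hmax y hy, fun q => ?_⟩
  unfold rh gg
  rw [← mul_prod_erase C _ hy1, prod_range_succ, show k + (a + 1) = k + 1 + a by omega]
  have hx : ((k + 1 + a : ℕ) : ℝ) - ((k + c : ℕ) : ℝ) = ((a : ℝ) + 1) - c := by push_cast; ring
  have hx' : ((k + 1 + a : ℕ) : ℝ) + q - ((k + c : ℕ) : ℝ) = ((a : ℝ) + 1) - c + q := by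
    push_cast; ring
  have hx2 : ((k + 1 + a : ℕ) : ℝ) - (k : ℝ) = (a : ℝ) + 1 := by push_cast; ring
  have hx2' : ((k + 1 + a : ℕ) : ℝ) + q - (k : ℝ) = (a : ℝ) + 1 + q := by push_cast; ring
  rw [hx, hx', hx2, hx2']
  have hcaR : (c : ℝ) ≤ a := by exact_mod_cast hca
  have hq : (0 : ℝ) ≤ q := Nat.cast_nonneg q
  have ha : (0 : ℝ) ≤ a := Nat.cast_nonneg a
  have h1 : (a : ℝ) + 1 - c ≠ 0 := by
    have : 0 < (a : ℝ) + 1 - c := by linarith
    exact this.ne'
  have h2 : (a : ℝ) + 1 + q ≠ 0 := by positivity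
  have h3 := base_pos k (a + 1) q
  rw [show k + (a + 1) = k + 1 + a by omega] at h3
  have h4 := h3.ne'
  field_simp

theorem gg_pos {Z c q : ℝ} (hc : c < Z) (hZ : 0 < Z) (hq : 0 ≤ q) : 0 < gg Z c q := by
  unfold gg
  have h1 : 0 < Z - c := by linarith
  positivity

theorem gg_diff {Z c q : ℝ} (hc : c < Z) (hZ : 0 < Z) (hq : 0 ≤ q) :
    gg Z c (q + 1) - gg Z c q = Z * c / ((Z - c) * ((Z + q) * (Z + q + 1))) := by
  unfold gg
  have h1 : Z - c ≠ 0 := by
    have : 0 < Z - c := by linarith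
    exact this.ne'
  have h2 : Z + q ≠ 0 := by positivity
  have h3 : Z + q + 1 ≠ 0 := by positivity
  have h4 : Z + (q + 1) ≠ 0 := by positivity
  rw [div_sub_div _ _ (mul_ne_zero h1 h4) (mul_ne_zero h1 h2), div_eq_div_iff (by positivity)
    (by positivity)]
  ring

theorem rh_props : ∀ (k a : ℕ) (C : Finset ℕ), C.card = k → (∀ y ∈ C, y < k + a) →
    (∀ q, 0 < rh k a C q) ∧ (∀ q, rh k a C q ≤ rh k a C (q + 1)) ∧
    ∀ q, ((a : ℝ) + q + 1) * (rh k a C (q + 1) - rh k a C q) ≤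
      ((a : ℝ) + q + 3) * (rh k a C (q + 2) - rh k a C (q + 1))
  | 0, a, C, hc, _ => by
    rw [card_eq_zero] at hc
    subst hc
    have h : ∀ q, rh 0 a ∅ q = 1 := fun q => by unfold rh; simp
    simp [h]
  | k + 1, a, C, hc, hb => by
    obtain ⟨c, hca, hcC, hmax, hrec⟩ := rh_step hc hb
    have hc' : (C.erase (k + c)).card = k := by rw [card_erase_of_mem hcC, hc]; omega
    obtain ⟨p1, p2, p3⟩ := rh_props k (a + 1) (C.erase (k + c)) hc' fun y hy => by
      have := hb y (mem_of_mem_erase hy); omega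
    have hcaR : (c : ℝ) ≤ a := by exact_mod_cast hca
    have ha : (0 : ℝ) ≤ a := Nat.cast_nonneg a
    have hc0 : (0 : ℝ) ≤ c := Nat.cast_nonneg c
    have hcZ : (c : ℝ) < (a : ℝ) + 1 := by linarith
    have hg : ∀ q : ℕ, 0 < gg ((a : ℝ) + 1) c q := fun q =>
      gg_pos hcZ (by linarith) (Nat.cast_nonneg q)
    have hd : ∀ q : ℕ, gg ((a : ℝ) + 1) c ((q + 1 : ℕ) : ℝ) - gg ((a : ℝ) + 1) c q =
        ((a : ℝ) + 1) * c / (((a : ℝ) + 1 - c) * (((a : ℝ) + 1 + q) * ((a : ℝ) + 1 + q + 1))) := by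
      intro q
      have := gg_diff hcZ (by linarith : (0 : ℝ) < (a : ℝ) + 1) (Nat.cast_nonneg q)
      push_cast
      exact this
    have hz : (0 : ℝ) < (a : ℝ) + 1 - c := by linarith
    have hd0 : ∀ q : ℕ, gg ((a : ℝ) + 1) c q ≤ gg ((a : ℝ) + 1) c ((q + 1 : ℕ) : ℝ) := by
      intro q
      have h1 := hd q
      have h2 : 0 ≤ ((a : ℝ) + 1) * c / (((a : ℝ) + 1 - c) *
          (((a : ℝ) + 1 + q) * ((a : ℝ) + 1 + q + 1))) := by positivity
      linarith
    have hd2 : ∀ q : ℕ, ((a : ℝ) + q + 1) * (gg ((a : ℝ) + 1) c ((q + 1 : ℕ) : ℝ) -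
        gg ((a : ℝ) + 1) c q) = ((a : ℝ) + q + 3) * (gg ((a : ℝ) + 1) c ((q + 2 : ℕ) : ℝ) -
          gg ((a : ℝ) + 1) c ((q + 1 : ℕ) : ℝ)) := by
      intro q
      have h1 := hd (q + 1)
      rw [show q + 1 + 1 = q + 2 by omega] at h1
      rw [hd q, h1]
      push_cast
      have e1 : (a : ℝ) + 1 + q ≠ 0 := by positivity
      have e2 : (a : ℝ) + 1 + q + 1 ≠ 0 := by positivity
      have e3 : (a : ℝ) + 1 + (q + 1) ≠ 0 := by positivity
      have e4 : (a : ℝ) + 1 + (q + 1) + 1 ≠ 0 := by positivity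
      have e5 : (a : ℝ) + 1 - c ≠ 0 := hz.ne'
      field_simp
      ring
    refine ⟨fun q => ?_, fun q => ?_, fun q => ?_⟩
    · rw [hrec q]
      exact mul_pos (hg q) (p1 q)
    · rw [hrec q, hrec (q + 1)]
      exact mul_le_mul (hd0 q) (p2 q) (p1 q).le (hg (q + 1)).le
    · rw [hrec q, hrec (q + 1), hrec (q + 2)]
      have hq : (0 : ℝ) ≤ q := Nat.cast_nonneg q
      have i1 := p3 q
      push_cast at i1
      have i2 := p2 q
      have i3 := p2 (q + 1)
      rw [show q + 1 + 1 = q + 2 by omega] at i3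
      have i4 := hd0 q
      have i5 := hd0 (q + 1)
      rw [show q + 1 + 1 = q + 2 by omega] at i5
      have i6 := hd2 q
      set g0 := gg ((a : ℝ) + 1) c q
      set g1 := gg ((a : ℝ) + 1) c ((q + 1 : ℕ) : ℝ)
      set g2 := gg ((a : ℝ) + 1) c ((q + 2 : ℕ) : ℝ)
      set r0 := rh k (a + 1) (C.erase (k + c)) q
      set r1 := rh k (a + 1) (C.erase (k + c)) (q + 1)
      set r2 := rh k (a + 1) (C.erase (k + c)) (q + 2)
      -- `(a + q + 1) (r1 - r0) ≤ (a + q + 3) (r2 - r1)`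
      have i7 : ((a : ℝ) + q + 1) * (r1 - r0) ≤ ((a : ℝ) + q + 3) * (r2 - r1) := by
        have h1 : 0 ≤ r1 - r0 := by linarith
        have h2 : ((a : ℝ) + 1 + q + 1) * (r1 - r0) ≤ ((a : ℝ) + 1 + q + 3) * (r2 - r1) := i1
        have h3 : 0 ≤ r2 - r1 := by linarith
        -- multiply by `(a + q + 3) / (a + q + 4)`
        have h4 : ((a : ℝ) + q + 3) * (((a : ℝ) + 1 + q + 1) * (r1 - r0)) ≤
            ((a : ℝ) + q + 4) * (((a : ℝ) + q + 3) * (r2 - r1)) := by nlinarith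
        have h5 : ((a : ℝ) + q + 4) * (((a : ℝ) + q + 1) * (r1 - r0)) ≤
            ((a : ℝ) + q + 3) * (((a : ℝ) + 1 + q + 1) * (r1 - r0)) := by nlinarith
        exact le_of_mul_le_mul_left (h5.trans h4) (by positivity)
      have hg2 := (hg (q + 2)).le
      have r1pos := (p1 (q + 1)).le
      have r0pos := (p1 q).le
      have a1 : ((a : ℝ) + q + 1) * (g1 * (r1 - r0)) ≤ ((a : ℝ) + q + 3) * (g2 * (r2 - r1)) := by
        calc ((a : ℝ) + q + 1) * (g1 * (r1 - r0)) ≤ ((a : ℝ) + q + 1) * (g2 * (r1 - r0)) := by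
              refine mul_le_mul_of_nonneg_left ?_ (by positivity)
              exact mul_le_mul_of_nonneg_right i5 (by linarith)
          _ = g2 * (((a : ℝ) + q + 1) * (r1 - r0)) := by ring
          _ ≤ g2 * (((a : ℝ) + q + 3) * (r2 - r1)) := mul_le_mul_of_nonneg_left i7 hg2
          _ = _ := by ring
      have a2 : ((a : ℝ) + q + 1) * (r0 * (g1 - g0)) ≤ ((a : ℝ) + q + 3) * (r1 * (g2 - g1)) := by
        calc ((a : ℝ) + q + 1) * (r0 * (g1 - g0)) = r0 * (((a : ℝ) + q + 1) * (g1 - g0)) := by ring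
          _ = r0 * (((a : ℝ) + q + 3) * (g2 - g1)) := by rw [i6]
          _ ≤ r1 * (((a : ℝ) + q + 3) * (g2 - g1)) := by
              refine mul_le_mul_of_nonneg_right i2 ?_
              refine mul_nonneg (by positivity) (by linarith)
          _ = _ := by ring
      nlinarith

/-- `Rr` by `rh` -/
theorem Rr_rh {k a : ℕ} {B : Finset ℕ} (p : ℕ) :
    Rr B (k + a) p = rh k a (B.erase (k + a)) p * ((a.factorial : ℝ) / (a + p).factorial) := by
  unfold Rr rh
  rw [prod_rest]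
  have f1 : (0 : ℝ) < (k + a).factorial := by exact_mod_cast Nat.factorial_pos _
  have f2 : (0 : ℝ) < (k + a + p).factorial := by exact_mod_cast Nat.factorial_pos _
  have f3 : (0 : ℝ) < (a + p).factorial := by exact_mod_cast Nat.factorial_pos _
  have f4 : (0 : ℝ) < a.factorial := by exact_mod_cast Nat.factorial_pos _
  field_simp

/-- **Convexity.** -/
theorem Rr_convex {k a : ℕ} {B : Finset ℕ} (hc : (B.erase (k + a)).card = k)
    (hb : ∀ y ∈ B.erase (k + a), y < k + a) (p : ℕ) :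
    2 * ((a : ℝ) + p + 2) * Rr B (k + a) (p + 1) ≤
      ((a : ℝ) + p + 2) * (a + p + 3) * Rr B (k + a) (p + 2) + Rr B (k + a) p := by
  obtain ⟨-, -, h3⟩ := rh_props k a _ hc hb
  have h := h3 p
  rw [Rr_rh, Rr_rh, Rr_rh]
  have f0 : (0 : ℝ) < (a + p).factorial := by exact_mod_cast Nat.factorial_pos _
  have f4 : (0 : ℝ) < a.factorial := by exact_mod_cast Nat.factorial_pos _
  have e1 : (((a + (p + 1)).factorial : ℕ) : ℝ) = ((a : ℝ) + p + 1) * (a + p).factorial := by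
    rw [show a + (p + 1) = (a + p) + 1 by omega, Nat.factorial_succ]; push_cast; ring
  have e2 : (((a + (p + 2)).factorial : ℕ) : ℝ) =
      ((a : ℝ) + p + 2) * (((a : ℝ) + p + 1) * (a + p).factorial) := by
    rw [show a + (p + 2) = (a + p) + 1 + 1 by omega, Nat.factorial_succ, Nat.factorial_succ]
    push_cast; ring
  rw [e1, e2]
  set r0 := rh k a (B.erase (k + a)) p
  set r1 := rh k a (B.erase (k + a)) (p + 1)
  set r2 := rh k a (B.erase (k + a)) (p + 2)
  have g1 : (0 : ℝ) < (a : ℝ) + p + 1 := by positivity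
  have g2 : (0 : ℝ) < (a : ℝ) + p + 2 := by positivity
  have key : 2 * ((a : ℝ) + p + 2) * r1 ≤ (a + p + 3) * r2 + (a + p + 1) * r0 := by nlinarith
  have t1 : 2 * ((a : ℝ) + p + 2) * (r1 * ((a.factorial : ℝ) / (((a : ℝ) + p + 1) * (a + p).factorial))) =
      (2 * ((a : ℝ) + p + 2) * r1) * ((a.factorial : ℝ) / (((a : ℝ) + p + 1) * (a + p).factorial)) := by
    ring
  have t2 : ((a : ℝ) + p + 2) * (a + p + 3) * (r2 * ((a.factorial : ℝ) /
      (((a : ℝ) + p + 2) * (((a : ℝ) + p + 1) * (a + p).factorial)))) +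
      r0 * ((a.factorial : ℝ) / (a + p).factorial) =
      ((a + p + 3) * r2 + (a + p + 1) * r0) *
        ((a.factorial : ℝ) / (((a : ℝ) + p + 1) * (a + p).factorial)) := by
    field_simp
  rw [t1, t2]
  exact mul_le_mul_of_nonneg_right key (by positivity)

/-- the lower bound of `Rr B x 1` by the second row -/
theorem rh_one_ge {k a c : ℕ} {C : Finset ℕ} (hc : C.card = k + 1) (hb : ∀ y ∈ C, y < k + 1 + a)
    (hcC : k + c ∈ C) (hmax : ∀ y ∈ C, y ≤ k + c) :
    1 + (c : ℝ) / (((a : ℝ) + 1 - c) * (a + 2)) ≤ rh (k + 1) a C 1 := by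
  obtain ⟨c', hca, hcC', hmax', hrec⟩ := rh_step hc hb
  have : c' = c := by
    have h1 := hmax _ hcC'
    have h2 := hmax' _ hcC
    omega
  subst this
  have hc' : (C.erase (k + c')).card = k := by rw [card_erase_of_mem hcC, hc]; omega
  obtain ⟨p1, p2, -⟩ := rh_props k (a + 1) (C.erase (k + c')) hc' fun y hy => by
    have := hb y (mem_of_mem_erase hy); omega
  have h0 : rh k (a + 1) (C.erase (k + c')) 0 = 1 := by
    unfold rh
    have h2 : ∏ y ∈ C.erase (k + c'), ((((k + (a + 1) : ℕ) : ℝ) + ((0 : ℕ) : ℝ) - y) /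
        (((k + (a + 1) : ℕ) : ℝ) - y)) = 1 := by
      refine prod_eq_one fun y hy => ?_
      have hy' := hb y (mem_of_mem_erase hy)
      have hy2 : (y : ℝ) + 1 ≤ ((k + (a + 1) : ℕ) : ℝ) := by
        exact_mod_cast (by omega : y + 1 ≤ k + (a + 1))
      have hne : ((k + (a + 1) : ℕ) : ℝ) - y ≠ 0 := by
        have : 0 < ((k + (a + 1) : ℕ) : ℝ) - y := by linarith
        exact this.ne'
      rw [Nat.cast_zero, add_zero]
      exact div_self hne
    have h3 : ∏ y ∈ range k, ((((k + (a + 1) : ℕ) : ℝ) + ((0 : ℕ) : ℝ) - y) /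
        (((k + (a + 1) : ℕ) : ℝ) - y)) = 1 := by
      refine prod_eq_one fun y hy => ?_
      have hy' := mem_range.1 hy
      have hy2 : (y : ℝ) + 1 ≤ ((k + (a + 1) : ℕ) : ℝ) := by
        exact_mod_cast (by omega : y + 1 ≤ k + (a + 1))
      have hne : ((k + (a + 1) : ℕ) : ℝ) - y ≠ 0 := by
        have : 0 < ((k + (a + 1) : ℕ) : ℝ) - y := by linarith
        exact this.ne'
      rw [Nat.cast_zero, add_zero]
      exact div_self hne
    rw [h2, h3, div_one]
  have h1 : 1 ≤ rh k (a + 1) (C.erase (k + c')) 1 := by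
    rw [← h0]
    exact p2 0
  have hcaR : (c' : ℝ) ≤ a := by exact_mod_cast hca
  have ha : (0 : ℝ) ≤ a := Nat.cast_nonneg a
  have hc0 : (0 : ℝ) ≤ c' := Nat.cast_nonneg c'
  have hz : (0 : ℝ) < (a : ℝ) + 1 - c' := by linarith
  rw [hrec 1]
  have hg : gg ((a : ℝ) + 1) c' ((1 : ℕ) : ℝ) = 1 + (c' : ℝ) / (((a : ℝ) + 1 - c') * (a + 2)) := by
    unfold gg
    rw [Nat.cast_one]
    field_simp
    ring
  rw [hg]
  have h4 : 0 ≤ 1 + (c' : ℝ) / (((a : ℝ) + 1 - c') * (a + 2)) := by positivity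
  exact le_mul_of_one_le_right h4 h1

end Pool.JM
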