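import Pool.Agent.Work.MP_46fa68_h4.ELink

/-!
# MP_46fa68_co: the defect formula

For a one-body kernel `k` which is the identity on the beads beyond the wall, the `t`-th restriction (with
the wall) of `1 - E1 k` on the shapes of level `m` below the wall is
`1 - E1 ((1+ad)^t k) + ∑_c C(t,c) E2 (ad^c K0) ((1+ad)^(t-c) k)`.
-/

set_option autoImplicit false

open Finset Equiv

namespace Pool.JM

variable {K : ℕ}

theorem Dopi_one : ∀ (t n : ℕ), n + t ≤ K → ∀ B ∈ Lv K n, Dopi t (fun _ => 1) B = 1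
  | 0, _, _, _, _ => rfl
  | t + 1, n, h, B, hB => by
    have e : Dopi (t + 1) (fun _ => 1) B = Dop (Dopi t (fun _ => 1)) B := rfl
    rw [e, Dop_congr' (g := fun _ => 1) fun x hx =>
      Dopi_one t (n + 1) (by omega) _ (mv_mem hB hx)]
    unfold Dop
    have h0 := Lv_zero_mem hB (by omega)
    refine Eq.trans ?_ (w_sum B h0)
    unfold ad
    rw [sum_filter]
    refine sum_congr rfl fun x _ => ?_
    split_ifs with h1
    · exact (w_zero h1).symm
    · simp

theorem Dop_sub (u v : Finset ℕ → ℝ) (B : Finset ℕ) :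
    Dop (fun C => u C - v C) B = Dop u B - Dop v B := by
  unfold Dop
  rw [← Finset.sum_sub_distrib]
  exact Finset.sum_congr rfl fun x _ => by ring

theorem Dopi_add : ∀ (t : ℕ) (u v : Finset ℕ → ℝ) (B : Finset ℕ),
    Dopi t (fun C => u C + v C) B = Dopi t u B + Dopi t v B
  | 0, _, _, _ => rfl
  | t + 1, u, v, B => by
    have e : Dopi (t + 1) (fun C => u C + v C) B = Dop (Dopi t (fun C => u C + v C)) B := rfl
    rw [e, Dop_congr' (g := fun C => Dopi t u C + Dopi t v C) fun x _ => Dopi_add t u v _, Dop_add]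
    rfl

theorem Dopi_sub : ∀ (t : ℕ) (u v : Finset ℕ → ℝ) (B : Finset ℕ),
    Dopi t (fun C => u C - v C) B = Dopi t u B - Dopi t v B
  | 0, _, _, _ => rfl
  | t + 1, u, v, B => by
    have e : Dopi (t + 1) (fun C => u C - v C) B = Dop (Dopi t (fun C => u C - v C)) B := rfl
    rw [e, Dop_congr' (g := fun C => Dopi t u C - Dopi t v C) fun x _ => Dopi_sub t u v _, Dop_sub]
    rfl

theorem Dopi_congr : ∀ (t n : ℕ) (u v : Finset ℕ → ℝ), (∀ B ∈ Lv K (n + t), u B = v B) →
    ∀ B ∈ Lv K n, Dopi t u B = Dopi t v B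
  | 0, _, _, _, h, B, hB => h B hB
  | t + 1, n, u, v, h, B, hB => by
    have e : Dopi (t + 1) u B = Dop (Dopi t u) B := rfl
    have e' : Dopi (t + 1) v B = Dop (Dopi t v) B := rfl
    rw [e, e']
    refine Dop_congr' fun x hx => Dopi_congr t (n + 1) u v (fun B' hB' => h B' ?_) _ (mv_mem hB hx)
    rwa [show n + (t + 1) = n + 1 + t by omega]

/-- at most one bead is beyond the wall -/
theorem one_beyond {m n : ℕ} (hn : n < 2 * m) {B : Finset ℕ} (hB : B ∈ Lv K n) {x y : ℕ}
    (hx : x ∈ B) (hy : y ∈ B) (h1 : K - 1 + m ≤ x) (h2 : K - 1 + m ≤ y) : x = y := by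
  by_contra hne
  wlog hlt : x < y generalizing x y
  · exact this hy hx h2 h1 (fun h => hne h.symm) (by omega)
  obtain ⟨hc, -, -, hs⟩ := Lv_spec hB
  have hK : 2 ≤ K := by
    rw [← hc]
    have : ({x, y} : Finset ℕ) ⊆ B := by
      intro z hz
      rw [mem_insert, mem_singleton] at hz
      rcases hz with rfl | rfl
      · exact hx
      · exact hy
    have := card_le_card this
    rwa [card_pair hne] at this
  have e1 := add_sum_erase B (fun z => z) hx
  have hy' : y ∈ B.erase x := mem_erase.2 ⟨fun h => hne h.symm, hy⟩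
  have e2 := add_sum_erase (B.erase x) (fun z => z) hy'
  have hc2 : ((B.erase x).erase y).card = K - 2 := by
    rw [card_erase_of_mem hy', card_erase_of_mem hx, hc]
    omega
  have hmin : ∑ z ∈ range (K - 2), z ≤ ∑ z ∈ (B.erase x).erase y, z := by
    by_contra hcon
    push Not at hcon
    have := eq_range_of_sum hc2 hcon.le
    rw [this] at hcon
    exact lt_irrefl _ hcon
  obtain ⟨k, rfl⟩ : ∃ k, K = k + 2 := ⟨K - 2, by omega⟩
  rw [sum_range_succ, sum_range_succ] at hs
  simp only [Nat.add_sub_cancel] at hmin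
  omega

theorem e1_K0 {P : ℕ} (hP : 0 < P) (M0 : ℕ) (x : Fin K → ℕ) :
    e1 P (K0 M0) x = ((univ.filter fun i => M0 ≤ x i).card : ℝ) * FF x := by
  unfold e1
  rw [card_filter]
  push_cast
  rw [sum_mul]
  refine sum_congr rfl fun i _ => ?_
  rw [sum_eq_single 0]
  · unfold K0
    rw [up_zero]
    by_cases h : M0 ≤ x i
    · rw [if_pos ⟨rfl, h⟩, if_pos h]
    · rw [if_neg fun h' => h h'.2, if_neg h]
  · intro p _ hp
    unfold K0
    rw [if_neg fun h => hp h.1, zero_mul]
  · intro h
    exact absurd (mem_range.2 hP) h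

theorem E1_K0_Bl {m P : ℕ} (hP : 0 < P) {B : Finset ℕ} (hc : B.card = K) (hB : Bl m K B) :
    E1 K P (K0 (K - 1 + m)) B = 0 := by
  unfold E1 toF
  rw [e1_K0 hP]
  have : (univ.filter fun i => K - 1 + m ≤ cf K B i) = ∅ := by
    rw [filter_eq_empty_iff]
    intro i _ h
    have := hB _ (cf_mem hc i)
    omega
  rw [this]
  simp

/-- the product with the indicator -/
theorem ind_mul {m P n : ℕ} (hP : 0 < P) (hn : n < 2 * m) {k : ℕ → ℕ → ℝ}
    (hk : ∀ x p, K - 1 + m ≤ x → k x p = K0 (K - 1 + m) x p) {B : Finset ℕ} (hB : B ∈ Lv K n) :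
    ind m K B * (1 - E1 K P k B) = 1 - E1 K P k B + E2 K P (K0 (K - 1 + m)) k B := by
  have hc := (Lv_spec hB).1
  have hF := (cf_pos hc).ne'
  have hm := cf_mono hc
  set x := cf K B with hx
  have hE2 : E2 K P (K0 (K - 1 + m)) k B = (∑ i ∈ univ.filter (fun i => K - 1 + m ≤ x i),
      ∑ j ∈ univ.erase i, ∑ q ∈ range P, k (x j) q * FF (up x j q)) / FF x := by
    unfold E2 toF e2
    rw [← hx, sum_filter]
    congr 1
    refine sum_congr rfl fun i _ => ?_
    by_cases hi : K - 1 + m ≤ x i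
    · rw [if_pos hi]
      refine sum_congr rfl fun j _ => ?_
      rw [sum_eq_single 0]
      · refine sum_congr rfl fun q _ => ?_
        unfold K0
        rw [if_pos ⟨rfl, hi⟩, up_zero, one_mul]
      · intro p _ hp
        refine sum_eq_zero fun q _ => ?_
        unfold K0
        rw [if_neg fun h => hp h.1, zero_mul, zero_mul]
      · intro h
        exact absurd (mem_range.2 hP) h
    · rw [if_neg hi]
      refine sum_eq_zero fun j _ => sum_eq_zero fun p _ => sum_eq_zero fun q _ => ?_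
      unfold K0
      rw [if_neg fun h => hi h.2, zero_mul, zero_mul]
  by_cases hb : Bl m K B
  · have : (univ.filter fun i => K - 1 + m ≤ x i) = ∅ := by
      rw [filter_eq_empty_iff]
      intro i _ h
      have := hb _ (cf_mem hc i)
      rw [hx] at h
      omega
    rw [hE2, this, sum_empty, zero_div, add_zero, ind_pos hb, one_mul]
  · rw [ind_neg hb, zero_mul, hE2]
    have hex : ∃ z ∈ B, K - 1 + m ≤ z := by
      by_contra hcon
      push Not at hcon
      exact hb hcon
    obtain ⟨z, hz, hz1⟩ := hex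
    obtain ⟨i, rfl⟩ := cf_surj hc hz
    have hs : (univ.filter fun i => K - 1 + m ≤ x i) = {i} := by
      ext j
      rw [mem_filter, mem_singleton]
      constructor
      · rintro ⟨_, hj⟩
        exact hm.injective (one_beyond hn hB (cf_mem hc j) (cf_mem hc i) hj hz1)
      · rintro rfl
        exact ⟨mem_univ _, hz1⟩
    rw [hs, sum_singleton]
    have hE1 : E1 K P k B = (FF x + ∑ j ∈ univ.erase i, ∑ q ∈ range P, k (x j) q * FF (up x j q)) /
        FF x := by
      unfold E1 toF e1
      rw [← hx, ← add_sum_erase univ _ (mem_univ i)]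
      congr 2
      rw [sum_eq_single 0]
      · rw [hk _ _ hz1, up_zero]
        unfold K0
        rw [if_pos ⟨rfl, hz1⟩, one_mul]
      · intro p _ hp
        rw [hk _ _ hz1]
        unfold K0
        rw [if_neg fun h => hp h.1, zero_mul]
      · intro h
        exact absurd (mem_range.2 hP) h
    rw [hE1, add_div, div_self hF]
    ring

/-- **The defect formula** for a general one-body kernel. -/
theorem defect_formula {m t P x1 p1 : ℕ} (hm : 2 ≤ m) (htm : t < m) (hK : m + t ≤ K)
    {k : ℕ → ℕ → ℝ} (hk : ∀ x p, K - 1 + m ≤ x → k x p = K0 (K - 1 + m) x p)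
    (hks : Sup k x1 p1) (hx1 : t ≤ x1) (hp1 : p1 + t ≤ P) (hP : 1 + t ≤ P)
    {B : Finset ℕ} (hB : B ∈ Lv K m) (hb : Bl m K B) :
    Dwi (K + m - 2) t (fun C => 1 - E1 K P k C) B =
      1 - E1 K P (pk^[t] k) B +
        ∑ c ∈ range (t + 1), (t.choose c : ℝ) *
          E2 K P (adk^[c] (K0 (K - 1 + m))) (pk^[t - c] k) B := by
  have h1 := Dwi_ind (by omega : 0 < K) hm (fun C => 1 - E1 K P k C) t B
  rw [ind_pos hb, one_mul] at h1
  rw [← h1, Dopi_congr t m (K := K) _ (fun C => (1 - E1 K P k C) + E2 K P (K0 (K - 1 + m)) k C)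
    (fun C hC => ind_mul (by omega) (by omega) hk hC) B hB, Dopi_add, Dopi_sub,
    Dopi_one t m (by omega) B hB, Dopi_E1 hks t m (by omega) hx1 hp1 B hB,
    Dopi_E2 (Sup_K0 (K - 1 + m)) hks t m (by omega) (by omega) hx1 (by omega) hp1 B hB]

end Pool.JM
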