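import Pool.Agent.Work.MP_46fa68_h4.Top

/-!
# MP_46fa68_co: the calculus of one-body and two-body functions

Configurations `x : Fin K → ℕ` of beads, `FF x` = Vandermonde determinant over the factorials (for the
increasing enumeration of a set of beads this is `f^λ / |λ|!`), `dl g x = ∑ g (x + e_i)`. For a kernel
`k (x, p)` (`x` = position of the bead, `p` = displacement) the one-body function
`e1 k x = ∑_i ∑_p k (x_i, p) FF (x + p e_i)` satisfies `dl (e1 k) = e1 (k + ad k)`,
`ad k (x, p) = k (x+1, p-1) - k (x, p-1)`, and similarly for two-body functions.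
-/

set_option autoImplicit false

open Finset Equiv

namespace Pool.JM

variable {K : ℕ}

/-- move the bead `i` by `a` -/
def up (x : Fin K → ℕ) (i : Fin K) (a : ℕ) : Fin K → ℕ := Function.update x i (x i + a)

theorem up_same (x : Fin K → ℕ) (i : Fin K) (a : ℕ) : up x i a i = x i + a := by
  unfold up; rw [Function.update_self]

theorem up_ne (x : Fin K → ℕ) {i j : Fin K} (h : j ≠ i) (a : ℕ) : up x i a j = x j := by
  unfold up; rw [Function.update_of_ne h]

theorem up_zero (x : Fin K → ℕ) (i : Fin K) : up x i 0 = x := by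
  unfold up; rw [add_zero, Function.update_eq_self]

theorem up_up (x : Fin K → ℕ) (i : Fin K) (a b : ℕ) : up (up x i a) i b = up x i (a + b) := by
  funext j
  by_cases h : j = i
  · subst h; rw [up_same, up_same, up_same, add_assoc]
  · rw [up_ne _ h, up_ne _ h, up_ne _ h]

theorem up_comm (x : Fin K → ℕ) {i j : Fin K} (h : i ≠ j) (a b : ℕ) :
    up (up x i a) j b = up (up x j b) i a := by
  funext l
  by_cases h1 : l = i
  · subst h1; rw [up_ne _ h, up_same, up_same, up_ne _ h]
  · by_cases h2 : l = j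
    · subst h2; rw [up_same, up_ne _ h1, up_ne _ h1, up_same]
    · rw [up_ne _ h2, up_ne _ h1, up_ne _ h1, up_ne _ h2]

/-- the harmonic function -/
noncomputable def FF (x : Fin K → ℕ) : ℝ :=
  (Matrix.vandermonde (fun i => (x i : ℝ))).det / ∏ i, ((x i).factorial : ℝ)

theorem FF_comp (x : Fin K → ℕ) (σ : Perm (Fin K)) :
    FF (x ∘ σ) = (Perm.sign σ : ℝ) * FF x := by
  unfold FF
  have e1 : (Matrix.vandermonde fun i => ((x ∘ σ) i : ℝ)) =
      (Matrix.vandermonde fun i => (x i : ℝ)).submatrix σ id := by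
    ext i j
    simp [Matrix.vandermonde_apply]
  rw [e1, Matrix.det_permute]
  have e2 : ∏ i, (((x ∘ σ) i).factorial : ℝ) = ∏ i, ((x i).factorial : ℝ) :=
    Equiv.prod_comp σ fun i => ((x i).factorial : ℝ)
  rw [e2]
  ring

theorem FF_swap (x : Fin K → ℕ) {p q : Fin K} (h : p ≠ q) : FF (x ∘ swap p q) = -FF x := by
  rw [FF_comp, Perm.sign_swap h]
  simp

theorem FF_coin {x : Fin K → ℕ} {p q : Fin K} (h : p ≠ q) (hx : x p = x q) : FF x = 0 := by
  have e : x ∘ swap p q = x := by
    funext i
    rw [Function.comp_apply]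
    by_cases h1 : i = p
    · subst h1; rw [swap_apply_left, hx]
    · by_cases h2 : i = q
      · subst h2; rw [swap_apply_right, hx]
      · rw [swap_apply_of_ne_of_ne h1 h2]
  have := FF_swap x h
  rw [e] at this
  linarith

theorem up_coin {x : Fin K → ℕ} {p q : Fin K} (h : p ≠ q) (hx : x p = x q) (a : ℕ) :
    up x q a = up x p a ∘ swap p q := by
  funext i
  rw [Function.comp_apply]
  by_cases h1 : i = p
  · subst h1; rw [swap_apply_left, up_ne _ h, up_ne _ h.symm, hx]
  · by_cases h2 : i = q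
    · subst h2; rw [swap_apply_right, up_same, up_same, hx]
    · rw [swap_apply_of_ne_of_ne h1 h2, up_ne _ h1, up_ne _ h2]

theorem FF_up_coin {x : Fin K → ℕ} {p q : Fin K} (h : p ≠ q) (hx : x p = x q) (a : ℕ) :
    FF (up x p a) + FF (up x q a) = 0 := by
  rw [up_coin h hx, FF_swap _ h]; ring

/-! ## ratios -/

theorem pair_prod {R : Type*} [CommMonoid R] (i : Fin K) (g : Fin K → R) :
    ∏ p : Fin K, ∏ q ∈ Ioi p, (if p = i then g q else if q = i then g p else 1) =
      ∏ j ∈ univ.erase i, g j := by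
  have e1 : ∀ p ∈ (univ.erase i : Finset (Fin K)),
      ∏ q ∈ Ioi p, (if p = i then g q else if q = i then g p else 1) =
        if p < i then g p else 1 := by
    intro p hp
    have hpi : p ≠ i := ne_of_mem_erase hp
    have : ∀ q ∈ Ioi p, (if p = i then g q else if q = i then g p else 1) =
        if q = i then g p else 1 := fun q _ => if_neg hpi
    rw [prod_congr rfl this, prod_ite_eq']
    simp only [mem_Ioi]
  have e2 : ∏ q ∈ Ioi i, (if i = i then g q else if q = i then g i else 1) =
      ∏ q ∈ Ioi i, g q := prod_congr rfl fun q _ => if_pos rfl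
  rw [← mul_prod_erase univ _ (mem_univ i), e2, prod_congr rfl e1, ← prod_filter]
  have e3 : (univ.erase i : Finset (Fin K)) = Ioi i ∪ (univ.erase i).filter (fun p => p < i) := by
    ext j
    simp only [mem_erase, mem_univ, and_true, mem_union, mem_Ioi, mem_filter]
    constructor
    · intro h
      rcases lt_or_gt_of_ne h with h1 | h1
      · exact Or.inr ⟨h, h1⟩
      · exact Or.inl h1
    · rintro (h | h)
      · exact h.ne'
      · exact h.1
  have e4 : Disjoint (Ioi i) ((univ.erase i : Finset (Fin K)).filter fun p => p < i) := by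
    rw [Finset.disjoint_left]
    intro j h1 h2
    rw [mem_Ioi] at h1
    exact absurd (mem_filter.1 h2).2 (not_lt.2 h1.le)
  conv_rhs => rw [e3, prod_union e4]

/-- change of one point in a Vandermonde determinant -/
theorem vand_update (v : Fin K → ℝ) (i : Fin K) (z : ℝ) :
    (Matrix.vandermonde (Function.update v i z)).det * ∏ j ∈ univ.erase i, (v i - v j) =
      (Matrix.vandermonde v).det * ∏ j ∈ univ.erase i, (z - v j) := by
  rw [Matrix.det_vandermonde, Matrix.det_vandermonde, ← pair_prod i (fun j => v i - v j),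
    ← pair_prod i (fun j => z - v j), ← prod_mul_distrib, ← prod_mul_distrib]
  refine prod_congr rfl fun p _ => ?_
  rw [← prod_mul_distrib, ← prod_mul_distrib]
  refine prod_congr rfl fun q hq => ?_
  have hpq : q ≠ p := (mem_Ioi.1 hq).ne'
  by_cases hp : p = i
  · subst hp
    rw [if_pos rfl, if_pos rfl, Function.update_self, Function.update_of_ne hpq]
    ring
  · rw [if_neg hp, if_neg hp]
    by_cases hq' : q = i
    · subst hq'
      rw [if_pos rfl, if_pos rfl, Function.update_self, Function.update_of_ne hp]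
      ring
    · rw [if_neg hq', if_neg hq', Function.update_of_ne hp, Function.update_of_ne hq']

/-- the ratio of `FF` for one move -/
theorem FF_up_ratio (x : Fin K → ℕ) (i : Fin K) (a : ℕ) :
    FF (up x i a) * (∏ j ∈ univ.erase i, ((x i : ℝ) - x j)) * ((x i + a).factorial : ℝ) =
      FF x * (∏ j ∈ univ.erase i, ((x i : ℝ) + a - x j)) * ((x i).factorial : ℝ) := by
  unfold FF
  have e1 : (fun j => ((up x i a j : ℕ) : ℝ)) =
      Function.update (fun j => (x j : ℝ)) i ((x i : ℝ) + a) := by
    funext j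
    by_cases h : j = i
    · subst h; rw [up_same, Function.update_self]; push_cast; rfl
    · rw [up_ne _ h, Function.update_of_ne h]
  have h1 := vand_update (fun j => (x j : ℝ)) i ((x i : ℝ) + a)
  have e2 : ∏ j, ((up x i a j).factorial : ℝ) =
      ((x i + a).factorial : ℝ) * ∏ j ∈ univ.erase i, ((x j).factorial : ℝ) := by
    rw [← mul_prod_erase univ _ (mem_univ i), up_same]
    congr 1
    refine prod_congr rfl fun j hj => ?_
    rw [up_ne _ (ne_of_mem_erase hj)]
  have e3 : ∏ j, ((x j).factorial : ℝ) =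
      ((x i).factorial : ℝ) * ∏ j ∈ univ.erase i, ((x j).factorial : ℝ) :=
    (mul_prod_erase univ _ (mem_univ i)).symm
  rw [e1, e2, e3]
  have p1 : ((x i + a).factorial : ℝ) ≠ 0 := by exact_mod_cast (x i + a).factorial_ne_zero
  have p2 : ((x i).factorial : ℝ) ≠ 0 := by exact_mod_cast (x i).factorial_ne_zero
  have p3 : ∏ j ∈ univ.erase i, ((x j).factorial : ℝ) ≠ 0 :=
    prod_ne_zero_iff.2 fun j _ => by exact_mod_cast (x j).factorial_ne_zero
  field_simp
  linear_combination h1

theorem FF_ne {x : Fin K → ℕ} (hx : Function.Injective x) : FF x ≠ 0 := by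
  unfold FF
  refine div_ne_zero ?_ (prod_ne_zero_iff.2 fun j _ => by
    exact_mod_cast (x j).factorial_ne_zero)
  rw [Matrix.det_vandermonde_ne_zero_iff]
  exact Nat.cast_injective.comp hx

theorem FF_pos {x : Fin K → ℕ} (hx : StrictMono x) : 0 < FF x := by
  unfold FF
  refine div_pos ?_ (prod_pos fun j _ => by exact_mod_cast (x j).factorial_pos)
  rw [Matrix.det_vandermonde]
  refine prod_pos fun i _ => prod_pos fun j hj => ?_
  have := hx (mem_Ioi.1 hj)
  rw [sub_pos]
  exact_mod_cast this

/-- the weight of a move by one -/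
theorem FF_up_one {x : Fin K → ℕ} (hx : Function.Injective x) (i : Fin K) :
    FF (up x i 1) = w (univ.image x) (x i) * FF x := by
  have h1 := FF_up_ratio x i 1
  have p0 : ∏ j ∈ univ.erase i, ((x i : ℝ) - x j) ≠ 0 := by
    refine prod_ne_zero_iff.2 fun j hj => ?_
    rw [sub_ne_zero]
    intro h
    exact ne_of_mem_erase hj (hx (Nat.cast_injective h)).symm
  have e1 : (univ.image x).erase (x i) = (univ.erase i).image x := by
    rw [image_erase hx]
  have p1 : ((x i).factorial : ℝ) ≠ 0 := by exact_mod_cast (x i).factorial_ne_zero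
  have p2 : (x i : ℝ) + 1 ≠ 0 := by positivity
  unfold w
  rw [e1, prod_image (fun a _ b _ h => hx h), prod_div_distrib]
  rw [Nat.factorial_succ] at h1
  push_cast at h1
  field_simp
  have h2 : (FF (up x i 1) * (∏ j ∈ univ.erase i, ((x i : ℝ) - x j)) * ((x i : ℝ) + 1)) *
      ((x i).factorial : ℝ) = (FF x * ∏ j ∈ univ.erase i, ((x i : ℝ) + 1 - x j)) *
      ((x i).factorial : ℝ) := by linear_combination h1
  have h3 := mul_right_cancel₀ p1 h2
  linear_combination h3

/-- sum over the moves -/
noncomputable def dl (g : (Fin K → ℕ) → ℝ) (x : Fin K → ℕ) : ℝ := ∑ l, g (up x l 1)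

/-- **Harmonicity.** -/
theorem dl_FF {x : Fin K → ℕ} {i₀ : Fin K} (h0 : x i₀ = 0) : dl FF x = FF x := by
  unfold dl
  by_cases hx : Function.Injective x
  · rw [sum_congr rfl fun i _ => FF_up_one hx i, ← sum_mul]
    have e : ∑ i, w (univ.image x) (x i) = ∑ y ∈ univ.image x, w (univ.image x) y := by
      rw [sum_image (fun a _ b _ h => hx h)]
    rw [e, w_sum _ (mem_image.2 ⟨i₀, mem_univ _, h0⟩), one_mul]
  · rw [Function.Injective] at hx
    push Not at hx
    obtain ⟨p, q, hpq, hne⟩ := hx
    rw [FF_coin hne hpq, ← add_sum_erase univ _ (mem_univ p),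
      ← add_sum_erase (univ.erase p) _ (mem_erase.2 ⟨hne.symm, mem_univ q⟩), ← add_assoc,
      FF_up_coin hne hpq, zero_add]
    refine sum_eq_zero fun l hl => ?_
    rw [mem_erase, mem_erase] at hl
    refine FF_coin hne ?_
    rw [up_ne _ hl.2.1.symm, up_ne _ hl.1.symm, hpq]

/-! ## one-body functions -/

/-- the commutator with the shift -/
def adk (k : ℕ → ℕ → ℝ) : ℕ → ℕ → ℝ := fun x p =>
  match p with
  | 0 => 0
  | p + 1 => k (x + 1) p - k x p

/-- one-body function, displacements less than `P` -/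
noncomputable def e1 (P : ℕ) (k : ℕ → ℕ → ℝ) (x : Fin K → ℕ) : ℝ :=
  ∑ i, ∑ p ∈ range P, k (x i) p * FF (up x i p)

theorem dl_split (g : (Fin K → ℕ) → ℝ) (x : Fin K → ℕ) (i : Fin K) :
    ∑ l ∈ univ.erase i, g (up x l 1) = dl g x - g (up x i 1) := by
  unfold dl
  rw [← add_sum_erase univ _ (mem_univ i)]
  ring

theorem sum_adk {P : ℕ} {k : ℕ → ℕ → ℝ} (hP : ∀ x p, P ≤ p + 1 → k x p = 0) (y : ℕ)
    (f : ℕ → ℝ) :
    ∑ p ∈ range P, adk k y p * f p = ∑ p ∈ range P, (k (y + 1) p - k y p) * f (p + 1) := by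
  cases P with
  | zero => simp
  | succ P =>
    rw [sum_range_succ', sum_range_succ _ P, hP _ P (by omega), hP _ P (by omega)]
    simp [adk]

theorem dl_e1 {P : ℕ} {k : ℕ → ℕ → ℝ} (hP : ∀ x p, P ≤ p + 1 → k x p = 0)
    (hk0 : ∀ p, k 0 p = 0) {x : Fin K → ℕ} {i₀ : Fin K} (h0 : x i₀ = 0) :
    dl (e1 P k) x = e1 P k x + e1 P (adk k) x := by
  have hL : dl (e1 P k) x = ∑ i, ∑ l, ∑ p ∈ range P, k (up x l 1 i) p * FF (up (up x l 1) i p) := by
    unfold dl e1
    rw [sum_comm]
  have hi : ∀ i : Fin K, ∑ l, ∑ p ∈ range P, k (up x l 1 i) p * FF (up (up x l 1) i p) =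
      ∑ p ∈ range P, k (x i) p * FF (up x i p) + ∑ p ∈ range P, adk k (x i) p * FF (up x i p) := by
    intro i
    rw [← add_sum_erase univ _ (mem_univ i)]
    have a1 : ∑ p ∈ range P, k (up x i 1 i) p * FF (up (up x i 1) i p) =
        ∑ p ∈ range P, k (x i + 1) p * FF (up x i (p + 1)) := by
      refine sum_congr rfl fun p _ => ?_
      rw [up_same, up_up, add_comm 1 p]
    have a2 : ∑ l ∈ univ.erase i, ∑ p ∈ range P, k (up x l 1 i) p * FF (up (up x l 1) i p) =
        ∑ p ∈ range P, k (x i) p * (FF (up x i p) - FF (up x i (p + 1))) := by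
      rw [sum_comm]
      refine sum_congr rfl fun p _ => ?_
      have b1 : ∀ l ∈ univ.erase i, k (up x l 1 i) p * FF (up (up x l 1) i p) =
          k (x i) p * FF (up (up x i p) l 1) := by
        intro l hl
        have hli : l ≠ i := ne_of_mem_erase hl
        rw [up_ne _ hli.symm, up_comm _ hli]
      rw [sum_congr rfl b1, ← mul_sum]
      by_cases hk : k (x i) p = 0
      · rw [hk, zero_mul, zero_mul]
      · congr 1
        have hi0 : i₀ ≠ i := by
          rintro rfl
          rw [h0] at hk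
          exact hk (hk0 p)
        rw [dl_split, dl_FF (i₀ := i₀) (by rw [up_ne _ hi0, h0]), up_up]
    rw [a1, a2, sum_adk hP, ← sum_add_distrib, ← sum_add_distrib]
    refine sum_congr rfl fun p _ => ?_
    ring
  rw [hL, sum_congr rfl fun i _ => hi i, sum_add_distrib]
  rfl

theorem e1_coin {P : ℕ} {k : ℕ → ℕ → ℝ} {x : Fin K → ℕ} {p q : Fin K} (h : p ≠ q)
    (hx : x p = x q) : e1 P k x = 0 := by
  unfold e1
  rw [← add_sum_erase univ _ (mem_univ p),
    ← add_sum_erase (univ.erase p) _ (mem_erase.2 ⟨h.symm, mem_univ q⟩), ← add_assoc]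
  have a1 : ∑ a ∈ range P, k (x p) a * FF (up x p a) + ∑ a ∈ range P, k (x q) a * FF (up x q a) = 0 := by
    rw [← sum_add_distrib]
    refine sum_eq_zero fun a _ => ?_
    rw [← hx, ← mul_add, FF_up_coin h hx, mul_zero]
  rw [a1, zero_add]
  refine sum_eq_zero fun l hl => sum_eq_zero fun a _ => ?_
  rw [mem_erase, mem_erase] at hl
  rw [FF_coin h, mul_zero]
  rw [up_ne _ hl.2.1.symm, up_ne _ hl.1.symm, hx]

/-! ## two-body functions -/

/-- two-body function -/
noncomputable def e2 (P : ℕ) (k k' : ℕ → ℕ → ℝ) (x : Fin K → ℕ) : ℝ :=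
  ∑ i, ∑ j ∈ univ.erase i, ∑ p ∈ range P, ∑ q ∈ range P,
    k (x i) p * k' (x j) q * FF (up (up x i p) j q)

theorem dl_e2 {P : ℕ} {k k' : ℕ → ℕ → ℝ} (hP : ∀ x p, P ≤ p + 1 → k x p = 0)
    (hP' : ∀ x p, P ≤ p + 1 → k' x p = 0)
    (hk0 : ∀ p, k 0 p = 0) (hk0' : ∀ p, k' 0 p = 0) {x : Fin K → ℕ} {i₀ : Fin K} (h0 : x i₀ = 0) :
    dl (e2 P k k') x = e2 P k k' x + e2 P (adk k) k' x + e2 P k (adk k') x := by
  have hL : dl (e2 P k k') x = ∑ i, ∑ j ∈ univ.erase i, ∑ l, ∑ p ∈ range P, ∑ q ∈ range P,
      k (up x l 1 i) p * k' (up x l 1 j) q * FF (up (up (up x l 1) i p) j q) := by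
    unfold dl e2
    rw [sum_comm]
    refine sum_congr rfl fun i _ => ?_
    rw [sum_comm]
  have hij : ∀ i : Fin K, ∀ j ∈ univ.erase i, ∑ l, ∑ p ∈ range P, ∑ q ∈ range P,
      k (up x l 1 i) p * k' (up x l 1 j) q * FF (up (up (up x l 1) i p) j q) =
      ∑ p ∈ range P, ∑ q ∈ range P, k (x i) p * k' (x j) q * FF (up (up x i p) j q) +
      ∑ p ∈ range P, ∑ q ∈ range P, adk k (x i) p * k' (x j) q * FF (up (up x i p) j q) +
      ∑ p ∈ range P, ∑ q ∈ range P, k (x i) p * adk k' (x j) q * FF (up (up x i p) j q) := by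
    intro i j hj
    have hji : j ≠ i := ne_of_mem_erase hj
    rw [← add_sum_erase univ _ (mem_univ i), ← add_sum_erase (univ.erase i) _ hj]
    have a1 : ∑ p ∈ range P, ∑ q ∈ range P,
        k (up x i 1 i) p * k' (up x i 1 j) q * FF (up (up (up x i 1) i p) j q) =
        ∑ q ∈ range P, ∑ p ∈ range P,
          k (x i + 1) p * (k' (x j) q * FF (up (up x i (p + 1)) j q)) := by
      rw [sum_comm]
      refine sum_congr rfl fun q _ => sum_congr rfl fun p _ => ?_
      rw [up_same, up_ne _ hji, up_up, add_comm 1 p]; ring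
    have a2 : ∑ p ∈ range P, ∑ q ∈ range P,
        k (up x j 1 i) p * k' (up x j 1 j) q * FF (up (up (up x j 1) i p) j q) =
        ∑ p ∈ range P, ∑ q ∈ range P,
          k' (x j + 1) q * (k (x i) p * FF (up (up x i p) j (q + 1))) := by
      refine sum_congr rfl fun p _ => sum_congr rfl fun q _ => ?_
      rw [up_same, up_ne _ hji.symm, up_comm _ hji, up_up, add_comm 1 q]; ring
    have a3 : ∑ l ∈ (univ.erase i).erase j, ∑ p ∈ range P, ∑ q ∈ range P,
        k (up x l 1 i) p * k' (up x l 1 j) q * FF (up (up (up x l 1) i p) j q) =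
        ∑ p ∈ range P, ∑ q ∈ range P, k (x i) p * k' (x j) q *
          (FF (up (up x i p) j q) - FF (up (up x i (p + 1)) j q) - FF (up (up x i p) j (q + 1))) := by
      rw [sum_comm]
      refine sum_congr rfl fun p _ => ?_
      rw [sum_comm]
      refine sum_congr rfl fun q _ => ?_
      have b1 : ∀ l ∈ (univ.erase i).erase j,
          k (up x l 1 i) p * k' (up x l 1 j) q * FF (up (up (up x l 1) i p) j q) =
          k (x i) p * k' (x j) q * FF (up (up (up x i p) j q) l 1) := by
        intro l hl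
        rw [mem_erase, mem_erase] at hl
        rw [up_ne _ hl.2.1.symm, up_ne _ hl.1.symm, up_comm x hl.2.1, up_comm _ hl.1]
      rw [sum_congr rfl b1, ← mul_sum]
      by_cases hk : k (x i) p * k' (x j) q = 0
      · rw [hk, zero_mul, zero_mul]
      · congr 1
        have hki : k (x i) p ≠ 0 := left_ne_zero_of_mul hk
        have hkj : k' (x j) q ≠ 0 := right_ne_zero_of_mul hk
        have hi0 : i₀ ≠ i := by
          rintro rfl
          rw [h0] at hki
          exact hki (hk0 p)
        have hj0 : i₀ ≠ j := by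
          rintro rfl
          rw [h0] at hkj
          exact hkj (hk0' q)
        have c1 : ∑ l ∈ (univ.erase i).erase j, FF (up (up (up x i p) j q) l 1) =
            dl FF (up (up x i p) j q) - FF (up (up (up x i p) j q) i 1) -
              FF (up (up (up x i p) j q) j 1) := by
          unfold dl
          rw [← add_sum_erase univ _ (mem_univ i), ← add_sum_erase (univ.erase i) _ hj]
          ring
        rw [c1, dl_FF (i₀ := i₀) (by rw [up_ne _ hj0, up_ne _ hi0, h0]), up_up,
          ← up_comm (up x i p) hji.symm 1 q, up_up]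
    rw [a1, a2, a3]
    have s1 : ∑ p ∈ range P, ∑ q ∈ range P, adk k (x i) p * k' (x j) q * FF (up (up x i p) j q) =
        ∑ q ∈ range P, ∑ p ∈ range P,
          (k (x i + 1) p - k (x i) p) * (k' (x j) q * FF (up (up x i (p + 1)) j q)) := by
      rw [sum_comm]
      refine sum_congr rfl fun q _ => ?_
      rw [← sum_adk hP (x i) (fun p => k' (x j) q * FF (up (up x i p) j q))]
      refine sum_congr rfl fun p _ => ?_
      ring
    have s2 : ∑ p ∈ range P, ∑ q ∈ range P, k (x i) p * adk k' (x j) q * FF (up (up x i p) j q) =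
        ∑ p ∈ range P, ∑ q ∈ range P,
          (k' (x j + 1) q - k' (x j) q) * (k (x i) p * FF (up (up x i p) j (q + 1))) := by
      refine sum_congr rfl fun p _ => ?_
      rw [← sum_adk hP' (x j) (fun q => k (x i) p * FF (up (up x i p) j q))]
      refine sum_congr rfl fun q _ => ?_
      ring
    rw [s1, s2]
    rw [sum_comm (s := range P) (t := range P)
      (f := fun q p => k (x i + 1) p * (k' (x j) q * FF (up (up x i (p + 1)) j q))),
      sum_comm (s := range P) (t := range P)
      (f := fun q p => (k (x i + 1) p - k (x i) p) * (k' (x j) q * FF (up (up x i (p + 1)) j q)))]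
    simp only [← sum_add_distrib]
    refine sum_congr rfl fun p _ => sum_congr rfl fun q _ => ?_
    ring
  rw [hL, sum_congr rfl fun i _ => sum_congr rfl fun j hj => hij i j hj]
  unfold e2
  rw [← sum_add_distrib, ← sum_add_distrib]
  refine sum_congr rfl fun i _ => ?_
  rw [← sum_add_distrib, ← sum_add_distrib]

end Pool.JM
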