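import Pool.Agent.Work.MP_46fa68_h4.Lay4

/-!
# MP_46fa68_co: the size of the layers

`EEl a j` bounds `Zz t (j-2) (3 m + 1) R (j - 1)`, `m = a + j`, `t = m - 3`.
-/

set_option autoImplicit false

open Finset Equiv

namespace Pool.JM

/-- iterated upper bound -/
theorem RS.prod {a N : ℝ} {R : ℕ → ℝ} (hR : RS a N R) (ha : 0 < a) (hN : 0 < N) : ∀ n : ℕ,
    R n ≤ ∏ p ∈ range n, ((N + p * a) / (((p : ℝ) + 1) * (a ^ 2 + N + p * a)))
  | 0 => by rw [hR.zero, range_zero, prod_empty]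
  | n + 1 => by
    rw [prod_range_succ]
    have ih := RS.prod hR ha hN n
    have h1 := hR.le n
    have hD : 0 < ((n : ℝ) + 1) * (a ^ 2 + N + n * a) := by positivity
    have h2 : R (n + 1) ≤ R n * ((N + n * a) / (((n : ℝ) + 1) * (a ^ 2 + N + n * a))) := by
      rw [mul_div_assoc', le_div_iff₀ hD]
      exact h1
    exact h2.trans (mul_le_mul_of_nonneg_right ih (by positivity))

theorem choose_prod {t : ℕ} (ht : 0 < t) : ∀ n : ℕ, ((t + n - 1).choose n : ℝ) =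
    ∏ p ∈ range n, (((t : ℝ) + p) / ((p : ℝ) + 1))
  | 0 => by simp
  | n + 1 => by
    rw [prod_range_succ, ← choose_prod ht n]
    obtain ⟨s, hs⟩ : ∃ s, t + n - 1 = s := ⟨_, rfl⟩
    rw [show t + (n + 1) - 1 = s + 1 by omega, hs]
    have a1 := Nat.add_one_mul_choose_eq s n
    have a2 := congrArg (fun z : ℕ => (z : ℝ)) a1
    push_cast at a2
    have hsR : (s : ℝ) + 1 = (t : ℝ) + n := by
      have : s + 1 = t + n := by omega
      exact_mod_cast this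
    have hn : (n : ℝ) + 1 ≠ 0 := by positivity
    rw [mul_div_assoc', eq_div_iff hn, ← a2, hsR]
    ring

/-- the factor -/
noncomputable def ff (a j p : ℝ) : ℝ :=
  ((a + j - 3 + p) * (2 * (a + j) - 3 + p * a)) /
    ((p + 1) ^ 2 * (a ^ 2 + (2 * (a + j) - 3) + p * a))

noncomputable def EEl (a j : ℕ) : ℝ :=
  (3 * ((a : ℝ) + j) + 1) / ((a : ℝ) + j - 3) * ∏ p ∈ range (j - 1), ff a j p

theorem Zz_R_le {a j t : ℕ} (ha : 1 ≤ a) (hj : 5 ≤ j) (ht : t + 3 = a + j) {R : ℕ → ℝ}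
    (hR : RS (a : ℝ) (2 * t + 3) R) : Zz t (j - 2) * (3 * t + 10) * R (j - 1) ≤ EEl a j := by
  have ht0 : 0 < t := by omega
  have htR : (0 : ℝ) < t := by exact_mod_cast ht0
  have haR : (0 : ℝ) < a := by exact_mod_cast (by omega : 0 < a)
  have hmt : (a : ℝ) + j = t + 3 := by exact_mod_cast ht.symm
  have h1 := hR.prod haR (by positivity) (j - 1)
  have h2 := choose_prod ht0 (j - 1)
  unfold Zz EEl
  rw [show t + (j - 2) = t + (j - 1) - 1 by omega, show j - 2 + 1 = j - 1 by omega, h2]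
  have hP : 0 ≤ ∏ p ∈ range (j - 1), (((t : ℝ) + p) / ((p : ℝ) + 1)) :=
    prod_nonneg fun p _ => by positivity
  calc (∏ p ∈ range (j - 1), (((t : ℝ) + p) / ((p : ℝ) + 1))) / t * (3 * t + 10) * R (j - 1)
      ≤ (∏ p ∈ range (j - 1), (((t : ℝ) + p) / ((p : ℝ) + 1))) / t * (3 * t + 10) *
        ∏ p ∈ range (j - 1), ((2 * (t : ℝ) + 3 + p * a) /
          (((p : ℝ) + 1) * ((a : ℝ) ^ 2 + (2 * t + 3) + p * a))) :=
        mul_le_mul_of_nonneg_left h1 (by positivity)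
    _ = (3 * t + 10) / t * ((∏ p ∈ range (j - 1), (((t : ℝ) + p) / ((p : ℝ) + 1))) *
        ∏ p ∈ range (j - 1), ((2 * (t : ℝ) + 3 + p * a) /
          (((p : ℝ) + 1) * ((a : ℝ) ^ 2 + (2 * t + 3) + p * a)))) := by ring
    _ = (3 * ((a : ℝ) + j) + 1) / ((a : ℝ) + j - 3) * ∏ p ∈ range (j - 1), ff a j p := by
        rw [← prod_mul_distrib, hmt]
        congr 1
        · congr 1
          · ring
          · ring
        · refine prod_congr rfl fun p _ => ?_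
          unfold ff
          rw [hmt, div_mul_div_comm]
          congr 1
          · ring
          · ring

/-- the factors decrease in `a` -/
theorem ff_mono {a j p : ℝ} (ha : 1 ≤ a) (hj : 6 ≤ j) (hp : 0 ≤ p) (_hpj : p + 2 ≤ j)
    (h : j + 2 ≤ a * (2 * j - 10)) : ff (a + 1) j p ≤ ff a j p := by
  unfold ff
  have e1 : 0 < a ^ 2 + (2 * (a + j) - 3) + p * a := by nlinarith [mul_nonneg hp (by linarith : 0 ≤ a)]
  have e2 : 0 < (a + 1) ^ 2 + (2 * (a + 1 + j) - 3) + p * (a + 1) := by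
    nlinarith [mul_nonneg hp (by linarith : 0 ≤ a + 1)]
  have e3 : 0 < (p + 1) ^ 2 := by positivity
  rw [div_le_div_iff₀ (mul_pos e3 e2) (mul_pos e3 e1)]
  have key : (a + 1 + j - 3 + p) * (2 * (a + 1 + j) - 3 + p * (a + 1)) *
      (a ^ 2 + (2 * (a + j) - 3) + p * a) ≤
      (a + j - 3 + p) * (2 * (a + j) - 3 + p * a) *
        ((a + 1) ^ 2 + (2 * (a + 1 + j) - 3) + p * (a + 1)) := by
    have d1 : 0 ≤ a * (2 * j - 10) - (j + 2) := by linarith
    have d2 : 0 ≤ 2 * j - 3 := by linarith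
    have d3 : 0 ≤ 2 * j - 10 := by linarith
    have hI : 2 ≤ p + 2 := by linarith
    have t1 : 0 ≤ (a * (2 * j - 10) - (j + 2)) * (2 * j - 3) := mul_nonneg d1 d2
    have t2 : 0 ≤ a ^ 2 * ((2 * j - 3) + (p + 2) * (j - 5)) := by
      have : 0 ≤ (p + 2) * (j - 5) := mul_nonneg (by linarith) (by linarith)
      have : 0 ≤ (2 * j - 3) + (p + 2) * (j - 5) := by linarith
      positivity
    have t3 : 0 ≤ a * ((2 * j - 3) + (j - 5) * (p + 2)) := by
      have : 0 ≤ (j - 5) * (p + 2) := mul_nonneg (by linarith) (by linarith)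
      have : 0 ≤ (2 * j - 3) + (j - 5) * (p + 2) := by linarith
      positivity
    linear_combination t1 + t2 + t3
  nlinarith [mul_le_mul_of_nonneg_left key e3.le]

theorem ff_nonneg {a j p : ℝ} (ha : 1 ≤ a) (hj : 6 ≤ j) (hp : 0 ≤ p) : 0 ≤ ff a j p := by
  unfold ff
  have h1 : 0 ≤ a + j - 3 + p := by linarith
  have h2 : 0 ≤ 2 * (a + j) - 3 + p * a := by nlinarith [mul_nonneg hp (by linarith : 0 ≤ a)]
  have h3 : 0 ≤ a ^ 2 + (2 * (a + j) - 3) + p * a := by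
    nlinarith [mul_nonneg hp (by linarith : 0 ≤ a)]
  positivity

theorem EEl_step {a j : ℕ} (ha : 1 ≤ a) (hj : 6 ≤ j) (h : j + 2 ≤ a * (2 * j - 10)) :
    EEl (a + 1) j ≤ EEl a j := by
  have ha' : (1 : ℝ) ≤ a := by exact_mod_cast ha
  have hj' : (6 : ℝ) ≤ j := by exact_mod_cast hj
  have h' : (j : ℝ) + 2 ≤ a * (2 * j - 10) := by
    have h1 : ((j + 2 : ℕ) : ℝ) ≤ ((a * (2 * j - 10) : ℕ) : ℝ) := by exact_mod_cast h
    rw [Nat.cast_mul, Nat.cast_sub (by omega)] at h1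
    push_cast at h1
    exact h1
  unfold EEl
  refine mul_le_mul ?_ ?_ (prod_nonneg fun p _ => ff_nonneg (by push_cast; linarith) hj'
    (Nat.cast_nonneg p)) ?_
  · rw [div_le_div_iff₀ (by push_cast; linarith) (by linarith)]
    push_cast
    nlinarith
  · refine prod_le_prod (fun p _ => ff_nonneg (by push_cast; linarith) hj' (Nat.cast_nonneg p)) ?_
    intro p hp
    rw [mem_range] at hp
    push_cast
    refine ff_mono ha' hj' (Nat.cast_nonneg p) ?_ h'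
    exact_mod_cast (by omega : p + 2 ≤ j)
  · exact div_nonneg (by linarith) (by linarith)

theorem EEl_mono {a₀ j : ℕ} (ha : 1 ≤ a₀) (hj : 6 ≤ j) (h : j + 2 ≤ a₀ * (2 * j - 10)) : ∀ a, a₀ ≤ a →
    EEl a j ≤ EEl a₀ j := by
  intro a haa
  induction a, haa using Nat.le_induction with
  | base => exact le_rfl
  | succ a haa ih =>
    refine (EEl_step (by omega) hj ?_).trans ih
    exact h.trans (Nat.mul_le_mul_right _ haa)

theorem EEl_six {a : ℕ} (ha : 13 ≤ a) : EEl a 6 ≤ 1 / 2 := by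
  refine (EEl_mono (a₀ := 13) (by norm_num) le_rfl (by norm_num) a ha).trans ?_
  unfold EEl ff
  norm_num [prod_range_succ]

theorem EEl_seven {a : ℕ} (ha : 13 ≤ a) : EEl a 7 ≤ 17 / 100 := by
  refine (EEl_mono (a₀ := 13) (by norm_num) (by norm_num) (by norm_num) a ha).trans ?_
  unfold EEl ff
  norm_num [prod_range_succ]

theorem EEl_eight {a : ℕ} (ha : 11 ≤ a) : EEl a 8 ≤ 1 / 10 := by
  refine (EEl_mono (a₀ := 11) (by norm_num) (by norm_num) (by norm_num) a ha).trans ?_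
  unfold EEl ff
  norm_num [prod_range_succ]

theorem EEl_mid {a j : ℕ} (hj : 9 ≤ j) (hj2 : j ≤ 18) (ha : 20 ≤ a + j) :
    (4 + 5 / 6 * ((j : ℝ) + 1)) * EEl a j ≤ 2 / 5 := by
  have h1 : 1 ≤ 20 - j := by omega
  have h2 : (0 : ℝ) ≤ 4 + 5 / 6 * ((j : ℝ) + 1) := by positivity
  refine (mul_le_mul_of_nonneg_left (EEl_mono (a₀ := 20 - j) h1 (by omega) ?_ a (by omega)) h2).trans ?_
  · interval_cases j <;> norm_num
  · interval_cases j <;> (unfold EEl ff; norm_num [prod_range_succ])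

theorem pow_fac0 (n : ℕ) : 4 ^ (n + 17) * (n + 25) * 100 ≤ (n + 18).factorial := by
  induction n with
  | zero => decide
  | succ n ih =>
    rw [show n + 1 + 18 = (n + 18) + 1 by omega, Nat.factorial_succ,
      show n + 1 + 17 = (n + 17) + 1 by omega, pow_succ]
    have h1 : 8 * (4 ^ (n + 17) * (n + 25) * 100) ≤ (n + 18 + 1) * (n + 18).factorial :=
      Nat.mul_le_mul (by omega) ih
    have h2 : 4 ^ (n + 17) * 4 * (n + 1 + 25) * 100 ≤ 8 * (4 ^ (n + 17) * (n + 25) * 100) := by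
      have h3 : 4 ^ (n + 17) * (n + 26) ≤ 4 ^ (n + 17) * (2 * (n + 25)) :=
        Nat.mul_le_mul_left _ (by omega)
      nlinarith
    exact h2.trans h1

theorem pow_fac {s : ℕ} (hs : 17 ≤ s) : 4 ^ s * (s + 8) * 100 ≤ (s + 1).factorial := by
  obtain ⟨n, rfl⟩ : ∃ n, s = n + 17 := ⟨s - 17, by omega⟩
  exact pow_fac0 n

theorem ff_one_le {s p : ℝ} (hs : 2 ≤ s) (hp : 0 ≤ p) :
    ff 1 (s + 2) p ≤ (s + p) / (p + 1) * (1 / (p + 1)) := by
  unfold ff
  have hd : (0 : ℝ) < (1 : ℝ) ^ 2 + (2 * (1 + (s + 2)) - 3) + p := by linarith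
  have hp1 : (0 : ℝ) < p + 1 := by linarith
  have hp2 : (0 : ℝ) < (p + 1) ^ 2 := pow_pos hp1 2
  rw [div_mul_div_comm, mul_one, mul_one, div_le_div_iff₀ (mul_pos hp2 hd) (mul_pos hp1 hp1)]
  have : 0 ≤ (s + p) * (p + 1) ^ 2 := mul_nonneg (by linarith) hp2.le
  nlinarith

theorem prod_fac_le {s : ℕ} (hs : 17 ≤ s) :
    ∏ p ∈ range (s + 1), (((s : ℝ) + p) / ((p : ℝ) + 1) * (1 / ((p : ℝ) + 1))) ≤
      1 / (100 * ((s : ℝ) + 8)) := by
  have hf : (0 : ℝ) < ((s + 1).factorial : ℕ) := by exact_mod_cast Nat.factorial_pos _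
  rw [prod_mul_distrib, ← choose_prod (by omega : 0 < s) (s + 1)]
  have h3 : ∏ p ∈ range (s + 1), (1 / ((p : ℝ) + 1)) = 1 / (((s + 1).factorial : ℕ) : ℝ) := by
    rw [prod_div_distrib, prod_const_one]
    congr 1
    have := Finset.prod_range_add_one_eq_factorial (s + 1)
    rw [← this]
    push_cast
    rfl
  have hs8 : (0 : ℝ) < 100 * ((s : ℝ) + 8) := by positivity
  rw [h3, mul_one_div, div_le_div_iff₀ hf hs8, one_mul]
  have h4 : ((s + (s + 1) - 1).choose (s + 1) : ℝ) ≤ 4 ^ s := by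
    have h5 := Nat.choose_le_two_pow (s + (s + 1) - 1) (s + 1)
    have h6 : 2 ^ (s + (s + 1) - 1) = 4 ^ s := by
      rw [show s + (s + 1) - 1 = 2 * s by omega, pow_mul]
      norm_num
    rw [h6] at h5
    exact_mod_cast h5
  have h7 : (4 : ℝ) ^ s * (s + 8) * 100 ≤ ((s + 1).factorial : ℕ) := by
    exact_mod_cast pow_fac hs
  nlinarith [mul_le_mul_of_nonneg_right h4 hs8.le]

theorem EEl_far {a j : ℕ} (hj : 19 ≤ j) (ha : 1 ≤ a) :
    (4 + 5 / 6 * ((j : ℝ) + 1)) * EEl a j ≤ 2 / 5 := by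
  have h0 : (0 : ℝ) ≤ 4 + 5 / 6 * ((j : ℝ) + 1) := by positivity
  refine (mul_le_mul_of_nonneg_left (EEl_mono (a₀ := 1) le_rfl (by omega) (by omega) a ha) h0).trans ?_
  obtain ⟨s, rfl⟩ : ∃ s, j = s + 2 := ⟨j - 2, by omega⟩
  have hs : 17 ≤ s := by omega
  have hsR : (17 : ℝ) ≤ s := by exact_mod_cast hs
  unfold EEl
  rw [show s + 2 - 1 = s + 1 by omega]
  have h1 : ∏ p ∈ range (s + 1), ff ((1 : ℕ) : ℝ) ((s + 2 : ℕ) : ℝ) (p : ℝ) ≤
      ∏ p ∈ range (s + 1), (((s : ℝ) + p) / ((p : ℝ) + 1) * (1 / ((p : ℝ) + 1))) := by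
    refine prod_le_prod (fun p _ => ff_nonneg (by norm_num) (by push_cast; linarith)
      (Nat.cast_nonneg p)) ?_
    intro p _
    have h := ff_one_le (by linarith : (2 : ℝ) ≤ s) (Nat.cast_nonneg p : (0 : ℝ) ≤ p)
    push_cast
    exact h
  have h2 := prod_fac_le hs
  have h3 : (3 * (((1 : ℕ) : ℝ) + ((s + 2 : ℕ) : ℝ)) + 1) / (((1 : ℕ) : ℝ) + ((s + 2 : ℕ) : ℝ) - 3) ≤ 4 := by
    push_cast
    rw [div_le_iff₀ (by linarith)]
    linarith
  have h4 : 0 ≤ (3 * (((1 : ℕ) : ℝ) + ((s + 2 : ℕ) : ℝ)) + 1) / (((1 : ℕ) : ℝ) + ((s + 2 : ℕ) : ℝ) - 3) := by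
    push_cast
    refine div_nonneg (by linarith) (by linarith)
  have h5 := mul_le_mul_of_nonneg_left (h1.trans h2) h4
  have h6 : (0 : ℝ) ≤ 1 / (100 * ((s : ℝ) + 8)) := by positivity
  have h7 := h5.trans (mul_le_mul_of_nonneg_right h3 h6)
  have h8 := mul_le_mul_of_nonneg_left h7 h0
  refine h8.trans ?_
  push_cast
  rw [mul_one_div, mul_div_assoc', div_le_iff₀ (by positivity)]
  linarith

end Pool.JM
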