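import Pool.Agent.Work.MP_46fa68_h4.ECalc

/-!
# MP_46fa68_co: one-body and two-body functions of sets of beads, the defect formula

The functions `E1 P k`, `E2 P k k'` of sets of beads (quotients by `FF`), their restriction, and the exact
formula for the `t`-th restriction (with the wall) of `1[first row < m] (1 - E1 k)` for a general one-body
kernel `k`.
-/

set_option autoImplicit false

open Finset Equiv

namespace Pool.JM

variable {K : ℕ}

open Classical in
/-- the increasing configuration of a set of beads -/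
noncomputable def cf (K : ℕ) (B : Finset ℕ) : Fin K → ℕ :=
  if h : B.card = K then B.orderEmbOfFin h else fun _ => 0

theorem cf_eq {B : Finset ℕ} (h : B.card = K) : cf K B = B.orderEmbOfFin h := by
  unfold cf; rw [dif_pos h]

theorem cf_mono {B : Finset ℕ} (h : B.card = K) : StrictMono (cf K B) := by
  rw [cf_eq h]; exact (B.orderEmbOfFin h).strictMono

theorem cf_mem {B : Finset ℕ} (h : B.card = K) (i : Fin K) : cf K B i ∈ B := by
  rw [cf_eq h]; exact Finset.orderEmbOfFin_mem B h i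

theorem cf_image {B : Finset ℕ} (h : B.card = K) : univ.image (cf K B) = B := by
  refine Finset.eq_of_subset_of_card_le ?_ ?_
  · intro x hx
    obtain ⟨i, _, rfl⟩ := mem_image.1 hx
    exact cf_mem h i
  · rw [card_image_of_injective _ (cf_mono h).injective, card_univ, Fintype.card_fin, h]

theorem cf_surj {B : Finset ℕ} (h : B.card = K) {x : ℕ} (hx : x ∈ B) : ∃ i, cf K B i = x := by
  rw [← cf_image h] at hx
  obtain ⟨i, _, hi⟩ := mem_image.1 hx
  exact ⟨i, hi⟩

theorem cf_pos {B : Finset ℕ} (h : B.card = K) : 0 < FF (cf K B) := FF_pos (cf_mono h)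

/-- a move in terms of configurations -/
theorem cf_mv {B : Finset ℕ} (h : B.card = K) {i : Fin K} (hi : cf K B i ∈ ad B) :
    cf K (mv B (cf K B i)) = up (cf K B) i 1 := by
  have hm := cf_mono h
  obtain ⟨h1, h2⟩ := mem_ad.1 hi
  have hc : (mv B (cf K B i)).card = K := by
    unfold mv
    rw [card_insert_of_notMem (fun h' => h2 (mem_of_mem_erase h')), card_erase_of_mem h1, h]
    have : 0 < B.card := card_pos.2 ⟨_, h1⟩
    omega
  rw [cf_eq hc]
  symm
  apply Finset.orderEmbOfFin_unique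
  · intro j
    by_cases hj : j = i
    · subst hj
      rw [up_same]
      exact mem_insert_self _ _
    · rw [up_ne _ hj]
      exact mem_insert_of_mem (mem_erase.2 ⟨fun h' => hj (hm.injective h'), cf_mem h j⟩)
  · intro a b hab
    have hab' := hm hab
    by_cases ha : a = i
    · subst ha
      rw [up_same, up_ne _ hab.ne']
      have : cf K B b ≠ cf K B a + 1 := fun h' => h2 (h' ▸ cf_mem h b)
      omega
    · by_cases hb : b = i
      · subst hb
        rw [up_same, up_ne _ ha]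
        omega
      · rw [up_ne _ ha, up_ne _ hb]
        exact hab'

/-- functions of sets of beads from functions of configurations -/
noncomputable def toF (g : (Fin K → ℕ) → ℝ) (B : Finset ℕ) : ℝ := g (cf K B) / FF (cf K B)

/-- vanishing at coincidences -/
def Cz (g : (Fin K → ℕ) → ℝ) : Prop := ∀ x : Fin K → ℕ, ∀ p q, p ≠ q → x p = x q → g x = 0

theorem Cz_FF : Cz (FF : (Fin K → ℕ) → ℝ) := fun _ _ _ h hx => FF_coin h hx

theorem Cz_e1 (P : ℕ) (k : ℕ → ℕ → ℝ) : Cz (e1 P k : (Fin K → ℕ) → ℝ) :=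
  fun _ _ _ h hx => e1_coin h hx

theorem Dop_toF {g : (Fin K → ℕ) → ℝ} (hg : Cz g) {B : Finset ℕ} (h : B.card = K) :
    Dop (toF g) B = toF (dl g) B := by
  have hm := cf_mono h
  have hF := (cf_pos h).ne'
  unfold toF dl
  rw [sum_div]
  -- the sum over the movable beads as a sum over `Fin K`
  have e1 : Dop (toF g) B = ∑ i : Fin K, if cf K B i ∈ ad B then
      w B (cf K B i) * toF g (mv B (cf K B i)) else 0 := by
    unfold Dop
    have e2 : ad B = (univ.filter fun i => cf K B i ∈ ad B).image (cf K B) := by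
      ext x
      rw [mem_image]
      constructor
      · intro hx
        obtain ⟨i, rfl⟩ := cf_surj h (mem_ad.1 hx).1
        exact ⟨i, mem_filter.2 ⟨mem_univ _, hx⟩, rfl⟩
      · rintro ⟨i, hi, rfl⟩
        exact (mem_filter.1 hi).2
    conv_lhs => rw [e2]
    rw [sum_image (fun a _ b _ hab => hm.injective hab), sum_filter]
  have e0 : (fun B => g (cf K B) / FF (cf K B)) = toF g := rfl
  rw [e0, e1]
  refine sum_congr rfl fun i _ => ?_
  split_ifs with hi
  · unfold toF
    rw [cf_mv h hi, FF_up_one hm.injective, cf_image h]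
    have hw : w B (cf K B i) ≠ 0 := by
      refine (w_pos (mem_ad.1 hi).2).ne'
    field_simp
  · have h1 : cf K B i + 1 ∈ B := by
      by_contra hcon
      exact hi (mem_ad.2 ⟨cf_mem h i, hcon⟩)
    obtain ⟨j, hj⟩ := cf_surj h h1
    have hji : j ≠ i := by
      rintro rfl; omega
    rw [hg (up (cf K B) i 1) i j hji.symm (by rw [up_same, up_ne _ hji, hj]), zero_div]

/-! ## antisymmetry of the two-body functions -/

theorem up_comp (x : Fin K → ℕ) (σ : Perm (Fin K)) (i : Fin K) (a : ℕ) :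
    up (x ∘ σ) i a = up x (σ i) a ∘ σ := by
  funext j
  rw [Function.comp_apply]
  by_cases h : j = i
  · subst h; rw [up_same, up_same]; rfl
  · rw [up_ne _ h, up_ne _ (fun h' => h (σ.injective h'))]; rfl

theorem e2_comp (P : ℕ) (k k' : ℕ → ℕ → ℝ) (x : Fin K → ℕ) (σ : Perm (Fin K)) :
    e2 P k k' (x ∘ σ) = (Perm.sign σ : ℝ) * e2 P k k' x := by
  unfold e2
  rw [mul_sum]
  conv_rhs => rw [← Equiv.sum_comp σ]
  refine sum_congr rfl fun i _ => ?_
  rw [mul_sum]
  have e : (univ.erase (σ i) : Finset (Fin K)) = (univ.erase i).map σ.toEmbedding := by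
    ext j
    rw [mem_map]
    constructor
    · intro hj
      refine ⟨σ.symm j, mem_erase.2 ⟨fun h => ne_of_mem_erase hj ?_, mem_univ _⟩, ?_⟩
      · rw [← h]; exact (σ.apply_symm_apply j).symm
      · exact σ.apply_symm_apply j
    · rintro ⟨l, hl, rfl⟩
      exact mem_erase.2 ⟨fun h => ne_of_mem_erase hl (σ.injective h), mem_univ _⟩
  rw [e, sum_map]
  refine sum_congr rfl fun j _ => ?_
  rw [mul_sum]
  refine sum_congr rfl fun p _ => ?_
  rw [mul_sum]
  refine sum_congr rfl fun q _ => ?_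
  rw [up_comp, up_comp, FF_comp]
  simp only [Function.comp_apply, Equiv.coe_toEmbedding]
  ring

theorem Cz_e2 (P : ℕ) (k k' : ℕ → ℕ → ℝ) : Cz (e2 P k k' : (Fin K → ℕ) → ℝ) := by
  intro x p q h hx
  have e : x ∘ swap p q = x := by
    funext i
    rw [Function.comp_apply]
    by_cases h1 : i = p
    · subst h1; rw [swap_apply_left, hx]
    · by_cases h2 : i = q
      · subst h2; rw [swap_apply_right, hx]
      · rw [swap_apply_of_ne_of_ne h1 h2]
  have h1 := e2_comp P k k' x (swap p q)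
  rw [e, Perm.sign_swap h] at h1
  simp only [Units.val_neg, Units.val_one, Int.cast_neg, Int.cast_one] at h1
  linarith

/-! ## one-body and two-body functions of sets of beads -/

/-- one-body function -/
noncomputable def E1 (K P : ℕ) (k : ℕ → ℕ → ℝ) : Finset ℕ → ℝ :=
  toF (e1 P k : (Fin K → ℕ) → ℝ)

/-- two-body function -/
noncomputable def E2 (K P : ℕ) (k k' : ℕ → ℕ → ℝ) : Finset ℕ → ℝ :=
  toF (e2 P k k' : (Fin K → ℕ) → ℝ)

/-- the support of a kernel: beads at least `x1`, displacements less than `p1` -/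
def Sup (k : ℕ → ℕ → ℝ) (x1 p1 : ℕ) : Prop := ∀ x p, (x < x1 ∨ p1 ≤ p) → k x p = 0

/-- `1 + ad` -/
def pk (k : ℕ → ℕ → ℝ) : ℕ → ℕ → ℝ := fun x p => k x p + adk k x p

theorem Sup.adk {k : ℕ → ℕ → ℝ} {x1 p1 : ℕ} (h : Sup k x1 p1) :
    Sup (Pool.JM.adk k) (x1 - 1) (p1 + 1) := by
  intro x p hp
  cases p with
  | zero => rfl
  | succ p =>
    unfold Pool.JM.adk
    simp only
    rw [h (x + 1) p (by omega), h x p (by omega), sub_zero]

theorem Sup.mono {k : ℕ → ℕ → ℝ} {x1 p1 x2 p2 : ℕ} (h : Sup k x1 p1) (h1 : x2 ≤ x1)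
    (h2 : p1 ≤ p2) : Sup k x2 p2 := fun x p hp => h x p (by omega)

theorem Sup.pk {k : ℕ → ℕ → ℝ} {x1 p1 : ℕ} (h : Sup k x1 p1) :
    Sup (Pool.JM.pk k) (x1 - 1) (p1 + 1) := by
  intro x p hp
  unfold Pool.JM.pk
  rw [h x p (by omega), h.adk x p hp, add_zero]

theorem Sup.adn {k : ℕ → ℕ → ℝ} {x1 p1 : ℕ} (h : Sup k x1 p1) : ∀ c,
    Sup (Pool.JM.adk^[c] k) (x1 - c) (p1 + c)
  | 0 => h
  | c + 1 => by
    rw [Function.iterate_succ_apply']
    exact ((h.adn c).adk).mono (by omega) (by omega)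

theorem Sup.pkn {k : ℕ → ℕ → ℝ} {x1 p1 : ℕ} (h : Sup k x1 p1) : ∀ c,
    Sup (Pool.JM.pk^[c] k) (x1 - c) (p1 + c)
  | 0 => h
  | c + 1 => by
    rw [Function.iterate_succ_apply']
    exact ((h.pkn c).pk).mono (by omega) (by omega)

theorem e1_add (P : ℕ) (k k' : ℕ → ℕ → ℝ) (x : Fin K → ℕ) :
    e1 P (fun x p => k x p + k' x p) x = e1 P k x + e1 P k' x := by
  unfold e1
  rw [← sum_add_distrib]
  refine sum_congr rfl fun i _ => ?_
  rw [← sum_add_distrib]
  refine sum_congr rfl fun p _ => ?_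
  ring

theorem E1_add (K P : ℕ) (k k' : ℕ → ℕ → ℝ) (B : Finset ℕ) :
    E1 K P (fun x p => k x p + k' x p) B = E1 K P k B + E1 K P k' B := by
  unfold E1 toF
  rw [e1_add, add_div]

theorem e2_add_right (P : ℕ) (k k' k'' : ℕ → ℕ → ℝ) (x : Fin K → ℕ) :
    e2 P k (fun x p => k' x p + k'' x p) x = e2 P k k' x + e2 P k k'' x := by
  unfold e2
  simp only [← sum_add_distrib]
  refine sum_congr rfl fun i _ => sum_congr rfl fun j _ => sum_congr rfl fun p _ =>
    sum_congr rfl fun q _ => ?_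
  ring

theorem E2_add_right (K P : ℕ) (k k' k'' : ℕ → ℕ → ℝ) (B : Finset ℕ) :
    E2 K P k (fun x p => k' x p + k'' x p) B = E2 K P k k' B + E2 K P k k'' B := by
  unfold E2 toF
  rw [e2_add_right, add_div]

theorem zero_cf {n : ℕ} {B : Finset ℕ} (hB : B ∈ Lv K n) (hn : n < K) :
    ∃ i₀, cf K B i₀ = 0 := cf_surj (Lv_spec hB).1 (Lv_zero_mem hB hn)

theorem Dop_E1 {P n x1 p1 : ℕ} {k : ℕ → ℕ → ℝ} (hk : Sup k x1 p1) (hx1 : 1 ≤ x1) (hp1 : p1 < P)
    {B : Finset ℕ} (hB : B ∈ Lv K n) (hn : n < K) :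
    Dop (E1 K P k) B = E1 K P (pk k) B := by
  obtain ⟨i₀, h0⟩ := zero_cf hB hn
  have e : E1 K P (pk k) B = E1 K P k B + E1 K P (adk k) B := E1_add K P k (adk k) B
  rw [e]
  unfold E1
  rw [Dop_toF (Cz_e1 P k) (Lv_spec hB).1]
  unfold toF
  rw [dl_e1 (fun x p hp => hk x p (by omega)) (fun p => hk 0 p (by omega)) h0, add_div]

theorem Dop_E2 {P n x1 p1 x2 p2 : ℕ} {k k' : ℕ → ℕ → ℝ} (hk : Sup k x1 p1) (hk' : Sup k' x2 p2)
    (hx1 : 1 ≤ x1) (hx2 : 1 ≤ x2) (hp1 : p1 < P) (hp2 : p2 < P)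
    {B : Finset ℕ} (hB : B ∈ Lv K n) (hn : n < K) :
    Dop (E2 K P k k') B = E2 K P k (pk k') B + E2 K P (adk k) k' B := by
  obtain ⟨i₀, h0⟩ := zero_cf hB hn
  have e : E2 K P k (pk k') B = E2 K P k k' B + E2 K P k (adk k') B :=
    E2_add_right K P k k' (adk k') B
  rw [e]
  unfold E2
  rw [Dop_toF (Cz_e2 P k k') (Lv_spec hB).1]
  unfold toF
  rw [dl_e2 (fun x p hp => hk x p (by omega)) (fun x p hp => hk' x p (by omega))
    (fun p => hk 0 p (by omega)) (fun p => hk' 0 p (by omega)) h0, add_div, add_div]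
  ring

/-- iterates of the restriction without wall -/
noncomputable def Dopi : ℕ → (Finset ℕ → ℝ) → Finset ℕ → ℝ
  | 0, u => u
  | j + 1, u => Dop (Dopi j u)

theorem Dop_congr' {f g : Finset ℕ → ℝ} {B : Finset ℕ}
    (h : ∀ x ∈ ad B, f (mv B x) = g (mv B x)) : Dop f B = Dop g B := by
  unfold Dop
  exact sum_congr rfl fun x hx => by rw [h x hx]

theorem Dopi_E1 {P x1 p1 : ℕ} {k : ℕ → ℕ → ℝ} (hk : Sup k x1 p1) :
    ∀ (t n : ℕ), n + t ≤ K → t ≤ x1 → p1 + t ≤ P → ∀ B ∈ Lv K n,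
      Dopi t (E1 K P k) B = E1 K P (pk^[t] k) B
  | 0, _, _, _, _, _, _ => rfl
  | t + 1, n, h1, h2, h3, B, hB => by
    have e : Dopi (t + 1) (E1 K P k) B = Dop (Dopi t (E1 K P k)) B := rfl
    rw [e, Dop_congr' (g := E1 K P (pk^[t] k))]
    · rw [Function.iterate_succ_apply']
      exact Dop_E1 (hk.pkn t) (by omega) (by omega) hB (by omega)
    · intro x hx
      exact Dopi_E1 hk t (n + 1) (by omega) (by omega) (by omega) _ (mv_mem hB hx)

theorem Dopi_E2 {P x1 p1 x2 p2 : ℕ} {k k' : ℕ → ℕ → ℝ} (hk : Sup k x1 p1) (hk' : Sup k' x2 p2) :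
    ∀ (t n : ℕ), n + t ≤ K → t ≤ x1 → t ≤ x2 → p1 + t ≤ P → p2 + t ≤ P → ∀ B ∈ Lv K n,
      Dopi t (E2 K P k k') B =
        ∑ c ∈ range (t + 1), (t.choose c : ℝ) * E2 K P (adk^[c] k) (pk^[t - c] k') B
  | 0, _, _, _, _, _, _, _, _ => by simp [Dopi]
  | t + 1, n, h1, h2, h2', h3, h3', B, hB => by
    have e : Dopi (t + 1) (E2 K P k k') B = Dop (Dopi t (E2 K P k k')) B := rfl
    have e3 : Dop (Dopi t (E2 K P k k')) B = Dop (fun C => ∑ c ∈ range (t + 1),
        (t.choose c : ℝ) * E2 K P (adk^[c] k) (pk^[t - c] k') C) B :=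
      Dop_congr' fun x hx => Dopi_E2 hk hk' t (n + 1) (by omega) (by omega) (by omega) (by omega)
        (by omega) _ (mv_mem hB hx)
    rw [e, e3, Dop_sum]
    have e4 : ∀ c ∈ range (t + 1), Dop (fun C => (t.choose c : ℝ) *
        E2 K P (adk^[c] k) (pk^[t - c] k') C) B =
        (t.choose c : ℝ) * E2 K P (adk^[c] k) (pk^[t + 1 - c] k') B +
        (t.choose c : ℝ) * E2 K P (adk^[c + 1] k) (pk^[t + 1 - (c + 1)] k') B := by
      intro c hc
      have hc' := mem_range.1 hc
      rw [Dop_smul, Dop_E2 (hk.adn c) (hk'.pkn (t - c)) (by omega) (by omega) (by omega) (by omega)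
        hB (by omega), mul_add, show t + 1 - c = (t - c) + 1 by omega,
        show t + 1 - (c + 1) = t - c by omega, Function.iterate_succ_apply',
        Function.iterate_succ_apply']
    rw [sum_congr rfl e4, sum_add_distrib]
    set G : ℕ → ℝ := fun c => E2 K P (adk^[c] k) (pk^[t + 1 - c] k') B with hG
    change ∑ c ∈ range (t + 1), (t.choose c : ℝ) * G c +
      ∑ c ∈ range (t + 1), (t.choose c : ℝ) * G (c + 1) =
      ∑ c ∈ range (t + 1 + 1), ((t + 1).choose c : ℝ) * G c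
    rw [sum_range_succ' (fun c => ((t + 1).choose c : ℝ) * G c), sum_range_succ' (fun c => (t.choose c : ℝ) * G c)]
    have e5 : ∀ c ∈ range (t + 1), ((t + 1).choose (c + 1) : ℝ) * G (c + 1) =
        (t.choose c : ℝ) * G (c + 1) + (t.choose (c + 1) : ℝ) * G (c + 1) := by
      intro c _
      rw [Nat.choose_succ_succ]
      push_cast; ring
    rw [sum_congr rfl e5, sum_add_distrib, sum_range_succ (fun c => (t.choose (c + 1) : ℝ) * G (c + 1)) t,
      Nat.choose_eq_zero_of_lt (Nat.lt_succ_self t)]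
    simp only [Nat.choose_zero_right, Nat.cast_one, one_mul, Nat.cast_zero, zero_mul, add_zero]
    ring

/-! ## the wall -/

open Classical in
/-- the indicator of the shapes with first row `< m` -/
noncomputable def ind (m K : ℕ) (B : Finset ℕ) : ℝ := if Bl m K B then 1 else 0

theorem ind_pos {m : ℕ} {B : Finset ℕ} (h : Bl m K B) : ind m K B = 1 := if_pos h

theorem ind_neg {m : ℕ} {B : Finset ℕ} (h : ¬ Bl m K B) : ind m K B = 0 := if_neg h

/-- the projection on the beads beyond the wall -/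
noncomputable def K0 (M0 : ℕ) : ℕ → ℕ → ℝ := fun x p => if p = 0 ∧ M0 ≤ x then 1 else 0

theorem Sup_K0 (M0 : ℕ) : Sup (K0 M0) M0 1 := by
  intro x p h
  unfold K0
  rw [if_neg]
  omega

theorem Dwi_ind {m : ℕ} (hK : 0 < K) (hm : 2 ≤ m) (u : Finset ℕ → ℝ) : ∀ (j : ℕ) (B : Finset ℕ),
    Dopi j (fun C => ind m K C * u C) B = ind m K B * Dwi (K + m - 2) j u B
  | 0, _ => rfl
  | j + 1, B => by
    have e : Dopi (j + 1) (fun C => ind m K C * u C) B =
      Dop (Dopi j (fun C => ind m K C * u C)) B := rfl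
    rw [e, Dop_congr' (g := fun C => ind m K C * Dwi (K + m - 2) j u C)
      fun x _ => Dwi_ind hK hm u j _]
    have e2 : Dwi (K + m - 2) (j + 1) u B = Dw (K + m - 2) (Dwi (K + m - 2) j u) B := rfl
    rw [e2]
    unfold Dop Dw
    by_cases hB : Bl m K B
    · rw [ind_pos hB, one_mul, sum_filter]
      refine sum_congr rfl fun x _ => ?_
      beta_reduce
      by_cases hx : x < K + m - 2
      · rw [if_pos hx, ind_pos ((Bl_mv hK hm hB).2 hx), one_mul]
      · rw [if_neg hx, ind_neg (fun h => hx ((Bl_mv hK hm hB).1 h)), zero_mul, mul_zero]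
    · rw [ind_neg hB, zero_mul]
      refine sum_eq_zero fun x _ => ?_
      beta_reduce
      rw [ind_neg (not_Bl_mv hB), zero_mul, mul_zero]

end Pool.JM
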