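import Pool.Agent.Work.MP_46fa68_h4.Pos1

/-!
# MP_46fa68_co: the contribution of the beads far below the wall, and positivity for `d ≥ 12 √m`
-/

set_option autoImplicit false

open Finset Equiv

namespace Pool.JM

variable {K : ℕ}

theorem exp_13_6 : Real.exp (13 / 6) ≤ 9 := by
  have h1 := Real.exp_one_lt_d9
  have h2 : Real.exp (13 / 6) ^ 6 = Real.exp 1 ^ 13 := by
    rw [← Real.exp_nat_mul, ← Real.exp_nat_mul]
    norm_num
  have h3 : Real.exp 1 ^ 13 ≤ (2.7182818286 : ℝ) ^ 13 :=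
    pow_le_pow_left₀ (Real.exp_pos 1).le h1.le 13
  have h4 : Real.exp (13 / 6) ^ 6 ≤ 9 ^ 6 := by
    rw [h2]
    exact h3.trans (by norm_num)
  exact le_of_pow_le_pow_left₀ (by norm_num) (by norm_num) h4

/-- one term of the contribution of a far bead -/
theorem far_term {m t j q : ℕ} (htm : t ≤ m) (hj : 1 ≤ j) (hq : j + q ≤ 2 * m) :
    ((t + (j + q) - 1).choose (j + q) : ℝ) * ((j + q - 1).choose (j - 1) : ℝ) *
      (2 ^ (j + q - 1) / ((j + q).factorial : ℝ)) ≤
    (1 / 2) * ((2 * ((m : ℝ) + j)) ^ j / (j.factorial : ℝ) ^ 2) *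
      ((6 * (m : ℝ) / j) ^ q / q.factorial) := by
  set p := j + q with hp
  have f0 : (0 : ℝ) < p.factorial := by exact_mod_cast p.factorial_pos
  have f1 : (0 : ℝ) < j.factorial := by exact_mod_cast j.factorial_pos
  have f2 : (0 : ℝ) < q.factorial := by exact_mod_cast q.factorial_pos
  have hj0 : (0 : ℝ) < j := by exact_mod_cast (by omega : 0 < j)
  -- (a)
  have a1 : ((t + p - 1).choose p : ℝ) * p.factorial ≤ ((m : ℝ) + j) ^ j * (3 * m) ^ q := by
    have e1 := Nat.descFactorial_eq_factorial_mul_choose (t + p - 1) p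
    have e2 := Nat.descFactorial_mul_descFactorial (n := t + p - 1) (k := q) (m := p) (by omega)
    rw [show p - q = j by omega] at e2
    have e3 : (t + p - 1 - q).descFactorial j ≤ (m + j) ^ j :=
      (Nat.descFactorial_le_pow _ _).trans (Nat.pow_le_pow_left (by omega) _)
    have e4 : (t + p - 1).descFactorial q ≤ (3 * m) ^ q :=
      (Nat.descFactorial_le_pow _ _).trans (Nat.pow_le_pow_left (by omega) _)
    have e5 : (t + p - 1).choose p * p.factorial ≤ (m + j) ^ j * (3 * m) ^ q := by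
      rw [mul_comm, ← e1, ← e2]
      exact Nat.mul_le_mul e3 e4
    exact_mod_cast e5
  -- (b)
  have b1 : ((p - 1).choose (j - 1) : ℝ) * (j - 1).factorial * q.factorial * p = p.factorial := by
    have e1 := Nat.choose_mul_factorial_mul_factorial (show j - 1 ≤ p - 1 by omega)
    rw [show p - 1 - (j - 1) = q by omega] at e1
    have e2 := Nat.mul_factorial_pred (show p ≠ 0 by omega)
    have e3 : (p - 1).choose (j - 1) * (j - 1).factorial * q.factorial * p =
      p.factorial := by rw [e1, mul_comm, e2]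
    exact_mod_cast e3
  have b2 : ((p - 1).choose (j - 1) : ℝ) * (j.factorial * q.factorial) ≤ p.factorial := by
    have e1 : (j : ℝ) * (j - 1).factorial = j.factorial := by
      exact_mod_cast Nat.mul_factorial_pred (show j ≠ 0 by omega)
    have e2 : (j : ℝ) ≤ p := by exact_mod_cast (by omega : j ≤ p)
    rw [← e1, ← b1]
    have e3 : (0 : ℝ) ≤ ((p - 1).choose (j - 1) : ℝ) * (j - 1).factorial * q.factorial := by
      positivity
    calc ((p - 1).choose (j - 1) : ℝ) * (j * (j - 1).factorial * q.factorial)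
        = ((p - 1).choose (j - 1) : ℝ) * (j - 1).factorial * q.factorial * j := by ring
      _ ≤ _ := mul_le_mul_of_nonneg_left e2 e3
  -- (c)
  have c1 : (j.factorial : ℝ) * (j : ℝ) ^ q ≤ p.factorial := by
    have e1 := Nat.factorial_mul_pow_le_factorial (m := j) (n := q)
    have e2 : j.factorial * j ^ q ≤ (j + q).factorial :=
      (Nat.mul_le_mul_left _ (Nat.pow_le_pow_left (by omega) _)).trans e1
    exact_mod_cast e2
  have hpow : (2 : ℝ) ^ (p - 1) = (1 / 2) * (2 ^ j * 2 ^ q) := by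
    rw [← pow_add, ← hp]
    obtain ⟨r, hr⟩ : ∃ r, p = r + 1 := ⟨p - 1, by omega⟩
    rw [hr, Nat.add_sub_cancel, pow_succ]
    ring
  have hch : ((t + p - 1).choose p : ℝ) ≤ ((m : ℝ) + j) ^ j * (3 * m) ^ q / (j.factorial * j ^ q) := by
    rw [le_div_iff₀ (by positivity)]
    calc ((t + p - 1).choose p : ℝ) * (j.factorial * (j : ℝ) ^ q)
        ≤ ((t + p - 1).choose p : ℝ) * p.factorial :=
          mul_le_mul_of_nonneg_left c1 (Nat.cast_nonneg _)
      _ ≤ _ := a1
  have hch2 : ((p - 1).choose (j - 1) : ℝ) / p.factorial ≤ 1 / (j.factorial * q.factorial) := by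
    rw [div_le_div_iff₀ f0 (by positivity), one_mul]
    exact b2
  rw [hpow]
  calc ((t + p - 1).choose p : ℝ) * ((p - 1).choose (j - 1) : ℝ) *
        ((1 / 2) * (2 ^ j * 2 ^ q) / p.factorial)
      = ((t + p - 1).choose p : ℝ) * (((p - 1).choose (j - 1) : ℝ) / p.factorial) *
        ((1 / 2) * (2 ^ j * 2 ^ q)) := by ring
    _ ≤ (((m : ℝ) + j) ^ j * (3 * m) ^ q / (j.factorial * j ^ q)) *
        (1 / (j.factorial * q.factorial)) * ((1 / 2) * (2 ^ j * 2 ^ q)) := by
        refine mul_le_mul_of_nonneg_right ?_ (by positivity)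
        exact mul_le_mul hch hch2 (by positivity) (by positivity)
    _ = _ := by
        rw [mul_pow, div_pow, mul_pow, show (6 : ℝ) = 2 * 3 by norm_num, mul_pow, mul_pow]
        field_simp

/-- **A bead far below the wall.** -/
theorem VV_far {m t A M0 x j : ℕ} (B : Finset ℕ) (hM : M0 = x + j) (hj : 180 ≤ j)
    (hj2 : 36 * m ≤ j * j) (htm : t ≤ m) (hA : A = 2 * m) :
    |VV t A M0 B x| ≤ (1 / 2) * (3 / 5) ^ j := by
  have hj0 : (0 : ℝ) < j := by exact_mod_cast (by omega : 0 < j)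
  have h1 : |VV t A M0 B x| ≤ ∑ p ∈ Ico 1 (A + 1), if j ≤ p then
      ((t + p - 1).choose p : ℝ) * ((p - 1).choose (j - 1) : ℝ) *
        (2 ^ (p - 1) / (p.factorial : ℝ)) else 0 := by
    unfold VV
    refine (abs_sum_le_sum_abs _ _).trans (sum_le_sum fun p hp => ?_)
    rw [mem_Ico] at hp
    rw [hM, show x + j - x - 1 = j - 1 by omega]
    split_ifs with hjp
    · rw [abs_mul, abs_of_nonneg (a := ((t + p - 1).choose p : ℝ) * ((p - 1).choose (j - 1) : ℝ))
        (by positivity)]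
      exact mul_le_mul_of_nonneg_left (Rr_le' B x p hp.1) (by positivity)
    · have : (p - 1).choose (j - 1) = 0 := Nat.choose_eq_zero_of_lt (by omega)
      rw [this]
      simp
  refine h1.trans ?_
  have h2 : ∑ p ∈ Ico 1 (A + 1), (if j ≤ p then
      ((t + p - 1).choose p : ℝ) * ((p - 1).choose (j - 1) : ℝ) *
        (2 ^ (p - 1) / (p.factorial : ℝ)) else 0) ≤
      ∑ q ∈ range (A + 1 - j), (1 / 2) * ((2 * ((m : ℝ) + j)) ^ j / (j.factorial : ℝ) ^ 2) *
        ((6 * (m : ℝ) / j) ^ q / q.factorial) := by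
    rw [← sum_filter]
    have e1 : (Ico 1 (A + 1)).filter (fun p => j ≤ p) = (range (A + 1 - j)).image (fun q => j + q) := by
      ext p
      rw [mem_filter, mem_Ico, mem_image]
      constructor
      · rintro ⟨h3, h4⟩
        exact ⟨p - j, mem_range.2 (by omega), by omega⟩
      · rintro ⟨q, hq, rfl⟩
        rw [mem_range] at hq
        omega
    rw [e1, sum_image (fun a _ b _ h => by omega)]
    refine sum_le_sum fun q hq => ?_
    rw [mem_range] at hq
    exact far_term htm (by omega) (by omega)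
  refine h2.trans ?_
  rw [← mul_sum]
  have h3 : ∑ q ∈ range (A + 1 - j), (6 * (m : ℝ) / j) ^ q / (q.factorial : ℝ) ≤
      Real.exp (j / 6) := by
    refine (Real.sum_le_exp_of_nonneg (by positivity) _).trans (Real.exp_le_exp.2 ?_)
    rw [div_le_div_iff₀ hj0 (by norm_num)]
    have : (36 : ℝ) * m ≤ j * j := by exact_mod_cast hj2
    linarith
  have h4 : (j : ℝ) ^ j / (j.factorial : ℝ) ≤ Real.exp j :=
    Real.pow_div_factorial_le_exp (j : ℝ) hj0.le j
  have f1 : (0 : ℝ) < j.factorial := by exact_mod_cast j.factorial_pos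
  have h5 : (2 * ((m : ℝ) + j)) ^ j / (j.factorial : ℝ) ^ 2 ≤ (1 / 15) ^ j * Real.exp (2 * j) := by
    have e1 : (2 * ((m : ℝ) + j)) ≤ (1 / 15) * (j * j) := by
      have a1 : (36 : ℝ) * m ≤ j * j := by exact_mod_cast hj2
      have a2 : (180 : ℝ) ≤ j := by exact_mod_cast hj
      nlinarith
    have e2 : (2 * ((m : ℝ) + j)) ^ j ≤ ((1 / 15) * (j * j)) ^ j :=
      pow_le_pow_left₀ (by positivity) e1 j
    have e3 : ((j : ℝ) ^ j / (j.factorial : ℝ)) ^ 2 ≤ Real.exp (2 * j) := by
      have : Real.exp (2 * j) = Real.exp j ^ 2 := by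
        rw [← Real.exp_nat_mul]; norm_num
      rw [this]
      exact pow_le_pow_left₀ (by positivity) h4 2
    calc (2 * ((m : ℝ) + j)) ^ j / (j.factorial : ℝ) ^ 2
        ≤ ((1 / 15) * ((j : ℝ) * j)) ^ j / (j.factorial : ℝ) ^ 2 :=
          div_le_div_of_nonneg_right e2 (by positivity)
      _ = (1 / 15) ^ j * ((j : ℝ) ^ j / (j.factorial : ℝ)) ^ 2 := by
          rw [mul_pow, mul_pow, div_pow]
          ring
      _ ≤ _ := mul_le_mul_of_nonneg_left e3 (by positivity)
  have h6 : Real.exp (2 * j) * Real.exp (j / 6) ≤ 9 ^ j := by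
    rw [← Real.exp_add, show 2 * (j : ℝ) + j / 6 = (j : ℝ) * (13 / 6) by ring, Real.exp_nat_mul]
    exact pow_le_pow_left₀ (Real.exp_pos _).le exp_13_6 j
  calc (1 / 2) * ((2 * ((m : ℝ) + j)) ^ j / (j.factorial : ℝ) ^ 2) *
        ∑ q ∈ range (A + 1 - j), (6 * (m : ℝ) / j) ^ q / (q.factorial : ℝ)
      ≤ (1 / 2) * ((1 / 15) ^ j * Real.exp (2 * j)) * Real.exp (j / 6) := by
        refine mul_le_mul (mul_le_mul_of_nonneg_left h5 (by norm_num)) h3 ?_ (by positivity)
        exact sum_nonneg fun _ _ => by positivity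
    _ = (1 / 2) * ((1 / 15) ^ j * (Real.exp (2 * j) * Real.exp (j / 6))) := by ring
    _ ≤ (1 / 2) * ((1 / 15) ^ j * 9 ^ j) := by
        refine mul_le_mul_of_nonneg_left (mul_le_mul_of_nonneg_left h6 (by positivity)) (by norm_num)
    _ = _ := by rw [← mul_pow]; norm_num

theorem geom_tail {J : ℕ} (S : Finset ℕ) (hS : ∀ j ∈ S, J ≤ j) :
    ∑ j ∈ S, (1 / 2 : ℝ) * (3 / 5) ^ j ≤ (5 / 4) * (3 / 5) ^ J := by
  obtain ⟨N, hN⟩ : ∃ N, ∀ j ∈ S, j < J + N := by
    refine ⟨S.sup id + 1, fun j hj => ?_⟩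
    have := Finset.le_sup (f := id) hj
    simp only [id] at this
    omega
  have h1 : S ⊆ (range N).image (fun i => J + i) := by
    intro j hj
    have a1 := hS j hj
    have a2 := hN j hj
    exact mem_image.2 ⟨j - J, mem_range.2 (by omega), by omega⟩
  refine (sum_le_sum_of_subset_of_nonneg h1 fun _ _ _ => by positivity).trans ?_
  rw [sum_image (fun a _ b _ h => by omega), ← mul_sum]
  have h2 : ∑ i ∈ range N, ((3 : ℝ) / 5) ^ (J + i) = (3 / 5) ^ J * ∑ i ∈ range N, ((3 : ℝ) / 5) ^ i := by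
    rw [mul_sum]
    exact sum_congr rfl fun i _ => pow_add _ _ _
  rw [h2]
  have h3 : ∑ i ∈ range N, ((3 : ℝ) / 5) ^ i ≤ 5 / 2 := by
    rw [geom_sum_eq (by norm_num), div_le_iff_of_neg (by norm_num)]
    have : (0 : ℝ) ≤ (3 / 5) ^ N := by positivity
    linarith
  have h4 : (0 : ℝ) ≤ (3 / 5) ^ J := by positivity
  calc 1 / 2 * ((3 / 5 : ℝ) ^ J * ∑ i ∈ range N, ((3 : ℝ) / 5) ^ i)
      ≤ 1 / 2 * ((3 / 5) ^ J * (5 / 2)) := by
        refine mul_le_mul_of_nonneg_left (mul_le_mul_of_nonneg_left h3 h4) (by norm_num)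
    _ = _ := by ring

theorem sq_le_pow : ∀ J : ℕ, 9 ≤ J → ((J : ℝ)) ^ 2 * (3 / 5) ^ J ≤ 1 := by
  intro J hJ
  induction J, hJ using Nat.le_induction with
  | base => norm_num
  | succ J hJ ih =>
    have h1 : (9 : ℝ) ≤ J := by exact_mod_cast hJ
    have h2 : (0 : ℝ) ≤ (3 / 5) ^ J := by positivity
    have h3 : ((J : ℝ) + 1) ^ 2 * (3 / 5) ≤ (J : ℝ) ^ 2 := by nlinarith
    push_cast
    rw [pow_succ]
    calc ((J : ℝ) + 1) ^ 2 * ((3 / 5) ^ J * (3 / 5)) = (((J : ℝ) + 1) ^ 2 * (3 / 5)) * (3 / 5) ^ J := by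
          ring
      _ ≤ (J : ℝ) ^ 2 * (3 / 5) ^ J := mul_le_mul_of_nonneg_right h3 h2
      _ ≤ 1 := ih

/-- the sum over far beads -/
theorem far_sum {m t A M0 J : ℕ} (B F : Finset ℕ) (hF : ∀ x ∈ F, x + J ≤ M0) (hJ : 180 ≤ J)
    (hJ2 : 36 * m ≤ J * J) (hm : 0 < m) (htm : t ≤ m) (hA : A = 2 * m) :
    |∑ x ∈ F, (-1) ^ (M0 - x) * VV t A M0 B x| ≤ 5 / (144 * (m : ℝ)) := by
  have h1 : |∑ x ∈ F, (-1) ^ (M0 - x) * VV t A M0 B x| ≤ ∑ x ∈ F, (1 / 2 : ℝ) * (3 / 5) ^ (M0 - x) := by
    refine (abs_sum_le_sum_abs _ _).trans (sum_le_sum fun x hx => ?_)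
    have hx' := hF x hx
    rw [abs_mul, abs_pow, abs_neg, abs_one, one_pow, one_mul]
    refine VV_far B (by omega : M0 = x + (M0 - x)) (by omega) ?_ htm hA
    exact hJ2.trans (Nat.mul_le_mul (by omega) (by omega))
  refine h1.trans ?_
  have h2 : ∑ x ∈ F, (1 / 2 : ℝ) * (3 / 5) ^ (M0 - x) =
      ∑ j ∈ F.image (fun x => M0 - x), (1 / 2 : ℝ) * (3 / 5) ^ j := by
    rw [sum_image]
    intro a ha b hb hab
    have := hF a (mem_coe.1 ha)
    have := hF b (mem_coe.1 hb)
    simp only at hab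
    omega
  rw [h2]
  refine (geom_tail (J := J) _ fun j hj => ?_).trans ?_
  · obtain ⟨x, hx, rfl⟩ := mem_image.1 hj
    have := hF x hx
    omega
  · have h3 := sq_le_pow J (by omega)
    have hm' : (0 : ℝ) < m := by exact_mod_cast hm
    have h4 : (36 : ℝ) * m ≤ (J : ℝ) ^ 2 := by
      rw [pow_two]; exact_mod_cast hJ2
    rw [le_div_iff₀ (by positivity)]
    have h5 : (0 : ℝ) ≤ (3 / 5) ^ J := by positivity
    have h6 := mul_le_mul_of_nonneg_right h4 h5
    nlinarith

/-- **Positivity** of the truncated canonical solution for `(m - t)^2 ≥ 144 m`. -/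
theorem E1_canon_le {k m t A P n : ℕ} (hm : 900 ≤ m) (htm : t < m)
    (hd : 144 * m ≤ (m - t) * (m - t)) (hA : A = 2 * m) (hP : A < P) (hn : n = m + t)
    {B : Finset ℕ} (hB : B ∈ Lv (k + 1) n) (hb : Bl m (k + 1) B) :
    E1 (k + 1) P (kc (k + 1 - 1 + m) (bt t A)) B ≤ 1 - 9 / (10 * (m : ℝ)) := by
  have hc := (Lv_spec hB).1
  have hne : B.Nonempty := by rw [← card_pos, hc]; omega
  set x := B.max' hne with hx
  have hxB : x ∈ B := B.max'_mem hne
  have hmax : ∀ y ∈ B, y ≤ x := fun y hy => B.le_max' y hy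
  obtain ⟨a, b, hxa, hnab, hcE, hsE, hbE⟩ := top_spec hB hxB hmax
  have hM0 : k + 1 - 1 + m = k + m := by omega
  rw [hM0]
  have hbl : ∀ y ∈ B, y < k + m := by
    intro y hy
    have := hb y hy
    omega
  rw [E1_bt hP hc hbl]
  have hxk : x < k + m := hbl x hxB
  have ham : a < m := by omega
  obtain ⟨d, hdd⟩ : ∃ d, d = m - t := ⟨_, rfl⟩
  rw [← hdd] at hd
  have hd360 : 360 ≤ d := by
    by_contra hcon
    push Not at hcon
    have : d * d ≤ 359 * 359 := Nat.mul_le_mul (by omega) (by omega)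
    omega
  have hmR : (900 : ℝ) ≤ m := by exact_mod_cast hm
  have hm0 : (0 : ℝ) < m := by linarith
  -- the far beads
  have hJ2 : 36 * m ≤ ((d + 1) / 2) * ((d + 1) / 2) := by
    have h1 : d ≤ 2 * ((d + 1) / 2) := by omega
    have h2 : d * d ≤ (2 * ((d + 1) / 2)) * (2 * ((d + 1) / 2)) := Nat.mul_le_mul h1 h1
    nlinarith
  -- the other beads
  have hoth : ∀ y ∈ B.erase x, y + (d + 1) / 2 ≤ k + m := by
    intro y hy
    -- `y + x ≤ n + 2 k - 1`, `y < x`
    have hyx := ne_of_mem_erase hy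
    have hyB := mem_of_mem_erase hy
    have h1 : y < x := lt_of_le_of_ne (hmax y hyB) hyx
    have h2 : ((B.erase x).erase y).card = k - 1 := by
      rw [card_erase_of_mem hy, hcE]
    have h3 := sum_range_le h2
    have h4 := add_sum_erase (B.erase x) (fun z => z) hy
    have hk1 : 1 ≤ k := by
      rw [← hcE]
      exact card_pos.2 ⟨y, hy⟩
    obtain ⟨k', rfl⟩ : ∃ k', k = k' + 1 := ⟨k - 1, by omega⟩
    rw [sum_range_succ] at hsE
    simp only [Nat.add_sub_cancel] at h3
    omega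
  have hε : (5 : ℝ) / (144 * m) = (5 / 144) / m := by field_simp
  have hε2 : (9 : ℝ) / (10 * m) = (9 / 10) / m := by field_simp
  have hinv : (0 : ℝ) < 1 / m := by positivity
  have hinv2 : (1 : ℝ) / m ≤ 1 / 900 := one_div_le_one_div_of_le (by norm_num) hmR
  by_cases hfar : 2 * (m - a) ≥ d + 1
  · -- all beads are far
    have h1 := far_sum (m := m) (t := t) (A := A) (M0 := k + m) (J := (d + 1) / 2) B B (by
      intro y hy
      have := hmax y hy
      omega) (by omega) hJ2 (by omega) (by omega) hA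
    have h2 := (abs_le.1 h1).2
    refine h2.trans ?_
    rw [hε, hε2]
    have e1 : (5 / 144 : ℝ) / m = (5 / 144) * (1 / m) := by ring
    have e2 : (9 / 10 : ℝ) / m = (9 / 10) * (1 / m) := by ring
    rw [e1, e2]
    linarith
  · push Not at hfar
    have hsplit := add_sum_erase B (fun y => (-1 : ℝ) ^ (k + m - y) * VV t A (k + m) B y) hxB
    rw [← hsplit]
    have h1 := far_sum (m := m) (t := t) (A := A) (M0 := k + m) (J := (d + 1) / 2) B (B.erase x)
      hoth (by omega) hJ2 (by omega) (by omega) hA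
    have h2 := (abs_le.1 h1).2
    have hab : b ≤ a := by omega
    obtain ⟨i, hi⟩ : ∃ i, i = m - a := ⟨_, rfl⟩
    have hexp : k + m - x = i := by omega
    rw [hexp]
    rw [hxa] at hcE hsE hbE hmax
    -- the contribution of the first row
    have hrow : (-1 : ℝ) ^ i * VV t A (k + m) B x ≤ 1 - 1 / m := by
      rw [hxa]
      rcases Nat.even_or_odd i with hev | hodd
      · rw [hev.neg_one_pow, one_mul]
        by_cases hi2 : i = 2
        · have h3 := VV_two (t := t) (A := A) (M0 := k + m) hcE hsE hbE hmax hab (by omega) (by omega)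
            (by
              have e1 : a - b = d - 4 := by omega
              rw [e1]
              obtain ⟨e, rfl⟩ : ∃ e, d = e + 4 := ⟨d - 4, by omega⟩
              rw [Nat.add_sub_cancel]
              have e2 : (e + 3) * (e + 5) + 1 = (e + 4) * (e + 4) := by ring
              omega) (by omega)
          refine h3.trans ?_
          have e1 : (a : ℝ) + 2 = m := by exact_mod_cast (by omega : a + 2 = m)
          have e2 : (a : ℝ) + 3 = m + 1 := by exact_mod_cast (by omega : a + 3 = m + 1)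
          have e3 : (a : ℝ) - b + 1 = (d : ℝ) - 3 := by
            have : ((a + 4 : ℕ) : ℝ) = ((b + d : ℕ) : ℝ) := by exact_mod_cast (by omega : a + 4 = b + d)
            push_cast at this
            linarith
          have e4 : (t : ℝ) + 1 = m - d + 1 := by
            have : ((t + d : ℕ) : ℝ) = (m : ℝ) := by exact_mod_cast (by omega : t + d = m)
            push_cast at this
            linarith
          rw [e1, e2, e3, e4]
          have hdR : (360 : ℝ) ≤ d := by exact_mod_cast hd360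
          have hdm : (d : ℝ) ≤ m := by exact_mod_cast (by omega : d ≤ m)
          have hd2 : (144 : ℝ) * m ≤ d * d := by exact_mod_cast hd
          have n1 : (0 : ℝ) < (d : ℝ) - 3 := by linarith
          have f1 : ((m : ℝ) - d + 1) * (d - 1) ≤ m * (d - 3) := by nlinarith
          have f2 : ((m : ℝ) - d + 1) * m ≤ (m - 1) * (m + 1) := by nlinarith
          have f3 : (0 : ℝ) ≤ (m : ℝ) - d + 1 := by linarith
          rw [show ((m : ℝ) - d + 1) ^ 2 * (1 / (m * (m + 1))) * (1 + 2 / ((d : ℝ) - 3)) =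
            (((m : ℝ) - d + 1) * (((m : ℝ) - d + 1) * (d - 1))) / ((m * (m + 1)) * ((d : ℝ) - 3)) by
              field_simp
              ring]
          rw [div_le_iff₀ (by positivity)]
          calc ((m : ℝ) - d + 1) * (((m : ℝ) - d + 1) * (d - 1))
              ≤ ((m : ℝ) - d + 1) * (m * (d - 3)) := mul_le_mul_of_nonneg_left f1 f3
            _ = (((m : ℝ) - d + 1) * m) * (d - 3) := by ring
            _ ≤ ((m - 1) * (m + 1)) * (d - 3) := mul_le_mul_of_nonneg_right f2 n1.le
            _ = _ := by field_simp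
        · have h3 := VV_four (t := t) (A := A) (M0 := k + m) (i := i) hcE hsE hbE hmax hab (by omega)
            (by
              obtain ⟨r, hr⟩ := hev
              omega) (by omega)
          refine h3.trans ?_
          linarith
      · rw [hodd.neg_one_pow]
        have h3 := VV_nonneg (t := t) (A := A) (M0 := k + m) hmax
        linarith
    rw [hε] at h2
    rw [hε2]
    have e1 : (5 / 144 : ℝ) / m = (5 / 144) * (1 / m) := by ring
    have e2 : (9 / 10 : ℝ) / m = (9 / 10) * (1 / m) := by ring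
    rw [e1] at h2
    rw [e2]
    linarith

end Pool.JM
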