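import Pool.Agent.Work.MP_46fa68_h4.Cm
import Pool.Agent.Work.MP_46fa68_T.Op

/-!
# MP_46fa68_co: the kernel

`kth m A M0` (`t = m - 3`) is the kernel of the certificate, truncated at the displacement `A`.
`Cr m A M0 B x` is the contribution of the bead `x`.
-/

set_option autoImplicit false

open Finset Equiv

namespace Pool.JM

/-- the coefficients of the layer 2 -/
noncomputable def g1m (m : ℕ) : ℝ := -(1 - cm m) * (3 * m + 1)
noncomputable def g2m (m : ℕ) : ℝ := (1 - cm m) * (2 * m * (m + 1))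

/-- the weights -/
noncomputable def vm (m : ℕ) : ℕ → ℝ := vv (m - 3) (g1m m) (g2m m)

/-- the full kernel -/
noncomputable def kh (m M0 : ℕ) : ℕ → ℕ → ℝ := kf M0 (vm m) (bi (m - 3))

/-- **the kernel**, truncated at the displacement `A` -/
noncomputable def kth (m A M0 : ℕ) : ℕ → ℕ → ℝ := cut A (kh m M0)

/-- **the contribution of the bead `x`** -/
noncomputable def Cr (m A M0 : ℕ) (B : Finset ℕ) (x : ℕ) : ℝ :=
  ∑ p ∈ range (A + 1), kh m M0 x p * Rr B x p

variable {K : ℕ}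

theorem E1_kth {m A M0 P : ℕ} (hP : A < P) {B : Finset ℕ} (hc : B.card = K) :
    E1 K P (kth m A M0) B = ∑ x ∈ B, Cr m A M0 B x := by
  rw [E1_eq _ hc]
  refine sum_congr rfl fun x _ => ?_
  unfold Cr kth cut
  have h1 : range (A + 1) ⊆ range P := range_subset_range.2 hP
  rw [← sum_subset h1]
  · refine sum_congr rfl fun p hp => ?_
    rw [mem_range] at hp
    rw [if_pos (by omega)]
  · intro p _ hp
    rw [mem_range, not_lt] at hp
    rw [if_neg (by omega), zero_mul]

theorem kp_ge {M0 x p : ℕ} (h : M0 ≤ x) : kp M0 p x = if p = 0 then 1 else 0 := by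
  unfold kp
  simp only [if_pos h, if_neg (not_lt.2 h)]

theorem kx_ge {M0 x p : ℕ} {v c : ℕ → ℝ} (h : M0 ≤ x) : kx M0 v c x p = 0 := by
  unfold kx
  rw [if_neg (by omega)]

/-- beyond the wall -/
theorem kh_ge {m M0 x p : ℕ} (h : M0 ≤ x) : kh m M0 x p = if p = 0 then 1 else 0 := by
  unfold kh kf kc
  rw [kx_ge h, kp_ge h, add_zero]
  by_cases hp : p = 0
  · subst hp
    simp [bi]
  · rw [if_neg hp, mul_zero]

theorem kth_ge {m A M0 x p : ℕ} (h : M0 ≤ x) : kth m A M0 x p = K0 M0 x p := by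
  unfold kth cut K0
  rw [kh_ge h]
  by_cases hp : p = 0
  · subst hp
    simp [h]
  · simp [hp]

theorem Cr_ge {m A M0 x : ℕ} {B : Finset ℕ} (h : M0 ≤ x) : Cr m A M0 B x = 1 := by
  unfold Cr
  rw [sum_eq_single 0]
  · rw [kh_ge h, if_pos rfl, one_mul]
    unfold Rr
    have h1 : (x.factorial : ℝ) ≠ 0 := by exact_mod_cast Nat.factorial_ne_zero x
    rw [Nat.cast_zero, add_zero, add_zero, div_self h1, mul_one]
    refine prod_eq_one fun y hy => ?_
    refine div_self ?_
    rw [mem_erase] at hy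
    intro h2
    apply hy.1
    have : (x : ℝ) = y := by linarith
    exact_mod_cast this.symm
  · intro p _ hp
    rw [kh_ge h, if_neg hp, zero_mul]
  · intro h0
    exact absurd (mem_range.2 (Nat.succ_pos A)) h0

/-- the support of the kernel -/
theorem kh_lt {m M0 x p : ℕ} (h : x + 1 + p < M0) : kh m M0 x p = 0 := by
  unfold kh kf kc
  rw [kx_zero (by omega), add_zero]
  have : kp M0 p x = 0 := by
    by_contra hne
    have := kp_ne (by omega) hne
    omega
  rw [this, mul_zero]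

theorem Sup_kth {m A M0 : ℕ} : Sup (kth m A M0) (M0 - 1 - A) (A + 1) :=
  Sup_cut (M0 := M0) fun _ _ hx hp => kh_lt (by omega)

/-! ## the condition -/

noncomputable def wf (L : ℕ) : ℝ := (L : ℝ) / ((L + 1).factorial : ℝ)

theorem sum_Gq (t : ℕ) (g1 g2 : ℝ) (w : ℕ → ℝ) :
    ∑ n ∈ range (t + 4), PowerSeries.coeff n (Gq g1 g2 * (1 - PowerSeries.X) ^ (t + 1)) * w n =
      ∑ k ∈ range (t + 2), (-1) ^ k * ((t + 1).choose k : ℝ) *
        (w k + g1 * w (k + 1) + g2 * w (k + 2)) := by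
  have h1 : ∀ n, PowerSeries.coeff n (Gq g1 g2 * (1 - PowerSeries.X) ^ (t + 1)) * w n =
      (-1) ^ n * ((t + 1).choose n : ℝ) * w n +
      g1 * ((if 1 ≤ n then (-1) ^ (n - 1) * ((t + 1).choose (n - 1) : ℝ) else 0) * w n) +
      g2 * ((if 2 ≤ n then (-1) ^ (n - 2) * ((t + 1).choose (n - 2) : ℝ) else 0) * w n) := by
    intro n
    rw [coeff_Gq_mul, coeff_one_sub, coeff_one_sub, coeff_one_sub]
    ring
  simp only [h1]
  rw [sum_add_distrib, sum_add_distrib, ← mul_sum, ← mul_sum]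
  have z : ∀ n, t + 2 ≤ n → ((t + 1).choose n : ℝ) = 0 := fun n hn => by
    rw [Nat.choose_eq_zero_of_lt (by omega)]; simp
  have a1 : ∑ n ∈ range (t + 4), (-1 : ℝ) ^ n * ((t + 1).choose n : ℝ) * w n =
      ∑ k ∈ range (t + 2), (-1) ^ k * ((t + 1).choose k : ℝ) * w k := by
    rw [sum_range_succ, sum_range_succ, z (t + 3) (by omega), z (t + 2) le_rfl]
    ring
  have a2 : ∑ n ∈ range (t + 4),
      (if 1 ≤ n then (-1 : ℝ) ^ (n - 1) * ((t + 1).choose (n - 1) : ℝ) else 0) * w n =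
      ∑ k ∈ range (t + 2), (-1) ^ k * ((t + 1).choose k : ℝ) * w (k + 1) := by
    rw [sum_range_succ', sum_range_succ, Nat.add_sub_cancel, z (t + 2) le_rfl]
    simp
  have a3 : ∑ n ∈ range (t + 4),
      (if 2 ≤ n then (-1 : ℝ) ^ (n - 2) * ((t + 1).choose (n - 2) : ℝ) else 0) * w n =
      ∑ k ∈ range (t + 2), (-1) ^ k * ((t + 1).choose k : ℝ) * w (k + 2) := by
    rw [sum_range_succ', sum_range_succ', if_neg (by omega), if_neg (by omega), zero_mul, add_zero,
      zero_mul, add_zero]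
    refine sum_congr rfl fun k _ => ?_
    rw [if_pos (by omega), show k + 1 + 1 - 2 = k by omega]
  rw [a1, a2, a3, mul_sum, mul_sum, ← sum_add_distrib, ← sum_add_distrib]
  refine sum_congr rfl fun k _ => ?_
  ring

theorem sum_vv {t : ℕ} (ht : 0 < t) (g1 g2 : ℝ) (w : ℕ → ℝ) :
    (t : ℝ) * ∑ p ∈ range (t + 3), vv t g1 g2 p * w (p + 1) =
      ((t : ℝ) + 1) * w 1 - w 0 + ∑ k ∈ range (t + 2), (-1) ^ k * ((t + 1).choose k : ℝ) *
        (w k + g1 * w (k + 1) + g2 * w (k + 2)) := by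
  have ht' : (t : ℝ) ≠ 0 := by exact_mod_cast ht.ne'
  rw [← sum_Gq]
  have h1 : ∀ p, (t : ℝ) * (vv t g1 g2 p * w (p + 1)) =
      (if p = 0 then t * w 1 else 0) - PowerSeries.coeff (p + 1) (qs t g1 g2) * w (p + 1) := by
    intro p
    unfold vv
    by_cases hp : p = 0
    · subst hp
      rw [if_pos rfl, if_pos rfl]
      field_simp
    · rw [if_neg hp, if_neg hp]
      field_simp
      ring
  rw [mul_sum]
  simp only [h1]
  rw [sum_sub_distrib, sum_ite_eq' (range (t + 3)) 0, if_pos (mem_range.2 (by omega))]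
  have h2 : ∑ p ∈ range (t + 3), PowerSeries.coeff (p + 1) (qs t g1 g2) * w (p + 1) =
      ∑ n ∈ range (t + 4), PowerSeries.coeff n (qs t g1 g2) * w n := by
    rw [sum_range_succ' _ (t + 3), coeff_qs_zero, zero_mul, add_zero]
  have h3 : ∀ n, PowerSeries.coeff n (qs t g1 g2) * w n =
      (if n = 0 then w 0 else if n = 1 then -w 1 else 0) -
      PowerSeries.coeff n (Gq g1 g2 * (1 - PowerSeries.X) ^ (t + 1)) * w n := by
    intro n
    unfold qs
    rw [map_sub, map_sub, PowerSeries.coeff_one, PowerSeries.coeff_X]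
    rcases n with _ | _ | n
    · simp; ring
    · simp; ring
    · simp
  have h4 : ∑ n ∈ range (t + 4), (if n = 0 then w 0 else if n = 1 then -w 1 else 0) = w 0 - w 1 := by
    rw [sum_range_succ', sum_range_succ']
    simp
    ring
  rw [h2]
  simp only [h3]
  rw [sum_sub_distrib, h4]
  ring

/-- **the condition** at the shape `(m-1, 1)` -/
theorem cond {m : ℕ} (hm : 16 ≤ m) : ∑ p ∈ range m, vm m p * wf (m - 1 + p) = 0 := by
  obtain ⟨t, rfl⟩ : ∃ t, m = t + 3 := ⟨m - 3, by omega⟩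
  have ht : 0 < t := by omega
  have ht' : (t : ℝ) ≠ 0 := by exact_mod_cast ht.ne'
  have hfac : (((t + 3).factorial : ℕ) : ℝ) ≠ 0 := by exact_mod_cast Nat.factorial_ne_zero _
  refine (mul_eq_zero.1 (?_ : (t : ℝ) * _ = 0)).resolve_left ht'
  refine (mul_eq_zero.1 (?_ : (((t + 3).factorial : ℕ) : ℝ) * _ = 0)).resolve_left hfac
  have e0 : ∀ p, wf (t + 3 - 1 + p) = (fun n => wf (t + 1 + n)) (p + 1) := fun p => by
    show wf _ = wf _
    congr 1
    omega
  simp only [e0]
  unfold vm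
  have h0 := sum_vv ht (g1m (t + 3)) (g2m (t + 3)) (fun n => wf (t + 1 + n))
  rw [Nat.add_sub_cancel, h0]
  have hc : cm (t + 3) * sA (t + 3) = sB (t + 3) := by
    unfold cm
    exact div_mul_cancel₀ _ (sA_pos hm).ne'
  -- the terms
  have hterm : ∀ k, (((t + 3).factorial : ℕ) : ℝ) * ((-1) ^ k * ((t + 1).choose k : ℝ) *
      (wf (t + 1 + k) + g1m (t + 3) * wf (t + 1 + (k + 1)) + g2m (t + 3) * wf (t + 1 + (k + 2)))) =
      (-1) ^ k * (hq ((t + 3 : ℕ) : ℝ) k * tk (t + 3) k) +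
        cm (t + 3) * ((-1) ^ k * (bk ((t + 3 : ℕ) : ℝ) k * tk (t + 3) k)) := by
    intro k
    have f0 : (((t + 3 + 1 + k).factorial : ℕ) : ℝ) =
        ((t : ℝ) + k + 4) * (((t : ℝ) + k + 3) * ((t + 1 + k + 1).factorial : ℝ)) := by
      rw [show t + 3 + 1 + k = (t + 1 + k + 1) + 1 + 1 by omega, Nat.factorial_succ,
        Nat.factorial_succ (t + 1 + k + 1)]
      push_cast
      ring
    have f1 : (((t + 1 + (k + 1) + 1).factorial : ℕ) : ℝ) =
        ((t : ℝ) + k + 3) * ((t + 1 + k + 1).factorial : ℝ) := by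
      rw [show t + 1 + (k + 1) + 1 = (t + 1 + k + 1) + 1 by omega, Nat.factorial_succ]
      push_cast
      ring
    have f2 : (((t + 1 + (k + 2) + 1).factorial : ℕ) : ℝ) =
        ((t : ℝ) + k + 4) * (((t : ℝ) + k + 3) * ((t + 1 + k + 1).factorial : ℝ)) := by
      rw [← f0]
      congr 2
      omega
    have g0 : (0 : ℝ) < ((t + 1 + k + 1).factorial : ℝ) := by exact_mod_cast Nat.factorial_pos _
    unfold wf tk
    rw [f0, f1, f2, show t + 3 - 2 = t + 1 by omega]
    unfold g1m g2m hq bk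
    push_cast
    field_simp
    ring
  have hlast : ∑ k ∈ range (t + 2), (((t + 3).factorial : ℕ) : ℝ) *
      ((-1) ^ k * ((t + 1).choose k : ℝ) * (wf (t + 1 + k) + g1m (t + 3) * wf (t + 1 + (k + 1)) +
        g2m (t + 3) * wf (t + 1 + (k + 2)))) =
      ((t + 3 : ℕ) : ℝ) - 2 - sB (t + 3) + cm (t + 3) * sA (t + 3) := by
    simp only [hterm]
    rw [sum_add_distrib, ← mul_sum]
    unfold sB sA
    rw [show t + 3 - 1 = t + 2 by omega]
    ring
  rw [mul_add, mul_sum, hlast, hc]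
  have f3 : (((t + 3).factorial : ℕ) : ℝ) = ((t : ℝ) + 3) * ((t + 2).factorial : ℝ) := by
    rw [Nat.factorial_succ (t + 2)]
    push_cast
    ring
  have g3 : (0 : ℝ) < ((t + 2).factorial : ℝ) := by exact_mod_cast Nat.factorial_pos _
  unfold wf
  rw [show t + 1 + 1 + 1 = t + 3 by omega, show t + 1 + 0 + 1 = t + 2 by omega, f3]
  push_cast
  field_simp
  ring

end Pool.JM
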