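import Pool.Agent.Work.MP_46fa68_h4.Pos1

/-!
# MP_46fa68_co: the extra homogeneous kernel and the truncation by the displacement

`kx M0 v c = ∑ c_a ad^a X` where `X` moves the bead `M0 - 1` by `p` with the weight `v p`.
-/

set_option autoImplicit false

open Finset Equiv

namespace Pool.JM

variable {K : ℕ}

/-- the kernel `∑ c_a ad^a X`, `X` = the weights `v` at the bead `M0 - 1` -/
noncomputable def kx (M0 : ℕ) (v c : ℕ → ℝ) : ℕ → ℕ → ℝ := fun x P =>
  if x < M0 then ∑ a ∈ range (P + 1),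
    c a * ((-1) ^ (a + (M0 - 1 - x)) * (a.choose (M0 - 1 - x) : ℝ)) * v (P - a) else 0

theorem adk_kx (M0 : ℕ) (v c : ℕ → ℝ) : adk (kx M0 v c) = kx M0 v (shs c) := by
  funext x P
  cases P with
  | zero =>
    unfold adk kx
    simp [shs]
  | succ P =>
    have e1 : adk (kx M0 v c) x (P + 1) = kx M0 v c (x + 1) P - kx M0 v c x P := rfl
    rw [e1]
    unfold kx
    rcases lt_trichotomy (x + 1) M0 with h | h | h
    · rw [if_pos h, if_pos (by omega), if_pos (by omega), sum_range_succ' _ (P + 1),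
        ← sum_sub_distrib]
      simp only [shs, zero_mul, add_zero]
      refine sum_congr rfl fun a _ => ?_
      obtain ⟨b, hb⟩ : ∃ b, M0 - 1 - x = b + 1 := ⟨M0 - 1 - x - 1, by omega⟩
      rw [hb, show M0 - 1 - (x + 1) = b by omega, show P + 1 - (a + 1) = P - a by omega,
        Nat.choose_succ_succ]
      push_cast
      ring
    · rw [if_neg (by omega), if_pos (by omega), if_pos (by omega), sum_range_succ' _ (P + 1),
        show M0 - 1 - x = 0 by omega]
      simp only [shs, zero_mul, add_zero, Nat.choose_zero_right]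
      rw [zero_sub, ← sum_neg_distrib]
      refine sum_congr rfl fun a _ => ?_
      rw [show P + 1 - (a + 1) = P - a by omega]
      push_cast
      ring
    · rw [if_neg (by omega), if_neg (by omega), if_neg (by omega), sub_zero]

theorem pk_kx (M0 : ℕ) (v c : ℕ → ℝ) : pk (kx M0 v c) = kx M0 v (ps c) := by
  unfold pk
  rw [adk_kx]
  funext x P
  unfold kx
  split_ifs
  · rw [← sum_add_distrib]
    refine sum_congr rfl fun a _ => ?_
    unfold ps
    ring
  · ring

theorem pk_add (k k' : ℕ → ℕ → ℝ) :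
    pk (fun x p => k x p + k' x p) = fun x p => pk k x p + pk k' x p := by
  funext x p
  unfold pk
  cases p with
  | zero => simp [adk]
  | succ p => simp only [adk]; ring

/-- the full kernel with the coefficients `c` -/
noncomputable def kf (M0 : ℕ) (v c : ℕ → ℝ) : ℕ → ℕ → ℝ := fun x p => kc M0 c x p + kx M0 v c x p

theorem pk_kf (M0 : ℕ) (v c : ℕ → ℝ) : pk (kf M0 v c) = kf M0 v (ps c) := by
  unfold kf
  rw [pk_add, pk_kc, pk_kx]
  rfl

theorem pkn_kf (M0 : ℕ) (v c : ℕ → ℝ) : ∀ s, pk^[s] (kf M0 v c) = kf M0 v (ps^[s] c)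
  | 0 => rfl
  | s + 1 => by
    rw [Function.iterate_succ_apply', pkn_kf M0 v c s, pk_kf, Function.iterate_succ_apply']

/-- the coefficients of `(1 + X)^(-t)` -/
noncomputable def bi (t : ℕ) : ℕ → ℝ := fun p => (-1) ^ p * ((t + p - 1).choose p : ℝ)

theorem bi_zero : bi 0 = dlt 0 := by
  funext p
  unfold bi dlt
  cases p with
  | zero => simp
  | succ p =>
    rw [if_neg (Nat.succ_ne_zero p), Nat.zero_add, Nat.add_sub_cancel,
      Nat.choose_eq_zero_of_lt (Nat.lt_succ_self p)]
    simp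

theorem ps_bi (t : ℕ) : ps (bi (t + 1)) = bi t := by
  funext p
  cases p with
  | zero => rw [ps_zero]; simp [bi]
  | succ p =>
    rw [ps_succ]
    unfold bi
    rw [show t + 1 + (p + 1) - 1 = (t + p) + 1 by omega, show t + 1 + p - 1 = t + p by omega,
      show t + (p + 1) - 1 = t + p by omega, Nat.choose_succ_succ]
    push_cast
    ring

theorem psn_bi (t : ℕ) : ∀ s, ps^[s] (bi (t + s)) = bi t
  | 0 => rfl
  | s + 1 => by
    rw [Function.iterate_succ_apply, show t + (s + 1) = (t + s) + 1 by omega, ps_bi, psn_bi t s]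

theorem psn_bi' (t : ℕ) : ps^[t] (bi t) = dlt 0 := by
  have := psn_bi 0 t
  rw [Nat.zero_add, bi_zero] at this
  exact this

/-! ## truncation by the displacement -/

/-- the kernel truncated at the displacement `A` -/
noncomputable def cut (A : ℕ) (k : ℕ → ℕ → ℝ) : ℕ → ℕ → ℝ := fun x p => if p ≤ A then k x p else 0

theorem pk_cut (A : ℕ) (k : ℕ → ℕ → ℝ) : ∀ (s x p : ℕ), p ≤ A →
    pk^[s] (cut A k) x p = pk^[s] k x p
  | 0, x, p, h => if_pos h
  | s + 1, x, p, h => by
    rw [Function.iterate_succ_apply', Function.iterate_succ_apply']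
    cases p with
    | zero =>
      unfold pk adk
      simp only [add_zero]
      exact pk_cut A k s x 0 h
    | succ p =>
      have e1 : pk (pk^[s] (cut A k)) x (p + 1) = pk^[s] (cut A k) x (p + 1) +
        (pk^[s] (cut A k) (x + 1) p - pk^[s] (cut A k) x p) := rfl
      have e2 : pk (pk^[s] k) x (p + 1) = pk^[s] k x (p + 1) +
        (pk^[s] k (x + 1) p - pk^[s] k x p) := rfl
      rw [e1, e2, pk_cut A k s x (p + 1) h, pk_cut A k s (x + 1) p (by omega),
        pk_cut A k s x p (by omega)]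

theorem pk_cut_zero (A : ℕ) (k : ℕ → ℕ → ℝ) : ∀ (s x p : ℕ), A + s < p →
    pk^[s] (cut A k) x p = 0
  | 0, x, p, h => if_neg (by omega)
  | s + 1, x, p, h => by
    rw [Function.iterate_succ_apply']
    obtain ⟨q, rfl⟩ : ∃ q, p = q + 1 := ⟨p - 1, by omega⟩
    have e1 : pk (pk^[s] (cut A k)) x (q + 1) = pk^[s] (cut A k) x (q + 1) +
        (pk^[s] (cut A k) (x + 1) q - pk^[s] (cut A k) x q) := rfl
    rw [e1, pk_cut_zero A k s x (q + 1) (by omega), pk_cut_zero A k s (x + 1) q (by omega),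
      pk_cut_zero A k s x q (by omega)]
    ring

theorem pk_abs_le {k : ℕ → ℕ → ℝ} {b : ℝ} (h : ∀ x p, |k x p| ≤ b) : ∀ (s x p : ℕ),
    |pk^[s] k x p| ≤ 3 ^ s * b
  | 0, x, p => by simpa using h x p
  | s + 1, x, p => by
    have hb : 0 ≤ b := (abs_nonneg _).trans (h 0 0)
    rw [Function.iterate_succ_apply', pow_succ]
    cases p with
    | zero =>
      have e1 : pk (pk^[s] k) x 0 = pk^[s] k x 0 + 0 := rfl
      rw [e1, add_zero]
      have := pk_abs_le h s x 0
      have h2 : 0 ≤ 3 ^ s * b := by positivity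
      linarith
    | succ p =>
      have e1 : pk (pk^[s] k) x (p + 1) = pk^[s] k x (p + 1) +
        (pk^[s] k (x + 1) p - pk^[s] k x p) := rfl
      rw [e1]
      have h1 := pk_abs_le h s x (p + 1)
      have h2 := pk_abs_le h s (x + 1) p
      have h3 := pk_abs_le h s x p
      rw [abs_le] at h1 h2 h3 ⊢
      constructor <;> linarith [h1.1, h1.2, h2.1, h2.2, h3.1, h3.2]

theorem Sup_cut {M0 A x1 : ℕ} {k : ℕ → ℕ → ℝ} (h : ∀ x p, x < x1 → p ≤ A → k x p = 0) :
    Sup (cut A k) x1 (A + 1) := by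
  intro x p hxp
  unfold cut
  split_ifs with hp
  · rcases hxp with h1 | h1
    · exact h x p h1 hp
    · omega
  · rfl

theorem kx_zero {M0 : ℕ} {v c : ℕ → ℝ} {x P : ℕ} (h : P < M0 - 1 - x) : kx M0 v c x P = 0 := by
  unfold kx
  split_ifs
  · refine sum_eq_zero fun a ha => ?_
    rw [mem_range] at ha
    rw [Nat.choose_eq_zero_of_lt (by omega : a < M0 - 1 - x)]
    simp
  · rfl

theorem kx_dlt (M0 : ℕ) (v : ℕ → ℝ) (x P : ℕ) (hM : 0 < M0) :
    kx M0 v (dlt 0) x P = if x = M0 - 1 then v P else 0 := by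
  unfold kx
  by_cases hx : x < M0
  · rw [if_pos hx, sum_eq_single 0]
    · unfold dlt
      rw [if_pos rfl, Nat.sub_zero]
      by_cases h : x = M0 - 1
      · rw [if_pos h, h, Nat.sub_self]
        simp
      · rw [if_neg h, Nat.choose_eq_zero_of_lt (by omega : 0 < M0 - 1 - x)]
        simp
    · intro a _ ha
      unfold dlt
      rw [if_neg ha]
      ring
    · intro h
      exact absurd (mem_range.2 (Nat.succ_pos P)) h
  · rw [if_neg hx, if_neg (by omega)]

/-! ## the condition at the shape `(m-1, 1)` -/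

/-- the value of `Rr` for the top bead of the shape `(a, 1)` -/
theorem Rr_one {k a : ℕ} {B : Finset ℕ} (ha : 1 ≤ a) (hc : (B.erase (k + a)).card = k)
    (hs : ∑ y ∈ B.erase (k + a), y = ∑ y ∈ range k, y + 1) (p : ℕ) :
    Rr B (k + a) p = (((a : ℝ) + p) / a) * (((a + 1).factorial : ℝ) / (a + 1 + p).factorial) := by
  obtain ⟨y1, hy1, hk⟩ : ∃ y ∈ B.erase (k + a), k ≤ y := by
    by_contra hcon
    push Not at hcon
    have h1 : B.erase (k + a) ⊆ range k := fun y hy => mem_range.2 (hcon y hy)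
    have h2 := eq_of_subset_of_card_le h1 (by rw [card_range, hc])
    rw [h2] at hs
    omega
  have hk1 : 1 ≤ k := by
    rw [← hc]; exact card_pos.2 ⟨y1, hy1⟩
  obtain ⟨k', rfl⟩ : ∃ k', k = k' + 1 := ⟨k - 1, by omega⟩
  set C := (B.erase (k' + 1 + a)).erase y1 with hC
  have hcC : C.card = k' := by rw [hC, card_erase_of_mem hy1, hc]; omega
  have e1 := add_sum_erase (B.erase (k' + 1 + a)) (fun z => z) hy1
  rw [← hC] at e1
  have hmin := sum_range_le hcC
  rw [sum_range_succ] at hs
  have hy : y1 = k' + 1 := by omega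
  have hCr : C = range k' := eq_range_of_sum hcC (by omega)
  have hB : B.erase (k' + 1 + a) = insert (k' + 1) (range k') := by
    rw [← hCr, hC, hy, insert_erase (hy ▸ hy1)]
  have hpr := prod_rest k' (a + 1) p
  have f1 : (0 : ℝ) < (k' + (a + 1)).factorial := by exact_mod_cast Nat.factorial_pos _
  have f2 : (0 : ℝ) < (k' + (a + 1) + p).factorial := by exact_mod_cast Nat.factorial_pos _
  have f3 : (0 : ℝ) < (a + 1 + p).factorial := by exact_mod_cast Nat.factorial_pos _
  have ha0 : (0 : ℝ) < a := by exact_mod_cast ha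
  unfold Rr
  rw [hB, prod_insert (by simp), show k' + 1 + a = k' + (a + 1) by omega, hpr]
  have e5 : ((k' + (a + 1) : ℕ) : ℝ) + p - ((k' + 1 : ℕ) : ℝ) = a + p := by push_cast; ring
  have e6 : ((k' + (a + 1) : ℕ) : ℝ) - ((k' + 1 : ℕ) : ℝ) = a := by push_cast; ring
  rw [e5, e6]
  field_simp

end Pool.JM
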