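import Pool.Agent.Work.MP_46fa68_h4.Lay2

/-!
# MP_46fa68_co: the kernel in the layer `j = i + 2`, normalized

`kh m M0 (M0 - (i+2)) (i+q) = (-1)^i Zz (nq q - gq q)`, with `nq 0 = gq 0`, `nq 1 - gq 1 = -g1`.
-/

set_option autoImplicit false

open Finset Equiv

namespace Pool.JM

/-- `C(t+i, i+1) / t` -/
noncomputable def Zz (t i : ℕ) : ℝ := ((t + i).choose (i + 1) : ℝ) / t

/-- `∏_{l=1}^{q-1} (t + i + l)` -/
noncomputable def pq (t i q : ℕ) : ℝ := ∏ l ∈ range (q - 1), ((t : ℝ) + i + 1 + l)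

/-- the first part of the kernel -/
noncomputable def nq (t i q : ℕ) : ℝ :=
  if q = 0 then 1 else pq t i q / q.factorial * (((t : ℝ) + i) - t * (i + 1) * q / (i + q))

/-- the second part of the kernel -/
noncomputable def gq (g1 g2 : ℝ) (i q : ℕ) : ℝ :=
  ((i + q - 1).choose q : ℝ) + g1 * (if 1 ≤ q then ((i + (q - 1) - 1).choose (q - 1) : ℝ) else 0) +
    g2 * (if 2 ≤ q then ((i + (q - 2) - 1).choose (q - 2) : ℝ) else 0)

theorem pq_one (t i : ℕ) : pq t i 1 = 1 := by unfold pq; simp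

theorem pq_succ (t i : ℕ) {q : ℕ} (hq : 1 ≤ q) : pq t i (q + 1) = pq t i q * ((t : ℝ) + i + q) := by
  unfold pq
  obtain ⟨r, rfl⟩ : ∃ r, q = r + 1 := ⟨q - 1, by omega⟩
  rw [show r + 1 + 1 - 1 = r + 1 by omega, show r + 1 - 1 = r by omega, prod_range_succ]
  push_cast
  ring

theorem pq_pos (t i q : ℕ) : 0 < pq t i q := by
  unfold pq
  exact prod_pos fun l _ => by positivity

theorem bin_q {t i : ℕ} (ht : 0 < t) : ∀ q : ℕ, 1 ≤ q →
    ((t + (i + q) - 1).choose (i + q) : ℝ) * ((i + q).choose i : ℝ) =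
      ((t + i).choose (i + 1) : ℝ) * (i + 1) * (pq t i q / q.factorial)
  | 0, h => absurd h (by omega)
  | 1, _ => by
    rw [pq_one, show t + (i + 1) - 1 = t + i by omega, Nat.choose_succ_self_right]
    simp
  | q + 2, _ => by
    have ih := bin_q (i := i) ht (q + 1) (by omega)
    rw [show q + 2 = (q + 1) + 1 by omega, pq_succ t i (by omega : 1 ≤ q + 1)]
    obtain ⟨n, hn⟩ : ∃ n, t + (i + (q + 1)) - 1 = n := ⟨_, rfl⟩
    have hn' : t + (i + (q + 1 + 1)) - 1 = n + 1 := by omega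
    rw [hn] at ih
    rw [hn']
    -- `C(n+1, P+1) (P+1) = (n+1) C(n, P)`
    have a1 := Nat.add_one_mul_choose_eq n (i + (q + 1))
    have b1 : ((n : ℝ) + 1) * (n.choose (i + (q + 1)) : ℝ) =
        ((n + 1).choose (i + (q + 1 + 1)) : ℝ) * ((i : ℝ) + q + 2) := by
      have : ((n + 1) * n.choose (i + (q + 1)) : ℕ) = (n + 1).choose (i + (q + 1 + 1)) * (i + (q + 1) + 1) := a1
      have h2 := congrArg (fun z : ℕ => (z : ℝ)) this
      push_cast at h2
      linarith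
    have a3 := Nat.choose_mul_succ_eq (i + (q + 1)) i
    have b2 : ((i + (q + 1)).choose i : ℝ) * ((i : ℝ) + q + 2) =
        ((i + (q + 1 + 1)).choose i : ℝ) * ((q : ℝ) + 2) := by
      have h2 := congrArg (fun z : ℕ => (z : ℝ)) a3
      have h3 : i + (q + 1) + 1 - i = q + 2 := by omega
      rw [h3] at h2
      push_cast at h2
      have h4 : i + (q + 1) + 1 = i + (q + 1 + 1) := by omega
      rw [h4] at h2
      linarith
    have hnR : (n : ℝ) + 1 = (t : ℝ) + i + ((q + 1 : ℕ) : ℝ) := by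
      have : n + 1 = t + i + (q + 1) := by omega
      exact_mod_cast this
    have hf : (((q + 1 + 1).factorial : ℕ) : ℝ) = ((q : ℝ) + 2) * (q + 1).factorial := by
      rw [Nat.factorial_succ (q + 1)]; push_cast; ring
    have f0 : (0 : ℝ) < (q + 1).factorial := by exact_mod_cast Nat.factorial_pos _
    have g1 : (0 : ℝ) < (i : ℝ) + q + 2 := by positivity
    have g2 : (0 : ℝ) < (q : ℝ) + 2 := by positivity
    rw [hf, ← hnR]
    have k1 : ((n + 1).choose (i + (q + 1 + 1)) : ℝ) * ((i + (q + 1 + 1)).choose i : ℝ) =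
        (n.choose (i + (q + 1)) : ℝ) * ((i + (q + 1)).choose i : ℝ) * (((n : ℝ) + 1) / (q + 2)) := by
      rw [mul_div_assoc', eq_div_iff g2.ne']
      have h5 : ((n + 1).choose (i + (q + 1 + 1)) : ℝ) * ((i + (q + 1 + 1)).choose i : ℝ) * ((q : ℝ) + 2) =
        ((n + 1).choose (i + (q + 1 + 1)) : ℝ) * (((i + (q + 1)).choose i : ℝ) * ((i : ℝ) + q + 2)) := by
        rw [b2]; ring
      rw [h5]
      have h6 : ((n + 1).choose (i + (q + 1 + 1)) : ℝ) * (((i + (q + 1)).choose i : ℝ) * ((i : ℝ) + q + 2)) =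
        (((n + 1).choose (i + (q + 1 + 1)) : ℝ) * ((i : ℝ) + q + 2)) * ((i + (q + 1)).choose i : ℝ) := by
        ring
      rw [h6, ← b1]
      ring
    rw [k1, ih]
    field_simp

/-- **the normalized kernel** -/
theorem kf_norm {t i : ℕ} (ht : 0 < t) (g1 g2 : ℝ) {M0 : ℕ} (hM : i + 2 ≤ M0) (q : ℕ) :
    kf M0 (vv t g1 g2) (bi t) (M0 - (i + 2)) (i + q) =
      (-1) ^ i * (Zz t i * (nq t i q - gq g1 g2 i q)) := by
  have ht' : (t : ℝ) ≠ 0 := by exact_mod_cast ht.ne'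
  rw [kf_layer ht g1 g2 (by omega) hM]
  have e1 : i + 2 - 2 = i := by omega
  have e2 : i + 2 - 1 = i + 1 := by omega
  have e3 : t + (i + 2) - 2 = t + i := by omega
  have e4 : ((i + 2 : ℕ) : ℝ) - 1 = (i : ℝ) + 1 := by push_cast; ring
  have e5 : (t : ℝ) + ((i + 2 : ℕ) : ℝ) - 2 = t + i := by push_cast; ring
  rw [e1, e2, e3, e4, e5]
  have hs : ((-1 : ℝ)) ^ (i + 2) = (-1) ^ i := by rw [pow_add]; norm_num
  rw [hs]
  congr 1
  have hG : PowerSeries.coeff (i + q) (PowerSeries.X ^ i * Ig ^ i * Gq g1 g2) = gq g1 g2 i q := by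
    rw [mul_assoc, PowerSeries.coeff_X_pow_mul', if_pos (by omega), Nat.add_sub_cancel_left,
      mul_comm (Ig ^ i), coeff_Gq_mul, coeff_Ig, coeff_Ig, coeff_Ig]
    unfold gq
    rfl
  rw [hG]
  have hZ : ((t + i).choose (i + 1) : ℝ) = Zz t i * t := by
    unfold Zz
    field_simp
  rcases Nat.eq_zero_or_pos q with hq | hq
  · subst hq
    have h1 : (if i + 0 = 0 then (0 : ℝ) else ((t + (i + 0) - 1).choose (i + 0) : ℝ) *
        ((i + 0 - 1).choose i : ℝ)) = 0 := by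
      split_ifs with h
      · rfl
      · rw [Nat.choose_eq_zero_of_lt (by omega : i + 0 - 1 < i)]
        simp
    rw [h1]
    unfold nq
    rw [if_pos rfl, add_zero, Nat.choose_self]
    have h2 : (((t + i - 1).choose i : ℕ) : ℝ) * ((t : ℝ) + i) = ((t + i).choose (i + 1) : ℝ) * (i + 1) := by
      obtain ⟨n, hn⟩ : ∃ n, t + i = n + 1 := ⟨t + i - 1, by omega⟩
      rw [hn, Nat.add_sub_cancel]
      have a1 := Nat.add_one_mul_choose_eq n i
      have a2 := congrArg (fun z : ℕ => (z : ℝ)) a1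
      push_cast at a2
      have : (t : ℝ) + i = (n : ℝ) + 1 := by exact_mod_cast hn
      rw [this]
      linarith
    have hi : (i : ℝ) + 1 ≠ 0 := by positivity
    have h3 : ((t : ℝ) + i) / (t * (i + 1)) * ((((t + i - 1).choose i : ℕ) : ℝ) * ((1 : ℕ) : ℝ)) = Zz t i := by
      have : ((t : ℝ) + i) / (t * (i + 1)) * ((((t + i - 1).choose i : ℕ) : ℝ) * ((1 : ℕ) : ℝ)) =
        ((((t + i - 1).choose i : ℕ) : ℝ) * ((t : ℝ) + i)) / (t * (i + 1)) := by push_cast; ring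
      rw [this, h2]
      unfold Zz
      field_simp
    rw [h3]
    unfold Zz
    ring
  · have hP : ¬ (i + q = 0) := by omega
    rw [if_neg hP]
    have b1 := bin_q (i := i) ht q hq
    have hqR : (0 : ℝ) < (i : ℝ) + q := by
      have : (0 : ℝ) < q := by exact_mod_cast hq
      positivity
    have b2 : ((i + q - 1).choose i : ℝ) = ((i + q).choose i : ℝ) * (q / (i + q)) := by
      have a3 := Nat.choose_mul_succ_eq (i + q - 1) i
      rw [show i + q - 1 + 1 = i + q by omega, Nat.add_sub_cancel_left] at a3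
      have a4 := congrArg (fun z : ℕ => (z : ℝ)) a3
      push_cast at a4
      rw [mul_div_assoc', eq_div_iff hqR.ne', a4]
    rw [b2]
    have h1 : ((t + (i + q) - 1).choose (i + q) : ℝ) * (((i + q).choose i : ℝ) * (q / (i + q))) =
        (((t + (i + q) - 1).choose (i + q) : ℝ) * ((i + q).choose i : ℝ)) * (q / (i + q)) := by ring
    rw [h1, b1, hZ]
    unfold nq
    rw [if_neg (by omega)]
    have hi : (i : ℝ) + 1 ≠ 0 := by positivity
    have hf : (q.factorial : ℝ) ≠ 0 := by exact_mod_cast Nat.factorial_ne_zero q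
    have hqR' := hqR.ne'
    field_simp

theorem kf_norm_lt {t i : ℕ} (ht : 0 < t) (g1 g2 : ℝ) {M0 : ℕ} (hM : i + 2 ≤ M0) {P : ℕ} (hP : P < i) :
    kf M0 (vv t g1 g2) (bi t) (M0 - (i + 2)) P = 0 := by
  have h1 : P - 1 < i := by omega
  have h2 : ¬ i ≤ P := by omega
  rw [kf_layer ht g1 g2 (by omega) hM, show i + 2 - 2 = i by omega,
    Nat.choose_eq_zero_of_lt hP, Nat.choose_eq_zero_of_lt h1, mul_assoc (PowerSeries.X ^ i),
    PowerSeries.coeff_X_pow_mul', if_neg h2]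
  simp

theorem nq_zero (t i : ℕ) : nq t i 0 = 1 := by unfold nq; rw [if_pos rfl]

theorem gq_zero (g1 g2 : ℝ) (i : ℕ) : gq g1 g2 i 0 = 1 := by
  unfold gq
  simp

theorem nq_one (t i : ℕ) : nq t i 1 = i := by
  unfold nq
  rw [if_neg (by omega), pq_one]
  have : (i : ℝ) + 1 ≠ 0 := by positivity
  push_cast
  field_simp
  ring

theorem gq_one (g1 g2 : ℝ) (i : ℕ) : gq g1 g2 i 1 = i + g1 := by
  unfold gq
  rw [if_pos le_rfl, if_neg (by omega)]
  simp

/-- **the contribution in the layer `i + 2`** -/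
theorem Cr_norm {m A M0 i : ℕ} (hm : 16 ≤ m) (hA : i + 2 ≤ A) (hM : i + 2 ≤ M0)
    (B : Finset ℕ) :
    Cr m A M0 B (M0 - (i + 2)) = (-1) ^ i * (Zz (m - 3) i *
      (-g1m m * Rr B (M0 - (i + 2)) (i + 1) -
        ∑ q ∈ range (A - 1 - i), (gq (g1m m) (g2m m) i (q + 2) - nq (m - 3) i (q + 2)) *
          Rr B (M0 - (i + 2)) (i + 2 + q))) := by
  have ht : 0 < m - 3 := by omega
  unfold Cr kh vm
  obtain ⟨s, rfl⟩ : ∃ s, A = s + (i + 1) := ⟨A - (i + 1), by omega⟩
  rw [show s + (i + 1) + 1 = i + (s + 2) by omega, sum_range_add]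
  have h0 : ∑ x ∈ range i, kf M0 (vv (m - 3) (g1m m) (g2m m)) (bi (m - 3)) (M0 - (i + 2)) x *
      Rr B (M0 - (i + 2)) x = 0 := by
    refine sum_eq_zero fun x hx => ?_
    rw [kf_norm_lt ht _ _ hM (mem_range.1 hx), zero_mul]
  rw [h0, zero_add, sum_range_succ', sum_range_succ']
  simp only [kf_norm ht _ _ hM]
  rw [show s + (i + 1) - 1 - i = s by omega]
  have h1 : ∑ k ∈ range s, (-1 : ℝ) ^ i * (Zz (m - 3) i * (nq (m - 3) i (k + 1 + 1) -
      gq (g1m m) (g2m m) i (k + 1 + 1))) * Rr B (M0 - (i + 2)) (i + (k + 1 + 1)) =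
      -((-1) ^ i * (Zz (m - 3) i * ∑ q ∈ range s, (gq (g1m m) (g2m m) i (q + 2) -
        nq (m - 3) i (q + 2)) * Rr B (M0 - (i + 2)) (i + 2 + q))) := by
    rw [mul_sum, mul_sum, ← sum_neg_distrib]
    refine sum_congr rfl fun k _ => ?_
    rw [show i + (k + 1 + 1) = i + 2 + k by omega, show k + 1 + 1 = k + 2 by omega]
    ring
  rw [h1, zero_add, nq_zero, gq_zero, nq_one, gq_one]
  ring

end Pool.JM
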