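import Pool.Agent.Work.MP_46fa68_h4.Lay

/-!
# MP_46fa68_co: the first row, the sequence and layer 1
-/

set_option autoImplicit false

open Finset Equiv

namespace Pool.JM

/-- the properties of the sequence `Rr B x p` for the largest bead `x = k + a`, `N` the level -/
structure RS (a N : ℝ) (R : ℕ → ℝ) : Prop where
  zero : R 0 = 1
  pos : ∀ p, 0 < R p
  le : ∀ p : ℕ, R (p + 1) * (((p : ℝ) + 1) * (a ^ 2 + N + p * a)) ≤ R p * (N + p * a)
  ge : ∀ p : ℕ, R p ≤ R (p + 1) * (a + p + 1)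
  cv : ∀ p : ℕ, 2 * (a + p + 2) * R (p + 1) ≤ (a + p + 2) * (a + p + 3) * R (p + 2) + R p

theorem top_spec' {k n a : ℕ} {B : Finset ℕ} (hB : B ∈ Lv (k + 1) n) (hx : k + a ∈ B)
    (hmax : ∀ y ∈ B, y ≤ k + a) : a ≤ n ∧ (B.erase (k + a)).card = k ∧
      ∑ y ∈ B.erase (k + a), y = ∑ y ∈ range k, y + (n - a) ∧ ∀ y ∈ B.erase (k + a), y < k + a := by
  obtain ⟨a', b, h1, h2, h3, h4, h5⟩ := top_spec hB hx hmax
  obtain rfl : a' = a := by omega
  refine ⟨by omega, h3, ?_, h5⟩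
  rw [h4]
  omega

theorem RS_top {k n a : ℕ} (ha : 1 ≤ a) {B : Finset ℕ} (hB : B ∈ Lv (k + 1) n) (hx : k + a ∈ B)
    (hmax : ∀ y ∈ B, y ≤ k + a) : RS (a : ℝ) (n : ℝ) (Rr B (k + a)) := by
  obtain ⟨han, hc, hs, hb⟩ := top_spec' hB hx hmax
  have e : (a : ℝ) + ((n - a : ℕ) : ℝ) = n := by
    rw [Nat.cast_sub han]; ring
  refine ⟨Rr_zero, fun p => Rr_pos hmax p, fun p => ?_, fun p => ?_, fun p => ?_⟩
  · have := Rr_ratio_le ha hc hs hb hmax p
    rw [e] at this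
    exact this
  · exact Rr_ratio_ge hc hs hb hmax p
  · exact Rr_convex hc hb p

theorem choose_three (n : ℕ) : (n.choose 3 : ℝ) = n * (n - 1) * (n - 2) / 6 := by
  induction n with
  | zero => simp
  | succ n ih =>
    rw [Nat.choose_succ_succ' n 2]
    push_cast
    rw [ih, Nat.cast_choose_two]
    ring

theorem coeff_one_sub_X (n : ℕ) : PowerSeries.coeff n (1 - PowerSeries.X : PowerSeries ℝ) =
    if n = 0 then 1 else if n = 1 then -1 else 0 := by
  rw [map_sub, PowerSeries.coeff_one, PowerSeries.coeff_X]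
  rcases n with _ | _ | n
  · simp
  · simp
  · simp

/-- the kernel in the layer 1 -/
theorem kh_one {m M0 : ℕ} (hm : 16 ≤ m) (hM : 1 ≤ M0) (P : ℕ) :
    kh m M0 (M0 - 1) P = (if P = 0 then 1 else 0) - (1 / ((m - 3 : ℕ) : ℝ)) *
      (((m - 4 + P).choose (P + 1) : ℝ) - (if P = 0 then g1m m - 1 else if P = 1 then g2m m - g1m m
        else if P = 2 then -g2m m else 0)) := by
  unfold kh vm
  rw [kf_one (by omega) _ _ hM, map_sub, coeff_Ig, coeff_Gq_mul, coeff_one_sub_X, coeff_one_sub_X,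
    coeff_one_sub_X]
  rw [show m - 3 - 1 + (P + 1) - 1 = m - 4 + P by omega]
  congr 3
  rcases P with _ | _ | _ | P
  · simp; ring
  · simp; ring
  · simp
  · simp

/-- **Row 1, layer 1.** -/
theorem layer_one {m A k : ℕ} (hm : 16 ≤ m) (hA : 2 ≤ A) {B : Finset ℕ}
    (hB : B ∈ Lv (k + 1) (m + (m - 3))) (hx : k + (m - 1) ∈ B) (hmax : ∀ y ∈ B, y ≤ k + (m - 1)) :
    3 / 2 ≤ 1 - Cr m A (k + m) B (k + (m - 1)) := by
  obtain ⟨-, hc, hs, hb⟩ := top_spec' hB hx hmax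
  have hR := RS_top (by omega) hB hx hmax
  have hs' : ∑ y ∈ B.erase (k + (m - 1)), y = ∑ y ∈ range k, y + (m - 2) := by
    rw [hs]; omega
  have hR1 := Rr_top_le hc hs' hb (by omega) 1
  have hM : k + (m - 1) = k + m - 1 := by omega
  have hmR : (16 : ℝ) ≤ m := by exact_mod_cast hm
  have hcm1 := cm_le' hm
  have hcm0 := cm_pos hm
  have hR1' : Rr B (k + (m - 1)) 1 * (2 * ((m : ℝ) + 1)) ≤ 3 := by
    have e1 : (((m - 1 + 1).factorial : ℕ) : ℝ) / ((m - 1 + 1 + 1).factorial : ℝ) =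
        1 / ((m : ℝ) + 1) := by
      rw [show m - 1 + 1 = m by omega, Nat.factorial_succ]
      have f : (0 : ℝ) < m.factorial := by exact_mod_cast Nat.factorial_pos _
      push_cast
      field_simp
    have e2 : (1 : ℝ) + ((1 : ℕ) : ℝ) / (((m - 1 : ℕ) : ℝ) - ((m - 2 : ℕ) : ℝ) + 1) = 3 / 2 := by
      rw [Nat.cast_sub (by omega : 1 ≤ m), Nat.cast_sub (by omega : 2 ≤ m)]
      push_cast
      norm_num
    rw [e1, e2] at hR1
    have hp : (0 : ℝ) < (m : ℝ) + 1 := by linarith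
    calc Rr B (k + (m - 1)) 1 * (2 * ((m : ℝ) + 1)) ≤ (1 / ((m : ℝ) + 1) * (3 / 2)) * (2 * ((m : ℝ) + 1)) :=
          mul_le_mul_of_nonneg_right hR1 (by positivity)
      _ = 3 := by field_simp
  have hR2 : Rr B (k + (m - 1)) 1 ≤ Rr B (k + (m - 1)) 2 * ((m : ℝ) + 1) := by
    have := hR.ge 1
    rw [Nat.cast_sub (by omega : 1 ≤ m)] at this
    push_cast at this
    have e : (m : ℝ) - 1 + 1 + 1 = m + 1 := by ring
    rw [e] at this
    exact this
  have hR0 := hR.zero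
  have hpos := hR.pos
  set R := Rr B (k + (m - 1)) with hRd
  -- the sum
  have hCr : 1 - Cr m A (k + m) B (k + (m - 1)) = (1 / ((m - 3 : ℕ) : ℝ)) *
      ∑ P ∈ range (A + 1), (((m - 4 + P).choose (P + 1) : ℝ) - (if P = 0 then g1m m - 1 else
        if P = 1 then g2m m - g1m m else if P = 2 then -g2m m else 0)) * R P := by
    unfold Cr
    rw [hM]
    simp only [kh_one hm (by omega : 1 ≤ k + m)]
    rw [← hM, ← hRd, mul_sum]
    have e1 : ∀ P, ((if P = 0 then (1 : ℝ) else 0) - (1 / ((m - 3 : ℕ) : ℝ)) *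
      (((m - 4 + P).choose (P + 1) : ℝ) - (if P = 0 then g1m m - 1 else if P = 1 then g2m m - g1m m
        else if P = 2 then -g2m m else 0))) * R P = (if P = 0 then R 0 else 0) -
        (1 / ((m - 3 : ℕ) : ℝ)) * ((((m - 4 + P).choose (P + 1) : ℝ) - (if P = 0 then g1m m - 1 else
        if P = 1 then g2m m - g1m m else if P = 2 then -g2m m else 0)) * R P) := by
      intro P
      by_cases hP : P = 0
      · subst hP
        simp
        ring
      · simp only [if_neg hP]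
        ring
    rw [sum_congr rfl fun P _ => e1 P, sum_sub_distrib, sum_ite_eq' (range (A + 1)) 0,
      if_pos (mem_range.2 (Nat.succ_pos A)), hR0]
    ring
  rw [hCr]
  obtain ⟨s, hs2⟩ : ∃ s, A + 1 = 3 + s := ⟨A - 2, by omega⟩
  rw [hs2, sum_range_add]
  have hrest : 0 ≤ ∑ x ∈ range s, (((m - 4 + (3 + x)).choose (3 + x + 1) : ℝ) -
      (if 3 + x = 0 then g1m m - 1 else if 3 + x = 1 then g2m m - g1m m else
        if 3 + x = 2 then -g2m m else 0)) * R (3 + x) := by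
    refine sum_nonneg fun x _ => ?_
    rw [if_neg (by omega), if_neg (by omega), if_neg (by omega), sub_zero]
    exact mul_nonneg (Nat.cast_nonneg _) (hpos _).le
  have hthree : ∑ x ∈ range 3, (((m - 4 + x).choose (x + 1) : ℝ) -
      (if x = 0 then g1m m - 1 else if x = 1 then g2m m - g1m m else
        if x = 2 then -g2m m else 0)) * R x =
      ((m : ℝ) - 3 - g1m m) + (((m : ℝ) - 3) * (m - 4) / 2 - (g2m m - g1m m)) * R 1 +
        (((m : ℝ) - 2) * (m - 3) * (m - 4) / 6 + g2m m) * R 2 := by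
    rw [sum_range_succ, sum_range_succ, sum_range_succ, sum_range_zero, hR0]
    have c1 : (((m - 4 + 0).choose (0 + 1) : ℕ) : ℝ) = (m : ℝ) - 4 := by
      rw [add_zero, zero_add, Nat.choose_one_right, Nat.cast_sub (by omega)]
      norm_num
    have c2 : (((m - 4 + 1).choose (1 + 1) : ℕ) : ℝ) = ((m : ℝ) - 3) * (m - 4) / 2 := by
      rw [show m - 4 + 1 = m - 3 by omega, show 1 + 1 = 2 from rfl, Nat.cast_choose_two,
        Nat.cast_sub (by omega)]
      push_cast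
      ring
    have c3 : (((m - 4 + 2).choose (2 + 1) : ℕ) : ℝ) = ((m : ℝ) - 2) * (m - 3) * (m - 4) / 6 := by
      rw [show m - 4 + 2 = m - 2 by omega, show 2 + 1 = 3 from rfl, choose_three,
        Nat.cast_sub (by omega)]
      push_cast
      ring
    rw [c1, c2, c3]
    simp
    ring
  rw [hthree]
  have ht0 : (0 : ℝ) < (m : ℝ) - 3 := by linarith
  have ht : ((m - 3 : ℕ) : ℝ) = (m : ℝ) - 3 := by
    rw [Nat.cast_sub (by omega)]; norm_num
  rw [ht, one_div_mul_eq_div, le_div_iff₀ ht0]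
  refine le_trans ?_ (le_add_of_nonneg_right hrest)
  -- the inequality
  unfold g1m g2m
  obtain ⟨μ, hμ⟩ : ∃ μ : ℝ, μ = 1 - cm m := ⟨_, rfl⟩
  rw [← hμ]
  have hμ1 : μ ≤ 1 := by linarith
  have hμ7 : 7 / 8 ≤ μ := by linarith
  have hR1p := (hpos 1).le
  set r1 := R 1
  set r2 := R 2
  have hm1 : (0 : ℝ) < (m : ℝ) + 1 := by linarith
  -- replace `r2` by its lower bound
  have hr2 : r1 / ((m : ℝ) + 1) ≤ r2 := by rw [div_le_iff₀ hm1]; exact hR2
  have hr1 : r1 ≤ 3 / (2 * ((m : ℝ) + 1)) := by rw [le_div_iff₀ (by positivity)]; exact hR1'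
  have hK2 : 0 ≤ ((m : ℝ) - 2) * (m - 3) * (m - 4) / 6 + μ * (2 * m * (m + 1)) := by
    have : 0 ≤ ((m : ℝ) - 2) * (m - 3) * (m - 4) := by
      have h1 : (0 : ℝ) ≤ m - 2 := by linarith
      have h2 : (0 : ℝ) ≤ m - 3 := by linarith
      have h3 : (0 : ℝ) ≤ m - 4 := by linarith
      positivity
    positivity
  have s1 := mul_le_mul_of_nonneg_left hr2 hK2
  -- the coefficient of `r1`
  obtain ⟨Q, hQ⟩ : ∃ Q : ℝ, Q = μ * ((2 * m + 1) * (m + 1)) - ((m : ℝ) - 3) * (m - 4) / 2 -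
      ((m : ℝ) - 2) * (m - 3) * (m - 4) / (6 * (m + 1)) := ⟨_, rfl⟩
  have hfrac : ((m : ℝ) - 2) * (m - 3) * (m - 4) / (6 * (m + 1)) ≤ ((m : ℝ) - 3) * (m - 4) / 6 := by
    rw [div_le_div_iff₀ (by positivity) (by norm_num)]
    have : 0 ≤ ((m : ℝ) - 3) * (m - 4) := mul_nonneg (by linarith) (by linarith)
    nlinarith
  have hQ0 : 0 ≤ Q := by
    rw [hQ]
    have h0 : 7 / 8 * ((2 * (m : ℝ) + 1) * (m + 1)) ≤ μ * ((2 * m + 1) * (m + 1)) :=
      mul_le_mul_of_nonneg_right hμ7 (by positivity)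
    nlinarith
  have s2 := mul_le_mul_of_nonneg_left hr1 hQ0
  have key : (((m : ℝ) - 3) * (m - 4) / 2 - (μ * (2 * m * (m + 1)) - -μ * (3 * m + 1))) * r1 +
      (((m : ℝ) - 2) * (m - 3) * (m - 4) / 6 + μ * (2 * m * (m + 1))) * (r1 / (m + 1)) = -(Q * r1) := by
    rw [hQ]
    field_simp
    ring
  have s3 : Q * (3 / (2 * ((m : ℝ) + 1))) = (3 / 2) * μ * (2 * m + 1) -
      (3 / (2 * (m + 1))) * (((m : ℝ) - 3) * (m - 4) / 2 +
        ((m : ℝ) - 2) * (m - 3) * (m - 4) / (6 * (m + 1))) := by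
    rw [hQ]
    field_simp
    ring
  have s4 : ((m : ℝ) - 3) / 2 + μ / 2 ≤ (3 / (2 * ((m : ℝ) + 1))) * (((m : ℝ) - 3) * (m - 4) / 2 +
        ((m : ℝ) - 2) * (m - 3) * (m - 4) / (6 * (m + 1))) := by
    obtain ⟨n, hn⟩ : ∃ n : ℝ, (m : ℝ) = n + 16 := ⟨m - 16, by ring⟩
    have hn0 : 0 ≤ n := by linarith
    have h1 : ((m : ℝ) - 3) / 2 + μ / 2 ≤ ((m : ℝ) - 3) / 2 + 1 / 2 := by linarith
    refine h1.trans ?_
    rw [hn, ← sub_nonneg]
    have : (3 / (2 * (n + 16 + 1)) * ((n + 16 - 3) * (n + 16 - 4) / 2 +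
        (n + 16 - 2) * (n + 16 - 3) * (n + 16 - 4) / (6 * (n + 16 + 1))) -
        ((n + 16 - 3) / 2 + 1 / 2)) =
        (2 * n ^ 3 + 69 * n ^ 2 + 719 * n + 2048) / (4 * (n + 17) ^ 2) := by
      field_simp
      ring
    rw [this]
    positivity
  nlinarith [s1, s2, key, s3, s4]

end Pool.JM
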