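import Pool.Agent.Work.MP_46fa68_h4.Kex
import Pool.Agent.Work.MP_46fa68_h4.Conv

/-!
# MP_46fa68_co: the first row, layer 2

`layer_two`: if the first row has length `m - 2` and the second row has length `c`, the contribution of
the first row satisfies `1 - Cr ≥ cm + (1 - cm) c / (m (m - 1 - c))`.
-/

set_option autoImplicit false

open Finset Equiv

namespace Pool.JM

theorem cm_pos {m : ℕ} (hm : 16 ≤ m) : 0 < cm m := by
  have h := cm_ge hm
  have : (0 : ℝ) < m := by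
    have : 0 < m := by omega
    exact_mod_cast this
  exact lt_of_lt_of_le (by positivity) h

theorem cm_le' {m : ℕ} (hm : 16 ≤ m) : cm m ≤ 1 / 8 := by
  refine (cm_le hm).trans ?_
  have h : (16 : ℝ) ≤ m := by exact_mod_cast hm
  rw [div_le_div_iff₀ (by linarith) (by norm_num)]
  linarith

theorem Rr_zero {B : Finset ℕ} {x : ℕ} : Rr B x 0 = 1 := by
  unfold Rr
  have h1 : (x.factorial : ℝ) ≠ 0 := by exact_mod_cast Nat.factorial_ne_zero x
  rw [Nat.cast_zero, add_zero, add_zero, div_self h1, mul_one]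
  refine prod_eq_one fun y hy => div_self ?_
  rw [mem_erase] at hy
  intro h2
  apply hy.1
  have : (x : ℝ) = y := by linarith
  exact_mod_cast this.symm

theorem sum_three {A : ℕ} (hA : 2 ≤ A) (f : ℕ → ℝ) (h : ∀ p, 3 ≤ p → f p = 0) :
    ∑ p ∈ range (A + 1), f p = f 0 + f 1 + f 2 := by
  rw [← sum_subset (range_subset_range.2 (by omega : 3 ≤ A + 1)) (fun p _ hp => by
    rw [mem_range, not_lt] at hp
    exact h p hp)]
  rw [sum_range_succ, sum_range_succ, sum_range_succ, sum_range_zero, zero_add]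

/-- the contribution of a bead in the layer 2 -/
theorem Cr_two {m A M0 : ℕ} (hm : 16 ≤ m) (hA : 2 ≤ A) (hM : 2 ≤ M0) (B : Finset ℕ) :
    Cr m A M0 B (M0 - 2) = -(g1m m * Rr B (M0 - 2) 1 + g2m m * Rr B (M0 - 2) 2) := by
  unfold Cr kh vm
  rw [sum_three hA]
  · rw [kf_two (by omega) _ _ hM, kf_two (by omega) _ _ hM, kf_two (by omega) _ _ hM]
    simp
    ring
  · intro p hp
    rw [kf_two (by omega) _ _ hM, if_neg (by omega), if_neg (by omega), if_neg (by omega),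
      if_neg (by omega)]
    ring

/-- **Row 1, layer 2.** -/
theorem layer_two {m A k c : ℕ} (hm : 16 ≤ m) (hA : 2 ≤ A) {B : Finset ℕ}
    (hc : (B.erase (k + 1 + (m - 2))).card = k + 1)
    (hb : ∀ y ∈ B.erase (k + 1 + (m - 2)), y < k + 1 + (m - 2))
    (hcC : k + c ∈ B.erase (k + 1 + (m - 2)))
    (hmax : ∀ y ∈ B.erase (k + 1 + (m - 2)), y ≤ k + c) :
    cm m + (1 - cm m) * ((c : ℝ) / (m * ((m : ℝ) - 1 - c))) ≤
      1 - Cr m A (k + 1 + m) B (k + 1 + (m - 2)) := by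
  have hM : k + 1 + (m - 2) = (k + 1 + m) - 2 := by omega
  have h1 := Cr_two hm hA (by omega : 2 ≤ k + 1 + m) B
  rw [← hM] at h1
  rw [h1, Rr_rh, Rr_rh]
  obtain ⟨-, -, p3⟩ := rh_props (k + 1) (m - 2) _ hc hb
  have hr := rh_one_ge hc hb hcC hmax
  have hcv := p3 0
  have h0 : rh (k + 1) (m - 2) (B.erase (k + 1 + (m - 2))) 0 = 1 := by
    have := Rr_rh (k := k + 1) (a := m - 2) (B := B) 0
    rw [Rr_zero, add_zero, div_self (by exact_mod_cast Nat.factorial_ne_zero _), mul_one] at this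
    exact this.symm
  rw [h0] at hcv
  obtain ⟨n, rfl⟩ : ∃ n, m = n + 2 := ⟨m - 2, by omega⟩
  rw [Nat.add_sub_cancel] at *
  have hn : (14 : ℝ) ≤ n := by exact_mod_cast (by omega : 14 ≤ n)
  set r1 := rh (k + 1) n (B.erase (k + 1 + n)) 1
  have e2 : rh (k + 1) n (B.erase (k + 1 + n)) (0 + 2) = rh (k + 1) n (B.erase (k + 1 + n)) 2 := rfl
  rw [e2] at hcv
  set r2 := rh (k + 1) n (B.erase (k + 1 + n)) 2
  push_cast at hcv hr
  have f1 : (((n + 1).factorial : ℕ) : ℝ) = ((n : ℝ) + 1) * n.factorial := by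
    rw [Nat.factorial_succ]; push_cast; ring
  have f2 : (((n + 2).factorial : ℕ) : ℝ) = ((n : ℝ) + 2) * (((n : ℝ) + 1) * n.factorial) := by
    rw [Nat.factorial_succ, Nat.factorial_succ]; push_cast; ring
  have f0 : (0 : ℝ) < n.factorial := by exact_mod_cast Nat.factorial_pos _
  have hcle : (c : ℝ) ≤ n := by
    have := hb _ hcC
    exact_mod_cast (by omega : c ≤ n)
  have hc0 : (0 : ℝ) ≤ c := Nat.cast_nonneg c
  have q1 : (n.factorial : ℝ) / (n + 1).factorial = 1 / ((n : ℝ) + 1) := by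
    rw [f1]; field_simp
  have q2 : (n.factorial : ℝ) / (n + 2).factorial = 1 / (((n : ℝ) + 2) * ((n : ℝ) + 1)) := by
    rw [f2]; field_simp
  rw [q1, q2]
  unfold g1m g2m
  have hc1 := cm_le' hm
  set cc := cm (n + 2)
  -- the value
  have key : 1 - -(-(1 - cc) * (3 * ((n + 2 : ℕ) : ℝ) + 1) * (r1 * (1 / ((n : ℝ) + 1))) +
      (1 - cc) * (2 * ((n + 2 : ℕ) : ℝ) * (((n + 2 : ℕ) : ℝ) + 1)) *
        (r2 * (1 / (((n : ℝ) + 2) * ((n : ℝ) + 1))))) =
      cc + (1 - cc) * ((2 / ((n : ℝ) + 1)) * (((n : ℝ) + 3) * (r2 - r1) - (n + 1) * (r1 - 1)) +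
        (r1 - 1)) := by
    push_cast
    field_simp
    ring
  rw [key]
  have k1 : 0 ≤ (2 / ((n : ℝ) + 1)) * (((n : ℝ) + 3) * (r2 - r1) - (n + 1) * (r1 - 1)) := by
    refine mul_nonneg (by positivity) ?_
    linarith
  have k2 : (c : ℝ) / (((n + 2 : ℕ) : ℝ) * (((n + 2 : ℕ) : ℝ) - 1 - c)) ≤ r1 - 1 := by
    have e : ((n + 2 : ℕ) : ℝ) * (((n + 2 : ℕ) : ℝ) - 1 - c) = ((n : ℝ) + 1 - c) * (n + 2) := by
      push_cast; ring
    rw [e]
    linarith
  have k3 : 0 ≤ 1 - cc := by linarith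
  nlinarith [mul_nonneg k3 k1, mul_le_mul_of_nonneg_left k2 k3]

end Pool.JM
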