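import Pool.Agent.Work.MP_46fa68_h4.Lay1

/-!
# MP_46fa68_co: the first row, layer 3
-/

set_option autoImplicit false

open Finset Equiv

namespace Pool.JM

/-- sums with a ratio bound -/
theorem sum_geo {ρ : ℝ} (hρ : ρ < 1) : ∀ (n : ℕ) (f : ℕ → ℝ), (∀ q, 0 ≤ f q) →
    (∀ q, f (q + 1) ≤ ρ * f q) → (1 - ρ) * ∑ q ∈ range n, f q ≤ f 0
  | 0, f, h0, _ => by simpa using h0 0
  | n + 1, f, h0, h1 => by
    have ih := sum_geo hρ n (fun q => f (q + 1)) (fun q => h0 _) fun q => h1 _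
    rw [sum_range_succ']
    have h2 := h1 0
    have h3 : (1 - ρ) * (∑ k ∈ range n, f (k + 1) + f 0) =
        (1 - ρ) * ∑ k ∈ range n, f (k + 1) + (1 - ρ) * f 0 := by ring
    rw [h3]
    have h4 : (1 - ρ) * ∑ k ∈ range n, f (k + 1) ≤ f (0 + 1) := ih
    linarith

theorem sum_geo1 {ρ : ℝ} (hρ : ρ < 1) (n : ℕ) (f : ℕ → ℝ) (h0 : ∀ q, 0 ≤ f q)
    (h1 : ∀ q, 1 ≤ q → f (q + 1) ≤ ρ * f q) :
    (1 - ρ) * ∑ q ∈ range n, f q ≤ (1 - ρ) * f 0 + f 1 := by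
  rcases n with _ | n
  · have : 0 ≤ (1 - ρ) * f 0 := mul_nonneg (by linarith) (h0 0)
    have := h0 1
    simp only [range_zero, sum_empty, mul_zero]
    linarith
  · have := sum_geo hρ n (fun q => f (q + 1)) (fun q => h0 _) fun q => h1 _ (by omega)
    rw [sum_range_succ', mul_add]
    linarith

/-- the first part, upper bound -/
theorem neg_nq_le (t i : ℕ) {q : ℕ} (hq : 1 ≤ q) :
    -nq t i q ≤ pq t i q / q.factorial * (t * i * ((q : ℝ) - 1) / (i + q)) := by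
  unfold nq
  rw [if_neg (by omega), ← mul_neg]
  have hf : (0 : ℝ) < q.factorial := by exact_mod_cast Nat.factorial_pos _
  refine mul_le_mul_of_nonneg_left ?_ (div_nonneg (pq_pos t i q).le hf.le)
  have hq' : (1 : ℝ) ≤ q := by exact_mod_cast hq
  have hi : (0 : ℝ) ≤ i := Nat.cast_nonneg i
  have hiq : (0 : ℝ) < (i : ℝ) + q := by linarith
  rw [neg_sub, sub_le_iff_le_add, ← sub_nonneg]
  have : (t : ℝ) * i * ((q : ℝ) - 1) / (i + q) + (t + i) - t * (i + 1) * q / (i + q) = i := by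
    field_simp
    ring
  rw [this]
  exact hi

theorem gq_i_one (g1 g2 : ℝ) (q : ℕ) : gq g1 g2 1 (q + 2) = 1 + g1 + g2 := by
  unfold gq
  rw [if_pos (by omega), if_pos (by omega), show 1 + (q + 2) - 1 = q + 2 by omega,
    show 1 + (q + 2 - 1) - 1 = q + 1 by omega, show q + 2 - 1 = q + 1 by omega,
    show 1 + (q + 2 - 2) - 1 = q by omega, show q + 2 - 2 = q by omega]
  simp

/-- the terms of the first part -/
noncomputable def uf (t i : ℕ) (R : ℕ → ℝ) (q : ℕ) : ℝ :=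
  pq t i (q + 2) / (q + 2).factorial * (t * i * ((q : ℝ) + 1) / (i + q + 2)) * R (i + 2 + q)

theorem uf_nonneg (t i : ℕ) {R : ℕ → ℝ} (hR : ∀ p, 0 < R p) (q : ℕ) : 0 ≤ uf t i R q := by
  unfold uf
  have h1 := (pq_pos t i (q + 2)).le
  have h2 := (hR (i + 2 + q)).le
  positivity

/-- the ratio of the terms -/
theorem uf_succ (t i : ℕ) (R : ℕ → ℝ) (q : ℕ) :
    uf t i R (q + 1) * (((q : ℝ) + 3) * (q + 1) * (i + q + 3) * R (i + 2 + q)) =
      uf t i R q * (((t : ℝ) + i + q + 2) * (q + 2) * (i + q + 2) * R (i + 2 + (q + 1))) := by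
  unfold uf
  rw [show q + 1 + 2 = (q + 2) + 1 by omega, pq_succ t i (by omega : 1 ≤ q + 2)]
  have hf : (((q + 2 + 1).factorial : ℕ) : ℝ) = ((q : ℝ) + 3) * (q + 2).factorial := by
    rw [Nat.factorial_succ]; push_cast; ring
  rw [hf]
  have h1 : (0 : ℝ) < (q + 2).factorial := by exact_mod_cast Nat.factorial_pos _
  have h2 : (0 : ℝ) < (i : ℝ) + q + 2 := by positivity
  have h3 : (0 : ℝ) < (i : ℝ) + ((q + 1 : ℕ) : ℝ) + 2 := by positivity
  push_cast at h3 ⊢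
  field_simp
  ring

theorem Zz_one (t : ℕ) (ht : 0 < t) : Zz t 1 = ((t : ℝ) + 1) / 2 := by
  unfold Zz
  rw [show 1 + 1 = 2 from rfl, Nat.cast_choose_two]
  have : (t : ℝ) ≠ 0 := by exact_mod_cast ht.ne'
  push_cast
  field_simp
  ring

/-- the two rational inequalities -/
theorem rat3 {t : ℝ} (ht : 13 ≤ t) {μ : ℝ} (hμ : 7 / 8 ≤ μ) :
    0 ≤ μ * (3 * t + 10) - (1 + μ * ((2 * t + 7) * (t + 2))) *
      (4 * (t ^ 2 + 5 * t + 3) / (3 * (t + 1) * (t + 3) ^ 2)) -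
      t * (t + 2) * (4 * t + 3) / (9 * (t + 1) * (t + 3)) + t / 5 := by
  obtain ⟨n, rfl⟩ : ∃ n, t = n + 13 := ⟨t - 13, by ring⟩
  have hn : 0 ≤ n := by linarith
  have k1 : 0 ≤ (3 * (n + 13) + 10) - ((2 * (n + 13) + 7) * (n + 13 + 2)) *
      (4 * ((n + 13) ^ 2 + 5 * (n + 13) + 3) / (3 * (n + 13 + 1) * (n + 13 + 3) ^ 2)) := by
    field_simp
    ring_nf
    positivity
  have k2 : 0 ≤ 7 / 8 * ((3 * (n + 13) + 10) - ((2 * (n + 13) + 7) * (n + 13 + 2)) *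
      (4 * ((n + 13) ^ 2 + 5 * (n + 13) + 3) / (3 * (n + 13 + 1) * (n + 13 + 3) ^ 2))) -
      (4 * ((n + 13) ^ 2 + 5 * (n + 13) + 3) / (3 * (n + 13 + 1) * (n + 13 + 3) ^ 2)) -
      (n + 13) * (n + 13 + 2) * (4 * (n + 13) + 3) / (9 * (n + 13 + 1) * (n + 13 + 3)) +
      (n + 13) / 5 := by
    field_simp
    ring_nf
    positivity
  have k3 := mul_le_mul_of_nonneg_right hμ k1
  nlinarith

/-- ratio bound from `RS.le` -/
theorem RS.ratio {a N : ℝ} {R : ℕ → ℝ} (hR : RS a N R) (ha : 0 < a) (hN : 0 < N) (p : ℕ) {u v : ℝ}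
    (hv : 0 < v) (h : (N + p * a) * v ≤ u * (((p : ℝ) + 1) * (a ^ 2 + N + p * a))) :
    R (p + 1) * v ≤ R p * u := by
  have h1 := hR.le p
  have hp := hR.pos p
  have hD : 0 < ((p : ℝ) + 1) * (a ^ 2 + N + p * a) := by positivity
  have h2 : R (p + 1) * v * (((p : ℝ) + 1) * (a ^ 2 + N + p * a)) ≤
      R p * u * (((p : ℝ) + 1) * (a ^ 2 + N + p * a)) := by
    calc R (p + 1) * v * (((p : ℝ) + 1) * (a ^ 2 + N + p * a))
        = (R (p + 1) * (((p : ℝ) + 1) * (a ^ 2 + N + p * a))) * v := by ring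
      _ ≤ (R p * (N + p * a)) * v := mul_le_mul_of_nonneg_right h1 hv.le
      _ = R p * ((N + p * a) * v) := by ring
      _ ≤ R p * (u * (((p : ℝ) + 1) * (a ^ 2 + N + p * a))) := mul_le_mul_of_nonneg_left h hp.le
      _ = _ := by ring
  exact le_of_mul_le_mul_right h2 hD

theorem lay3_core {t : ℕ} (ht : 13 ≤ t) {μ : ℝ} (hμ7 : 7 / 8 ≤ μ) {g1 g2 : ℝ}
    (hg1 : g1 = -μ * (3 * t + 10)) (hg2 : g2 = μ * (2 * (t + 3) * (t + 4))) {R : ℕ → ℝ}
    (hR : RS (t : ℝ) (2 * t + 3) R) (n : ℕ) :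
    7 / 10 ≤ 1 + ((t : ℝ) + 1) / 2 * (-g1 * R 2 -
      ∑ q ∈ range n, (gq g1 g2 1 (q + 2) - nq t 1 (q + 2)) * R (3 + q)) := by
  have htR : (13 : ℝ) ≤ t := by exact_mod_cast ht
  have ht0 : (0 : ℝ) < t := by linarith
  have hN0 : (0 : ℝ) < 2 * t + 3 := by linarith
  obtain ⟨Γ, hΓ⟩ : ∃ Γ : ℝ, Γ = 1 + g1 + g2 := ⟨_, rfl⟩
  have hΓ' : Γ = 1 + μ * ((2 * t + 7) * (t + 2)) := by rw [hΓ, hg1, hg2]; ring
  have hΓ0 : 0 ≤ Γ := by rw [hΓ']; positivity
  -- S1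
  have s1 : ∑ q ∈ range n, (gq g1 g2 1 (q + 2) - nq t 1 (q + 2)) * R (3 + q) ≤
      Γ * ∑ q ∈ range n, R (3 + q) + ∑ q ∈ range n, uf t 1 R q := by
    rw [mul_sum, ← sum_add_distrib]
    refine sum_le_sum fun q _ => ?_
    rw [gq_i_one, ← hΓ]
    have h1 := neg_nq_le t 1 (by omega : 1 ≤ q + 2)
    have h2 := (hR.pos (3 + q)).le
    have h3 : (Γ - nq t 1 (q + 2)) * R (3 + q) = Γ * R (3 + q) + -nq t 1 (q + 2) * R (3 + q) := by ring
    rw [h3]
    refine add_le_add le_rfl ?_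
    unfold uf
    have h4 := mul_le_mul_of_nonneg_right h1 h2
    refine h4.trans (le_of_eq ?_)
    push_cast
    have e1 : (1 : ℝ) + (q + 2) = 1 + q + 2 := by ring
    rw [e1]
    congr 2
    ring
  -- S2
  obtain ⟨ρ, hρ⟩ : ∃ ρ : ℝ, ρ = (5 * t + 3) / (4 * (t ^ 2 + 5 * t + 3)) := ⟨_, rfl⟩
  have hden : (0 : ℝ) < 4 * (t ^ 2 + 5 * t + 3) := by positivity
  have hρ1 : ρ < 1 := by
    rw [hρ, div_lt_one hden]
    nlinarith
  have hratio : ∀ q : ℕ, R (3 + (q + 1)) ≤ ρ * R (3 + q) := by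
    intro q
    have hq : (0 : ℝ) ≤ q := Nat.cast_nonneg q
    have h1 := hR.ratio ht0 hN0 (3 + q) (u := 5 * t + 3) (v := 4 * (t ^ 2 + 5 * t + 3)) hden (by
      push_cast
      have h2 : 0 ≤ (q : ℝ) * ((5 * t + 3) * (t ^ 2 + 9 * t + 3 + q * t) -
          4 * t * (t ^ 2 + 5 * t + 3)) := by
        refine mul_nonneg hq ?_
        have h3 : (5 * (t : ℝ) + 3) * (t ^ 2 + 9 * t + 3 + q * t) - 4 * t * (t ^ 2 + 5 * t + 3) =
          t ^ 3 + 28 * t ^ 2 + 30 * t + 9 + (5 * t + 3) * (q * t) := by ring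
        rw [h3]
        positivity
      nlinarith [h2])
    rw [hρ, div_mul_eq_mul_div, le_div_iff₀ hden, mul_comm (5 * (t : ℝ) + 3)]
    exact h1
  have s2 := sum_geo hρ1 n (fun q => R (3 + q)) (fun q => (hR.pos _).le) hratio
  have s2' : ∑ q ∈ range n, R (3 + q) ≤ R 3 * (4 * (t ^ 2 + 5 * t + 3) / ((4 * t + 3) * (t + 3))) := by
    have e : 1 - ρ = ((4 * t + 3) * (t + 3)) / (4 * (t ^ 2 + 5 * t + 3)) := by
      rw [hρ]
      field_simp
      ring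
    rw [e] at s2
    have h0 : R (3 + 0) = R 3 := rfl
    rw [h0] at s2
    have hp : (0 : ℝ) < (4 * t + 3) * (t + 3) := by positivity
    rw [mul_div_assoc', le_div_iff₀ hp]
    rw [div_mul_eq_mul_div, div_le_iff₀ hden] at s2
    linarith
  -- S3, S4
  have hu0 : uf t 1 R 0 = t * (t + 2) / 6 * R 3 := by
    unfold uf
    rw [pq_succ t 1 le_rfl, pq_one]
    have f2 : (((0 + 2).factorial : ℕ) : ℝ) = 2 := by norm_num [Nat.factorial]
    rw [f2, show 1 + 2 + 0 = 3 from rfl]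
    push_cast
    ring
  have hustep : ∀ q : ℕ, uf t 1 R (q + 1) * (((q : ℝ) + 1) * (q + 4) ^ 2 * t) ≤
      uf t 1 R q * ((q + 2) * (t * (q + 5) + 3)) := by
    intro q
    have hq : (0 : ℝ) ≤ q := Nat.cast_nonneg q
    have h1 := uf_succ t 1 R q
    have h2 := hR.ratio ht0 hN0 (3 + q) (u := t * (q + 5) + 3) (v := t * ((t + q + 3) * (q + 4)))
      (by positivity) (by
      push_cast
      have h3 : (2 * (t : ℝ) + 3 + (3 + q) * t) = t * (q + 5) + 3 := by ring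
      rw [h3]
      have h4 : t * ((t + q + 3) * (q + 4)) ≤ (3 + (q : ℝ) + 1) * ((t : ℝ) ^ 2 + (2 * t + 3) + (3 + q) * t) := by
        nlinarith [mul_nonneg hq ht0.le]
      exact mul_le_mul_of_nonneg_left h4 (by positivity))
    have hu := uf_nonneg t 1 hR.pos q
    have hRp := hR.pos (3 + q)
    have hRp' := hR.pos (1 + 2 + q)
    rw [show 1 + 2 + (q + 1) = 3 + (q + 1) by omega, show 1 + 2 + q = 3 + q by omega] at h1
    have h5 : uf t 1 R (q + 1) * (((q : ℝ) + 1) * (q + 4) ^ 2 * t) * R (3 + q) ≤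
        uf t 1 R q * ((q + 2) * (t * (q + 5) + 3)) * R (3 + q) := by
      have e1 : uf t 1 R (q + 1) * (((q : ℝ) + 1) * (q + 4) ^ 2 * t) * R (3 + q) * (q + 3) =
          uf t 1 R q * ((q + 2) * (q + 3)) * (R (3 + (q + 1)) * (t * ((t + q + 3) * (q + 4)))) := by
        have e2 : uf t 1 R (q + 1) * (((q : ℝ) + 1) * (q + 4) ^ 2 * t) * R (3 + q) * (q + 3) =
          (uf t 1 R (q + 1) * (((q : ℝ) + 3) * (q + 1) * (((1 : ℕ) : ℝ) + q + 3) * R (3 + q))) *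
            (t * (q + 4)) := by
          push_cast
          ring
        rw [e2, h1]
        push_cast
        ring
      have e3 : uf t 1 R q * ((q + 2) * (t * (q + 5) + 3)) * R (3 + q) * ((q : ℝ) + 3) =
          uf t 1 R q * ((q + 2) * (q + 3)) * (R (3 + q) * (t * (q + 5) + 3)) := by ring
      have hq3 : (0 : ℝ) < (q : ℝ) + 3 := by positivity
      refine le_of_mul_le_mul_right ?_ hq3
      rw [e1, e3]
      exact mul_le_mul_of_nonneg_left h2 (by positivity)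
    exact le_of_mul_le_mul_right h5 hRp
  have hu1 : uf t 1 R 1 ≤ 5 / 8 * uf t 1 R 0 := by
    have h1 := uf_succ t 1 R 0
    have h2 := hratio 0
    have hu := uf_nonneg t 1 hR.pos 0
    have hRp := hR.pos 3
    have e : 1 + 2 + (0 + 1) = 3 + (0 + 1) := rfl
    have e' : 1 + 2 + 0 = 3 := rfl
    rw [e, e'] at h1
    push_cast at h1
    have e3 : R (3 + 0) = R 3 := rfl
    rw [e3] at h2
    have h3 : ((t : ℝ) + 3) * ρ ≤ 5 / 4 := by
      rw [hρ, mul_div_assoc', div_le_iff₀ hden]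
      nlinarith
    have h4 : uf t 1 R (0 + 1) * 12 * R 3 ≤ (uf t 1 R 0 * (15 / 2)) * R 3 := by
      calc uf t 1 R (0 + 1) * 12 * R 3 = uf t 1 R 0 * (6 * ((t : ℝ) + 3)) * R (3 + (0 + 1)) := by
            linarith
        _ ≤ uf t 1 R 0 * (6 * ((t : ℝ) + 3)) * (ρ * R 3) :=
            mul_le_mul_of_nonneg_left h2 (by positivity)
        _ = uf t 1 R 0 * 6 * (((t : ℝ) + 3) * ρ) * R 3 := by ring
        _ ≤ uf t 1 R 0 * 6 * (5 / 4) * R 3 := by
            refine mul_le_mul_of_nonneg_right ?_ hRp.le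
            exact mul_le_mul_of_nonneg_left h3 (by positivity)
        _ = _ := by ring
    have h5 := le_of_mul_le_mul_right h4 hRp
    have e4 : uf t 1 R (0 + 1) = uf t 1 R 1 := rfl
    rw [e4] at h5
    linarith
  have s3 := sum_geo1 (ρ := 3 / 8) (by norm_num) n (uf t 1 R) (uf_nonneg t 1 hR.pos) (by
    intro q hq
    have hq' : (1 : ℝ) ≤ q := by exact_mod_cast hq
    have h1 := hustep q
    have hu := uf_nonneg t 1 hR.pos q
    have hpos : (0 : ℝ) < ((q : ℝ) + 1) * (q + 4) ^ 2 * t := by positivity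
    have h2 : ((q : ℝ) + 2) * (t * (q + 5) + 3) ≤ 3 / 8 * (((q : ℝ) + 1) * (q + 4) ^ 2 * t) := by
      have h3 : t * ((q : ℝ) + 5) + 3 ≤ t * (q + 21 / 4) := by nlinarith
      have h4 : ((q : ℝ) + 2) * (q + 21 / 4) ≤ 3 / 8 * (((q : ℝ) + 1) * (q + 4) ^ 2) := by
        obtain ⟨s, hsq⟩ : ∃ s : ℝ, (q : ℝ) = s + 1 := ⟨(q : ℝ) - 1, by ring⟩
        have hs : 0 ≤ s := by linarith
        rw [hsq]
        nlinarith [mul_nonneg hs hs, mul_nonneg (mul_nonneg hs hs) hs]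
      calc ((q : ℝ) + 2) * (t * (q + 5) + 3) ≤ ((q : ℝ) + 2) * (t * (q + 21 / 4)) :=
            mul_le_mul_of_nonneg_left h3 (by positivity)
        _ = t * (((q : ℝ) + 2) * (q + 21 / 4)) := by ring
        _ ≤ t * (3 / 8 * (((q : ℝ) + 1) * (q + 4) ^ 2)) := mul_le_mul_of_nonneg_left h4 ht0.le
        _ = _ := by ring
    have h5 : uf t 1 R (q + 1) * (((q : ℝ) + 1) * (q + 4) ^ 2 * t) ≤
        (3 / 8 * uf t 1 R q) * (((q : ℝ) + 1) * (q + 4) ^ 2 * t) := by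
      calc _ ≤ uf t 1 R q * ((q + 2) * (t * (q + 5) + 3)) := h1
        _ ≤ uf t 1 R q * (3 / 8 * (((q : ℝ) + 1) * (q + 4) ^ 2 * t)) :=
            mul_le_mul_of_nonneg_left h2 hu
        _ = _ := by ring
    exact le_of_mul_le_mul_right h5 hpos)
  have s3' : ∑ q ∈ range n, uf t 1 R q ≤ t * (t + 2) / 3 * R 3 := by
    have : ∑ q ∈ range n, uf t 1 R q ≤ 2 * uf t 1 R 0 := by linarith
    rw [hu0] at this
    linarith
  -- S5
  have s5 : R 3 * (3 * (t + 1) * (t + 3)) ≤ R 2 * (4 * t + 3) := by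
    have h1 := hR.ratio ht0 hN0 2 (u := 4 * t + 3) (v := 3 * (t + 1) * (t + 3)) (by positivity) (by
      push_cast
      refine le_of_eq ?_
      ring)
    exact h1
  -- S6
  have s6 : ((t : ℝ) + 1) / 2 * R 2 * t ≤ 3 / 2 := by
    have h1 := hR.ratio ht0 hN0 0 (u := 2 * t + 3) (v := t ^ 2 + 2 * t + 3) (by positivity) (by
      push_cast
      refine le_of_eq ?_
      ring)
    have h2 := hR.ratio ht0 hN0 1 (u := 3 * t + 3) (v := 2 * (t ^ 2 + 3 * t + 3)) (by positivity) (by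
      push_cast
      refine le_of_eq ?_
      ring)
    rw [hR.zero, one_mul, zero_add] at h1
    have e : R (1 + 1) = R 2 := rfl
    rw [e] at h2
    have h3 : R 2 * (2 * ((t : ℝ) ^ 2 + 3 * t + 3)) * (t ^ 2 + 2 * t + 3) ≤ (3 * t + 3) * (2 * t + 3) := by
      calc R 2 * (2 * ((t : ℝ) ^ 2 + 3 * t + 3)) * (t ^ 2 + 2 * t + 3)
          ≤ (R 1 * (3 * t + 3)) * (t ^ 2 + 2 * t + 3) :=
            mul_le_mul_of_nonneg_right h2 (by positivity)
        _ = (3 * t + 3) * (R 1 * (t ^ 2 + 2 * t + 3)) := by ring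
        _ ≤ (3 * t + 3) * (2 * t + 3) := mul_le_mul_of_nonneg_left h1 (by positivity)
    have hp : (0 : ℝ) < 2 * ((t : ℝ) ^ 2 + 3 * t + 3) * (t ^ 2 + 2 * t + 3) := by positivity
    refine le_of_mul_le_mul_right ?_ hp
    calc ((t : ℝ) + 1) / 2 * R 2 * t * (2 * ((t : ℝ) ^ 2 + 3 * t + 3) * (t ^ 2 + 2 * t + 3))
        = ((t : ℝ) + 1) / 2 * t * (R 2 * (2 * ((t : ℝ) ^ 2 + 3 * t + 3)) * (t ^ 2 + 2 * t + 3)) := by
          ring
      _ ≤ ((t : ℝ) + 1) / 2 * t * ((3 * t + 3) * (2 * t + 3)) :=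
          mul_le_mul_of_nonneg_left h3 (by positivity)
      _ ≤ _ := by nlinarith [mul_nonneg ht0.le ht0.le, mul_nonneg (mul_nonneg ht0.le ht0.le) ht0.le]
  -- the end
  have hR2 := hR.pos 2
  have hR3 := hR.pos 3
  have hrat := rat3 htR hμ7
  rw [← hΓ'] at hrat
  have r1 : R 3 ≤ R 2 * ((4 * t + 3) / (3 * (t + 1) * (t + 3))) := by
    rw [mul_div_assoc', le_div_iff₀ (by positivity)]
    exact s5
  have k1 : Γ * ∑ q ∈ range n, R (3 + q) ≤
      R 2 * (Γ * (4 * (t ^ 2 + 5 * t + 3) / (3 * (t + 1) * (t + 3) ^ 2))) := by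
    calc Γ * ∑ q ∈ range n, R (3 + q) ≤ Γ * (R 3 * (4 * (t ^ 2 + 5 * t + 3) / ((4 * t + 3) * (t + 3)))) :=
          mul_le_mul_of_nonneg_left s2' hΓ0
      _ ≤ Γ * ((R 2 * ((4 * t + 3) / (3 * (t + 1) * (t + 3)))) *
          (4 * (t ^ 2 + 5 * t + 3) / ((4 * t + 3) * (t + 3)))) := by
          refine mul_le_mul_of_nonneg_left ?_ hΓ0
          exact mul_le_mul_of_nonneg_right r1 (by positivity)
      _ = _ := by field_simp
  have k2 : ∑ q ∈ range n, uf t 1 R q ≤ R 2 * (t * (t + 2) * (4 * t + 3) / (9 * (t + 1) * (t + 3))) := by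
    calc _ ≤ t * (t + 2) / 3 * R 3 := s3'
      _ ≤ t * (t + 2) / 3 * (R 2 * ((4 * t + 3) / (3 * (t + 1) * (t + 3)))) :=
          mul_le_mul_of_nonneg_left r1 (by positivity)
      _ = _ := by field_simp; ring
  have k3 : R 2 * (-(t / 5)) ≤ -g1 * R 2 -
      ∑ q ∈ range n, (gq g1 g2 1 (q + 2) - nq t 1 (q + 2)) * R (3 + q) := by
    have h1 : 0 ≤ R 2 * (μ * (3 * t + 10) - Γ *
      (4 * (t ^ 2 + 5 * t + 3) / (3 * (t + 1) * (t + 3) ^ 2)) -
      t * (t + 2) * (4 * t + 3) / (9 * (t + 1) * (t + 3)) + t / 5) := mul_nonneg hR2.le hrat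
    have h2 : -g1 = μ * (3 * t + 10) := by rw [hg1]; ring
    rw [h2]
    nlinarith [s1, k1, k2, h1]
  have hp : (0 : ℝ) ≤ ((t : ℝ) + 1) / 2 := by positivity
  have k4 := mul_le_mul_of_nonneg_left k3 hp
  nlinarith [k4, s6]

/-- **Row 1, layer 3.** -/
theorem layer_three {m A k : ℕ} (hm : 16 ≤ m) (hA : 3 ≤ A) {B : Finset ℕ}
    (hB : B ∈ Lv (k + 1) (m + (m - 3))) (hx : k + (m - 3) ∈ B) (hmax : ∀ y ∈ B, y ≤ k + (m - 3)) :
    7 / 10 ≤ 1 - Cr m A (k + m) B (k + (m - 3)) := by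
  have hR := RS_top (by omega) hB hx hmax
  have hM : k + (m - 3) = k + m - (1 + 2) := by omega
  obtain ⟨t, rfl⟩ : ∃ t, m = t + 3 := ⟨m - 3, by omega⟩
  have hcm1 := cm_le' hm
  have hcm0 := cm_pos hm
  have h1 := Cr_norm (i := 1) hm (A := A) (M0 := k + (t + 3)) (by omega) (by omega) B
  rw [← hM] at h1
  rw [Nat.add_sub_cancel] at *
  have hN : ((t + 3 + t : ℕ) : ℝ) = 2 * t + 3 := by push_cast; ring
  rw [hN] at hR
  have h2 := lay3_core (t := t) (by omega) (μ := 1 - cm (t + 3)) (by linarith)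
    (g1 := g1m (t + 3)) (g2 := g2m (t + 3)) (by unfold g1m; push_cast; ring)
    (by unfold g2m; push_cast; ring) hR (A - 1 - 1)
  rw [Zz_one t (by omega)] at h1
  rw [h1]
  have e : ∀ q, 1 + 2 + q = 3 + q := fun q => by omega
  simp only [e]
  linarith

end Pool.JM
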