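import Pool.Agent.Work.MP_46fa68_h4.Lay3

/-!
# MP_46fa68_co: the first row, layer 4
-/

set_option autoImplicit false

open Finset Equiv

namespace Pool.JM

theorem Zz_two (t : ℕ) (ht : 0 < t) : Zz t 2 = ((t : ℝ) + 2) * (t + 1) / 6 := by
  unfold Zz
  rw [show 2 + 1 = 3 from rfl, choose_three]
  have : (t : ℝ) ≠ 0 := by exact_mod_cast ht.ne'
  push_cast
  field_simp
  ring

theorem gq_i_two (g1 g2 : ℝ) (q : ℕ) : gq g1 g2 2 (q + 2) = (q + 3) + g1 * (q + 2) + g2 * (q + 1) := by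
  unfold gq
  rw [if_pos (by omega), if_pos (by omega), show 2 + (q + 2) - 1 = (q + 2) + 1 by omega,
    show 2 + (q + 2 - 1) - 1 = (q + 1) + 1 by omega, show q + 2 - 1 = q + 1 by omega,
    show 2 + (q + 2 - 2) - 1 = q + 1 by omega, show q + 2 - 2 = q by omega,
    Nat.choose_succ_self_right, Nat.choose_succ_self_right, Nat.choose_succ_self_right]
  push_cast
  ring

theorem nq_nonpos {t i q : ℕ} (hi : 1 ≤ i) (hit : i + 2 ≤ t) (hq : 2 ≤ q) : nq t i q ≤ 0 := by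
  unfold nq
  rw [if_neg (by omega)]
  have hf : (0 : ℝ) < q.factorial := by exact_mod_cast Nat.factorial_pos _
  refine mul_nonpos_of_nonneg_of_nonpos (div_nonneg (pq_pos t i q).le hf.le) ?_
  have hq' : (2 : ℝ) ≤ q := by exact_mod_cast hq
  have hi' : (1 : ℝ) ≤ i := by exact_mod_cast hi
  have ht' : (i : ℝ) + 2 ≤ t := by exact_mod_cast hit
  have hiq : (0 : ℝ) < (i : ℝ) + q := by linarith
  rw [sub_nonpos, le_div_iff₀ hiq]
  have h1 : 0 ≤ ((q : ℝ) - 2) * i * (t - 1) := by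
    have : (0 : ℝ) ≤ (q : ℝ) - 2 := by linarith
    have : (0 : ℝ) ≤ (t : ℝ) - 1 := by linarith
    positivity
  nlinarith

theorem lay4_core {t : ℕ} (ht : 13 ≤ t) {μ : ℝ} (hμ7 : 7 / 8 ≤ μ) (hμ1 : μ ≤ 1) {g1 g2 : ℝ}
    (hg1 : g1 = -μ * (3 * t + 10)) (hg2 : g2 = μ * (2 * (t + 3) * (t + 4))) {R : ℕ → ℝ}
    (hR : RS ((t : ℝ) - 1) (2 * t + 3) R) {n : ℕ} (hn : 2 ≤ n) :
    ((t : ℝ) + 2) * (t + 1) / 6 * (-g1 * R 3 -
      ∑ q ∈ range n, (gq g1 g2 2 (q + 2) - nq t 2 (q + 2)) * R (4 + q)) ≤ 2 / 5 := by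
  have htR : (13 : ℝ) ≤ t := by exact_mod_cast ht
  have ht0 : (0 : ℝ) < t := by linarith
  obtain ⟨b4, hb4⟩ : ∃ b4 : ℝ, b4 = 3 + 2 * g1 + g2 + (t + 3) * (t - 4) / 4 := ⟨_, rfl⟩
  obtain ⟨b5, hb5⟩ : ∃ b5 : ℝ, b5 = 4 + 3 * g1 + 2 * g2 + (t + 3) * (t + 4) * (4 * t - 10) / 30 :=
    ⟨_, rfl⟩
  have hg12 : -2 * g1 ≤ g2 := by
    rw [hg1, hg2]
    nlinarith [mul_nonneg (by linarith : (0:ℝ) ≤ μ) (by positivity : (0 : ℝ) ≤ (t : ℝ) ^ 2 + 4 * t + 2)]
  have hg2p : 0 ≤ g2 := by rw [hg2]; positivity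
  -- the sum is at least its first two terms
  have hD : ∀ q : ℕ, 0 ≤ (gq g1 g2 2 (q + 2) - nq t 2 (q + 2)) * R (4 + q) := by
    intro q
    refine mul_nonneg ?_ (hR.pos _).le
    have h1 := nq_nonpos (t := t) (i := 2) (q := q + 2) (by omega) (by omega) (by omega)
    have h2 : 0 ≤ gq g1 g2 2 (q + 2) := by
      rw [gq_i_two]
      have hq : (0 : ℝ) ≤ q := Nat.cast_nonneg q
      nlinarith [mul_nonneg hq hg2p]
    linarith
  have s1 : b4 * R 4 + b5 * R 5 ≤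
      ∑ q ∈ range n, (gq g1 g2 2 (q + 2) - nq t 2 (q + 2)) * R (4 + q) := by
    have h1 : ∑ q ∈ range 2, (gq g1 g2 2 (q + 2) - nq t 2 (q + 2)) * R (4 + q) ≤
        ∑ q ∈ range n, (gq g1 g2 2 (q + 2) - nq t 2 (q + 2)) * R (4 + q) :=
      sum_le_sum_of_subset_of_nonneg (range_subset_range.2 hn) fun q _ _ => hD q
    refine le_trans (le_of_eq ?_) h1
    rw [sum_range_succ, sum_range_succ, sum_range_zero, zero_add, gq_i_two, gq_i_two]
    have n2 : nq t 2 (0 + 2) = -(((t : ℝ) + 3) * (t - 4) / 4) := by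
      unfold nq
      rw [if_neg (by omega), pq_succ t 2 le_rfl, pq_one]
      have f2 : (((0 + 2).factorial : ℕ) : ℝ) = 2 := by norm_num [Nat.factorial]
      rw [f2]
      push_cast
      ring
    have n3 : nq t 2 (1 + 2) = -(((t : ℝ) + 3) * (t + 4) * (4 * t - 10) / 30) := by
      unfold nq
      rw [if_neg (by omega), show 1 + 2 = 2 + 1 from rfl, pq_succ t 2 (by omega : 1 ≤ 2),
        pq_succ t 2 le_rfl, pq_one]
      have f2 : (((2 + 1).factorial : ℕ) : ℝ) = 6 := by norm_num [Nat.factorial]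
      rw [f2]
      push_cast
      ring
    rw [n2, n3, hb4, hb5]
    have e4 : R (4 + 0) = R 4 := rfl
    have e5 : R (4 + 1) = R 5 := rfl
    rw [e4, e5]
    push_cast
    ring
  -- the relations
  have r5 := hR.ge 4
  have r4 := hR.cv 2
  have r3 := hR.cv 1
  have r2 := hR.ge 1
  have r1 := hR.le 0
  rw [hR.zero] at r1
  push_cast at r1 r2 r3 r4 r5
  have p1 := hR.pos 1
  have p2 := hR.pos 2
  have p3 := hR.pos 3
  have p4 := hR.pos 4
  have e45 : R (4 + 1) = R 5 := rfl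
  have e34 : R (2 + 1) = R 3 := rfl
  have e24 : R (2 + 2) = R 4 := rfl
  have e12 : R (1 + 1) = R 2 := rfl
  have e13 : R (1 + 2) = R 3 := rfl
  have e01 : R (0 + 1) = R 1 := rfl
  rw [e45] at r5
  rw [e34, e24] at r4
  rw [e12, e13] at r3
  rw [e12] at r2
  rw [e01] at r1
  obtain ⟨D, hDd⟩ : ∃ D : ℝ, D = -g1 * R 3 - (b4 * R 4 + b5 * R 5) := ⟨_, rfl⟩
  have hle : -g1 * R 3 - ∑ q ∈ range n, (gq g1 g2 2 (q + 2) - nq t 2 (q + 2)) * R (4 + q) ≤ D := by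
    rw [hDd]; linarith
  obtain ⟨β, hβ⟩ : ∃ β : ℝ, β = b4 * (t + 4) + b5 := ⟨_, rfl⟩
  -- polynomial facts
  obtain ⟨x, hx⟩ : ∃ x : ℝ, (t : ℝ) = x + 13 := ⟨t - 13, by ring⟩
  have hx0 : 0 ≤ x := by linarith
  obtain ⟨ν, hν⟩ : ∃ ν : ℝ, μ = ν / 8 + 7 / 8 := ⟨8 * μ - 7, by ring⟩
  have hν0 : 0 ≤ ν := by linarith
  have hν1 : ν ≤ 1 := by linarith
  have hb5p : 0 ≤ b5 := by
    rw [hb5]
    have : 0 ≤ (t + 3) * (t + 4) * (4 * (t : ℝ) - 10) / 30 := by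
      have : 0 ≤ 4 * (t : ℝ) - 10 := by linarith
      positivity
    linarith
  have hβe : β = ((t : ℝ) + 3) * (t - 4) * (t + 4) / 4 + 3 * (t + 4) + 4 +
      (t + 3) * (t + 4) * (4 * t - 10) / 30 +
      μ * ((2 * (t + 3) * (t + 4) - 2 * (3 * t + 10)) * (t + 4) +
        4 * (t + 3) * (t + 4) - 3 * (3 * t + 10)) := by
    rw [hβ, hb4, hb5, hg1, hg2]
    ring
  have hβ0 : 0 ≤ β := by
    rw [hβe, hx, hν]
    ring_nf
    positivity
  have h3 : -2 * g1 * (t + 4) ^ 2 ≤ 3 * β := by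
    rw [hβe, hg1, hx, hν]
    have key : 0 ≤ (1 - ν) * (3 * (((x + 13) + 3) * ((x + 13) - 4) * ((x + 13) + 4) / 4 + 3 * ((x + 13) + 4) + 4 +
      ((x + 13) + 3) * ((x + 13) + 4) * (4 * (x + 13) - 10) / 30 +
      7 / 8 * ((2 * ((x + 13) + 3) * ((x + 13) + 4) - 2 * (3 * (x + 13) + 10)) * ((x + 13) + 4) +
        4 * ((x + 13) + 3) * ((x + 13) + 4) - 3 * (3 * (x + 13) + 10))) -
        2 * (7 / 8) * (3 * (x + 13) + 10) * ((x + 13) + 4) ^ 2) +
        ν * (3 * (((x + 13) + 3) * ((x + 13) - 4) * ((x + 13) + 4) / 4 + 3 * ((x + 13) + 4) + 4 +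
      ((x + 13) + 3) * ((x + 13) + 4) * (4 * (x + 13) - 10) / 30 +
      1 * ((2 * ((x + 13) + 3) * ((x + 13) + 4) - 2 * (3 * (x + 13) + 10)) * ((x + 13) + 4) +
        4 * ((x + 13) + 3) * ((x + 13) + 4) - 3 * (3 * (x + 13) + 10))) -
        2 * 1 * (3 * (x + 13) + 10) * ((x + 13) + 4) ^ 2) := by
      have k1 : 0 ≤ (3 * (((x + 13) + 3) * ((x + 13) - 4) * ((x + 13) + 4) / 4 + 3 * ((x + 13) + 4) + 4 +
      ((x + 13) + 3) * ((x + 13) + 4) * (4 * (x + 13) - 10) / 30 +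
      7 / 8 * ((2 * ((x + 13) + 3) * ((x + 13) + 4) - 2 * (3 * (x + 13) + 10)) * ((x + 13) + 4) +
        4 * ((x + 13) + 3) * ((x + 13) + 4) - 3 * (3 * (x + 13) + 10))) -
        2 * (7 / 8) * (3 * (x + 13) + 10) * ((x + 13) + 4) ^ 2) := by
        ring_nf
        positivity
      have k2 : 0 ≤ (3 * (((x + 13) + 3) * ((x + 13) - 4) * ((x + 13) + 4) / 4 + 3 * ((x + 13) + 4) + 4 +
      ((x + 13) + 3) * ((x + 13) + 4) * (4 * (x + 13) - 10) / 30 +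
      1 * ((2 * ((x + 13) + 3) * ((x + 13) + 4) - 2 * (3 * (x + 13) + 10)) * ((x + 13) + 4) +
        4 * ((x + 13) + 3) * ((x + 13) + 4) - 3 * (3 * (x + 13) + 10))) -
        2 * 1 * (3 * (x + 13) + 10) * ((x + 13) + 4) ^ 2) := by
        ring_nf
        positivity
      exact add_nonneg (mul_nonneg (by linarith) k1) (mul_nonneg hν0 k2)
    linear_combination key
  have h4 : (2 * (t : ℝ) + 3) * (-g1 * (t + 3) * (t + 4) - β) ≤ 12 / 5 * (t ^ 2 + 4) * (t + 3) * (t + 4) := by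
    have k0 : ∀ w : ℝ, w = 7 / 8 ∨ w = 1 → 0 ≤ 12 / 5 * ((x + 13) ^ 2 + 4) * ((x + 13) + 3) * ((x + 13) + 4) -
        (2 * (x + 13) + 3) * (w * (3 * (x + 13) + 10) * ((x + 13) + 3) * ((x + 13) + 4) -
        (((x + 13) + 3) * ((x + 13) - 4) * ((x + 13) + 4) / 4 + 3 * ((x + 13) + 4) + 4 +
      ((x + 13) + 3) * ((x + 13) + 4) * (4 * (x + 13) - 10) / 30 +
      w * ((2 * ((x + 13) + 3) * ((x + 13) + 4) - 2 * (3 * (x + 13) + 10)) * ((x + 13) + 4) +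
        4 * ((x + 13) + 3) * ((x + 13) + 4) - 3 * (3 * (x + 13) + 10)))) := by
      intro w hw
      rcases hw with rfl | rfl
      · ring_nf
        positivity
      · ring_nf
        positivity
    have k1 := k0 (7 / 8) (Or.inl rfl)
    have k2 := k0 1 (Or.inr rfl)
    have k3 := add_nonneg (mul_nonneg (by linarith : 0 ≤ 1 - ν) k1) (mul_nonneg hν0 k2)
    rw [hβe, hg1, hx, hν]
    linear_combination k3
  -- the chain
  have c1 : D * (t + 4) ≤ -g1 * (t + 4) * R 3 - β * R 4 := by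
    rw [hDd, hβ]
    have h1 : b5 * R 4 ≤ b5 * (R 5 * ((t : ℝ) - 1 + 4 + 1)) := mul_le_mul_of_nonneg_left r5 hb5p
    linear_combination h1
  have c2 : D * (t + 4) * ((t + 3) * (t + 4)) ≤
      (t + 3) * (-g1 * (t + 4) ^ 2 - 2 * β) * R 3 + β * R 2 := by
    have h1 := mul_le_mul_of_nonneg_right c1 (by positivity : (0 : ℝ) ≤ ((t : ℝ) + 3) * (t + 4))
    have h2 := mul_le_mul_of_nonneg_left r4 hβ0
    linear_combination h1 + h2
  have hK3 : -g1 * (t + 4) ^ 2 - 2 * β ≤ 0 := by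
    linear_combination h3 / 2 + hβ0 / 2
  have c3 : D * (t + 4) * ((t + 3) * (t + 4)) * (t + 2) ≤
      (t + 2) * (-2 * g1 * (t + 4) ^ 2 - 3 * β) * R 2 - (-g1 * (t + 4) ^ 2 - 2 * β) * R 1 := by
    have h1 := mul_le_mul_of_nonneg_right c2 (by positivity : (0 : ℝ) ≤ (t : ℝ) + 2)
    have h2 := mul_le_mul_of_nonpos_left r3 hK3
    linear_combination h1 + h2
  have c4 : D * (t + 4) * ((t + 3) * (t + 4)) * (t + 2) * (t + 1) ≤
      (t + 4) * (-g1 * (t + 3) * (t + 4) - β) * R 1 := by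
    have h1 := mul_le_mul_of_nonneg_right c3 (by positivity : (0 : ℝ) ≤ (t : ℝ) + 1)
    have h2 : (-2 * g1 * (t + 4) ^ 2 - 3 * β) * (R 2 * ((t : ℝ) - 1 + 1 + 1)) ≤
        (-2 * g1 * (t + 4) ^ 2 - 3 * β) * R 1 := mul_le_mul_of_nonpos_left r2 (by linarith)
    have h3 := mul_le_mul_of_nonneg_left h2 (by positivity : (0 : ℝ) ≤ (t : ℝ) + 2)
    linear_combination h1 + h3
  have c5 : D * ((t + 3) * (t + 4)) * ((t + 2) * (t + 1)) ≤ (-g1 * (t + 3) * (t + 4) - β) * R 1 := by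
    have h1 : D * ((t + 3) * (t + 4)) * ((t + 2) * (t + 1)) * (t + 4) ≤
        (-g1 * (t + 3) * (t + 4) - β) * R 1 * (t + 4) := by linear_combination c4
    exact le_of_mul_le_mul_right h1 (by positivity)
  have r1' : R 1 * ((t : ℝ) ^ 2 + 4) ≤ 2 * t + 3 := by linear_combination r1
  have c6 : (-g1 * (t + 3) * (t + 4) - β) * R 1 ≤ 12 / 5 * (t + 3) * (t + 4) := by
    rcases le_or_gt (-g1 * (t + 3) * (t + 4) - β) 0 with hneg | hpos
    · have h1 := mul_nonpos_of_nonpos_of_nonneg hneg p1.le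
      have : (0 : ℝ) ≤ 12 / 5 * (t + 3) * (t + 4) := by positivity
      linarith
    · have h1 := mul_le_mul_of_nonneg_left r1' hpos.le
      have hq : (0 : ℝ) < (t : ℝ) ^ 2 + 4 := by positivity
      refine le_of_mul_le_mul_right ?_ hq
      linear_combination h1 + h4
  have c7 : D * ((t + 2) * (t + 1)) ≤ 12 / 5 := by
    have hq : (0 : ℝ) < ((t : ℝ) + 3) * (t + 4) := by positivity
    refine le_of_mul_le_mul_right ?_ hq
    linear_combination c5 + c6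
  have hZ : (0 : ℝ) ≤ ((t : ℝ) + 2) * (t + 1) / 6 := by positivity
  have h5 := mul_le_mul_of_nonneg_left hle hZ
  linear_combination h5 + c7 / 6

/-- **Row 1, layer 4.** -/
theorem layer_four {m A k : ℕ} (hm : 16 ≤ m) (hA : 5 ≤ A) {B : Finset ℕ}
    (hB : B ∈ Lv (k + 1) (m + (m - 3))) (hx : k + (m - 4) ∈ B) (hmax : ∀ y ∈ B, y ≤ k + (m - 4)) :
    3 / 5 ≤ 1 - Cr m A (k + m) B (k + (m - 4)) := by
  have hR := RS_top (by omega) hB hx hmax
  have hM : k + (m - 4) = k + m - (2 + 2) := by omega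
  obtain ⟨t, rfl⟩ : ∃ t, m = t + 3 := ⟨m - 3, by omega⟩
  have hcm1 := cm_le' hm
  have hcm0 := cm_pos hm
  have h1 := Cr_norm (i := 2) hm (A := A) (M0 := k + (t + 3)) (by omega) (by omega) B
  rw [← hM] at h1
  rw [Nat.add_sub_cancel] at *
  have hN : ((t + 3 + t : ℕ) : ℝ) = 2 * t + 3 := by push_cast; ring
  have ha : ((t + 3 - 4 : ℕ) : ℝ) = (t : ℝ) - 1 := by
    rw [show t + 3 - 4 = t - 1 by omega, Nat.cast_sub (by omega)]
    norm_num
  rw [hN, ha] at hR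
  have h2 := lay4_core (t := t) (by omega) (μ := 1 - cm (t + 3)) (by linarith) (by linarith)
    (g1 := g1m (t + 3)) (g2 := g2m (t + 3)) (by unfold g1m; push_cast; ring)
    (by unfold g2m; push_cast; ring) hR (n := A - 1 - 2) (by omega)
  rw [Zz_two t (by omega)] at h1
  rw [h1]
  have e : ∀ q, 2 + 2 + q = 4 + q := fun q => by omega
  simp only [e]
  have e3 : (-1 : ℝ) ^ 2 = 1 := by norm_num
  rw [e3, one_mul]
  linarith

end Pool.JM
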