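import Pool.Agent.Work.MP_46fa68_h4.EE

/-!
# MP_46fa68_co: the first row, layers 5 and beyond
-/

set_option autoImplicit false

open Finset Equiv

namespace Pool.JM

theorem nq_le (t i : ℕ) {q : ℕ} (hq : 2 ≤ q) (hit : i ≤ t) (ht : 2 ≤ t) :
    nq t i q ≤ pq t i q / q.factorial * (t * i * ((q : ℝ) - 1) / (i + q)) := by
  unfold nq
  rw [if_neg (by omega)]
  have hf : (0 : ℝ) < q.factorial := by exact_mod_cast Nat.factorial_pos _
  refine mul_le_mul_of_nonneg_left ?_ (div_nonneg (pq_pos t i q).le hf.le)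
  have hq' : (2 : ℝ) ≤ q := by exact_mod_cast hq
  have hi : (0 : ℝ) ≤ i := Nat.cast_nonneg i
  have hit' : (i : ℝ) ≤ t := by exact_mod_cast hit
  have ht' : (2 : ℝ) ≤ t := by exact_mod_cast ht
  have hiq : (0 : ℝ) < (i : ℝ) + q := by linarith
  rw [sub_le_iff_le_add, ← sub_nonneg]
  have : (t : ℝ) * i * ((q : ℝ) - 1) / (i + q) + t * (i + 1) * q / (i + q) - (t + i) =
      i * (2 * t * (q - 1) - i - q) / (i + q) := by
    field_simp
    ring
  rw [this]
  refine div_nonneg (mul_nonneg hi ?_) hiq.le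
  nlinarith [mul_nonneg (by linarith : (0 : ℝ) ≤ (t : ℝ) - 2) (by linarith : (0 : ℝ) ≤ 2 * (q : ℝ) - 3)]

/-- the binomial part of the kernel -/
noncomputable def Gc (u v w : ℝ) (i q : ℕ) : ℝ :=
  u * ((i + q + 1).choose (q + 2) : ℝ) + v * ((i + q).choose (q + 1) : ℝ) +
    w * ((i + q - 1).choose q : ℝ)

theorem gq_Gc (g1 g2 : ℝ) {i : ℕ} (hi : 1 ≤ i) (q : ℕ) :
    gq g1 g2 i (q + 2) = Gc 1 g1 g2 i q := by
  unfold gq Gc
  rw [if_pos (by omega), if_pos (by omega), show i + (q + 2) - 1 = i + q + 1 by omega,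
    show i + (q + 2 - 1) - 1 = i + q by omega, show q + 2 - 1 = q + 1 by omega,
    show i + (q + 2 - 2) - 1 = i + q - 1 by omega, show q + 2 - 2 = q by omega]
  ring

theorem Gc_nonneg {u v w : ℝ} (hu : 0 ≤ u) (hv : 0 ≤ v) (hw : 0 ≤ w) (i q : ℕ) :
    0 ≤ Gc u v w i q := by
  unfold Gc
  positivity

theorem Gc_mono {u v w u' v' w' : ℝ} (hu : u ≤ u') (hv : v ≤ v') (hw : w ≤ w') (i q : ℕ) :
    Gc u v w i q ≤ Gc u' v' w' i q := by
  unfold Gc
  have h1 := mul_le_mul_of_nonneg_right hu (Nat.cast_nonneg ((i + q + 1).choose (q + 2)) : (0 : ℝ) ≤ _)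
  have h2 := mul_le_mul_of_nonneg_right hv (Nat.cast_nonneg ((i + q).choose (q + 1)) : (0 : ℝ) ≤ _)
  have h3 := mul_le_mul_of_nonneg_right hw (Nat.cast_nonneg ((i + q - 1).choose q) : (0 : ℝ) ≤ _)
  linarith

theorem Gc_zero (u v w : ℝ) {i : ℕ} (_hi : 1 ≤ i) : Gc u v w i 0 = u * ((i : ℝ) * (i + 1) / 2) + v * i + w := by
  unfold Gc
  rw [show i + 0 + 1 = i + 1 by omega, show 0 + 2 = 2 from rfl, show 0 + 1 = 1 from rfl,
    Nat.cast_choose_two, Nat.choose_one_right, Nat.choose_zero_right]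
  push_cast
  ring

theorem choose_step {n k : ℕ} : ((n + 1).choose (k + 1) : ℝ) * (k + 1) = (n + 1) * (n.choose k : ℝ) := by
  have a1 := Nat.add_one_mul_choose_eq n k
  have a2 := congrArg (fun z : ℕ => (z : ℝ)) a1
  push_cast at a2
  exact a2.symm

theorem Gc_succ {u v w : ℝ} (hu : 0 ≤ u) (hv : 0 ≤ v) (hw : 0 ≤ w) {i : ℕ} (hi : 1 ≤ i) (q : ℕ) :
    Gc u v w i (q + 1) ≤ i * Gc u v w i q := by
  have hi' : (1 : ℝ) ≤ i := by exact_mod_cast hi
  have hq : (0 : ℝ) ≤ q := Nat.cast_nonneg q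
  obtain ⟨c1, hc1⟩ : ∃ c : ℝ, c = ((i + q + 1).choose (q + 2) : ℝ) := ⟨_, rfl⟩
  obtain ⟨c2, hc2⟩ : ∃ c : ℝ, c = ((i + q).choose (q + 1) : ℝ) := ⟨_, rfl⟩
  obtain ⟨c3, hc3⟩ : ∃ c : ℝ, c = ((i + q - 1).choose q : ℝ) := ⟨_, rfl⟩
  obtain ⟨d1, hd1⟩ : ∃ c : ℝ, c = ((i + (q + 1) + 1).choose (q + 1 + 2) : ℝ) := ⟨_, rfl⟩
  have e1 : d1 * ((q : ℝ) + 3) = ((i : ℝ) + q + 2) * c1 := by
    have h := choose_step (n := i + q + 1) (k := q + 2)
    push_cast at h
    rw [hd1, hc1, show i + (q + 1) + 1 = i + q + 1 + 1 by omega, show q + 1 + 2 = q + 2 + 1 by omega]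
    linear_combination h
  have e2 : c1 * ((q : ℝ) + 2) = ((i : ℝ) + q + 1) * c2 := by
    have h := choose_step (n := i + q) (k := q + 1)
    push_cast at h
    rw [hc1, hc2, show q + 2 = q + 1 + 1 by omega]
    linear_combination h
  have e3 : c2 * ((q : ℝ) + 1) = ((i : ℝ) + q) * c3 := by
    have h := choose_step (n := i + q - 1) (k := q)
    rw [show i + q - 1 + 1 = i + q by omega] at h
    have h4 : ((i + q - 1 : ℕ) : ℝ) + 1 = i + q := by
      have : i + q - 1 + 1 = i + q := by omega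
      exact_mod_cast this
    rw [h4] at h
    rw [hc2, hc3]
    exact h
  have p1 : 0 ≤ c1 := by rw [hc1]; positivity
  have p2 : 0 ≤ c2 := by rw [hc2]; positivity
  have p3 : 0 ≤ c3 := by rw [hc3]; positivity
  have hiq : 0 ≤ ((i : ℝ) - 1) * q := mul_nonneg (by linarith) hq
  have f1 : d1 ≤ i * c1 := by
    have h : d1 * ((q : ℝ) + 3) ≤ (i * c1) * ((q : ℝ) + 3) := by
      rw [e1]
      have := mul_nonneg hiq p1
      nlinarith [mul_nonneg (by linarith : 0 ≤ (i : ℝ) - 1) p1]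
    exact le_of_mul_le_mul_right h (by linarith)
  have f2 : c1 ≤ i * c2 := by
    have h : c1 * ((q : ℝ) + 2) ≤ (i * c2) * ((q : ℝ) + 2) := by
      rw [e2]
      have := mul_nonneg hiq p2
      nlinarith [mul_nonneg (by linarith : 0 ≤ (i : ℝ) - 1) p2]
    exact le_of_mul_le_mul_right h (by linarith)
  have f3 : c2 ≤ i * c3 := by
    have h : c2 * ((q : ℝ) + 1) ≤ (i * c3) * ((q : ℝ) + 1) := by
      rw [e3]
      have := mul_nonneg hiq p3
      nlinarith
    exact le_of_mul_le_mul_right h (by linarith)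
  unfold Gc
  rw [← hd1, show i + (q + 1) = i + q + 1 by omega, show q + 1 + 1 = q + 2 by omega,
    show i + q + 1 - 1 = i + q by omega, ← hc1, ← hc2, ← hc3]
  have g1 := mul_le_mul_of_nonneg_left f1 hu
  have g2 := mul_le_mul_of_nonneg_left f2 hv
  have g3 := mul_le_mul_of_nonneg_left f3 hw
  linarith

theorem Gc_sum {u v w : ℝ} (hu : 0 ≤ u) (hv : 0 ≤ v) (hw : 0 ≤ w) {i : ℕ} (hi : 1 ≤ i) {R : ℕ → ℝ}
    (hR : ∀ p, 0 < R p) {ρ : ℝ} (hρ : ρ < 1)
    (hr : ∀ q, i * R (i + 2 + (q + 1)) ≤ ρ * R (i + 2 + q)) (n : ℕ) :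
    (1 - ρ) * ∑ q ∈ range n, Gc u v w i q * R (i + 2 + q) ≤ Gc u v w i 0 * R (i + 2) := by
  refine sum_geo hρ n (fun q => Gc u v w i q * R (i + 2 + q))
    (fun q => mul_nonneg (Gc_nonneg hu hv hw i q) (hR _).le) fun q => ?_
  have h1 := Gc_succ hu hv hw hi q
  have h2 := Gc_nonneg hu hv hw i q
  have h3 := hr q
  have h4 := (hR (i + 2 + (q + 1))).le
  calc Gc u v w i (q + 1) * R (i + 2 + (q + 1)) ≤ i * Gc u v w i q * R (i + 2 + (q + 1)) :=
        mul_le_mul_of_nonneg_right h1 h4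
    _ = Gc u v w i q * (i * R (i + 2 + (q + 1))) := by ring
    _ ≤ Gc u v w i q * (ρ * R (i + 2 + q)) := mul_le_mul_of_nonneg_left h3 h2
    _ = ρ * (Gc u v w i q * R (i + 2 + q)) := by ring

/-- the first part: sum at most `19/3` times the first term -/
theorem uf_sum {t i : ℕ} {a : ℝ} (ha : 1 ≤ a) (hai : a + i = t + 1) {R : ℕ → ℝ}
    (hR : RS a (2 * t + 3) R) (n : ℕ) : ∑ q ∈ range n, uf t i R q ≤ 19 / 3 * uf t i R 0 := by
  have ha0 : 0 < a := by linarith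
  have hi0 : (0 : ℝ) ≤ i := Nat.cast_nonneg i
  have ht0 : (0 : ℝ) ≤ t := Nat.cast_nonneg t
  have hN : (0 : ℝ) < 2 * t + 3 := by linarith
  have step : ∀ q : ℕ, uf t i R (q + 1) * (((q : ℝ) + 3) * (q + 1)) ≤ 2 * (q + 2) * uf t i R q := by
    intro q
    have hq : (0 : ℝ) ≤ q := Nat.cast_nonneg q
    have h1 := uf_succ t i R q
    have h2 := hR.ratio ha0 hN (i + 2 + q) (u := 2) (v := t + i + q + 2) (by positivity) (by
      push_cast
      have e : (t : ℝ) = a + i - 1 := by linarith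
      rw [e]
      have k1 : 0 ≤ (i : ℝ) * a ^ 2 := by positivity
      have k2 : 0 ≤ (q : ℝ) * a ^ 2 := by positivity
      have k3 : 0 ≤ (i : ℝ) * a := by positivity
      have k4 : 0 ≤ (q : ℝ) * a := by positivity
      have k5 : 0 ≤ (i : ℝ) * q := by positivity
      have k6 : 0 ≤ (q : ℝ) ^ 2 * a := by positivity
      have k7 : 0 ≤ (i : ℝ) * q * a := by positivity
      nlinarith [mul_nonneg hi0 hi0, mul_nonneg hq hq, mul_nonneg ha0.le ha0.le])
    have hu := uf_nonneg t i hR.pos q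
    have hRp := hR.pos (i + 2 + q)
    have hu1 := uf_nonneg t i hR.pos (q + 1)
    have h3 : uf t i R (q + 1) * (((q : ℝ) + 3) * (q + 1)) * ((i + q + 3) * R (i + 2 + q)) ≤
        2 * (q + 2) * uf t i R q * ((i + q + 3) * R (i + 2 + q)) := by
      calc uf t i R (q + 1) * (((q : ℝ) + 3) * (q + 1)) * ((i + q + 3) * R (i + 2 + q))
          = uf t i R q * ((q + 2) * (i + q + 2)) * (R (i + 2 + (q + 1)) * (t + i + q + 2)) := by
            linear_combination h1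
        _ ≤ uf t i R q * ((q + 2) * (i + q + 2)) * (R (i + 2 + q) * 2) :=
            mul_le_mul_of_nonneg_left h2 (by positivity)
        _ = 2 * (q + 2) * uf t i R q * ((i + q + 2) * R (i + 2 + q)) := by ring
        _ ≤ _ := by
            refine mul_le_mul_of_nonneg_left ?_ (by positivity)
            exact mul_le_mul_of_nonneg_right (by linarith) hRp.le
    exact le_of_mul_le_mul_right h3 (by positivity)
  have s1 := sum_geo1 (ρ := 3 / 4) (by norm_num) n (uf t i R) (uf_nonneg t i hR.pos) (by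
    intro q hq
    have hq' : (1 : ℝ) ≤ q := by exact_mod_cast hq
    have h1 := step q
    have hu := uf_nonneg t i hR.pos q
    have hp : (0 : ℝ) < ((q : ℝ) + 3) * (q + 1) := by positivity
    refine le_of_mul_le_mul_right (h1.trans ?_) hp
    have h2 : 2 * ((q : ℝ) + 2) ≤ 3 / 4 * (((q : ℝ) + 3) * (q + 1)) := by nlinarith
    calc 2 * ((q : ℝ) + 2) * uf t i R q ≤ 3 / 4 * (((q : ℝ) + 3) * (q + 1)) * uf t i R q :=
          mul_le_mul_of_nonneg_right h2 hu
      _ = _ := by ring)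
  have s2 := step 0
  have e : uf t i R (0 + 1) = uf t i R 1 := rfl
  rw [e] at s2
  push_cast at s2
  linarith

theorem uf_zero (t i : ℕ) (R : ℕ → ℝ) :
    uf t i R 0 = ((t : ℝ) + i + 1) / 2 * (t * i / (i + 2)) * R (i + 2) := by
  unfold uf
  rw [pq_succ t i le_rfl, pq_one]
  have f2 : (((0 + 2).factorial : ℕ) : ℝ) = 2 := by norm_num [Nat.factorial]
  rw [f2]
  push_cast
  rw [show i + 2 + 0 = i + 2 by omega]
  ring

/-- `t R_{i+2} ≤ (i+3)/(i+2) R_{i+1}` -/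
theorem RS.tR {t i : ℕ} {a : ℝ} (ha : 1 ≤ a) (hai : a + i = t + 1) (hi : 1 ≤ i) {R : ℕ → ℝ}
    (hR : RS a (2 * t + 3) R) : t * R (i + 2) ≤ (i + 3) / (i + 2) * R (i + 1) := by
  have ha0 : 0 < a := by linarith
  have hi0 : (1 : ℝ) ≤ i := by exact_mod_cast hi
  have ht0 : (1 : ℝ) ≤ t := by linarith
  have hN : (0 : ℝ) < 2 * t + 3 := by linarith
  have h := hR.ratio ha0 hN (i + 1) (u := i + 3) (v := t * (i + 2)) (by positivity) (by
    push_cast
    have e : (t : ℝ) = a + i - 1 := by linarith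
    rw [e]
    have e2 : (2 * (a + (i : ℝ) - 1) + 3 + (i + 1) * a) = (i + 3) * a + 2 * i + 1 := by ring
    have e3 : (a ^ 2 + (2 * (a + (i : ℝ) - 1) + 3) + (i + 1) * a) = a ^ 2 + (i + 3) * a + 2 * i + 1 := by
      ring
    rw [e2, e3]
    have k : ((i + 3) * a + 2 * (i : ℝ) + 1) * (a + i - 1) ≤
        (i + 3) * (a ^ 2 + (i + 3) * a + 2 * i + 1) := by
      have k3 : 0 ≤ (i : ℝ) * a := by positivity
      nlinarith
    have := mul_le_mul_of_nonneg_right k (by linarith : (0 : ℝ) ≤ (i : ℝ) + 2)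
    nlinarith [this])
  have e : R (i + 1 + 1) = R (i + 2) := rfl
  rw [e] at h
  rw [div_mul_eq_mul_div, le_div_iff₀ (by positivity)]
  linarith

end Pool.JM
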