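import Pool.Agent.Work.MP_46fa68_h4.Lay5

/-!
# MP_46fa68_co: the first row, layers 5 and beyond: the inequalities
-/

set_option autoImplicit false

open Finset Equiv

namespace Pool.JM

/-- all layers `i + 2 ≥ 9`, absolute value -/
theorem lay_abs_core {t i a : ℕ} (ht : 17 ≤ t) (hi : 7 ≤ i) (ha : 1 ≤ a) (hai : a + i = t + 1)
    {μ : ℝ} (hμ0 : 0 ≤ μ) (hμ1 : μ ≤ 1) {g1 g2 : ℝ} (hg1 : g1 = -μ * (3 * t + 10))
    (hg2 : g2 = μ * (2 * (t + 3) * (t + 4))) {R : ℕ → ℝ} (hR : RS (a : ℝ) (2 * t + 3) R) (n : ℕ) :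
    |-g1 * R (i + 1) - ∑ q ∈ range n, (gq g1 g2 i (q + 2) - nq t i (q + 2)) * R (i + 2 + q)| ≤
      (4 + 5 / 6 * ((i : ℝ) + 3)) * ((3 * t + 10) * R (i + 1)) := by
  have htR : (17 : ℝ) ≤ t := by exact_mod_cast ht
  have hiR : (7 : ℝ) ≤ i := by exact_mod_cast hi
  have haR : (1 : ℝ) ≤ a := by exact_mod_cast ha
  have haiR : (a : ℝ) + i = t + 1 := by exact_mod_cast hai
  have hit : (i : ℝ) ≤ t := by linarith
  have r1 := hR.pos (i + 1)
  have r2 := hR.pos (i + 2)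
  have htr := RS.tR haR haiR (by omega : 1 ≤ i) hR
  have htr' : t * R (i + 2) ≤ 5 / 4 * R (i + 1) := by
    refine htr.trans (mul_le_mul_of_nonneg_right ?_ r1.le)
    rw [div_le_div_iff₀ (by linarith) (by norm_num)]
    linarith
  have hg1' : -(3 * (t : ℝ) + 10) ≤ g1 := by rw [hg1]; nlinarith
  have hg1'' : g1 ≤ 0 := by rw [hg1]; nlinarith [mul_nonneg hμ0 (by linarith : (0:ℝ) ≤ 3 * t + 10)]
  have hg2' : g2 ≤ 2 * (t + 3) * (t + 4) := by
    rw [hg2]
    have : (0 : ℝ) ≤ 2 * (t + 3) * (t + 4) := by positivity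
    nlinarith
  have hg2'' : 0 ≤ g2 := by rw [hg2]; positivity
  obtain ⟨v, hv⟩ : ∃ v : ℝ, v = 3 * t + 10 := ⟨_, rfl⟩
  obtain ⟨w, hw⟩ : ∃ w : ℝ, w = 2 * (t + 3) * (t + 4) := ⟨_, rfl⟩
  have hv0 : 0 ≤ v := by rw [hv]; positivity
  have hw0 : 0 ≤ w := by rw [hw]; positivity
  -- the terms
  have hterm : ∀ q, |(gq g1 g2 i (q + 2) - nq t i (q + 2)) * R (i + 2 + q)| ≤
      Gc 1 v w i q * R (i + 2 + q) + uf t i R q := by
    intro q
    have hRp := hR.pos (i + 2 + q)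
    rw [abs_mul, abs_of_pos hRp]
    have h1 : |gq g1 g2 i (q + 2)| ≤ Gc 1 v w i q := by
      rw [gq_Gc g1 g2 (by omega : 1 ≤ i), abs_le]
      constructor
      · have : -Gc 1 v w i q ≤ Gc 1 g1 g2 i q := by
          have h2 : Gc (-1) (-v) (-w) i q ≤ Gc 1 g1 g2 i q :=
            Gc_mono (by norm_num) (by rw [hv]; exact hg1') (by linarith) i q
          have h3 : Gc (-1) (-v) (-w) i q = -Gc 1 v w i q := by unfold Gc; ring
          linarith
        exact this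
      · exact Gc_mono le_rfl (by linarith) (by rw [hw]; exact hg2') i q
    have h2 : |nq t i (q + 2)| ≤ pq t i (q + 2) / (q + 2).factorial *
        (t * i * (((q + 2 : ℕ) : ℝ) - 1) / (i + (q + 2 : ℕ))) := by
      rw [abs_le]
      have h3 := neg_nq_le t i (by omega : 1 ≤ q + 2)
      have h4 := nq_le t i (by omega : 2 ≤ q + 2) (by omega) (by omega)
      constructor
      · linarith
      · exact h4
    have h3 : |gq g1 g2 i (q + 2) - nq t i (q + 2)| ≤ |gq g1 g2 i (q + 2)| + |nq t i (q + 2)| := by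
      rw [sub_eq_add_neg]
      refine (abs_add_le _ _).trans ?_
      rw [abs_neg]
    have h4 := mul_le_mul_of_nonneg_right (h3.trans (add_le_add h1 h2)) hRp.le
    refine h4.trans (le_of_eq ?_)
    unfold uf
    push_cast
    have e1 : (i : ℝ) + (q + 2) = i + q + 2 := by ring
    have e2 : (q : ℝ) + 2 - 1 = q + 1 := by ring
    rw [e1, e2]
    ring
  have hsum : |∑ q ∈ range n, (gq g1 g2 i (q + 2) - nq t i (q + 2)) * R (i + 2 + q)| ≤
      ∑ q ∈ range n, Gc 1 v w i q * R (i + 2 + q) + ∑ q ∈ range n, uf t i R q := by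
    rw [← sum_add_distrib]
    exact (abs_sum_le_sum_abs _ _).trans (sum_le_sum fun q _ => hterm q)
  -- the uf sum
  have s1 := uf_sum haR haiR hR n
  rw [uf_zero] at s1
  have s1' : ((t : ℝ) + i + 1) / 2 * (t * i / (i + 2)) * R (i + 2) ≤ t * (5 / 4 * R (i + 1)) := by
    have h1 : ((t : ℝ) + i + 1) / 2 * (t * i / (i + 2)) ≤ t * t := by
      rw [div_mul_div_comm, div_le_iff₀ (by positivity)]
      nlinarith [mul_nonneg (by linarith : (0:ℝ) ≤ t - i) (by positivity : (0:ℝ) ≤ (t : ℝ) * i),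
        mul_nonneg (by linarith : (0:ℝ) ≤ (t:ℝ)) (by linarith : (0:ℝ) ≤ (t : ℝ) - i), mul_nonneg (by linarith : (0:ℝ) ≤ (t:ℝ)) (by linarith : (0:ℝ) ≤ (t : ℝ) - 1)]
    calc _ ≤ (t : ℝ) * t * R (i + 2) := mul_le_mul_of_nonneg_right h1 r2.le
      _ = t * (t * R (i + 2)) := by ring
      _ ≤ t * (5 / 4 * R (i + 1)) := mul_le_mul_of_nonneg_left htr' (by linarith)
  have s1'' : ∑ q ∈ range n, uf t i R q ≤ 3 * ((3 * t + 10) * R (i + 1)) := by
    have : ∑ q ∈ range n, uf t i R q ≤ 19 / 3 * (t * (5 / 4 * R (i + 1))) := by linarith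
    nlinarith [mul_nonneg (by linarith : (0:ℝ) ≤ (t:ℝ)) r1.le]
  -- the binomial sum
  have s2 := Gc_sum (u := 1) (v := v) (w := w) (by norm_num) hv0 hw0 (by omega : 1 ≤ i) hR.pos
    (ρ := i / (i + 3)) (by rw [div_lt_one (by linarith)]; linarith) (by
      intro q
      have hq : (0 : ℝ) ≤ q := Nat.cast_nonneg q
      have h1 := hR.ratio (by linarith) (by linarith) (i + 2 + q) (u := 1) (v := i + 3) (by linarith) (by
        push_cast
        have h2 : (0 : ℝ) ≤ 2 * t + 3 + (i + 2 + q) * a := by positivity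
        have h3 : (0 : ℝ) ≤ (a : ℝ) ^ 2 := by positivity
        nlinarith [mul_nonneg hq h2, mul_nonneg (by linarith : (0:ℝ) ≤ (i:ℝ) + 2 + q + 1) h3])
      rw [show i + 2 + q + 1 = i + 2 + (q + 1) by omega] at h1
      rw [div_mul_eq_mul_div, le_div_iff₀ (by linarith)]
      nlinarith) n
  rw [Gc_zero _ _ _ (by omega : 1 ≤ i)] at s2
  have e : 1 - (i : ℝ) / (i + 3) = 3 / (i + 3) := by
    have : (i : ℝ) + 3 ≠ 0 := by linarith
    field_simp
    ring
  rw [e] at s2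
  have s2' : (1 * ((i : ℝ) * (i + 1) / 2) + v * i + w) * R (i + 2) ≤ 5 / 2 * ((3 * t + 10) * R (i + 1)) := by
    have h1 : 1 * ((i : ℝ) * (i + 1) / 2) + v * i + w ≤ (11 / 2 * t + 49 / 2 + 24 / 17) * t := by
      rw [hv, hw]
      have h2 : (i : ℝ) * (i + 1) ≤ t * (t + 1) := by nlinarith
      have h3 : (3 * (t : ℝ) + 10) * i ≤ (3 * t + 10) * t :=
        mul_le_mul_of_nonneg_left hit (by linarith)
      nlinarith
    calc _ ≤ (11 / 2 * (t : ℝ) + 49 / 2 + 24 / 17) * t * R (i + 2) := mul_le_mul_of_nonneg_right h1 r2.le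
      _ = (11 / 2 * (t : ℝ) + 49 / 2 + 24 / 17) * (t * R (i + 2)) := by ring
      _ ≤ (11 / 2 * (t : ℝ) + 49 / 2 + 24 / 17) * (5 / 4 * R (i + 1)) :=
          mul_le_mul_of_nonneg_left htr' (by positivity)
      _ ≤ _ := by nlinarith
  have s2'' : ∑ q ∈ range n, Gc 1 v w i q * R (i + 2 + q) ≤
      5 / 6 * (i + 3) * ((3 * t + 10) * R (i + 1)) := by
    have h1 := s2.trans s2'
    rw [div_mul_eq_mul_div, div_le_iff₀ (by linarith)] at h1
    linarith
  -- the end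
  have h5 : |-g1 * R (i + 1)| ≤ (3 * t + 10) * R (i + 1) := by
    rw [abs_mul, abs_of_pos r1, abs_neg]
    refine mul_le_mul_of_nonneg_right ?_ r1.le
    rw [abs_le]
    constructor <;> linarith
  have h6 : |-g1 * R (i + 1) - ∑ q ∈ range n, (gq g1 g2 i (q + 2) - nq t i (q + 2)) * R (i + 2 + q)| ≤
      |-g1 * R (i + 1)| + |∑ q ∈ range n, (gq g1 g2 i (q + 2) - nq t i (q + 2)) * R (i + 2 + q)| := by
    rw [sub_eq_add_neg]
    refine (abs_add_le _ _).trans ?_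
    rw [abs_neg (∑ q ∈ range n, (gq g1 g2 i (q + 2) - nq t i (q + 2)) * R (i + 2 + q))]
  linarith

end Pool.JM
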