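import Pool.Agent.Work.MP_46fa68_h4.Lay5

/-!
# MP_46fa68_co: the first row, layers 5, 6, 7, 8: the inequalities
-/

set_option autoImplicit false

open Finset Equiv

namespace Pool.JM

/-- nonnegative coefficients -/
theorem gq_nonneg {i : ℕ} (hi : 1 ≤ i) {g1 g2 : ℝ} (hg1 : g1 ≤ 0) (h : 0 ≤ i * g1 + g2) (q : ℕ) :
    0 ≤ gq g1 g2 i (q + 2) := by
  have hi' : (1 : ℝ) ≤ i := by exact_mod_cast hi
  have hq : (0 : ℝ) ≤ q := Nat.cast_nonneg q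
  rw [gq_Gc g1 g2 hi]
  unfold Gc
  have e3 : ((i + q).choose (q + 1) : ℝ) * ((q : ℝ) + 1) = ((i : ℝ) + q) * ((i + q - 1).choose q : ℝ) := by
    have h := choose_step (n := i + q - 1) (k := q)
    rw [show i + q - 1 + 1 = i + q by omega] at h
    have h4 : ((i + q - 1 : ℕ) : ℝ) + 1 = i + q := by
      have : i + q - 1 + 1 = i + q := by omega
      exact_mod_cast this
    rw [h4] at h
    exact h
  have p3 : (0 : ℝ) ≤ ((i + q - 1).choose q : ℝ) := Nat.cast_nonneg _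
  have f3 : ((i + q).choose (q + 1) : ℝ) ≤ i * ((i + q - 1).choose q : ℝ) := by
    have h : ((i + q).choose (q + 1) : ℝ) * ((q : ℝ) + 1) ≤ (i * ((i + q - 1).choose q : ℝ)) * ((q : ℝ) + 1) := by
      rw [e3]
      have := mul_nonneg (mul_nonneg (by linarith : 0 ≤ (i : ℝ) - 1) hq) p3
      nlinarith
    exact le_of_mul_le_mul_right h (by linarith)
  have p1 : (0 : ℝ) ≤ ((i + q + 1).choose (q + 2) : ℝ) := Nat.cast_nonneg _
  have h5 := mul_le_mul_of_nonpos_left f3 hg1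
  have h6 := mul_nonneg h p3
  nlinarith

/-- even layers: the sum may be dropped -/
theorem even_core {t i : ℕ} (hi : 1 ≤ i) (hit : i + 2 ≤ t) {g1 g2 : ℝ} (hg1 : g1 ≤ 0)
    (h : 0 ≤ i * g1 + g2) {R : ℕ → ℝ} (hR : ∀ p, 0 < R p) (q : ℕ) :
    0 ≤ (gq g1 g2 i (q + 2) - nq t i (q + 2)) * R (i + 2 + q) := by
  have h1 := gq_nonneg hi hg1 h q
  have h2 := nq_nonpos hi hit (by omega : 2 ≤ q + 2)
  exact mul_nonneg (by linarith) (hR _).le

theorem lay6_core {t : ℕ} (ht : 17 ≤ t) {μ : ℝ} (hμ0 : 0 ≤ μ) (hμ1 : μ ≤ 1) {g1 g2 : ℝ}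
    (hg1 : g1 = -μ * (3 * t + 10)) (hg2 : g2 = μ * (2 * (t + 3) * (t + 4))) {R : ℕ → ℝ}
    (hR : RS ((t : ℝ) - 3) (2 * t + 3) R) {n : ℕ} (hn : 1 ≤ n) :
    -g1 * R 5 - ∑ q ∈ range n, (gq g1 g2 4 (q + 2) - nq t 4 (q + 2)) * R (4 + 2 + q) ≤
      3 / 5 * ((3 * t + 10) * R 5) := by
  have htR : (17 : ℝ) ≤ t := by exact_mod_cast ht
  have hg1' : g1 ≤ 0 := by rw [hg1]; nlinarith [mul_nonneg hμ0 (by linarith : (0:ℝ) ≤ 3 * t + 10)]
  have h4 : 0 ≤ ((4 : ℕ) : ℝ) * g1 + g2 := by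
    rw [hg1, hg2]
    push_cast
    have : 0 ≤ μ * (2 * (t + 3) * (t + 4) - 4 * (3 * t + 10)) := mul_nonneg hμ0 (by nlinarith)
    linarith
  have hD := even_core (t := t) (i := 4) (by norm_num) (by omega) hg1' h4 hR.pos
  have h1 : (gq g1 g2 4 (0 + 2) - nq t 4 (0 + 2)) * R (4 + 2 + 0) ≤
      ∑ q ∈ range n, (gq g1 g2 4 (q + 2) - nq t 4 (q + 2)) * R (4 + 2 + q) :=
    single_le_sum (f := fun q => (gq g1 g2 4 (q + 2) - nq t 4 (q + 2)) * R (4 + 2 + q))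
      (fun q _ => hD q) (mem_range.2 (by omega))
  have h2 := nq_nonpos (t := t) (i := 4) (q := 0 + 2) (by norm_num) (by omega) (by norm_num)
  have h3 : gq g1 g2 4 (0 + 2) = 10 + 4 * g1 + g2 := by
    rw [gq_Gc g1 g2 (by norm_num : 1 ≤ 4) 0, Gc_zero _ _ _ (by norm_num : 1 ≤ 4)]
    push_cast
    ring
  rw [h3, show 4 + 2 + 0 = 6 from rfl] at h1
  have r6 := hR.pos 6
  have r5 := hR.pos 5
  have hge := hR.ge 5
  have e : R (5 + 1) = R 6 := rfl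
  rw [e] at hge
  push_cast at hge
  have h5 : (10 + 4 * g1 + g2) * R 6 ≤ (10 + 4 * g1 + g2 - nq t 4 (0 + 2)) * R 6 :=
    mul_le_mul_of_nonneg_right (by linarith) r6.le
  have h6 : 0 ≤ 10 + 4 * g1 + g2 := by push_cast at h4; linarith
  have h7 : (10 + 4 * g1 + g2) * R 5 ≤ (10 + 4 * g1 + g2) * (R 6 * ((t : ℝ) - 3 + 5 + 1)) :=
    mul_le_mul_of_nonneg_left hge h6
  have ht3 : (0 : ℝ) < (t : ℝ) + 3 := by linarith
  refine (sub_le_sub_left (h5.trans h1) _).trans ?_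
  refine le_of_mul_le_mul_right ?_ ht3
  have h8 : (-g1 * (t + 3) - (10 + 4 * g1 + g2)) * R 5 ≤ 3 / 5 * (3 * t + 10) * (t + 3) * R 5 := by
    refine mul_le_mul_of_nonneg_right ?_ r5.le
    rw [hg1, hg2]
    have : μ * ((t : ℝ) ^ 2 + 17 * t + 46) ≤ 1 * ((t : ℝ) ^ 2 + 17 * t + 46) :=
      mul_le_mul_of_nonneg_right hμ1 (by positivity)
    nlinarith
  have h9 : (10 + 4 * g1 + g2) * (R 6 * ((t : ℝ) - 3 + 5 + 1)) = (10 + 4 * g1 + g2) * R 6 * (t + 3) := by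
    ring
  rw [h9] at h7
  linarith

/-- odd layers: upper bound for the sum -/
theorem odd_upper {t i : ℕ} (hi : 1 ≤ i) {g1 g2 w : ℝ} (hg1 : g1 ≤ 0) (hw : g2 ≤ w)
    {R : ℕ → ℝ} (hR : ∀ p, 0 < R p) (n : ℕ) :
    ∑ q ∈ range n, (gq g1 g2 i (q + 2) - nq t i (q + 2)) * R (i + 2 + q) ≤
      ∑ q ∈ range n, Gc 1 0 w i q * R (i + 2 + q) + ∑ q ∈ range n, uf t i R q := by
  rw [← sum_add_distrib]
  refine sum_le_sum fun q _ => ?_
  have h1 := neg_nq_le t i (by omega : 1 ≤ q + 2)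
  have h2 := (hR (i + 2 + q)).le
  have h3 : gq g1 g2 i (q + 2) ≤ Gc 1 0 w i q := by
    rw [gq_Gc g1 g2 hi]
    exact Gc_mono le_rfl hg1 hw i q
  have h4 := mul_le_mul_of_nonneg_right (add_le_add h3 h1) h2
  rw [← sub_eq_add_neg] at h4
  refine h4.trans (le_of_eq ?_)
  unfold uf
  push_cast
  have e1 : (i : ℝ) + (q + 2) = i + q + 2 := by ring
  have e2 : (q : ℝ) + 2 - 1 = q + 1 := by ring
  rw [e1, e2]
  ring

theorem lay7_core {t : ℕ} (ht : 17 ≤ t) {μ : ℝ} (hμ0 : 0 ≤ μ) (hμ1 : μ ≤ 1) {g1 g2 : ℝ}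
    (hg1 : g1 = -μ * (3 * t + 10)) (hg2 : g2 = μ * (2 * (t + 3) * (t + 4))) {R : ℕ → ℝ}
    (hR : RS ((t : ℝ) - 4) (2 * t + 3) R) (n : ℕ) :
    -(23 / 10 * ((3 * t + 10) * R 6)) ≤
      -g1 * R 6 - ∑ q ∈ range n, (gq g1 g2 5 (q + 2) - nq t 5 (q + 2)) * R (5 + 2 + q) := by
  have htR : (17 : ℝ) ≤ t := by exact_mod_cast ht
  have ht0 : (0 : ℝ) < t := by linarith
  obtain ⟨w, hw⟩ : ∃ w : ℝ, w = 2 * (t + 3) * (t + 4) := ⟨_, rfl⟩
  have hw0 : 0 ≤ w := by rw [hw]; positivity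
  have hg1' : g1 ≤ 0 := by rw [hg1]; nlinarith [mul_nonneg hμ0 (by linarith : (0:ℝ) ≤ 3 * t + 10)]
  have hg2' : g2 ≤ w := by
    rw [hg2, hw]
    have : (0 : ℝ) ≤ 2 * (t + 3) * (t + 4) := by positivity
    nlinarith
  have h1 := odd_upper (t := t) (i := 5) (by norm_num) hg1' hg2' hR.pos n
  have ha1 : (1 : ℝ) ≤ (t : ℝ) - 4 := by linarith
  have hai : (t : ℝ) - 4 + ((5 : ℕ) : ℝ) = t + 1 := by push_cast; ring
  have r6 := hR.pos 6
  have r7 := hR.pos 7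
  have htr := RS.tR ha1 hai (by norm_num : 1 ≤ 5) hR
  have e5 : 5 + 2 = 7 := rfl
  have e6 : 5 + 1 = 6 := rfl
  rw [e5, e6] at htr
  push_cast at htr
  have s1 := uf_sum ha1 hai hR n
  rw [uf_zero, e5] at s1
  push_cast at s1
  have s2 := Gc_sum (u := 1) (v := 0) (w := w) (by norm_num) le_rfl hw0 (by norm_num : 1 ≤ 5) hR.pos
    (ρ := 3 / 11) (by norm_num) (by
      intro q
      have hq : (0 : ℝ) ≤ q := Nat.cast_nonneg q
      have h1 := hR.ratio (by linarith) (by linarith) (5 + 2 + q) (u := 3) (v := 55) (by norm_num) (by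
        push_cast
        have h2 : (0 : ℝ) ≤ q * ((t : ℝ) - 4) := mul_nonneg hq (by linarith)
        obtain ⟨x, hx⟩ : ∃ x : ℝ, (t : ℝ) = x + 17 := ⟨t - 17, by ring⟩
        have hx0 : 0 ≤ x := by linarith
        rw [hx]
        have k1 : 0 ≤ (q : ℝ) * x := by positivity
        have k2 : 0 ≤ (q : ℝ) * x ^ 2 := by positivity
        have k3 : 0 ≤ (q : ℝ) ^ 2 * x := by positivity
        nlinarith [mul_nonneg hx0 hx0, mul_nonneg hq hq])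
      rw [show 5 + 2 + q + 1 = 5 + 2 + (q + 1) by omega] at h1
      push_cast
      linarith) n
  rw [Gc_zero _ _ _ (by norm_num : 1 ≤ 5), e5] at s2
  push_cast at s2
  -- everything times `t`
  have h2 : 0 ≤ -g1 * R 6 := mul_nonneg (by linarith) r6.le
  obtain ⟨S1, hS1⟩ : ∃ S : ℝ, S = ∑ q ∈ range n, uf t 5 R q := ⟨_, rfl⟩
  obtain ⟨S2, hS2⟩ : ∃ S : ℝ, S = ∑ q ∈ range n, Gc 1 0 w 5 q * R (5 + 2 + q) := ⟨_, rfl⟩
  rw [← hS1] at s1 h1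
  rw [← hS2] at h1
  have hS2' : ∑ x ∈ range n, Gc 1 0 w 5 x * R (5 + 2 + x) = S2 := hS2.symm
  have s2' : S2 ≤ 11 / 8 * ((15 + w) * R 7) := by
    have : (1 - 3 / 11) * S2 ≤ (1 * ((5 : ℝ) * (5 + 1) / 2) + 0 * 5 + w) * R 7 := by
      rw [hS2]; exact s2
    linarith
  have s1' : S1 ≤ 19 / 3 * ((t + 6) / 2 * (5 / 7) * (8 / 7 * R 6)) := by
    have h3 : ((t : ℝ) + 6) / 2 * (5 / 7) * (t * R 7) ≤ (t + 6) / 2 * (5 / 7) * (8 / 7 * R 6) := by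
      refine mul_le_mul_of_nonneg_left ?_ (by positivity)
      linarith
    have h4 : ((t : ℝ) + 5 + 1) / 2 * (t * 5 / (5 + 2)) * R 7 = (t + 6) / 2 * (5 / 7) * (t * R 7) := by ring
    linarith
  have s2'' : S2 * t ≤ 11 / 8 * ((15 + w) * (8 / 7 * R 6)) := by
    calc S2 * t ≤ 11 / 8 * ((15 + w) * R 7) * t := mul_le_mul_of_nonneg_right s2' ht0.le
      _ = 11 / 8 * ((15 + w) * (t * R 7)) := by ring
      _ ≤ 11 / 8 * ((15 + w) * (8 / 7 * R 6)) := by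
          refine mul_le_mul_of_nonneg_left (mul_le_mul_of_nonneg_left ?_ (by linarith)) (by norm_num)
          linarith
  have h5 : (S1 + S2) * t ≤ 23 / 10 * ((3 * t + 10) * R 6) * t := by
    have h6 : S1 * t ≤ 19 / 3 * ((t + 6) / 2 * (5 / 7) * (8 / 7 * R 6)) * t :=
      mul_le_mul_of_nonneg_right s1' ht0.le
    have h7 : (11 / 8 * ((15 + w) * (8 / 7)) + 19 / 3 * ((t + 6) / 2 * (5 / 7) * (8 / 7)) * t) * R 6 ≤
        (23 / 10 * (3 * t + 10) * t) * R 6 := by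
      refine mul_le_mul_of_nonneg_right ?_ r6.le
      rw [hw]
      nlinarith
    linarith
  have h6 := le_of_mul_le_mul_right h5 ht0
  have h7 : ∑ q ∈ range n, Gc 1 0 w 5 q * R (5 + 2 + q) = S2 := hS2.symm
  linarith

end Pool.JM
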