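import Mathlib

set_option autoImplicit false

/-!
Core of the link lemma (helper99, note 2072) on the permutations of `ZMod m`:
families `A x` (`x : ZMod m`) of permutations moving `0` such that members of different families
have a common cell outside row `0` and column `0` satisfy `sum |A x| <= m! - (m-1)!`.
-/

open Finset

namespace Pool.MP46Link

variable {m : ℕ} [NeZero m]

/-- permutations moving `0` -/
def R (m : ℕ) [NeZero m] : Finset (Equiv.Perm (ZMod m)) := univ.filter (fun ρ => ρ 0 ≠ 0)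

/-- permutations fixing `0` -/
def H (m : ℕ) [NeZero m] : Finset (Equiv.Perm (ZMod m)) := univ.filter (fun ρ => ρ 0 = 0)

/-- members of `H` with a prescribed value -/
def Hv (m : ℕ) [NeZero m] (a b : ZMod m) : Finset (Equiv.Perm (ZMod m)) :=
  (H m).filter (fun β => β a = b)

theorem mem_H (ρ : Equiv.Perm (ZMod m)) : ρ ∈ H m ↔ ρ 0 = 0 := by simp [H]

theorem mem_R (ρ : Equiv.Perm (ZMod m)) : ρ ∈ R m ↔ ρ 0 ≠ 0 := by simp [R]

theorem mem_Hv (a b : ZMod m) (ρ : Equiv.Perm (ZMod m)) : ρ ∈ Hv m a b ↔ ρ 0 = 0 ∧ ρ a = b := by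
  simp [Hv, mem_H]

theorem one_mem_H : (1 : Equiv.Perm (ZMod m)) ∈ H m := by simp [mem_H]

theorem mul_mem_H {α β : Equiv.Perm (ZMod m)} (hα : α ∈ H m) (hβ : β ∈ H m) : α * β ∈ H m := by
  rw [mem_H] at *
  simp [hβ, hα]

theorem inv_mem_H {α : Equiv.Perm (ZMod m)} (hα : α ∈ H m) : α⁻¹ ∈ H m := by
  rw [mem_H] at *
  rw [Equiv.Perm.inv_eq_iff_eq]
  exact hα.symm

theorem swap_mem_H {a b : ZMod m} (ha : a ≠ 0) (hb : b ≠ 0) : Equiv.swap a b ∈ H m := by
  rw [mem_H]
  exact Equiv.swap_apply_of_ne_of_ne ha.symm hb.symm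

theorem card_Hv_eq (a b b' : ZMod m) (hb : b ≠ 0) (hb' : b' ≠ 0) :
    (Hv m a b).card = (Hv m a b').card := by
  refine Finset.card_bij (fun β _ => Equiv.swap b b' * β) ?_ ?_ ?_
  · intro β hβ
    rw [mem_Hv] at hβ ⊢
    obtain ⟨h0, h1⟩ := hβ
    constructor
    · simp [h0, Equiv.swap_apply_of_ne_of_ne hb.symm hb'.symm]
    · simp [h1]
  · intro β _ γ _ h
    exact mul_left_cancel h
  · intro γ hγ
    rw [mem_Hv] at hγ
    obtain ⟨h0, h1⟩ := hγ
    refine ⟨Equiv.swap b b' * γ, ?_, ?_⟩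
    · rw [mem_Hv]
      constructor
      · simp [h0, Equiv.swap_apply_of_ne_of_ne hb.symm hb'.symm]
      · simp [h1]
    · simp [← mul_assoc]

theorem card_nonzero : ((univ : Finset (ZMod m)).filter (fun b => b ≠ 0)).card = m - 1 := by
  rw [Finset.filter_ne', Finset.card_erase_of_mem (Finset.mem_univ _), Finset.card_univ,
    ZMod.card]

theorem card_H_eq (a b : ZMod m) (ha : a ≠ 0) (hb : b ≠ 0) :
    (H m).card = (m - 1) * (Hv m a b).card := by
  have h1 : (H m).card = ∑ c ∈ (univ : Finset (ZMod m)).filter (fun b => b ≠ 0),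
      ((H m).filter (fun β => β a = c)).card := by
    refine Finset.card_eq_sum_card_fiberwise ?_
    intro β hβ
    have h0 : β 0 = 0 := (mem_H β).1 hβ
    simp only [Finset.coe_filter, Finset.mem_univ, true_and, Set.mem_ofPred_eq]
    intro h
    exact ha (β.injective (h.trans h0.symm))
  rw [h1]
  have h2 : ∀ c ∈ (univ : Finset (ZMod m)).filter (fun b => b ≠ 0),
      ((H m).filter (fun β => β a = c)).card = (Hv m a b).card := by
    intro c hc
    rw [Finset.mem_filter] at hc
    exact card_Hv_eq a c b hc.2 hb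
  rw [Finset.sum_congr rfl h2, Finset.sum_const, card_nonzero, smul_eq_mul]

theorem card_perm_eq : Fintype.card (Equiv.Perm (ZMod m)) = m * (H m).card := by
  have h1 : (univ : Finset (Equiv.Perm (ZMod m))).card = ∑ c ∈ (univ : Finset (ZMod m)),
      ((univ : Finset (Equiv.Perm (ZMod m))).filter (fun β => β 0 = c)).card :=
    Finset.card_eq_sum_card_fiberwise (fun β _ => by simp)
  rw [← Finset.card_univ, h1]
  have h2 : ∀ c ∈ (univ : Finset (ZMod m)),
      ((univ : Finset (Equiv.Perm (ZMod m))).filter (fun β => β 0 = c)).card = (H m).card := by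
    intro c _
    refine Finset.card_bij (fun β _ => Equiv.swap c 0 * β) ?_ ?_ ?_
    · intro β hβ
      simp only [Finset.mem_filter, Finset.mem_univ, true_and] at hβ
      rw [mem_H]
      simp [hβ]
    · intro β _ γ _ h
      exact mul_left_cancel h
    · intro γ hγ
      rw [mem_H] at hγ
      refine ⟨Equiv.swap c 0 * γ, ?_, ?_⟩
      · simp [hγ]
      · simp [← mul_assoc]
  rw [Finset.sum_congr rfl h2, Finset.sum_const, Finset.card_univ, ZMod.card, smul_eq_mul]

theorem card_R_add : (R m).card + (H m).card = Fintype.card (Equiv.Perm (ZMod m)) := by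
  have h := Finset.card_filter_add_card_filter_not (s := (univ : Finset (Equiv.Perm (ZMod m))))
    (fun ρ => ρ 0 = 0)
  rw [Finset.card_univ] at h
  unfold R H
  simp only [ne_eq]
  omega

theorem card_H_pos : 0 < (H m).card := Finset.card_pos.2 ⟨1, one_mem_H⟩

theorem card_R_eq : (R m).card = (m - 1) * (H m).card := by
  have h1 := card_R_add (m := m)
  rw [card_perm_eq] at h1
  have h2 : 0 < m := Nat.pos_of_ne_zero (NeZero.ne m)
  obtain ⟨k, rfl⟩ : ∃ k, m = k + 1 := ⟨m - 1, by omega⟩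
  rw [Nat.add_sub_cancel]
  have h3 : (k + 1) * (H (k + 1)).card = k * (H (k + 1)).card + (H (k + 1)).card := by ring
  omega

/-- rows of the near Latin square -/
def row (u i : ZMod m) : Equiv.Perm (ZMod m) := if i = 0 then Equiv.swap 0 u else Equiv.addRight i

theorem row_zero (u : ZMod m) : row u 0 = Equiv.swap 0 u := by simp [row]

theorem row_ne (u : ZMod m) {i : ZMod m} (hi : i ≠ 0) : row u i = Equiv.addRight i := by
  simp [row, hi]

theorem row_apply_zero_ne {u : ZMod m} (hu : u ≠ 0) (i : ZMod m) : row u i 0 ≠ 0 := by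
  by_cases hi : i = 0
  · subst hi
    rw [row_zero, Equiv.swap_apply_left]
    exact hu
  · rw [row_ne u hi]
    simpa using hi

theorem row_inv_zero_ne {u : ZMod m} (hu : u ≠ 0) (i : ZMod m) : (row u i)⁻¹ 0 ≠ 0 := by
  intro h
  rw [Equiv.Perm.inv_eq_iff_eq] at h
  exact row_apply_zero_ne hu i h.symm

theorem row_disjoint {u : ZMod m} {i j w : ZMod m} (hw : w ≠ 0)
    (h : row u i w = row u j w) (h0 : row u i w ≠ 0) : i = j := by
  by_cases hi : i = 0
  · by_cases hj : j = 0
    · rw [hi, hj]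
    · subst hi
      rw [row_zero] at h h0
      rw [row_ne u hj, Equiv.coe_addRight] at h
      have hwu : w ≠ u := by
        intro e
        rw [e, Equiv.swap_apply_right] at h0
        exact h0 rfl
      rw [Equiv.swap_apply_of_ne_of_ne hw hwu] at h
      exact absurd (add_left_cancel ((add_zero w).trans h) : (0 : ZMod m) = j).symm hj
  · by_cases hj : j = 0
    · subst hj
      rw [h] at h0
      rw [row_zero] at h h0
      rw [row_ne u hi, Equiv.coe_addRight] at h
      have hwu : w ≠ u := by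
        intro e
        rw [e, Equiv.swap_apply_right] at h0
        exact h0 rfl
      rw [Equiv.swap_apply_of_ne_of_ne hw hwu] at h
      exact absurd (add_left_cancel (h.trans (add_zero w).symm)) hi
    · rw [row_ne u hi, row_ne u hj, Equiv.coe_addRight, Equiv.coe_addRight] at h
      exact add_left_cancel h

/-- the square element -/
def q (α β : Equiv.Perm (ZMod m)) (u i : ZMod m) : Equiv.Perm (ZMod m) := α * row u i * β

/-- compatibility: a common cell outside row `0` and column `0` -/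
def Comp (ρ ρ' : Equiv.Perm (ZMod m)) : Prop := ∃ z, z ≠ 0 ∧ ρ z ≠ 0 ∧ ρ z = ρ' z

theorem q_not_comp {α β : Equiv.Perm (ZMod m)} (hα : α ∈ H m) (hβ : β ∈ H m)
    {u i j : ZMod m} (hij : i ≠ j) : ¬ Comp (q α β u i) (q α β u j) := by
  rintro ⟨z, hz, h0, h⟩
  rw [mem_H] at hα hβ
  have hw : β z ≠ 0 := by
    intro e
    exact hz (β.injective (e.trans hβ.symm))
  have e1 : q α β u i z = α (row u i (β z)) := rfl
  have e2 : q α β u j z = α (row u j (β z)) := rfl
  rw [e1, e2] at h
  rw [e1] at h0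
  have h1 := α.injective h
  have h2 : row u i (β z) ≠ 0 := by
    intro e
    rw [e, hα] at h0
    exact h0 rfl
  exact hij (row_disjoint hw h1 h2)

theorem count_pairs {u i : ZMod m} {ρ : Equiv.Perm (ZMod m)} :
    (((H m) ×ˢ (H m)).filter (fun p => q p.1 p.2 u i = ρ)).card =
      (Hv m (ρ⁻¹ 0) ((row u i)⁻¹ 0)).card := by
  refine Finset.card_bij (fun p _ => p.2) ?_ ?_ ?_
  · rintro ⟨α, β⟩ hp
    simp only [Finset.mem_filter, Finset.mem_product] at hp
    obtain ⟨⟨hα, hβ⟩, h⟩ := hp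
    rw [mem_Hv]
    rw [mem_H] at hα hβ
    refine ⟨hβ, ?_⟩
    have h1 : ρ (ρ⁻¹ 0) = 0 := by simp
    have h2 : q α β u i (ρ⁻¹ 0) = 0 := by rw [h]; exact h1
    have h3 : α (row u i (β (ρ⁻¹ 0))) = α 0 := by rw [hα]; exact h2
    have h4 := α.injective h3
    rw [Equiv.Perm.eq_inv_iff_eq]
    exact h4
  · rintro ⟨α, β⟩ hp ⟨α', β'⟩ hp' hh
    simp only [Finset.mem_filter, Finset.mem_product] at hp hp' hh
    obtain ⟨_, h⟩ := hp
    obtain ⟨_, h'⟩ := hp'
    subst hh
    have : α = α' := by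
      have e := h.trans h'.symm
      unfold q at e
      exact mul_right_cancel (mul_right_cancel e)
    rw [this]
  · intro β hβ
    rw [mem_Hv] at hβ
    obtain ⟨h0, h1⟩ := hβ
    refine ⟨(ρ * β⁻¹ * (row u i)⁻¹, β), ?_, rfl⟩
    simp only [Finset.mem_filter, Finset.mem_product]
    refine ⟨⟨?_, (mem_H β).2 h0⟩, ?_⟩
    · rw [mem_H]
      have : β⁻¹ ((row u i)⁻¹ 0) = ρ⁻¹ 0 := by
        rw [Equiv.Perm.inv_eq_iff_eq]
        exact h1.symm
      simp only [Equiv.Perm.coe_mul, Function.comp_apply, this]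
      simp
    · unfold q
      simp [mul_assoc]

theorem inv_zero_ne {ρ : Equiv.Perm (ZMod m)} (hρ : ρ ∈ R m) : ρ⁻¹ 0 ≠ 0 := by
  rw [mem_R] at hρ
  intro h
  rw [Equiv.Perm.inv_eq_iff_eq] at h
  exact hρ h.symm

theorem count_pairs_mul {u i : ZMod m} (hu : u ≠ 0) {ρ : Equiv.Perm (ZMod m)} (hρ : ρ ∈ R m) :
    (m - 1) * (((H m) ×ˢ (H m)).filter (fun p => q p.1 p.2 u i = ρ)).card = (H m).card := by
  rw [count_pairs]
  exact (card_H_eq _ _ (inv_zero_ne hρ) (row_inv_zero_ne hu i)).symm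

/-- number of pairs `(α, β)` for which a given row of the square lies in `B`. -/
theorem count_B {u i : ZMod m} (hu : u ≠ 0) (B : Finset (Equiv.Perm (ZMod m))) (hB : B ⊆ R m) :
    (m - 1) * (((H m) ×ˢ (H m)).filter (fun p => q p.1 p.2 u i ∈ B)).card =
      B.card * (H m).card := by
  have h1 : (((H m) ×ˢ (H m)).filter (fun p => q p.1 p.2 u i ∈ B)).card =
      ∑ ρ ∈ B, (((H m) ×ˢ (H m)).filter (fun p => q p.1 p.2 u i = ρ)).card := by
    rw [Finset.card_eq_sum_card_fiberwise (f := fun p => q p.1 p.2 u i) (t := B)]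
    · refine Finset.sum_congr rfl fun ρ hρ => ?_
      congr 1
      ext p
      simp only [Finset.mem_filter, and_assoc]
      constructor
      · rintro ⟨a, b, c⟩
        exact ⟨a, c⟩
      · rintro ⟨a, c⟩
        exact ⟨a, by rw [c]; exact hρ, c⟩
    · intro p hp
      exact (Finset.mem_filter.1 (Finset.mem_coe.1 hp)).2
  rw [h1, Finset.mul_sum, Finset.sum_congr rfl (fun ρ hρ => count_pairs_mul hu (hB hρ)),
    Finset.sum_const, smul_eq_mul]

/-- the hypothesis on the families -/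
structure Fam (A : ZMod m → Finset (Equiv.Perm (ZMod m))) : Prop where
  sub : ∀ x, A x ⊆ R m
  comp : ∀ x y, x ≠ y → ∀ ρ ∈ A x, ∀ ρ' ∈ A y, Comp ρ ρ'

/-- number of hits of the family on the square `(α, β, u)` with the row assignment `π`. -/
def hits (A : ZMod m → Finset (Equiv.Perm (ZMod m))) (α β : Equiv.Perm (ZMod m)) (u : ZMod m)
    (π : Equiv.Perm (ZMod m)) : ℕ :=
  (univ.filter (fun x => q α β u (π x) ∈ A x)).card

theorem hits_le {A : ZMod m → Finset (Equiv.Perm (ZMod m))} (hA : Fam A)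
    {α β : Equiv.Perm (ZMod m)} (hα : α ∈ H m) (hβ : β ∈ H m) (u : ZMod m)
    (π : Equiv.Perm (ZMod m)) : hits A α β u π ≤ 1 := by
  unfold hits
  rw [Finset.card_le_one]
  intro x hx y hy
  simp only [Finset.mem_filter, Finset.mem_univ, true_and] at hx hy
  by_contra hxy
  exact q_not_comp hα hβ (fun e => hxy (π.injective e)) (hA.comp x y hxy _ hx _ hy)

theorem sum_hits {A : ZMod m → Finset (Equiv.Perm (ZMod m))} (hA : Fam A) {u : ZMod m}
    (hu : u ≠ 0) (π : Equiv.Perm (ZMod m)) :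
    (m - 1) * ∑ p ∈ (H m) ×ˢ (H m), hits A p.1 p.2 u π = (∑ x, (A x).card) * (H m).card := by
  have h1 : ∑ p ∈ (H m) ×ˢ (H m), hits A p.1 p.2 u π =
      ∑ x, (((H m) ×ˢ (H m)).filter (fun p => q p.1 p.2 u (π x) ∈ A x)).card := by
    simp only [hits, Finset.card_filter]
    rw [Finset.sum_comm]
  rw [h1, Finset.mul_sum, Finset.sum_mul]
  exact Finset.sum_congr rfl (fun x _ => count_B hu (A x) (hA.sub x))

theorem core_le {A : ZMod m → Finset (Equiv.Perm (ZMod m))} (hA : Fam A) {u : ZMod m}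
    (hu : u ≠ 0) : ∑ x, (A x).card ≤ (R m).card := by
  have h1 := sum_hits hA hu 1
  have h2 : ∑ p ∈ (H m) ×ˢ (H m), hits A p.1 p.2 u 1 ≤ (H m).card * (H m).card := by
    calc ∑ p ∈ (H m) ×ˢ (H m), hits A p.1 p.2 u 1 ≤ ∑ p ∈ (H m) ×ˢ (H m), 1 := by
          refine Finset.sum_le_sum fun p hp => ?_
          rw [Finset.mem_product] at hp
          exact hits_le hA hp.1 hp.2 u 1
      _ = (H m).card * (H m).card := by simp
  have h3 : (∑ x, (A x).card) * (H m).card ≤ (R m).card * (H m).card := by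
    rw [← h1, card_R_eq, mul_assoc]
    exact Nat.mul_le_mul_left _ h2
  exact Nat.le_of_mul_le_mul_right h3 card_H_pos

theorem hits_eq_of_eq {A : ZMod m → Finset (Equiv.Perm (ZMod m))} (hA : Fam A) {u : ZMod m}
    (hu : u ≠ 0) (hm : 2 ≤ m) (heq : ∑ x, (A x).card = (R m).card)
    {α β : Equiv.Perm (ZMod m)} (hα : α ∈ H m) (hβ : β ∈ H m)
    (π : Equiv.Perm (ZMod m)) : hits A α β u π = 1 := by
  by_contra hne
  have hlt : hits A α β u π < 1 := lt_of_le_of_ne (hits_le hA hα hβ u π) hne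
  have h1 := sum_hits hA hu π
  have h2 : ∑ p ∈ (H m) ×ˢ (H m), hits A p.1 p.2 u π < (H m).card * (H m).card := by
    calc ∑ p ∈ (H m) ×ˢ (H m), hits A p.1 p.2 u π < ∑ p ∈ (H m) ×ˢ (H m), 1 := by
          refine Finset.sum_lt_sum (fun p hp => ?_) ⟨(α, β), ?_, hlt⟩
          · rw [Finset.mem_product] at hp
            exact hits_le hA hp.1 hp.2 u π
          · rw [Finset.mem_product]
            exact ⟨hα, hβ⟩
      _ = (H m).card * (H m).card := by simp
  rw [heq, card_R_eq, mul_assoc] at h1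
  have h3 : 0 < m - 1 := by omega
  have h4 := Nat.eq_of_mul_eq_mul_left h3 h1
  omega

end Pool.MP46Link
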