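import Pool.Agent.Work.MP_46fa68_h4.Kth

/-!
# MP_46fa68_co: one-bead functions from sources (all `m`, `t`)

The source `v q p` (`q < L`, `p < p0`): the bead at the place `K + m + q - J - 1` (offset `q - J` from the
wall `M0 = K - 1 + m`) moves by `p` with the weight `v q p`.  `ob` is its lift by `t` steps.
-/

set_option autoImplicit false

open Finset Equiv

namespace Pool.JM

variable {K : ℕ}

/-- the lift by `t` steps of the sources -/
noncomputable def ob (t m K J L : ℕ) (v : ℕ → ℕ → ℝ) : ℕ → ℕ → ℝ := fun x P =>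
  ∑ q ∈ range L, kx (K + m + q - J) (v q) (bi t) x P

/-- explicit weights of the lift -/
theorem ob_eq (t m K J L : ℕ) (v : ℕ → ℕ → ℝ) (x P : ℕ) : ob t m K J L v x P =
    ∑ q ∈ range L, if x < K + m + q - J then
      (-1) ^ (K + m + q - J - 1 - x) * ∑ a ∈ range (P + 1), ((t + a - 1).choose a : ℝ) *
        (a.choose (K + m + q - J - 1 - x) : ℝ) * v q (P - a) else 0 := by
  unfold ob
  refine sum_congr rfl fun q _ => ?_
  unfold kx
  split_ifs with h
  · rw [mul_sum]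
    refine sum_congr rfl fun a _ => ?_
    unfold bi
    have e : ((-1 : ℝ)) ^ a * (-1) ^ a = 1 := by rw [← mul_pow]; norm_num
    rw [pow_add]
    linear_combination ((t + a - 1).choose a : ℝ) * (-1) ^ (K + m + q - J - 1 - x) *
      (a.choose (K + m + q - J - 1 - x) : ℝ) * v q (P - a) * e
  · rfl

theorem pk_sum (L : ℕ) (k : ℕ → ℕ → ℕ → ℝ) :
    pk (fun x p => ∑ q ∈ range L, k q x p) = fun x p => ∑ q ∈ range L, pk (k q) x p := by
  funext x p
  unfold pk adk
  cases p with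
  | zero => simp
  | succ p =>
    simp only
    rw [← sum_sub_distrib, ← sum_add_distrib]

theorem pk_ob (t m K J L : ℕ) (v : ℕ → ℕ → ℝ) :
    pk (ob (t + 1) m K J L v) = ob t m K J L v := by
  unfold ob
  rw [pk_sum]
  funext x P
  refine sum_congr rfl fun q _ => ?_
  rw [pk_kx, ps_bi]

theorem pkn_ob (t m K J L : ℕ) (v : ℕ → ℕ → ℝ) : ∀ s,
    pk^[s] (ob (t + s) m K J L v) = ob t m K J L v
  | 0 => rfl
  | s + 1 => by
    rw [Function.iterate_succ_apply, show t + (s + 1) = (t + s) + 1 by omega, pk_ob,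
      pkn_ob t m K J L v s]

theorem ob_zero {m K J L : ℕ} (hJ : J < K + m) (v : ℕ → ℕ → ℝ) (x P : ℕ) :
    ob 0 m K J L v x P = ∑ q ∈ range L, if x = K + m + q - J - 1 then v q P else 0 := by
  unfold ob
  refine sum_congr rfl fun q _ => ?_
  rw [bi_zero, kx_dlt _ _ _ _ (by omega)]

/-- the sum of the weights -/
noncomputable def vn (L p0 : ℕ) (v : ℕ → ℕ → ℝ) : ℝ := ∑ q ∈ range L, ∑ p ∈ range p0, |v q p|

theorem vn_nonneg (L p0 : ℕ) (v : ℕ → ℕ → ℝ) : 0 ≤ vn L p0 v :=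
  sum_nonneg fun _ _ => sum_nonneg fun _ _ => abs_nonneg _

theorem kx_abs (t M0 : ℕ) {p0 : ℕ} {v : ℕ → ℝ} (hv : ∀ p, p0 ≤ p → v p = 0) (x p : ℕ) :
    |kx M0 v (bi t) x p| ≤ (∑ a ∈ range p0, |v a|) * (2 ^ t * 4 ^ p) := by
  have h4 : ∀ a : ℕ, (4 : ℝ) ^ a = 2 ^ a * 2 ^ a := fun a => by
    rw [← mul_pow]; norm_num
  unfold kx
  split_ifs
  · refine (abs_sum_le_sum_abs _ _).trans ?_
    have h : ∀ a ∈ range (p + 1), |bi t a * ((-1) ^ (a + (M0 - 1 - x)) *
        (a.choose (M0 - 1 - x) : ℝ)) * v (p - a)| ≤ (2 ^ t * 4 ^ p) * |v (p - a)| := by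
      intro a ha
      rw [mem_range] at ha
      rw [abs_mul]
      refine mul_le_mul_of_nonneg_right ?_ (abs_nonneg _)
      have h7 : |((-1 : ℝ)) ^ (a + (M0 - 1 - x)) * (a.choose (M0 - 1 - x) : ℝ)| =
          (a.choose (M0 - 1 - x) : ℝ) := by
        rw [abs_mul, abs_pow, abs_neg, abs_one, one_pow, one_mul,
          abs_of_nonneg (Nat.cast_nonneg (a.choose (M0 - 1 - x)))]
      rw [abs_mul, h7]
      have h5 : a.choose (M0 - 1 - x) ≤ 2 ^ a := Nat.choose_le_two_pow _ _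
      have h5' : ((a.choose (M0 - 1 - x) : ℕ) : ℝ) ≤ 2 ^ a := by exact_mod_cast h5
      calc |bi t a| * ((a.choose (M0 - 1 - x) : ℕ) : ℝ)
          ≤ (2 ^ t * 2 ^ a) * 2 ^ a :=
            mul_le_mul (bi_abs' _ _) h5' (Nat.cast_nonneg _) (by positivity)
        _ = 2 ^ t * 4 ^ a := by rw [h4]; ring
        _ ≤ _ := mul_le_mul_of_nonneg_left (pow_le_pow_right₀ (by norm_num) (by omega))
            (by positivity)
    refine (sum_le_sum h).trans ?_
    rw [← mul_sum, mul_comm]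
    refine mul_le_mul_of_nonneg_right ?_ (by positivity)
    have h6 : ∑ a ∈ range (p + 1), |v (p - a)| = ∑ a ∈ range (p + 1), |v a| := by
      have := sum_range_reflect (fun a => |v a|) (p + 1)
      rw [← this]
      refine sum_congr rfl fun a _ => ?_
      rw [Nat.add_sub_cancel]
    rw [h6]
    by_cases hp : p + 1 ≤ p0
    · exact sum_le_sum_of_subset_of_nonneg (range_subset_range.2 hp) fun _ _ _ => abs_nonneg _
    · rw [← sum_subset (range_subset_range.2 (by omega : p0 ≤ p + 1))]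
      intro a _ ha
      rw [mem_range, not_lt] at ha
      rw [hv a ha, abs_zero]
  · rw [abs_zero]
    have : 0 ≤ ∑ a ∈ range p0, |v a| := sum_nonneg fun _ _ => abs_nonneg _
    positivity
where
  bi_abs' (t p : ℕ) : |bi t p| ≤ 2 ^ t * 2 ^ p := by
    unfold bi
    rw [abs_mul, abs_pow, abs_neg, abs_one, one_pow, one_mul, abs_of_nonneg (Nat.cast_nonneg _)]
    have h4 : (t + p - 1).choose p ≤ 2 ^ (t + p - 1) := Nat.choose_le_two_pow _ _
    calc (((t + p - 1).choose p : ℕ) : ℝ) ≤ ((2 ^ (t + p - 1) : ℕ) : ℝ) := by exact_mod_cast h4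
      _ = (2 : ℝ) ^ (t + p - 1) := by push_cast; ring
      _ ≤ 2 ^ (t + p) := pow_le_pow_right₀ (by norm_num) (by omega)
      _ = _ := by rw [pow_add]

theorem ob_abs {t m K J L p0 : ℕ} {v : ℕ → ℕ → ℝ} (hv : ∀ q p, p0 ≤ p → v q p = 0) (x p : ℕ) :
    |ob t m K J L v x p| ≤ vn L p0 v * 2 ^ t * 4 ^ p := by
  unfold ob vn
  refine (abs_sum_le_sum_abs _ _).trans ?_
  rw [mul_assoc, sum_mul]
  exact sum_le_sum fun q _ => kx_abs t _ (hv q) x p

/-- the support of the truncated lift -/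
theorem Sup_ob {t m K J L A p0 : ℕ} {v : ℕ → ℕ → ℝ} (hv : ∀ q p, p0 ≤ p → v q p = 0) :
    Sup (cut A (ob t m K J L v)) (K + m - J - 1 - A) (A + 1) := by
  refine Sup_cut (M0 := 0) ?_
  intro x p hx hp
  unfold ob
  refine sum_eq_zero fun q _ => ?_
  exact kx_zero (by omega)

end Pool.JM
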