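import Pool.Agent.Work.MP_46fa68_R.Beta

/-!
# MP_46fa68_co, U1: the restriction operator is onto on the sets of beads below a bound

For every function `c` on the sets of beads of level `m` there is a function `b` on sets of beads which is
harmonic between the levels `m` and `N`, is supported on the sets of beads inside `range (M - 1 + m)` and
agrees with `c` on all of the level `m` but `Rw M m`.
-/

set_option autoImplicit false

open Finset

namespace Pool.JM

theorem w_pos {B : Finset ℕ} {x : ℕ} (hx1 : x + 1 ∉ B) : 0 < w B x := by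
  unfold w
  refine div_pos (Finset.prod_pos ?_) (by positivity)
  intro y hy
  rw [Finset.mem_erase] at hy
  have hyx : y ≠ x + 1 := by rintro rfl; exact hx1 hy.2
  rcases lt_or_gt_of_ne hy.1 with h | h
  · have h' : (y : ℝ) < x := by exact_mod_cast h
    exact div_pos (by linarith) (by linarith)
  · have h2 : x + 1 < y := by omega
    have h' : (x : ℝ) + 1 < y := by exact_mod_cast h2
    exact div_pos_of_neg_of_neg (by linarith) (by linarith)

theorem mv_inj {B : Finset ℕ} {x y : ℕ} (hx1 : x + 1 ∉ B) (h : mv B x = mv B y) : x = y := by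
  have h1 : x + 1 ∈ mv B y := by rw [← h]; exact Finset.mem_insert_self _ _
  unfold mv at h1
  rw [Finset.mem_insert, Finset.mem_erase] at h1
  rcases h1 with h1 | h1
  · omega
  · exact absurd h1.2 hx1

/-- the restriction operator -/
noncomputable def Dop (u : Finset ℕ → ℝ) (B : Finset ℕ) : ℝ := ∑ x ∈ ad B, w B x * u (mv B x)

theorem Dop_add (u v : Finset ℕ → ℝ) (B : Finset ℕ) :
    Dop (fun C => u C + v C) B = Dop u B + Dop v B := by
  unfold Dop
  rw [← Finset.sum_add_distrib]
  exact Finset.sum_congr rfl fun x _ => by ring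

theorem Dop_smul (a : ℝ) (u : Finset ℕ → ℝ) (B : Finset ℕ) :
    Dop (fun C => a * u C) B = a * Dop u B := by
  unfold Dop
  rw [Finset.mul_sum]
  exact Finset.sum_congr rfl fun x _ => by ring

theorem Dop_sum {ι : Type*} (s : Finset ι) (u : ι → Finset ℕ → ℝ) (B : Finset ℕ) :
    Dop (fun C => ∑ i ∈ s, u i C) B = ∑ i ∈ s, Dop (u i) B := by
  unfold Dop
  rw [Finset.sum_comm]
  exact Finset.sum_congr rfl fun x _ => by rw [Finset.mul_sum]

/-- the lowest bead which can be moved -/
theorem exists_low {B : Finset ℕ} (h0 : 0 ∈ B) :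
    ∃ x, x ∈ B ∧ x + 1 ∉ B ∧ ∀ y ≤ x, y ∈ B := by
  have hex : ∃ n, n ∉ B := by
    by_contra hcon
    push Not at hcon
    have := Finset.card_le_card (show range (B.card + 1) ⊆ B from fun y _ => hcon y)
    rw [Finset.card_range] at this
    omega
  classical
  have hn := Nat.find_spec hex
  have hmin : ∀ y < Nat.find hex, y ∈ B := fun y hy => by
    have := Nat.find_min hex hy
    push Not at this
    exact this
  have hpos : 0 < Nat.find hex := by
    rcases Nat.eq_zero_or_pos (Nat.find hex) with h | h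
    · rw [h] at hn; exact absurd h0 hn
    · exact h
  refine ⟨Nat.find hex - 1, hmin _ (by omega), ?_, fun y hy => hmin y (by omega)⟩
  rw [Nat.sub_add_cancel hpos]; exact hn

theorem sq_mv {B : Finset ℕ} {x : ℕ} (hx : x ∈ B) (hx1 : x + 1 ∉ B) :
    ∑ y ∈ mv B x, y ^ 2 = ∑ y ∈ B, y ^ 2 + (2 * x + 1) := by
  unfold mv
  rw [Finset.sum_insert (by rw [Finset.mem_erase]; tauto), ← Finset.add_sum_erase _ _ hx]
  ring

/-- the triangularity -/
theorem sq_lt {B B' : Finset ℕ} {x x' : ℕ} (hx : x ∈ B) (hx1 : x + 1 ∉ B)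
    (hlow : ∀ y ≤ x, y ∈ B) (hx' : x' ∈ B') (hx1' : x' + 1 ∉ B') (h : mv B' x' = mv B x)
    (hne : B' ≠ B) : ∑ y ∈ B', y ^ 2 < ∑ y ∈ B, y ^ 2 := by
  have h1 := sq_mv hx hx1
  have h2 := sq_mv hx' hx1'
  rw [h] at h2
  have hlt : x < x' := by
    by_contra hcon
    push Not at hcon
    have hx'n : x' ∉ mv B x := by
      rw [← h]; unfold mv
      rw [Finset.mem_insert, Finset.mem_erase]
      push Not
      exact ⟨by omega, fun h => absurd rfl h⟩
    have hxx : x' = x := by
      by_contra hxx
      apply hx'n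
      unfold mv
      rw [Finset.mem_insert, Finset.mem_erase]
      right; exact ⟨hxx, hlow x' hcon⟩
    subst hxx
    apply hne
    have e1 : B' = insert x' ((mv B' x').erase (x' + 1)) := by
      unfold mv
      rw [Finset.erase_insert (by rw [Finset.mem_erase]; tauto), Finset.insert_erase hx']
    have e2 : B = insert x' ((mv B x').erase (x' + 1)) := by
      unfold mv
      rw [Finset.erase_insert (by rw [Finset.mem_erase]; tauto), Finset.insert_erase hx]
    rw [e1, h, ← e2]
  omega

/-- the good sets of level `k` -/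
def gd (b M k : ℕ) : Finset (Finset ℕ) := (Lv M k).filter fun B => B ⊆ range b

theorem mem_gd {b M k : ℕ} {B : Finset ℕ} : B ∈ gd b M k ↔ B ∈ Lv M k ∧ B ⊆ range b := by
  unfold gd
  rw [Finset.mem_filter]

theorem Dop_delta_exists {b M k : ℕ} (hk : k < M) (hb : M < b) (B : Finset ℕ)
    (hB : B ∈ gd b M k) :
    ∃ v : Finset ℕ → ℝ, (∀ L, v L ≠ 0 → L ∈ gd b M (k + 1)) ∧
      ∀ B' ∈ gd b M k, Dop v B' = if B' = B then 1 else 0 := by
  induction hn : ∑ y ∈ B, y ^ 2 using Nat.strong_induction_on generalizing B with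
  | _ n ih =>
    classical
    rw [mem_gd] at hB
    obtain ⟨x, hx, hx1, hlow⟩ := exists_low (Lv_zero_mem hB.1 hk)
    have hxb : x + 1 < b := by
      by_contra hcon
      have hsub : range b ⊆ B := by
        intro y hy
        rw [Finset.mem_range] at hy
        exact hlow y (by omega)
      have := Finset.card_le_card hsub
      rw [Finset.card_range, (Lv_spec hB.1).1] at this
      omega
    have hLgood : mv B x ∈ gd b M (k + 1) := by
      rw [mem_gd]
      refine ⟨mv_mem hB.1 (mem_ad.2 ⟨hx, hx1⟩), ?_⟩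
      intro y hy
      unfold mv at hy
      rw [Finset.mem_insert, Finset.mem_erase] at hy
      rcases hy with rfl | hy
      · rw [Finset.mem_range]; exact hxb
      · exact hB.2 hy.2
    set δ : Finset ℕ → ℝ := fun L => if L = mv B x then 1 else 0 with hδ
    have hDδB : Dop δ B = w B x := by
      unfold Dop
      rw [Finset.sum_eq_single x]
      · simp [hδ]
      · intro y hy hyx
        have : mv B y ≠ mv B x := fun h => hyx (mv_inj (mem_ad.1 hy).2 h)
        simp [hδ, this]
      · intro h; exact absurd (mem_ad.2 ⟨hx, hx1⟩) h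
    have hDδ : ∀ B' ∈ gd b M k, B' ≠ B → ¬ (∑ y ∈ B', y ^ 2 < n) → Dop δ B' = 0 := by
      intro B' _ hne hnlt
      unfold Dop
      apply Finset.sum_eq_zero
      intro y hy
      have : mv B' y ≠ mv B x := by
        intro h
        apply hnlt
        rw [← hn]
        exact sq_lt hx hx1 hlow (mem_ad.1 hy).1 (mem_ad.1 hy).2 h hne
      simp [hδ, this]
    set T := (gd b M k).filter (fun C => ∑ y ∈ C, y ^ 2 < n) with hT
    have hex : ∀ C : {C // C ∈ T}, ∃ v : Finset ℕ → ℝ,
        (∀ L, v L ≠ 0 → L ∈ gd b M (k + 1)) ∧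
        ∀ B' ∈ gd b M k, Dop v B' = if B' = C.1 then 1 else 0 := by
      intro C
      have hC := Finset.mem_filter.1 C.2
      exact ih _ hC.2 C.1 hC.1 rfl
    choose V hV1 hV2 using hex
    have hw : w B x ≠ 0 := (w_pos hx1).ne'
    refine ⟨fun L => (w B x)⁻¹ * (δ L + ∑ C ∈ T.attach, (-Dop δ C.1) * V C L), ?_, ?_⟩
    · intro L hL
      by_contra hLn
      apply hL
      have h1 : δ L = 0 := by
        simp only [hδ, ite_eq_right_iff, one_ne_zero, imp_false]
        rintro rfl; exact hLn hLgood
      have h2 : ∑ C ∈ T.attach, (-Dop δ C.1) * V C L = 0 := by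
        apply Finset.sum_eq_zero
        intro C _
        have : V C L = 0 := by
          by_contra h
          exact hLn (hV1 C L h)
        rw [this, mul_zero]
      simp only [h1, h2]; ring
    · intro B' hB'
      rw [Dop_smul, Dop_add, Dop_sum]
      have e : ∀ C ∈ T.attach, Dop (fun L => (-Dop δ C.1) * V C L) B' =
          if B' = C.1 then -Dop δ B' else 0 := by
        intro C _
        rw [Dop_smul, hV2 C B' hB']
        split_ifs with h
        · rw [h]; ring
        · ring
      rw [Finset.sum_congr rfl e]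
      have e2 : ∑ C ∈ T.attach, (if B' = C.1 then -Dop δ B' else 0) =
          if B' ∈ T then -Dop δ B' else 0 := by
        rw [Finset.sum_attach T (fun C => if B' = C then -Dop δ B' else 0)]
        rw [Finset.sum_ite_eq]
      rw [e2]
      by_cases hBB : B' = B
      · subst hBB
        have hnT : B' ∉ T := by
          rw [hT, Finset.mem_filter]
          rintro ⟨-, h⟩
          omega
        rw [if_neg hnT, if_pos rfl, hDδB, add_zero]
        exact inv_mul_cancel₀ hw
      · rw [if_neg hBB]
        by_cases hBT : B' ∈ T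
        · rw [if_pos hBT]; ring
        · rw [if_neg hBT]
          have hnlt : ¬ (∑ y ∈ B', y ^ 2 < n) := by
            intro h
            exact hBT (Finset.mem_filter.2 ⟨hB', h⟩)
          rw [hDδ B' hB' hBB hnlt]; ring

/-- **One step is onto.** -/
theorem Dop_surj {b M k : ℕ} (hk : k < M) (hb : M < b) (c : Finset ℕ → ℝ) :
    ∃ v : Finset ℕ → ℝ, (∀ L, v L ≠ 0 → L ∈ gd b M (k + 1)) ∧
      ∀ B ∈ gd b M k, Dop v B = c B := by
  classical
  choose V hV1 hV2 using fun B : {B // B ∈ gd b M k} => Dop_delta_exists hk hb B.1 B.2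
  refine ⟨fun L => ∑ C ∈ (gd b M k).attach, c C.1 * V C L, ?_, ?_⟩
  · intro L hL
    obtain ⟨C, _, hC⟩ := Finset.exists_ne_zero_of_sum_ne_zero hL
    exact hV1 C L (right_ne_zero_of_mul hC)
  · intro B hB
    rw [Dop_sum]
    have e : ∀ C ∈ (gd b M k).attach, Dop (fun L => c C.1 * V C L) B =
        if B = C.1 then c B else 0 := by
      intro C _
      rw [Dop_smul, hV2 C B hB]
      split_ifs with h
      · rw [h]; ring
      · ring
    rw [Finset.sum_congr rfl e,
      Finset.sum_attach (gd b M k) (fun C => if B = C then c B else 0), Finset.sum_ite_eq,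
      if_pos hB]

/-- off the good sets the restriction vanishes -/
theorem Dop_eq_zero {b M k : ℕ} {v : Finset ℕ → ℝ}
    (hv : ∀ L, v L ≠ 0 → L ∈ gd b M (k + 1)) {B : Finset ℕ} (hBL : B ∈ Lv M k)
    (hB : B ∉ gd b M k) : Dop v B = 0 := by
  unfold Dop
  apply Finset.sum_eq_zero
  intro x hx
  have : v (mv B x) = 0 := by
    by_contra h
    have h1 := mem_gd.1 (hv _ h)
    apply hB
    rw [mem_gd]
    refine ⟨hBL, ?_⟩
    intro y hy
    by_cases hyx : y = x
    · subst hyx
      have : y + 1 ∈ range b := h1.2 (Finset.mem_insert_self _ _)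
      rw [Finset.mem_range] at this ⊢
      omega
    · apply h1.2
      unfold mv
      rw [Finset.mem_insert, Finset.mem_erase]
      right; exact ⟨hyx, hy⟩
  rw [this, mul_zero]

/-- `t` steps, as a family of functions -/
theorem Dop_surj_iter {b M m : ℕ} (hb : M < b) (t : ℕ) (hmt : m + t ≤ M) (c : Finset ℕ → ℝ) :
    ∃ v : ℕ → Finset ℕ → ℝ,
      (∀ j ≤ t, ∀ L, v j L ≠ 0 → L ∈ gd b M (m + j)) ∧
      (∀ j < t, ∀ B ∈ Lv M (m + j), v j B = Dop (v (j + 1)) B) ∧
      ∀ B ∈ gd b M m, v 0 B = c B := by
  classical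
  induction t with
  | zero =>
    refine ⟨fun _ B => if B ∈ gd b M m then c B else 0, ?_, ?_, ?_⟩
    · intro j hj L hL
      have : j = 0 := by omega
      subst this
      by_contra h
      simp only [Nat.add_zero] at h
      exact hL (if_neg h)
    · intro j hj; omega
    · intro B hB; exact if_pos hB
  | succ t ih =>
    obtain ⟨v, h1, h2, h3⟩ := ih (by omega)
    obtain ⟨v', h4, h5⟩ := Dop_surj (b := b) (M := M) (k := m + t) (by omega) hb (v t)
    refine ⟨fun j => if j = t + 1 then v' else v j, ?_, ?_, ?_⟩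
    · intro j hj L hL
      by_cases hjt : j = t + 1
      · subst hjt
        simp only [if_true] at hL
        exact h4 L hL
      · simp only [if_neg hjt] at hL
        exact h1 j (by omega) L hL
    · intro j hj B hB
      have hjt : j ≠ t + 1 := by omega
      simp only [if_neg hjt]
      by_cases hjt' : j = t
      · subst hjt'
        simp only [if_true]
        by_cases hBg : B ∈ gd b M (m + j)
        · rw [h5 B hBg]
        · rw [Dop_eq_zero h4 hB hBg]
          by_contra h
          exact hBg (h1 j le_rfl B h)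
      · have : j + 1 ≠ t + 1 := by omega
        simp only [if_neg this]
        exact h2 j (by omega) B hB
    · intro B hB
      have : (0 : ℕ) ≠ t + 1 := by omega
      simp only [if_neg this]
      exact h3 B hB

/-- the set of beads is determined by a minimal sum -/
theorem eq_range_of_sum {B : Finset ℕ} {n : ℕ} (hc : B.card = n)
    (h : ∑ y ∈ B, y ≤ ∑ y ∈ range n, y) : B = range n := by
  induction n generalizing B with
  | zero => rw [Finset.card_eq_zero.1 hc]; rfl
  | succ n ih =>
    have hne : B.Nonempty := Finset.card_pos.1 (by omega)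
    have hmax := B.max'_mem hne
    have hce : (B.erase (B.max' hne)).card = n := by
      rw [Finset.card_erase_of_mem hmax]; omega
    have h2 : n ≤ B.max' hne := by
      have hsub : B ⊆ range (B.max' hne + 1) := by
        intro y hy
        rw [Finset.mem_range]
        have := B.le_max' y hy
        omega
      have := Finset.card_le_card hsub
      rw [Finset.card_range] at this
      omega
    have h3 := Finset.add_sum_erase B (fun y => y) hmax
    rw [Finset.sum_range_succ] at h
    have h4 : B.erase (B.max' hne) = range n := ih hce (by omega)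
    rw [h4] at h3
    have h5 : B.max' hne = n := by omega
    rw [← Finset.insert_erase hmax, h4, h5, Finset.range_add_one]

theorem eq_Rw {M m : ℕ} (hM : 0 < M) {B : Finset ℕ} (hB : B ∈ Lv M m) (h : M - 1 + m ∈ B) :
    B = Rw M m := by
  obtain ⟨h1, -, -, h4⟩ := Lv_spec hB
  have h5 := Finset.add_sum_erase B (fun y => y) h
  have h6 : ∑ y ∈ range M, y = ∑ y ∈ range (M - 1), y + (M - 1) := by
    rw [← Finset.sum_range_succ, Nat.sub_add_cancel hM]
  have h7 : B.erase (M - 1 + m) = range (M - 1) := by
    apply eq_range_of_sum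
    · rw [Finset.card_erase_of_mem h, h1]
    · omega
  rw [← Finset.insert_erase h, h7]
  rfl

/-- at level `m` all the sets of beads but `Rw` are below the bound -/
theorem mem_gd_of_ne {M m : ℕ} (hM : 0 < M) {B : Finset ℕ} (hB : B ∈ Lv M m) (hne : B ≠ Rw M m) :
    B ∈ gd (M - 1 + m) M m := by
  rw [mem_gd]
  refine ⟨hB, fun y hy => ?_⟩
  rw [Finset.mem_range]
  have h3 := (Lv_spec hB).2.2.1 y hy
  by_contra hcon
  have : y = M - 1 + m := by omega
  subst this
  exact hne (eq_Rw hM hB hy)

/-- **U1.** -/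
theorem onto {M m N : ℕ} (hmN : m ≤ N) (hNM : N < M) (hm : 2 ≤ m) (c : Finset ℕ → ℝ) :
    ∃ b : Finset ℕ → ℝ, (∀ B ∈ Lv M N, b B ≠ 0 → ∀ x ∈ B, x < M - 1 + m) ∧
      (∀ k, m ≤ k → k < N → ∀ C ∈ Lv M k, b C = ∑ x ∈ ad C, w C x * b (mv C x)) ∧
      (∀ C ∈ Lv M m, C ≠ Rw M m → b C = c C) ∧ b (Rw M m) = 0 := by
  obtain ⟨v, h1, h2, h3⟩ := Dop_surj_iter (b := M - 1 + m) (M := M) (m := m) (by omega) (N - m)
    (by omega) c
  refine ⟨fun B => v (∑ y ∈ B, y - ∑ y ∈ range M, y - m) B, ?_, ?_, ?_, ?_⟩
  · intro B hB hb x hx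
    have hs := (Lv_spec hB).2.2.2
    simp only at hb
    rw [hs, Nat.add_sub_cancel_left] at hb
    have := (mem_gd.1 (h1 (N - m) le_rfl B hb)).2 hx
    exact Finset.mem_range.1 this
  · intro k hk hkN C hC
    have hs := (Lv_spec hC).2.2.2
    simp only
    rw [hs, Nat.add_sub_cancel_left, h2 (k - m) (by omega) C (by rwa [Nat.add_sub_cancel' hk])]
    unfold Dop
    refine Finset.sum_congr rfl fun x hx => ?_
    have hs' := (Lv_spec (mv_mem hC hx)).2.2.2
    rw [hs', Nat.add_sub_cancel_left, show k + 1 - m = k - m + 1 by omega]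
  · intro C hC hne
    have hs := (Lv_spec hC).2.2.2
    simp only
    rw [hs, Nat.add_sub_cancel_left, Nat.sub_self]
    exact h3 C (mem_gd_of_ne (by omega) hC hne)
  · have hR := Rw_mem (show 0 < M by omega) m
    have hs := (Lv_spec hR).2.2.2
    simp only
    rw [hs, Nat.add_sub_cancel_left, Nat.sub_self]
    by_contra h
    have := (mem_gd.1 (h1 0 (by omega) _ h)).2 (mem_ad.1 (Rw_ad M m)).1
    rw [Finset.mem_range] at this
    omega

end Pool.JM
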