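import Pool.Agent.Work.MP_46fa68_h4.OB1
import Pool.Agent.Work.MP_46fa68_h4.Onto
import Pool.Agent.Work.MP_46fa68_h4.Defect

/-!
# MP_46fa68_co: exactness of the one-bead functions up to the tail, harmonic extension
-/

set_option autoImplicit false

open Finset Equiv

namespace Pool.JM

variable {K : ℕ}

/-- the value at the level `m`: beads at the sources -/
noncomputable def tg (m K J L A : ℕ) (v : ℕ → ℕ → ℝ) (B : Finset ℕ) : ℝ :=
  ∑ x ∈ B, ∑ p ∈ range (A + 1), (∑ q ∈ range L, if x = K + m + q - J - 1 then v q p else 0) *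
    Rr B x p

theorem E1_ob {t m J L A P : ℕ} {v : ℕ → ℕ → ℝ} (hJ : J < K + m)
    (hP : A + t < P) {B : Finset ℕ} (hc : B.card = K) :
    E1 K P (pk^[t] (cut A (ob t m K J L v))) B = tg m K J L A v B +
      ∑ x ∈ B, ∑ p ∈ Ico (A + 1) (A + 1 + t),
        pk^[t] (cut A (ob t m K J L v)) x p * Rr B x p := by
  rw [E1_eq _ hc]
  unfold tg
  rw [← sum_add_distrib]
  refine sum_congr rfl fun x _ => ?_
  have e1 : range (A + 1 + t) ⊆ range P := range_subset_range.2 (by omega)
  rw [← sum_subset e1 (fun p _ hp => by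
    rw [mem_range, not_lt] at hp
    rw [pk_cut_zero _ _ _ _ _ (by omega), zero_mul]),
    range_eq_Ico, ← sum_Ico_consecutive _ (by omega : 0 ≤ A + 1) (by omega), ← range_eq_Ico]
  congr 1
  refine sum_congr rfl fun p hp => ?_
  rw [mem_range] at hp
  have h := pkn_ob 0 m K J L v t
  rw [Nat.zero_add] at h
  rw [pk_cut _ _ _ _ _ (by omega), h, ob_zero hJ]

/-- the constant of the tail -/
noncomputable def otl (t J L p0 : ℕ) (v : ℕ → ℕ → ℝ) (A : ℕ) : ℝ :=
  ((A + t + J + 2 : ℕ) : ℝ) * (t * (3 ^ t * (vn L p0 v * 2 ^ t * 4 ^ A) *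
    (2 ^ (A + t) / (A.factorial : ℝ))))

theorem tail_ob {t m J L A p0 : ℕ} {v : ℕ → ℕ → ℝ} (hv : ∀ q p, p0 ≤ p → v q p = 0)
    {B : Finset ℕ} (hB : B ∈ Lv K m) :
    |∑ x ∈ B, ∑ p ∈ Ico (A + 1) (A + 1 + t),
        pk^[t] (cut A (ob t m K J L v)) x p * Rr B x p| ≤ otl t J L p0 v A := by
  obtain ⟨hc, -, hlt, -⟩ := Lv_spec hB
  have hvn := vn_nonneg L p0 v
  set Q : ℝ := vn L p0 v * 2 ^ t * 4 ^ A with hQ
  have hQ0 : 0 ≤ Q := by positivity
  have hk : ∀ x p, |cut A (ob t m K J L v) x p| ≤ Q := by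
    intro x p
    unfold cut
    split_ifs with h
    · refine (ob_abs hv _ _).trans ?_
      exact mul_le_mul_of_nonneg_left (pow_le_pow_right₀ (by norm_num) h) (by positivity)
    · rw [abs_zero]; exact hQ0
  have hterm : ∀ x p, p ∈ Ico (A + 1) (A + 1 + t) →
      |pk^[t] (cut A (ob t m K J L v)) x p * Rr B x p| ≤
        3 ^ t * Q * (2 ^ (A + t) / (A.factorial : ℝ)) := by
    intro x p hp
    rw [mem_Ico] at hp
    rw [abs_mul]
    refine mul_le_mul ?_ ?_ (abs_nonneg _) (by positivity)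
    · exact pk_abs_le hk t x p
    · refine (Rr_le' B x p (by omega)).trans ?_
      have h1 : (2 : ℝ) ^ (p - 1) ≤ 2 ^ (A + t) := pow_le_pow_right₀ (by norm_num) (by omega)
      have h2 : (A.factorial : ℝ) ≤ p.factorial := by
        exact_mod_cast Nat.factorial_le (by omega : A ≤ p)
      have h3 : (0 : ℝ) < A.factorial := by exact_mod_cast Nat.factorial_pos _
      exact div_le_div₀ (by positivity) h1 h3 h2
  have hS := (Sup_ob (K := K) (t := t) (m := m) (J := J) (L := L) (A := A) hv).pkn t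
  set x0 := K + m - J - 1 - A - t with hx0
  have h1 : ∀ x ∈ B, |∑ p ∈ Ico (A + 1) (A + 1 + t),
      pk^[t] (cut A (ob t m K J L v)) x p * Rr B x p| ≤
      if x0 ≤ x then t * (3 ^ t * Q * (2 ^ (A + t) / (A.factorial : ℝ))) else 0 := by
    intro x _
    split_ifs with hx
    · refine (abs_sum_le_sum_abs _ _).trans ((sum_le_sum fun p hp => hterm x p hp).trans ?_)
      rw [sum_const, Nat.card_Ico, nsmul_eq_mul, show A + 1 + t - (A + 1) = t by omega]
    · rw [sum_eq_zero, abs_zero]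
      intro p _
      rw [hS x p (Or.inl (by omega)), zero_mul]
  refine (abs_sum_le_sum_abs _ _).trans ((sum_le_sum h1).trans ?_)
  rw [← sum_filter, sum_const, nsmul_eq_mul]
  unfold otl
  refine mul_le_mul_of_nonneg_right ?_ (by positivity)
  have hcard : (B.filter fun x => x0 ≤ x).card ≤ A + t + J + 2 := by
    have hsub : (B.filter fun x => x0 ≤ x) ⊆ Ico x0 (K + m) := by
      intro x hx
      rw [mem_filter] at hx
      exact mem_Ico.2 ⟨hx.2, hlt x hx.1⟩
    refine (card_le_card hsub).trans ?_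
    rw [Nat.card_Ico]
    omega
  exact_mod_cast hcard

theorem otl_tendsto (t J L p0 : ℕ) (v : ℕ → ℕ → ℝ) :
    Filter.Tendsto (otl t J L p0 v) Filter.atTop (nhds 0) := by
  have h1 := FloorSemiring.tendsto_pow_div_factorial_atTop (16 : ℝ)
  set c : ℝ := (t : ℝ) * (3 ^ t * (vn L p0 v * 2 ^ t)) * 2 ^ t with hc
  have hc0 : 0 ≤ c := by
    have := vn_nonneg L p0 v
    positivity
  have h2 : Filter.Tendsto (fun A : ℕ => (c * (t + J + 3)) * (16 ^ A / (A.factorial : ℝ)))
      Filter.atTop (nhds 0) := by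
    have := h1.const_mul (c * (t + J + 3))
    simpa using this
  refine squeeze_zero (fun A => ?_) (fun A => ?_) h2
  · have := vn_nonneg L p0 v
    unfold otl
    positivity
  · have h3 : ((A + t + J + 2 : ℕ) : ℝ) ≤ (t + J + 3) * 2 ^ A := by
      have h4 : (A : ℝ) + 1 ≤ 2 ^ A := by
        have := @Nat.lt_two_pow_self A
        exact_mod_cast this
      have h5 : (1 : ℝ) ≤ 2 ^ A := one_le_pow₀ (by norm_num)
      have h6 : (0 : ℝ) ≤ t := Nat.cast_nonneg t
      have h7 : (0 : ℝ) ≤ J := Nat.cast_nonneg J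
      push_cast
      nlinarith
    have e : otl t J L p0 v A = ((A + t + J + 2 : ℕ) : ℝ) * (c * (8 ^ A / (A.factorial : ℝ))) := by
      unfold otl
      rw [hc, pow_add]
      have e8 : (8 : ℝ) ^ A = 4 ^ A * 2 ^ A := by rw [← mul_pow]; norm_num
      rw [e8]
      ring
    rw [e]
    calc ((A + t + J + 2 : ℕ) : ℝ) * (c * (8 ^ A / (A.factorial : ℝ)))
        ≤ ((t + J + 3) * 2 ^ A) * (c * (8 ^ A / (A.factorial : ℝ))) :=
          mul_le_mul_of_nonneg_right h3 (by positivity)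
      _ = _ := by
          have e : (16 : ℝ) ^ A = 2 ^ A * 8 ^ A := by rw [← mul_pow]; norm_num
          rw [e]
          ring

/-! ## the harmonic extension -/

/-- the harmonic extension of `u` from the level `n` to the lower levels -/
noncomputable def hx (K n : ℕ) (u : Finset ℕ → ℝ) (B : Finset ℕ) : ℝ :=
  Dopi (n - (∑ y ∈ B, y - ∑ y ∈ range K, y)) u B

theorem hx_lv {n k : ℕ} (u : Finset ℕ → ℝ) {B : Finset ℕ} (hB : B ∈ Lv K k) :
    hx K n u B = Dopi (n - k) u B := by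
  unfold hx
  obtain ⟨-, -, -, hs⟩ := Lv_spec hB
  rw [show ∑ y ∈ B, y - ∑ y ∈ range K, y = k by omega]

theorem hx_top {n : ℕ} (u : Finset ℕ → ℝ) {B : Finset ℕ} (hB : B ∈ Lv K n) :
    hx K n u B = u B := by
  rw [hx_lv u hB, Nat.sub_self]
  rfl

theorem hx_harm {n k : ℕ} (u : Finset ℕ → ℝ) (hk : k < n) {C : Finset ℕ} (hC : C ∈ Lv K k) :
    hx K n u C = ∑ x ∈ ad C, w C x * hx K n u (mv C x) := by
  rw [hx_lv u hC, show n - k = (n - (k + 1)) + 1 by omega]
  show Dop (Dopi (n - (k + 1)) u) C = _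
  unfold Dop
  refine sum_congr rfl fun x hx => ?_
  rw [hx_lv u (mv_mem hC hx)]

/-- the one-bead function -/
noncomputable def obf (t m K J L A : ℕ) (v : ℕ → ℕ → ℝ) (B : Finset ℕ) : ℝ :=
  ∑ x ∈ B, ∑ p ∈ range (A + 1), ob t m K J L v x p * Rr B x p

theorem E1_cut {A P : ℕ} {k : ℕ → ℕ → ℝ} (hP : A < P) {B : Finset ℕ} (hc : B.card = K) :
    E1 K P (cut A k) B = ∑ x ∈ B, ∑ p ∈ range (A + 1), k x p * Rr B x p := by
  rw [E1_eq _ hc]
  refine sum_congr rfl fun x _ => ?_
  rw [← sum_subset (range_subset_range.2 (by omega : A + 1 ≤ P))]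
  · refine sum_congr rfl fun p hp => ?_
    rw [mem_range] at hp
    unfold cut
    rw [if_pos (by omega)]
  · intro p _ hp
    rw [mem_range, not_lt] at hp
    unfold cut
    rw [if_neg (by omega), zero_mul]

/-- **The level `m` values of the harmonic extension of a one-bead function.** -/
theorem hx_obf {t m J L A p0 : ℕ} {v : ℕ → ℕ → ℝ} (hv : ∀ q p, p0 ≤ p → v q p = 0)
    (hK : A + t + m + J + 1 ≤ K) {B : Finset ℕ} (hB : B ∈ Lv K m) :
    |hx K (m + t) (obf t m K J L A v) B - tg m K J L A v B| ≤ otl t J L p0 v A := by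
  obtain ⟨hc, -, -, -⟩ := Lv_spec hB
  have e1 : hx K (m + t) (obf t m K J L A v) B =
      Dopi t (E1 K (A + t + 1) (cut A (ob t m K J L v))) B := by
    rw [hx_lv _ hB, Nat.add_sub_cancel_left]
    refine Dopi_congr t m _ _ (fun C hC => ?_) B hB
    rw [E1_cut (by omega) (Lv_spec hC).1]
    rfl
  rw [e1, Dopi_E1 (Sup_ob (t := t) (m := m) (J := J) (L := L) (A := A) hv) t m (by omega)
    (by omega) (by omega) B hB, E1_ob (by omega) (by omega) hc, add_sub_cancel_left]
  exact tail_ob hv hB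

end Pool.JM
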