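import Pool.Agent.Work.MP_46fa68_h4.OB2
import Pool.Agent.Work.MP_46fa68_h4.Kex

/-!
# MP_46fa68_co: one-bead functions, the values at the level `m` for sources at the offsets `≥ -1`
-/

set_option autoImplicit false

open Finset Equiv

namespace Pool.JM

variable {K : ℕ}

theorem Rr_Rw {m : ℕ} (hK : 0 < K) (p : ℕ) :
    Rr (Rw K m) (K - 1 + m) p = (m.factorial : ℝ) / ((m + p).factorial : ℝ) := by
  unfold Rr Rw
  have hn : K - 1 + m ∉ range (K - 1) ∨ m = 0 := by
    by_cases h : m = 0
    · exact Or.inr h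
    · left
      rw [mem_range]
      omega
  have e : (insert (K - 1 + m) (range (K - 1))).erase (K - 1 + m) = range (K - 1) := by
    rw [erase_insert]
    rw [mem_range]
    omega
  have hpr := prod_rest (K - 1) m p
  have f1 : (0 : ℝ) < (K - 1 + m).factorial := by exact_mod_cast Nat.factorial_pos _
  have f2 : (0 : ℝ) < (K - 1 + m + p).factorial := by exact_mod_cast Nat.factorial_pos _
  have f3 : (0 : ℝ) < (m + p).factorial := by exact_mod_cast Nat.factorial_pos _
  rw [e, hpr]
  field_simp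

/-- the value of the sources at the one-row shape -/
noncomputable def sRw (m p0 : ℕ) (v : ℕ → ℝ) : ℝ :=
  ∑ p ∈ range p0, v p * ((m.factorial : ℝ) / ((m + p).factorial : ℝ))

/-- the value of the sources at the shape `(m - 1, 1)` -/
noncomputable def sRo (m p0 : ℕ) (v : ℕ → ℝ) : ℝ :=
  ∑ p ∈ range p0, v p * (((m - 1 : ℝ) + p) / (m - 1) * ((m.factorial : ℝ) / (m + p).factorial))

theorem tg_eq {m L A p0 : ℕ} {v : ℕ → ℕ → ℝ} (hm : 2 ≤ m) (hK : 1 ≤ K) (hL : 2 ≤ L)
    (hA : p0 ≤ A + 1) (hv : ∀ q p, p0 ≤ p → v q p = 0) (hc : sRo m p0 (v 0) = 0)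
    {B : Finset ℕ} (hB : B ∈ Lv K m) :
    tg m K 1 L A v B = if B = Rw K m then sRw m p0 (v 1) else 0 := by
  obtain ⟨-, -, hlt, -⟩ := Lv_spec hB
  have h1 : ∀ x ∈ B, ∑ p ∈ range (A + 1),
      (∑ q ∈ range L, if x = K + m + q - 1 - 1 then v q p else 0) * Rr B x p =
      (if x = K - 1 + (m - 1) then ∑ p ∈ range (A + 1), v 0 p * Rr B x p else 0) +
      (if x = K - 1 + m then ∑ p ∈ range (A + 1), v 1 p * Rr B x p else 0) := by
    intro x hx
    have hx' := hlt x hx
    have e : ∀ p, (∑ q ∈ range L, if x = K + m + q - 1 - 1 then v q p else 0) =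
        (if x = K - 1 + (m - 1) then v 0 p else 0) + (if x = K - 1 + m then v 1 p else 0) := by
      intro p
      obtain ⟨l, rfl⟩ : ∃ l, L = l + 2 := ⟨L - 2, by omega⟩
      rw [sum_range_succ', sum_range_succ', sum_eq_zero, zero_add, add_comm]
      · congr 1
        · refine if_congr ?_ rfl rfl
          omega
        · refine if_congr ?_ rfl rfl
          omega
      · intro q _
        rw [if_neg]
        omega
    simp only [e, add_mul, sum_add_distrib]
    congr 1
    · split_ifs with h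
      · rfl
      · simp
    · split_ifs with h
      · rfl
      · simp
  unfold tg
  rw [sum_congr rfl h1, sum_add_distrib, sum_ite_eq' B (K - 1 + (m - 1)),
    sum_ite_eq' B (K - 1 + m)]
  have hr : ∀ (q : ℕ) (f : ℕ → ℝ), ∑ p ∈ range (A + 1), v q p * f p =
      ∑ p ∈ range p0, v q p * f p := by
    intro q f
    symm
    refine sum_subset (range_subset_range.2 hA) fun p _ hp => ?_
    rw [mem_range, not_lt] at hp
    rw [hv q p hp, zero_mul]
  have e0 : (if K - 1 + (m - 1) ∈ B then
      ∑ p ∈ range (A + 1), v 0 p * Rr B (K - 1 + (m - 1)) p else 0) = 0 := by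
    split_ifs with hx
    · obtain ⟨h2, h3⟩ := shape_one hm hK hB hx
      rw [hr 0, ← hc]
      unfold sRo
      refine sum_congr rfl fun p _ => ?_
      rw [Rr_one (by omega) h2 h3, show m - 1 + 1 = m by omega]
      push_cast [Nat.cast_sub (show 1 ≤ m by omega)]
      rfl
    · rfl
  rw [e0, zero_add]
  by_cases hx : K - 1 + m ∈ B
  · have hB' := eq_Rw (by omega : 0 < K) hB hx
    rw [if_pos hx, if_pos hB', hr 1]
    unfold sRw
    refine sum_congr rfl fun p _ => ?_
    rw [hB', Rr_Rw (by omega)]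
  · rw [if_neg hx, if_neg]
    intro h
    apply hx
    rw [h]
    unfold Rw
    exact mem_insert_self _ _

/-- **Level `m` values**: `s [one row]` up to the tail. -/
theorem hx_obf_le {t m L A p0 : ℕ} {v : ℕ → ℕ → ℝ} (hm : 2 ≤ m) (hL : 2 ≤ L)
    (hA : p0 ≤ A + 1) (hv : ∀ q p, p0 ≤ p → v q p = 0) (hc : sRo m p0 (v 0) = 0)
    (hK : A + t + m + 2 ≤ K) {B : Finset ℕ} (hB : B ∈ Lv K m) :
    |hx K (m + t) (obf t m K 1 L A v) B - if B = Rw K m then sRw m p0 (v 1) else 0| ≤
      otl t 1 L p0 v A := by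
  rw [← tg_eq hm (by omega) hL hA hv hc hB]
  exact hx_obf hv (by omega) hB

end Pool.JM
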