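import Pool.Agent.Work.MP_46fa68_28.Joint
import Pool.Agent.Work.MP_46fa68_h4.OB3

/-!
# MP_46fa68_co: one-bead functions in the joint certificate

`Val` for functions with approximate level `m` values, and for the harmonic extensions of one-bead
functions.
-/

set_option autoImplicit false

open Finset Equiv

namespace Pool.JM

variable {N M : ℕ}

theorem quad_Pn (hM : N < M) {n : ℕ} (hn : n ≤ N) (B : Finset ℕ) (v : Perm (Fin N) → ℝ) :
    v ⬝ᵥ ((P N M n B).mulVec v) = (P N M n B).mulVec v ⬝ᵥ (P N M n B).mulVec v := by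
  have hg := good (N := N) hM n hn
  nth_rewrite 1 [← hg.idem B]
  rw [← Matrix.mulVec_mulVec, Matrix.dotProduct_mulVec, ← Matrix.mulVec_transpose, hg.symm]

theorem quad_Gn (n : ℕ) (b : Finset ℕ → ℝ) (v : Perm (Fin N) → ℝ) :
    v ⬝ᵥ ((G N M b n).mulVec v) = ∑ B ∈ Lv M n, b B * (v ⬝ᵥ ((P N M n B).mulVec v)) := by
  unfold G
  rw [Matrix.sum_mulVec, dotProduct_sum]
  refine Finset.sum_congr rfl fun B _ => ?_
  rw [Matrix.smul_mulVec, dotProduct_smul, smul_eq_mul]

theorem quad_abs (hM : N < M) {n : ℕ} (hn : n ≤ N) {e : Finset ℕ → ℝ} {ε : ℝ}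
    (he : ∀ B ∈ Lv M n, |e B| ≤ ε) (v : Perm (Fin N) → ℝ) :
    |v ⬝ᵥ ((G N M e n).mulVec v)| ≤ ε * (v ⬝ᵥ v) := by
  have hg := good (N := N) hM n hn
  have h0 : ∀ B, 0 ≤ v ⬝ᵥ ((P N M n B).mulVec v) := by
    intro B
    rw [quad_Pn hM hn]
    exact Finset.sum_nonneg fun i _ => mul_self_nonneg _
  have h1 : v ⬝ᵥ v = ∑ B ∈ Lv M n, v ⬝ᵥ ((P N M n B).mulVec v) := by
    rw [← dotProduct_sum, ← Matrix.sum_mulVec, hg.tot, Matrix.one_mulVec]
  rw [quad_Gn, h1, Finset.mul_sum]
  refine (Finset.abs_sum_le_sum_abs _ _).trans (Finset.sum_le_sum fun B hB => ?_)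
  rw [abs_mul, abs_of_nonneg (h0 B)]
  exact mul_le_mul_of_nonneg_right (he B hB) (h0 B)

theorem G_symm (hM : N < M) {n : ℕ} (hn : n ≤ N) (e : Finset ℕ → ℝ) (σ τ : Perm (Fin N)) :
    G N M e n σ τ = G N M e n τ σ := by
  have hg := good (N := N) hM n hn
  have h : (G N M e n).transpose = G N M e n := by
    unfold G
    rw [Matrix.transpose_sum]
    refine Finset.sum_congr rfl fun B _ => ?_
    rw [Matrix.transpose_smul, hg.symm]
  have h2 := congrFun (congrFun h τ) σ
  rw [Matrix.transpose_apply] at h2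
  exact h2

/-- entries of `G e` for small `e` -/
theorem G_abs_le (hM : N < M) {n : ℕ} (hn : n ≤ N) {e : Finset ℕ → ℝ} {ε : ℝ}
    (he : ∀ B ∈ Lv M n, |e B| ≤ ε) (σ τ : Perm (Fin N)) : |G N M e n σ τ| ≤ ε := by
  classical
  set x : Perm (Fin N) → ℝ := Pi.single σ 1 with hx
  set y : Perm (Fin N) → ℝ := Pi.single τ 1 with hy
  set g := G N M e n with hgd
  have exy : x ⬝ᵥ (g.mulVec y) = g σ τ := by
    rw [hx, hy, Matrix.mulVec_single, single_dotProduct]
    simp
  have eyx : y ⬝ᵥ (g.mulVec x) = g σ τ := by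
    rw [hx, hy, Matrix.mulVec_single, single_dotProduct, hgd, G_symm hM hn e σ τ]
    simp
  have hp := quad_abs hM hn he (x + y)
  have hm := quad_abs hM hn he (x - y)
  rw [← hgd] at hp hm
  have e1 : (x + y) ⬝ᵥ (g.mulVec (x + y)) - (x - y) ⬝ᵥ (g.mulVec (x - y)) = 4 * g σ τ := by
    rw [Matrix.mulVec_add, Matrix.mulVec_sub, add_dotProduct, sub_dotProduct, dotProduct_add,
      dotProduct_add, dotProduct_sub, dotProduct_sub, exy, eyx]
    ring
  have e2 : (x + y) ⬝ᵥ (x + y) + (x - y) ⬝ᵥ (x - y) = 4 := by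
    have h1 : x ⬝ᵥ x = 1 := by rw [hx, single_dotProduct]; simp
    have h2 : y ⬝ᵥ y = 1 := by rw [hy, single_dotProduct]; simp
    rw [add_dotProduct, sub_dotProduct, dotProduct_add, dotProduct_add, dotProduct_sub,
      dotProduct_sub, h1, h2]
    ring
  rw [abs_le] at hp hm ⊢
  constructor
  · nlinarith [hp.1, hp.2, hm.1, hm.2]
  · nlinarith [hp.1, hp.2, hm.1, hm.2]

theorem G_add (a b : Finset ℕ → ℝ) (n : ℕ) :
    G N M (fun B => a B + b B) n = G N M a n + G N M b n := by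
  unfold G
  rw [← Finset.sum_add_distrib]
  refine Finset.sum_congr rfl fun B _ => ?_
  rw [add_smul]

theorem G_congr {a b : Finset ℕ → ℝ} {n : ℕ} (h : ∀ B ∈ Lv M n, a B = b B) :
    G N M a n = G N M b n := by
  unfold G
  refine Finset.sum_congr rfl fun B hB => ?_
  rw [h B hB]

/-- adding a function with a small kernel -/
theorem Val_add {m : ℕ} {a b : Finset ℕ → ℝ} {p q δ : ℝ} (h : Val N M m a p q)
    (hb : ∀ σ : Perm (Fin N), Sn m σ → G N M b m σ 1 ≤ δ) :
    Val N M m (fun B => a B + b B) p (q - δ * m.factorial) := by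
  intro σ hσ
  rw [G_add, Matrix.add_apply]
  have h1 := h σ hσ
  have h2 := hb σ hσ
  have hf : (m.factorial : ℝ) ≠ 0 := by exact_mod_cast m.factorial_ne_zero
  have e : (q - δ * m.factorial) / m.factorial = q / m.factorial - δ := by
    field_simp
  rw [e]
  linarith

theorem Val_congr {m : ℕ} {a b : Finset ℕ → ℝ} {p q : ℝ} (h : Val N M m a p q)
    (hb : ∀ C ∈ Lv M m, b C = a C) : Val N M m b p q := by
  intro σ hσ
  rw [G_congr hb]
  exact h σ hσ

/-- **`Val` from approximate level `m` values** -/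
theorem Val_approx (hM : N < M) {m : ℕ} (hm : m ≤ N) (a : Finset ℕ → ℝ) (p q ε : ℝ)
    (h : ∀ C ∈ Lv M m, |a C - (p - if C = Rw M m then q else 0)| ≤ ε) :
    Val N M m a p (q - ε * m.factorial) := by
  have h0 : Val N M m (fun C => p - if C = Rw M m then q else 0) p q :=
    Val_of_const hM hm _ p q fun _ _ => rfl
  have h1 := Val_add (b := fun C => a C - (p - if C = Rw M m then q else 0)) h0
    (fun σ _ => (le_abs_self _).trans (G_abs_le hM hm h σ 1))
  exact Val_congr h1 fun C _ => by ring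

/-! ## the harmonic extension is linear -/

variable {K : ℕ}

theorem Dopi_one' (t n : ℕ) (hn : n + t ≤ K) (B : Finset ℕ) (hB : B ∈ Lv K n) :
    Dopi t (fun _ => 1) B = 1 := Dopi_one t n hn B hB

theorem Dopi_smul' : ∀ (t : ℕ) (c : ℝ) (u : Finset ℕ → ℝ) (B : Finset ℕ),
    Dopi t (fun C => c * u C) B = c * Dopi t u B
  | 0, _, _, _ => rfl
  | t + 1, c, u, B => by
    have e : Dopi (t + 1) (fun C => c * u C) B = Dop (Dopi t (fun C => c * u C)) B := rfl
    have e' : Dopi (t + 1) u B = Dop (Dopi t u) B := rfl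
    rw [e, e']
    unfold Dop
    rw [Finset.mul_sum]
    refine Finset.sum_congr rfl fun x _ => ?_
    rw [Dopi_smul' t c u]
    ring

theorem hx_add (n : ℕ) (u v : Finset ℕ → ℝ) (B : Finset ℕ) :
    hx K n (fun C => u C + v C) B = hx K n u B + hx K n v B := by
  unfold hx
  exact Dopi_add _ u v B

theorem hx_smul (n : ℕ) (c : ℝ) (u : Finset ℕ → ℝ) (B : Finset ℕ) :
    hx K n (fun C => c * u C) B = c * hx K n u B := by
  unfold hx
  exact Dopi_smul' _ c u B

theorem hx_const {n k : ℕ} (c : ℝ) (hk : k ≤ n) (hn : n ≤ K) {B : Finset ℕ} (hB : B ∈ Lv K k) :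
    hx K n (fun _ => c) B = c := by
  have e : hx K n (fun _ => c) B = hx K n (fun C => c * (fun _ => 1) C) B := by
    unfold hx
    simp
  rw [e, hx_smul, hx_lv _ hB, Dopi_one (n - k) k (by omega) B hB, mul_one]

/-- `hx u` is harmonic -/
theorem Harm_hx (m n : ℕ) (u : Finset ℕ → ℝ) : Harm K m n (hx K n u) :=
  fun _ _ hk _ hC => hx_harm u hk hC

/-- **`Val` for one-bead functions** `c + b * (one-bead function) + (anything with a small kernel)` -/
theorem Val_obf {m t L A p0 : ℕ} {v : ℕ → ℕ → ℝ} (hN : m + t ≤ N) (hM : N < K) (hm : 2 ≤ m)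
    (hL : 2 ≤ L) (hA : p0 ≤ A + 1) (hv : ∀ q p, p0 ≤ p → v q p = 0) (hc : sRo m p0 (v 0) = 0)
    (hK : A + t + m + 2 ≤ K) (c : ℝ) :
    Val N K m (hx K (m + t) (fun B => c - obf t m K 1 L A v B)) c
      (sRw m p0 (v 1) - otl t 1 L p0 v A * m.factorial) := by
  refine Val_approx hM (by omega) _ c _ _ fun C hC => ?_
  have e : hx K (m + t) (fun B => c - obf t m K 1 L A v B) C =
      c - hx K (m + t) (obf t m K 1 L A v) C := by
    have e1 : (fun B => c - obf t m K 1 L A v B) =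
        fun B => (fun _ => c) B + (fun B => (-1) * obf t m K 1 L A v B) B := by
      funext B
      ring
    rw [e1, hx_add, hx_const c (by omega) (by omega) hC, hx_smul]
    ring
  rw [e]
  have h := hx_obf_le hm hL hA hv hc hK hC
  rw [abs_sub_comm] at h
  have e2 : c - hx K (m + t) (obf t m K 1 L A v) C -
      (c - if C = Rw K m then sRw m p0 (v 1) else 0) =
      (if C = Rw K m then sRw m p0 (v 1) else 0) - hx K (m + t) (obf t m K 1 L A v) C := by ring
  rw [e2]
  exact h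

end Pool.JM
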