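import Pool.Agent.Work.MP_46fa68_h4.OB5
import Pool.Agent.Work.MP_46fa68_14.Rare3

/-!
# MP_46fa68_co: the joint certificate from one-bead functions, rare shapes free

The functions `al`, `f`, `g` of the certificate are arbitrary; the one-bead functions
`W1 - obf vA`, `- obf vF`, `W2 - obf vG` only have to be near them in the mean (`Rare.loss`).
-/

set_option autoImplicit false

open Finset Equiv

namespace Pool.JM

/-- **JC from one-bead functions and losses.** -/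
theorem JC_of_loss {n m t L p0 : ℕ} (hn : n + 1 = m + (t + 1)) (hm : 2 ≤ m) (hL : 2 ≤ L)
    (vA vF vG : ℕ → ℕ → ℝ)
    (hvA : ∀ q p, p0 ≤ p → vA q p = 0) (hvF : ∀ q p, p0 ≤ p → vF q p = 0)
    (hvG : ∀ q p, p0 ≤ p → vG q p = 0)
    (hA0 : sRo m p0 (vA 0) = 0) (hF0 : sRo m p0 (vF 0) = 0) (hG0 : sRo m p0 (vG 0) = 0)
    (W1 W2 cA cF cG : ℝ)
    (h : ∀ ε : ℝ, 0 < ε → ∃ A₀ : ℕ, ∀ A, A₀ ≤ A → ∃ K : ℕ, A + (t + 1) + m + 2 ≤ K ∧ n + 1 < K ∧
      ∃ al ph f g : Finset ℕ → ℝ,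
        Rare.loss K m n (fun B => W1 - obf t m K 1 L A vA B) al ≤ cA + ε ∧
        Rare.loss K m (n + 1) (fun B => 0 - obf (t + 1) m K 1 L A vF B) f ≤ cF + ε ∧
        Rare.loss K m (n + 1) (fun B => W2 - obf (t + 1) m K 1 L A vG B) g ≤ cG + ε ∧
        (∀ B ∈ Lv K (n + 1), 0 < g B) ∧
        (∀ C ∈ Lv K n, ∑ x ∈ ad C, w C x * ((f (mv C x) - ph C) ^ 2 / g (mv C x)) ≤ al C)) :
    JC n m W1 (sRw m p0 (vA 1) - cA) (sRw m p0 (vF 1) - cF) W2 (sRw m p0 (vG 1) - cG) := by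
  have hf : (0 : ℝ) < m.factorial := by exact_mod_cast m.factorial_pos
  refine fun A' hA' i j => Rare.joint_cell_lim (by omega) W1 _ _ W2 _ (fun δ hδ => ?_) A' hA' i j
  obtain ⟨A₀, hh⟩ := h (δ / 2) (by positivity)
  -- choose `A`
  have tA := (otl_tendsto t 1 L p0 vA).eventually
    (gt_mem_nhds (show (0 : ℝ) < δ / 2 / m.factorial by positivity))
  have tF := (otl_tendsto (t + 1) 1 L p0 vF).eventually
    (gt_mem_nhds (show (0 : ℝ) < δ / 2 / m.factorial by positivity))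
  have tG := (otl_tendsto (t + 1) 1 L p0 vG).eventually
    (gt_mem_nhds (show (0 : ℝ) < δ / 2 / m.factorial by positivity))
  obtain ⟨A, hA⟩ := (((tA.and tF).and tG).and (Filter.eventually_ge_atTop (A₀ + p0))).exists
  obtain ⟨⟨⟨eA, eF⟩, eG⟩, hAA⟩ := hA
  have mul_lt : ∀ z : ℝ, z < δ / 2 / m.factorial → z * m.factorial ≤ δ / 2 := fun z hz => by
    rw [lt_div_iff₀ hf] at hz
    exact hz.le
  obtain ⟨K, hK, hK1, al, ph, f, g, lA, lF, lG, hpos, hvar⟩ := hh A (by omega)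
  have e1 : n = m + t := by omega
  have VA := Val_obf (N := n + 1) (K := K) (A := A) (t := t) (by omega) hK1 hm hL (by omega) hvA hA0
    (by omega) W1
  have VF := Val_obf (N := n + 1) (K := K) (A := A) (t := t + 1) (by omega) hK1 hm hL (by omega)
    hvF hF0 (by omega) 0
  have VG := Val_obf (N := n + 1) (K := K) (A := A) (t := t + 1) (by omega) hK1 hm hL (by omega)
    hvG hG0 (by omega) W2
  rw [← e1] at VA
  rw [show m + (t + 1) = n + 1 by omega] at VF VG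
  have mA := mul_lt _ eA
  have mF := mul_lt _ eF
  have mG := mul_lt _ eG
  have hls : ∀ {k : ℕ} {a b : Finset ℕ → ℝ}, Rare.loss K m k (hx K k a) b = Rare.loss K m k a b := by
    intro k a b
    unfold Rare.loss
    congr 1
    refine sum_congr rfl fun B hB => ?_
    rw [hx_top a hB]
  refine ⟨K, _, _, _, al, ph, f, g, 0, _, _, _, cA + δ / 2, cF + δ / 2, cG + δ / 2, hK1,
    ⟨Harm_hx _ _ _, VA⟩, ⟨Harm_hx _ _ _, VF⟩, ⟨Harm_hx _ _ _, VG⟩, ⟨?_, ?_, ?_⟩,
    ⟨?_, ?_, ?_⟩, hpos, hvar⟩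
  · rw [hls]; exact lA
  · rw [hls]; exact lF
  · rw [hls]; exact lG
  · linarith
  · linarith
  · linarith

end Pool.JM
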