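import Pool.Agent.Work.MP_46fa68_h4.Row1
import Pool.Agent.Work.MP_46fa68_h4.Canon

/-!
# MP_46fa68_co: the one-body function as a sum over the beads, and the contribution of the first row
-/

set_option autoImplicit false

open Finset Equiv

namespace Pool.JM

variable {K : ℕ}

/-- the one-body function as a sum over the beads -/
theorem E1_eq {P : ℕ} (k : ℕ → ℕ → ℝ) {B : Finset ℕ} (hc : B.card = K) :
    E1 K P k B = ∑ x ∈ B, ∑ p ∈ range P, k x p * Rr B x p := by
  have hF := (cf_pos hc).ne'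
  have hm := cf_mono hc
  have himg := cf_image hc
  unfold E1 toF e1
  rw [div_eq_iff hF, sum_mul]
  have e4 : ∑ y ∈ univ.image (cf K B), (∑ p ∈ range P, k y p * Rr B y p) * FF (cf K B) =
      ∑ i, (∑ p ∈ range P, k (cf K B i) p * Rr B (cf K B i) p) * FF (cf K B) :=
    sum_image (fun a _ b _ h => hm.injective h)
  rw [himg] at e4
  rw [e4]
  refine sum_congr rfl fun i _ => ?_
  rw [sum_mul]
  refine sum_congr rfl fun p _ => ?_
  rw [FF_up hm.injective, himg]
  ring

/-- the (unsigned) contribution of the bead `x` to the truncated canonical one-body function -/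
noncomputable def VV (t A M0 : ℕ) (B : Finset ℕ) (x : ℕ) : ℝ :=
  ∑ p ∈ Ico 1 (A + 1), ((t + p - 1).choose p : ℝ) * ((p - 1).choose (M0 - x - 1) : ℝ) * Rr B x p

theorem E1_bt {P t A M0 : ℕ} (hP : A < P) {B : Finset ℕ} (hc : B.card = K)
    (hb : ∀ x ∈ B, x < M0) :
    E1 K P (kc M0 (bt t A)) B = ∑ x ∈ B, (-1) ^ (M0 - x) * VV t A M0 B x := by
  rw [E1_eq _ hc]
  refine sum_congr rfl fun x hx => ?_
  have hxM := hb x hx
  unfold VV
  rw [mul_sum]
  have h1 : ∑ p ∈ range P, kc M0 (bt t A) x p * Rr B x p =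
      ∑ p ∈ Ico 1 (A + 1), kc M0 (bt t A) x p * Rr B x p := by
    symm
    refine sum_subset (fun p hp => ?_) fun p hp hp' => ?_
    · rw [mem_Ico] at hp
      exact mem_range.2 (by omega)
    · rw [mem_range] at hp
      rw [mem_Ico] at hp'
      by_cases h0 : p = 0
      · subst h0
        unfold kc
        rw [kp_zero, if_neg (by omega)]
        ring
      · have : A < p := by omega
        unfold kc bt
        rw [if_neg (by omega)]
        ring
  rw [h1]
  refine sum_congr rfl fun p hp => ?_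
  rw [mem_Ico] at hp
  unfold kc bt kp
  rw [if_pos (by omega), if_neg (by omega), if_pos hxM]
  have h2 : ((-1 : ℝ)) ^ p * (-1) ^ (p + (M0 - x)) = (-1) ^ (M0 - x) := by
    rw [pow_add, ← mul_assoc, ← mul_pow]
    norm_num
  rw [← h2]
  ring

theorem VV_nonneg {t A M0 : ℕ} {B : Finset ℕ} {x : ℕ} (hmax : ∀ y ∈ B, y ≤ x) :
    0 ≤ VV t A M0 B x := by
  unfold VV
  refine sum_nonneg fun p _ => ?_
  have := (Rr_pos hmax p).le
  positivity

/-- **The layer `i = 2`**, by telescoping. -/
theorem sum_two {t : ℕ} (R : ℕ → ℝ) (hR : ∀ p, 0 ≤ R p)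
    (hT : ∀ p, 2 ≤ p → ((t : ℝ) + 1) * R (p + 1) ≤ R p) : ∀ A, 2 ≤ A →
    ∑ p ∈ Ico 1 (A + 1), ((t + p - 1).choose p : ℝ) * ((p - 1).choose 1 : ℝ) * R p ≤
      ((t : ℝ) + 1) ^ 2 * R 2 - ((t + A).choose A : ℝ) * R A := by
  intro A hA
  induction A, hA using Nat.le_induction with
  | base =>
    rw [show Ico 1 (2 + 1) = {1, 2} by rfl, sum_insert (by simp), sum_singleton]
    have h1 : ((t + 2 - 1).choose 2 : ℝ) = (t + 1) * t / 2 := by
      rw [show t + 2 - 1 = t + 1 by omega, Nat.cast_choose_two]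
      push_cast; ring
    have h2 : ((t + 2).choose 2 : ℝ) = (t + 2) * (t + 1) / 2 := by
      rw [Nat.cast_choose_two]
      push_cast; ring
    rw [h1, h2]
    simp
    nlinarith [hR 2]
  | succ A hA ih =>
    rw [sum_Ico_succ_top (by omega : 1 ≤ A + 1)]
    -- the identity `C(t+A, A+1) A + C(t+1+A, A+1) = (t+1) C(t+A, A)`
    have h1 : ((t + (A + 1) - 1).choose (A + 1) : ℝ) * ((A + 1 - 1).choose 1 : ℝ) +
        ((t + (A + 1)).choose (A + 1) : ℝ) = ((t : ℝ) + 1) * ((t + A).choose A : ℝ) := by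
      have e1 : (t + (A + 1)).choose (A + 1) = (t + A).choose A + (t + A).choose (A + 1) := by
        rw [show t + (A + 1) = (t + A) + 1 by omega, Nat.choose_succ_succ]
      have e3 := Nat.choose_succ_right_eq (t + A) A
      rw [show t + (A + 1) - 1 = t + A by omega, Nat.add_sub_cancel, Nat.choose_one_right, e1]
      rw [show t + A - A = t by omega] at e3
      have e4 : (((t + A).choose (A + 1) : ℕ) : ℝ) * ((A : ℝ) + 1) = ((t + A).choose A : ℝ) * t := by
        exact_mod_cast e3
      push_cast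
      linear_combination e4
    have h2 := hT A hA
    have h3 : (0 : ℝ) ≤ ((t + A).choose A : ℝ) := Nat.cast_nonneg _
    have h4 := mul_le_mul_of_nonneg_left h2 h3
    have h5 : ((t + (A + 1) - 1).choose (A + 1) : ℝ) * ((A + 1 - 1).choose 1 : ℝ) =
      ((t : ℝ) + 1) * ((t + A).choose A : ℝ) - ((t + (A + 1)).choose (A + 1) : ℝ) := by
      linarith
    rw [h5]
    linarith

/-- the layer `i = 2` for a set of beads -/
theorem VV_two {k a b t A M0 : ℕ} {B : Finset ℕ} (hc : (B.erase (k + a)).card = k)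
    (hs : ∑ y ∈ B.erase (k + a), y = ∑ y ∈ range k, y + b)
    (hb : ∀ y ∈ B.erase (k + a), y < k + a) (hmax : ∀ y ∈ B, y ≤ k + a) (hab : b ≤ a)
    (hM : M0 = k + a + 2) (hA : 2 ≤ A)
    (hT : t + 1 ≤ (a - b + 3) * (a - b + 5)) (hta : t + 4 + (a - b) ≤ a + 2) :
    VV t A M0 B (k + a) ≤ ((t : ℝ) + 1) ^ 2 * (1 / (((a : ℝ) + 2) * (a + 3))) *
      (1 + 2 / ((a : ℝ) - b + 1)) := by
  have hbaR : (b : ℝ) ≤ a := by exact_mod_cast hab
  have hstep : ∀ p, 2 ≤ p → ((t : ℝ) + 1) * Rr B (k + a) (p + 1) ≤ Rr B (k + a) p := by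
    intro p hp
    have h1 := Rr_top_step hc hs hb hab p
    have h0 := (Rr_pos hmax p).le
    have hp' : (2 : ℝ) ≤ p := by exact_mod_cast hp
    have h2 : (0 : ℝ) < (a : ℝ) + p - b + 1 := by linarith
    have h3 : (0 : ℝ) < (a : ℝ) + p + 2 := by positivity
    have h4 : ((t : ℝ) + 1) * ((1 / ((a : ℝ) + p + 2)) * (1 + 1 / ((a : ℝ) + p - b + 1))) ≤ 1 := by
      rw [show ((t : ℝ) + 1) * ((1 / ((a : ℝ) + p + 2)) * (1 + 1 / ((a : ℝ) + p - b + 1))) =
        (((t : ℝ) + 1) * ((a : ℝ) + p - b + 2)) / (((a : ℝ) + p + 2) * ((a : ℝ) + p - b + 1)) by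
          field_simp; ring]
      rw [div_le_one (mul_pos h3 h2)]
      obtain ⟨D, hD⟩ : ∃ D, D = a - b := ⟨_, rfl⟩
      have hDR : (D : ℝ) = (a : ℝ) - b := by rw [hD, Nat.cast_sub hab]
      rw [← hD] at hT hta
      have e1 : ((t : ℝ) + 1) ≤ ((D : ℝ) + 3) * (D + 5) := by exact_mod_cast hT
      have e2 : (t : ℝ) + 4 + D ≤ a + 2 := by exact_mod_cast hta
      have e3 : (0 : ℝ) ≤ D := Nat.cast_nonneg D
      rw [show (a : ℝ) + p - b + 2 = D + p + 2 by rw [hDR]; ring,
        show (a : ℝ) + p - b + 1 = D + p + 1 by rw [hDR]; ring]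
      have e4 : (t : ℝ) + 4 + D + p ≤ a + p + 2 := by linarith
      have e5 : ((t : ℝ) + 4 + D + p) * (D + p + 1) ≤ ((a : ℝ) + p + 2) * (D + p + 1) :=
        mul_le_mul_of_nonneg_right e4 (by positivity)
      have e6 : ((D : ℝ) + 3) * (D + 5) ≤ (D + p + 1) * (D + p + 3) :=
        mul_le_mul (by linarith) (by linarith) (by positivity) (by positivity)
      nlinarith
    calc ((t : ℝ) + 1) * Rr B (k + a) (p + 1)
        ≤ ((t : ℝ) + 1) * (Rr B (k + a) p *
            ((1 / ((a : ℝ) + p + 2)) * (1 + 1 / ((a : ℝ) + p - b + 1)))) :=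
          mul_le_mul_of_nonneg_left h1 (by positivity)
      _ = Rr B (k + a) p *
            (((t : ℝ) + 1) * ((1 / ((a : ℝ) + p + 2)) * (1 + 1 / ((a : ℝ) + p - b + 1)))) := by ring
      _ ≤ Rr B (k + a) p * 1 := mul_le_mul_of_nonneg_left h4 h0
      _ = _ := mul_one _
  have h1 := sum_two (t := t) (fun p => Rr B (k + a) p) (fun p => (Rr_pos hmax p).le) hstep A hA
  have h2 : VV t A M0 B (k + a) = ∑ p ∈ Ico 1 (A + 1),
      ((t + p - 1).choose p : ℝ) * ((p - 1).choose 1 : ℝ) * Rr B (k + a) p := by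
    unfold VV
    rw [hM, show k + a + 2 - (k + a) - 1 = 1 by omega]
  rw [h2]
  refine h1.trans ?_
  have h3 : (0 : ℝ) ≤ ((t + A).choose A : ℝ) * Rr B (k + a) A :=
    mul_nonneg (Nat.cast_nonneg _) (Rr_pos hmax A).le
  have h4 := Rr_top_le hc hs hb hab 2
  have h5 : (((a + 1).factorial : ℝ) / (a + 1 + 2).factorial) = 1 / (((a : ℝ) + 2) * (a + 3)) := by
    rw [show a + 1 + 2 = ((a + 1) + 1) + 1 by omega, Nat.factorial_succ ((a + 1) + 1),
      Nat.factorial_succ (a + 1)]
    have : ((a + 1).factorial : ℝ) ≠ 0 := by exact_mod_cast (a + 1).factorial_ne_zero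
    push_cast
    have n1 : (a : ℝ) + 1 + 1 ≠ 0 := by positivity
    have n2 : (a : ℝ) + 1 + 1 + 1 ≠ 0 := by positivity
    have n3 : (a : ℝ) + 2 ≠ 0 := by positivity
    have n4 : (a : ℝ) + 3 ≠ 0 := by positivity
    field_simp
    ring
  rw [h5] at h4
  push_cast at h4
  have h6 : ((t : ℝ) + 1) ^ 2 * Rr B (k + a) 2 ≤
      ((t : ℝ) + 1) ^ 2 * (1 / (((a : ℝ) + 2) * (a + 3)) * (1 + 2 / ((a : ℝ) - b + 1))) :=
    mul_le_mul_of_nonneg_left h4 (by positivity)
  linarith

/-- **The layers `i ≥ 4`.** -/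
theorem VV_four {k a b t A M0 i : ℕ} {B : Finset ℕ} (hc : (B.erase (k + a)).card = k)
    (hs : ∑ y ∈ B.erase (k + a), y = ∑ y ∈ range k, y + b)
    (hb : ∀ y ∈ B.erase (k + a), y < k + a) (hmax : ∀ y ∈ B, y ≤ k + a) (hab : b ≤ a)
    (hM : M0 = k + a + i) (hi : 4 ≤ i) (hta : t ≤ a + 2) :
    VV t A M0 B (k + a) ≤ 3 / 5 := by
  have hbaR : (b : ℝ) ≤ a := by exact_mod_cast hab
  have hterm : ∀ p ∈ Ico 1 (A + 1), ((t + p - 1).choose p : ℝ) *
      ((p - 1).choose (M0 - (k + a) - 1) : ℝ) * Rr B (k + a) p ≤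
      if i ≤ p then (5 / 4) * (1 / 6) * (1 / ((p - i).factorial : ℝ)) else 0 := by
    intro p hp
    rw [mem_Ico] at hp
    rw [hM, show k + a + i - (k + a) - 1 = i - 1 by omega]
    split_ifs with hip
    · have h4 := Rr_top_le hc hs hb hab p
      have f0 : (0 : ℝ) < p.factorial := by exact_mod_cast p.factorial_pos
      have f1 : (0 : ℝ) < (a + 1 + p).factorial := by exact_mod_cast (a + 1 + p).factorial_pos
      have f2 : (0 : ℝ) < (i - 1).factorial := by exact_mod_cast (i - 1).factorial_pos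
      have f3 : (0 : ℝ) < (p - i).factorial := by exact_mod_cast (p - i).factorial_pos
      have g1 : ((t + p - 1).choose p : ℝ) * p.factorial * (a + 1).factorial ≤
          (a + 1 + p).factorial := by
        have e1 := Nat.descFactorial_eq_factorial_mul_choose (t + p - 1) p
        have e2 : (t + p - 1).descFactorial p ≤ (a + 1 + p).descFactorial p :=
          Nat.descFactorial_le _ (by omega)
        have e3 := Nat.factorial_mul_descFactorial (show p ≤ a + 1 + p by omega)
        rw [Nat.add_sub_cancel] at e3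
        have e4 : (t + p - 1).choose p * p.factorial * (a + 1).factorial ≤ (a + 1 + p).factorial := by
          rw [← e3, mul_comm ((t + p - 1).choose p), ← e1, mul_comm]
          exact Nat.mul_le_mul_left _ e2
        exact_mod_cast e4
      have g2 : (1 : ℝ) + p / ((a : ℝ) - b + 1) ≤ 1 + p := by
        have : (p : ℝ) / ((a : ℝ) - b + 1) ≤ p := div_le_self (Nat.cast_nonneg p) (by linarith)
        linarith
      have g3 : ((p - 1).choose (i - 1) : ℝ) * (i - 1).factorial * (p - i).factorial * p =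
          p.factorial := by
        have e1 := Nat.choose_mul_factorial_mul_factorial (show i - 1 ≤ p - 1 by omega)
        rw [show p - 1 - (i - 1) = p - i by omega] at e1
        have e2 := Nat.mul_factorial_pred (show p ≠ 0 by omega)
        have e3 : (p - 1).choose (i - 1) * (i - 1).factorial * (p - i).factorial * p =
          p.factorial := by rw [e1, mul_comm, e2]
        exact_mod_cast e3
      -- first the binomial coefficient `C(t+p-1, p)`
      have g4 : ((t + p - 1).choose p : ℝ) * (((a + 1).factorial : ℝ) / (a + 1 + p).factorial) ≤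
          1 / p.factorial := by
        rw [← mul_div_assoc, div_le_div_iff₀ f1 f0]
        linarith
      have hp0 : (0 : ℝ) < p := by exact_mod_cast (by omega : 0 < p)
      have g5 : ((p - 1).choose (i - 1) : ℝ) * (1 / p.factorial) =
          1 / ((i - 1).factorial * (p - i).factorial * p) := by
        rw [← g3]
        have : ((p - 1).choose (i - 1) : ℝ) ≠ 0 := by
          have := Nat.choose_pos (show i - 1 ≤ p - 1 by omega)
          exact_mod_cast this.ne'
        field_simp
      have g6 : (6 : ℝ) ≤ (i - 1).factorial := by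
        have : Nat.factorial 3 ≤ (i - 1).factorial := Nat.factorial_le (by omega)
        have h6 : Nat.factorial 3 = 6 := rfl
        rw [h6] at this
        exact_mod_cast this
      have hp4 : (4 : ℝ) ≤ p := by exact_mod_cast (by omega : 4 ≤ p)
      have hR0 := (Rr_pos hmax p).le
      calc ((t + p - 1).choose p : ℝ) * ((p - 1).choose (i - 1) : ℝ) * Rr B (k + a) p
          ≤ ((t + p - 1).choose p : ℝ) * ((p - 1).choose (i - 1) : ℝ) *
            ((((a + 1).factorial : ℝ) / (a + 1 + p).factorial) * (1 + p / ((a : ℝ) - b + 1))) :=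
            mul_le_mul_of_nonneg_left h4 (by positivity)
        _ = (((t + p - 1).choose p : ℝ) * (((a + 1).factorial : ℝ) / (a + 1 + p).factorial)) *
            (((p - 1).choose (i - 1) : ℝ) * (1 + p / ((a : ℝ) - b + 1))) := by ring
        _ ≤ (1 / p.factorial) * (((p - 1).choose (i - 1) : ℝ) * (1 + p)) := by
            refine mul_le_mul g4 (mul_le_mul_of_nonneg_left g2 (Nat.cast_nonneg _)) ?_ (by positivity)
            refine mul_nonneg (Nat.cast_nonneg _) ?_
            have : (0 : ℝ) ≤ p / ((a : ℝ) - b + 1) := div_nonneg hp0.le (by linarith)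
            linarith
        _ = (((p - 1).choose (i - 1) : ℝ) * (1 / p.factorial)) * (1 + p) := by ring
        _ = (1 / ((i - 1).factorial * (p - i).factorial * p)) * (1 + p) := by rw [g5]
        _ = ((1 + p) / p) * ((1 / (i - 1).factorial) * (1 / (p - i).factorial)) := by
            field_simp
        _ ≤ (5 / 4) * ((1 / 6) * (1 / (p - i).factorial)) := by
            refine mul_le_mul ?_ ?_ (by positivity) (by norm_num)
            · rw [div_le_div_iff₀ hp0 (by norm_num)]
              linarith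
            · refine mul_le_mul_of_nonneg_right ?_ (by positivity)
              exact one_div_le_one_div_of_le (by norm_num) g6
        _ = _ := by ring
    · have : (p - 1).choose (i - 1) = 0 := Nat.choose_eq_zero_of_lt (by omega)
      rw [this]
      simp
  unfold VV
  refine (sum_le_sum hterm).trans ?_
  rw [← sum_filter, ← mul_sum]
  have h1 : ∑ p ∈ (Ico 1 (A + 1)).filter (fun p => i ≤ p), (1 / ((p - i).factorial : ℝ)) ≤
      ∑ q ∈ range (A + 1), (1 : ℝ) ^ q / (q.factorial : ℝ) := by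
    have e1 : ∑ p ∈ (Ico 1 (A + 1)).filter (fun p => i ≤ p), (1 / ((p - i).factorial : ℝ)) =
        ∑ q ∈ ((Ico 1 (A + 1)).filter (fun p => i ≤ p)).image (fun p => p - i),
          (1 / (q.factorial : ℝ)) := by
      rw [sum_image]
      intro x hx y hy hxy
      have hx' := (mem_filter.1 (mem_coe.1 hx)).2
      have hy' := (mem_filter.1 (mem_coe.1 hy)).2
      simp only at hxy
      omega
    rw [e1]
    have e2 : ∀ q ∈ range (A + 1), (1 : ℝ) ^ q / (q.factorial : ℝ) = 1 / (q.factorial : ℝ) := by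
      intro q _
      rw [one_pow]
    rw [sum_congr rfl e2]
    refine sum_le_sum_of_subset_of_nonneg ?_ fun _ _ _ => by positivity
    intro q hq
    obtain ⟨p, hp, rfl⟩ := mem_image.1 hq
    rw [mem_filter, mem_Ico] at hp
    exact mem_range.2 (by omega)
  have h2 : ∑ q ∈ range (A + 1), (1 : ℝ) ^ q / (q.factorial : ℝ) ≤ Real.exp 1 :=
    Real.sum_le_exp_of_nonneg (by norm_num) _
  have h3 := Real.exp_one_lt_d9
  have h4 : ∑ p ∈ (Ico 1 (A + 1)).filter (fun p => i ≤ p), (1 / ((p - i).factorial : ℝ)) ≤ 2.7182818286 :=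
    h1.trans (h2.trans h3.le)
  have h5 := mul_le_mul_of_nonneg_left h4 (by norm_num : (0 : ℝ) ≤ 5 / 4 * (1 / 6))
  refine h5.trans (by norm_num)

end Pool.JM
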