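import Pool.Agent.Work.MP_46fa68_h4.Bounds2
import Pool.Agent.Work.MP_46fa68_T.Op

/-!
# MP_46fa68_co: moves of the top bead (row 1)

`Rr B x p` for the top bead `x = K - 1 + a` of a set of `K` beads of level `n = a + b`, `b ≤ a`, is at most
`(a+1)! / (a+1+p)! * (1 + p / (a - b + 1))`: the extremal shape below the first row is one row of length `b`.
-/

set_option autoImplicit false

open Finset Equiv

namespace Pool.JM

/-- the factor of a one-row rest of length `b` -/
noncomputable def gx (A b p : ℝ) : ℝ := A * (A - b + p) / ((A - b) * (A + p))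

theorem gx_zero {A p : ℝ} (hA : 0 < A) (hp : 0 ≤ p) : gx A 0 p = 1 := by
  unfold gx
  rw [sub_zero]
  have h : A + p ≠ 0 := by positivity
  field_simp

theorem gx_step {A c b p : ℝ} (hc : 0 ≤ c) (hcb : c ≤ b) (hbA : b < A) (hp : 0 ≤ p) :
    ((A - c + p) / (A - c)) * gx (A + 1) (b - c) p ≤ ((A + p) / A) * gx A b p := by
  obtain ⟨e, rfl⟩ : ∃ e, b = c + e := ⟨b - c, by ring⟩
  obtain ⟨u, rfl⟩ : ∃ u, A = u + c + e := ⟨A - c - e, by ring⟩
  have he : 0 ≤ e := by linarith
  have hu : 0 < u := by linarith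
  unfold gx
  have h1 : 0 < u + e := by linarith
  have h2 : 0 < u + 1 + c := by linarith
  have h3 : 0 < u + c + e + 1 + p := by linarith
  have h4 : 0 < u + c + e := by linarith
  have h5 : 0 < u + c + e + p := by linarith
  rw [show u + c + e - c + p = u + e + p by ring, show u + c + e - c = u + e by ring,
    show u + c + e + 1 - (c + e - c) + p = u + 1 + c + p by ring,
    show u + c + e + 1 - (c + e - c) = u + 1 + c by ring,
    show u + c + e - (c + e) + p = u + p by ring, show u + c + e - (c + e) = u by ring]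
  rw [show (u + c + e + p) / (u + c + e) * ((u + c + e) * (u + p) / (u * (u + c + e + p))) =
    (u + p) / u by field_simp]
  rw [div_mul_div_comm, div_le_div_iff₀ (by positivity) hu]
  have key : (u + p) * ((u + e) * ((u + 1 + c) * (u + c + e + 1 + p))) -
      (u + e + p) * ((u + c + e + 1) * (u + 1 + c + p)) * u =
      p * e * (1 + c) * (2 * u + 1 + c + p + e) := by ring
  have h6 : 0 ≤ p * e * (1 + c) * (2 * u + 1 + c + p + e) := by positivity
  linarith

/-- the least sum of `k` distinct numbers -/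
theorem sum_range_le {k : ℕ} {B : Finset ℕ} (h : B.card = k) : ∑ z ∈ range k, z ≤ ∑ z ∈ B, z := by
  by_contra hcon
  push Not at hcon
  have := eq_range_of_sum h hcon.le
  rw [this] at hcon
  exact lt_irrefl _ hcon

/-- **The extremal rest is one row.** -/
theorem prod_row (p : ℕ) : ∀ (k : ℕ) (B : Finset ℕ) (a b : ℕ), B.card = k →
    ∑ y ∈ B, y = ∑ y ∈ range k, y + b → (∀ y ∈ B, y < k + a) → b ≤ a →
    ∏ y ∈ B, (((k + a : ℕ) + p - y : ℝ) / ((k + a : ℕ) - y)) ≤
      (∏ y ∈ range k, (((k + a : ℕ) + p - y : ℝ) / ((k + a : ℕ) - y))) * gx (a + 1) b p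
  | 0, B, a, b, hc, hs, _, _ => by
    rw [card_eq_zero] at hc
    subst hc
    simp only [sum_empty, range_zero, zero_add] at hs
    subst hs
    rw [Nat.cast_zero, gx_zero (by positivity) (Nat.cast_nonneg p)]
    simp
  | k + 1, B, a, b, hc, hs, hb, hab => by
    obtain ⟨y1, hy1, hk⟩ : ∃ y ∈ B, k ≤ y := by
      by_contra hcon
      push Not at hcon
      have h1 : B ⊆ range k := fun y hy => mem_range.2 (hcon y hy)
      have := card_le_card h1
      rw [card_range, hc] at this
      omega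
    obtain ⟨c, rfl⟩ : ∃ c, y1 = k + c := ⟨y1 - k, by omega⟩
    have hca : c ≤ a := by have := hb _ hy1; omega
    have hc' : (B.erase (k + c)).card = k := by rw [card_erase_of_mem hy1, hc]; omega
    have e1 := add_sum_erase B (fun z => z) hy1
    have hmin := sum_range_le hc'
    rw [sum_range_succ] at hs
    have hcb : c ≤ b := by omega
    have hs' : ∑ y ∈ B.erase (k + c), y = ∑ y ∈ range k, y + (b - c) := by
      omega
    have ih := prod_row p k (B.erase (k + c)) (a + 1) (b - c) hc' hs'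
      (fun y hy => by have := hb y (mem_of_mem_erase hy); omega) (by omega)
    rw [show k + (a + 1) = k + 1 + a by omega] at ih
    rw [← mul_prod_erase B _ hy1, prod_range_succ]
    have hx : ((k + 1 + a : ℕ) : ℝ) - ((k + c : ℕ) : ℝ) = ((a : ℝ) + 1) - c := by push_cast; ring
    have hx' : ((k + 1 + a : ℕ) : ℝ) + p - ((k + c : ℕ) : ℝ) = ((a : ℝ) + 1) - c + p := by
      push_cast; ring
    have hx2 : ((k + 1 + a : ℕ) : ℝ) - (k : ℝ) = (a : ℝ) + 1 := by push_cast; ring
    have hx2' : ((k + 1 + a : ℕ) : ℝ) + p - (k : ℝ) = (a : ℝ) + 1 + p := by push_cast; ring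
    rw [hx, hx', hx2, hx2']
    have hcaR : (c : ℝ) ≤ a := by exact_mod_cast hca
    have hbaR : (b : ℝ) ≤ a := by exact_mod_cast hab
    have hcbR : (c : ℝ) ≤ b := by exact_mod_cast hcb
    have hst := gx_step (A := (a : ℝ) + 1) (c := c) (b := b) (p := p) (Nat.cast_nonneg c) hcbR
      (by linarith) (Nat.cast_nonneg p)
    have e5 : (((a + 1 : ℕ) : ℝ) + 1) = (a : ℝ) + 1 + 1 := by push_cast; ring
    have e6 : ((b - c : ℕ) : ℝ) = (b : ℝ) - c := Nat.cast_sub hcb
    rw [e5, e6] at ih
    set Q := ∏ y ∈ range k, (((k + 1 + a : ℕ) + p - y : ℝ) / ((k + 1 + a : ℕ) - y)) with hQ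
    have hQ0 : 0 ≤ Q := by
      refine prod_nonneg fun y hy => ?_
      have hy' : (y : ℝ) < k := by exact_mod_cast mem_range.1 hy
      have : (0 : ℝ) ≤ p := Nat.cast_nonneg p
      have h7 : (0 : ℝ) ≤ a := Nat.cast_nonneg a
      refine div_nonneg ?_ ?_
      · push_cast; linarith
      · push_cast; linarith
    have h8 : (0 : ℝ) ≤ ((a : ℝ) + 1 - c + p) / ((a : ℝ) + 1 - c) := by
      have : (0 : ℝ) ≤ p := Nat.cast_nonneg p
      refine div_nonneg ?_ ?_ <;> linarith
    calc ((a : ℝ) + 1 - c + p) / ((a : ℝ) + 1 - c) *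
          ∏ y ∈ B.erase (k + c), (((k + 1 + a : ℕ) + p - y : ℝ) / ((k + 1 + a : ℕ) - y))
        ≤ ((a : ℝ) + 1 - c + p) / ((a : ℝ) + 1 - c) * (Q * gx (a + 1 + 1) (b - c) p) :=
          mul_le_mul_of_nonneg_left ih h8
      _ = Q * (((a : ℝ) + 1 - c + p) / ((a : ℝ) + 1 - c) * gx (a + 1 + 1) (b - c) p) := by ring
      _ ≤ Q * (((a : ℝ) + 1 + p) / ((a : ℝ) + 1) * gx (a + 1) b p) :=
          mul_le_mul_of_nonneg_left hst hQ0
      _ = _ := by ring

/-- the product over an unshifted rest -/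
theorem prod_rest (k a p : ℕ) :
    ∏ y ∈ range k, (((k + a : ℕ) + p - y : ℝ) / ((k + a : ℕ) - y)) =
      ((k + a + p).factorial : ℝ) * a.factorial / ((a + p).factorial * (k + a).factorial) := by
  have e1 : ∏ y ∈ range k, (((k + a : ℕ) : ℝ) + p - y) = ((k + a + p).descFactorial k : ℝ) := by
    rw [Nat.descFactorial_eq_prod_range]
    push_cast
    refine prod_congr rfl fun y hy => ?_
    have := mem_range.1 hy
    rw [Nat.cast_sub (by omega)]
    push_cast; ring
  have e2 : ∏ y ∈ range k, (((k + a : ℕ) : ℝ) - y) = ((k + a).descFactorial k : ℝ) := by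
    rw [Nat.descFactorial_eq_prod_range]
    push_cast
    refine prod_congr rfl fun y hy => ?_
    have := mem_range.1 hy
    rw [Nat.cast_sub (by omega)]
    push_cast; ring
  have e3 : ((a + p).factorial : ℝ) * ((k + a + p).descFactorial k : ℝ) =
      ((k + a + p).factorial : ℝ) := by
    have := Nat.factorial_mul_descFactorial (show k ≤ k + a + p by omega)
    rw [show k + a + p - k = a + p by omega] at this
    exact_mod_cast this
  have e4 : (a.factorial : ℝ) * ((k + a).descFactorial k : ℝ) = ((k + a).factorial : ℝ) := by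
    have := Nat.factorial_mul_descFactorial (show k ≤ k + a by omega)
    rw [show k + a - k = a by omega] at this
    exact_mod_cast this
  have h1 : ((a + p).factorial : ℝ) ≠ 0 := by exact_mod_cast (a + p).factorial_ne_zero
  have h2 : (a.factorial : ℝ) ≠ 0 := by exact_mod_cast a.factorial_ne_zero
  have h3 : ((k + a).descFactorial k : ℝ) ≠ 0 := by
    have : 0 < (k + a).descFactorial k := Nat.descFactorial_pos.2 (by omega)
    exact_mod_cast this.ne'
  rw [prod_div_distrib, e1, e2, ← e3, ← e4]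
  field_simp

/-- the top bead of a set of beads -/
theorem top_spec {k n : ℕ} {B : Finset ℕ} (hB : B ∈ Lv (k + 1) n) {x : ℕ} (hx : x ∈ B)
    (hmax : ∀ y ∈ B, y ≤ x) : ∃ a b, x = k + a ∧ n = a + b ∧ (B.erase x).card = k ∧
      ∑ y ∈ B.erase x, y = ∑ y ∈ range k, y + b ∧ ∀ y ∈ B.erase x, y < k + a := by
  obtain ⟨hc, -, -, hs⟩ := Lv_spec hB
  have hc' : (B.erase x).card = k := by rw [card_erase_of_mem hx, hc]; omega
  have hk : k ≤ x := by
    have h1 : B ⊆ range (x + 1) := fun y hy => mem_range.2 (by have := hmax y hy; omega)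
    have := card_le_card h1
    rw [card_range, hc] at this
    omega
  have e1 := add_sum_erase B (fun z => z) hx
  have hmin := sum_range_le hc'
  rw [sum_range_succ] at hs
  refine ⟨x - k, n - (x - k), by omega, ?_, hc', ?_, fun y hy => ?_⟩
  · omega
  · omega
  · have h1 := hmax y (mem_of_mem_erase hy)
    have h2 := ne_of_mem_erase hy
    omega

/-- positivity for the top bead -/
theorem Rr_pos {B : Finset ℕ} {x : ℕ} (hmax : ∀ y ∈ B, y ≤ x) (p : ℕ) : 0 < Rr B x p := by
  unfold Rr
  refine mul_pos (prod_pos fun y hy => ?_) ?_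
  · have h1 : y < x := lt_of_le_of_ne (hmax y (mem_of_mem_erase hy)) (ne_of_mem_erase hy)
    have h2 : (y : ℝ) < x := by exact_mod_cast h1
    have h3 : (0 : ℝ) ≤ p := Nat.cast_nonneg p
    exact div_pos (by linarith) (by linarith)
  · have h1 : (0 : ℝ) < x.factorial := by exact_mod_cast x.factorial_pos
    have h2 : (0 : ℝ) < (x + p).factorial := by exact_mod_cast (x + p).factorial_pos
    exact div_pos h1 h2

/-- **Moves of the top bead.** -/
theorem Rr_top_le {k a b : ℕ} {B : Finset ℕ} (hc : (B.erase (k + a)).card = k)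
    (hs : ∑ y ∈ B.erase (k + a), y = ∑ y ∈ range k, y + b)
    (hb : ∀ y ∈ B.erase (k + a), y < k + a) (hab : b ≤ a) (p : ℕ) :
    Rr B (k + a) p ≤ (((a + 1).factorial : ℝ) / (a + 1 + p).factorial) *
      (1 + p / ((a : ℝ) - b + 1)) := by
  have h1 := prod_row p k (B.erase (k + a)) a b hc hs hb hab
  rw [prod_rest] at h1
  have f1 : (0 : ℝ) < (k + a).factorial := by exact_mod_cast (k + a).factorial_pos
  have f2 : (0 : ℝ) < (k + a + p).factorial := by exact_mod_cast (k + a + p).factorial_pos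
  have f3 : (0 : ℝ) < (a + p).factorial := by exact_mod_cast (a + p).factorial_pos
  have f4 : (0 : ℝ) < a.factorial := by exact_mod_cast a.factorial_pos
  unfold Rr
  refine (mul_le_mul_of_nonneg_right h1 (by positivity)).trans (le_of_eq ?_)
  unfold gx
  have hbaR : (b : ℝ) ≤ a := by exact_mod_cast hab
  have h2 : (0 : ℝ) < (a : ℝ) - b + 1 := by linarith
  have h3 : (0 : ℝ) < (a : ℝ) + 1 + p := by positivity
  rw [show (a : ℝ) + 1 - b = (a : ℝ) - b + 1 by ring, Nat.factorial_succ a,
    show a + 1 + p = (a + p) + 1 by omega, Nat.factorial_succ (a + p)]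
  push_cast
  have h4 : (a : ℝ) + p + 1 ≠ 0 := by positivity
  have h5 : (a : ℝ) + 1 + p ≠ 0 := h3.ne'
  field_simp
  ring

/-- **One more step of the top bead.** -/
theorem Rr_top_step {k a b : ℕ} {B : Finset ℕ} (hc : (B.erase (k + a)).card = k)
    (hs : ∑ y ∈ B.erase (k + a), y = ∑ y ∈ range k, y + b)
    (hb : ∀ y ∈ B.erase (k + a), y < k + a) (hab : b ≤ a) (p : ℕ) :
    Rr B (k + a) (p + 1) ≤ Rr B (k + a) p *
      ((1 / ((a : ℝ) + p + 2)) * (1 + 1 / ((a : ℝ) + p - b + 1))) := by
  have h1 := prod_row 1 k (B.erase (k + a)) (a + p) b hc hs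
    (fun y hy => by have := hb y hy; omega) (by omega)
  rw [prod_rest] at h1
  have f1 : (0 : ℝ) < (k + a).factorial := by exact_mod_cast (k + a).factorial_pos
  have f2 : (0 : ℝ) < (k + a + p).factorial := by exact_mod_cast (k + a + p).factorial_pos
  have f3 : (0 : ℝ) < (a + p).factorial := by exact_mod_cast (a + p).factorial_pos
  -- the quotient of two consecutive products
  have e1 : ∏ y ∈ B.erase (k + a), (((k + a : ℕ) + (p + 1 : ℕ) - y : ℝ) / ((k + a : ℕ) - y)) =
      (∏ y ∈ B.erase (k + a), (((k + a : ℕ) + p - y : ℝ) / ((k + a : ℕ) - y))) *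
      ∏ y ∈ B.erase (k + a), (((k + (a + p) : ℕ) + (1 : ℕ) - y : ℝ) / ((k + (a + p) : ℕ) - y)) := by
    rw [← prod_mul_distrib]
    refine prod_congr rfl fun y hy => ?_
    have hy' : (y : ℝ) < k + a := by exact_mod_cast hb y hy
    have h3 : (0 : ℝ) ≤ p := Nat.cast_nonneg p
    have n1 : (k : ℝ) + a - y ≠ 0 := by linarith
    have n2 : (k : ℝ) + (a + p) - y ≠ 0 := by linarith
    push_cast
    rw [div_mul_div_comm, div_eq_div_iff n1 (mul_ne_zero n1 n2)]
    ring
  have hP : 0 ≤ ∏ y ∈ B.erase (k + a), (((k + a : ℕ) + p - y : ℝ) / ((k + a : ℕ) - y)) := by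
    refine prod_nonneg fun y hy => ?_
    have hy' : (y : ℝ) < k + a := by exact_mod_cast hb y hy
    have h3 : (0 : ℝ) ≤ p := Nat.cast_nonneg p
    refine div_nonneg ?_ ?_
    · push_cast; linarith
    · push_cast; linarith
  unfold Rr
  rw [e1]
  set Q := ∏ y ∈ B.erase (k + a), (((k + a : ℕ) + p - y : ℝ) / ((k + a : ℕ) - y))
  have hbaR : (b : ℝ) ≤ a := by exact_mod_cast hab
  have hpR : (0 : ℝ) ≤ p := Nat.cast_nonneg p
  have h2 : (0 : ℝ) < (a : ℝ) + p - b + 1 := by linarith
  have h3 : (0 : ℝ) < (a : ℝ) + p + 1 + 1 := by positivity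
  have h4 : ((k + a).factorial : ℝ) / (k + a + (p + 1)).factorial =
      ((k + a).factorial : ℝ) / ((k + a + p).factorial * ((k : ℝ) + a + p + 1)) := by
    rw [show k + a + (p + 1) = (k + a + p) + 1 by omega, Nat.factorial_succ]
    push_cast
    rw [mul_comm ((k : ℝ) + a + p + 1)]
  rw [h4]
  have h5 : (0 : ℝ) < (k : ℝ) + a + p + 1 := by positivity
  have h6 : (0 : ℝ) ≤ ((k + a).factorial : ℝ) / ((k + a + p).factorial * ((k : ℝ) + a + p + 1)) := by
    positivity
  calc Q * (∏ y ∈ B.erase (k + a), (((k + (a + p) : ℕ) + (1 : ℕ) - y : ℝ) /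
        ((k + (a + p) : ℕ) - y))) *
        (((k + a).factorial : ℝ) / ((k + a + p).factorial * ((k : ℝ) + a + p + 1)))
      ≤ Q * (((k + (a + p) + 1).factorial : ℝ) * (a + p).factorial /
          ((a + p + 1).factorial * (k + (a + p)).factorial) * gx (((a + p : ℕ) : ℝ) + 1) b (1 : ℕ)) *
        (((k + a).factorial : ℝ) / ((k + a + p).factorial * ((k : ℝ) + a + p + 1))) := by
        refine mul_le_mul_of_nonneg_right ?_ h6
        exact mul_le_mul_of_nonneg_left h1 hP
    _ = _ := by
        unfold gx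
        rw [show k + (a + p) + 1 = (k + a + p) + 1 by omega, show k + (a + p) = k + a + p by omega,
          Nat.factorial_succ (k + a + p), Nat.factorial_succ (a + p)]
        push_cast
        have n1 : (a : ℝ) + p + 1 - b ≠ 0 := by linarith
        have n2 : (a : ℝ) + p - b + 1 ≠ 0 := h2.ne'
        have n3 : (a : ℝ) + p + 1 ≠ 0 := by positivity
        have n4 : (a : ℝ) + p + 2 ≠ 0 := by positivity
        have n5 : (a : ℝ) + p + 1 + 1 ≠ 0 := by positivity
        field_simp
        ring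

end Pool.JM
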