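import Mathlib

/-!
# MP_46fa68_co, part A6: from the two equalities of counts to a star

Let `A` be a family of permutations of a finite set `α`, any two of which disagree in at most `m`
places (`t`-intersecting with `t = |α| - m`), `|A| = m!`, such that every `τ ∈ A` has exactly
`m choose 2` members `σ` of `A` with `σ⁻¹ τ` a transposition and at least one `σ` in `A` with `σ⁻¹ τ` an
`m`-cycle. Then `A` is the coset of a set `X` with `m` elements: all `σ` which agree with `τ` off `X`.
-/

namespace Pool.TInt

open Equiv Equiv.Perm Finset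

variable {α : Type*} [DecidableEq α] [Fintype α]

theorem support_mul_swap_of_notMem {c : Perm α} {i k : α} (hk : k ∉ c.support) (hik : i ≠ k) :
    (c * swap i k).support = insert i (insert k c.support) := by
  have hck : c k = k := by simpa using hk
  ext x
  simp only [mem_support, Finset.mem_insert, Perm.mul_apply, ne_eq]
  by_cases hxi : x = i
  · subst hxi
    rw [swap_apply_left]
    simp only [true_or, iff_true]
    rw [hck]
    exact fun h => hik h.symm
  · by_cases hxk : x = k
    · subst hxk
      rw [swap_apply_right]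
      simp only [true_or, or_true, iff_true]
      intro h
      apply hik
      apply c.injective
      rw [h, hck]
    · rw [swap_apply_of_ne_of_ne hxi hxk]
      simp [hxi, hxk]

/-- in a family of small discrepancy the transposition partners live on the `m`-cycle -/
theorem mem_of_swap_partner {A : Finset (Perm α)} {m : ℕ}
    (hA : ∀ σ ∈ A, ∀ τ ∈ A, (σ⁻¹ * τ).support.card ≤ m)
    {σ τ : Perm α} (hσ : σ ∈ A) (hc : (σ⁻¹ * τ).support.card = m)
    {i j : α} (hij : i ≠ j) (hA' : τ * swap i j ∈ A) : i ∈ (σ⁻¹ * τ).support := by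
  by_contra hi
  have h1 := hA σ hσ _ hA'
  rw [← mul_assoc, swap_comm, support_mul_swap_of_notMem hi hij.symm] at h1
  have h2 : insert i (σ⁻¹ * τ).support ⊆ insert j (insert i (σ⁻¹ * τ).support) :=
    Finset.subset_insert _ _
  have h3 := Finset.card_le_card h2
  rw [Finset.card_insert_of_notMem hi] at h3
  omega

theorem swap_of_support {f : Perm α} (hf : f.IsSwap) {i j : α}
    (h : f.support = {i, j}) : f = swap i j := by
  obtain ⟨x, y, hxy, rfl⟩ := hf
  rw [support_swap hxy] at h
  have hx : x = i ∨ x = j := by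
    have : x ∈ ({x, y} : Finset α) := by simp
    rw [h] at this
    simpa using this
  have hy : y = i ∨ y = j := by
    have : y ∈ ({x, y} : Finset α) := by simp
    rw [h] at this
    simpa using this
  rcases hx with hx | hx <;> rcases hy with hy | hy
  · exact absurd (hx.trans hy.symm) hxy
  · rw [hx, hy]
  · rw [hx, hy, swap_comm]
  · exact absurd (hx.trans hy.symm) hxy

/-- all the pairs of the support of the `m`-cycle are partners -/
theorem all_pairs {A : Finset (Perm α)} {m : ℕ}
    (hA : ∀ σ ∈ A, ∀ τ ∈ A, (σ⁻¹ * τ).support.card ≤ m)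
    {σ τ : Perm α} (hσ : σ ∈ A) (hc : (σ⁻¹ * τ).support.card = m)
    (htr : (A.filter (fun ρ => (ρ⁻¹ * τ).support.card = 2)).card = m.choose 2)
    {i j : α} (hij : i ≠ j) :
    τ * swap i j ∈ A ↔ i ∈ (σ⁻¹ * τ).support ∧ j ∈ (σ⁻¹ * τ).support := by
  classical
  constructor
  · intro h
    refine ⟨mem_of_swap_partner hA hσ hc hij h, mem_of_swap_partner hA hσ hc hij.symm ?_⟩
    rwa [swap_comm]
  · rintro ⟨hi, hj⟩
    set X := (σ⁻¹ * τ).support with hX
    have hmaps : (A.filter (fun ρ => (ρ⁻¹ * τ).support.card = 2)).image (fun ρ => (ρ⁻¹ * τ).support)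
        ⊆ X.powersetCard 2 := by
      intro S hS
      rw [Finset.mem_image] at hS
      obtain ⟨ρ, hρ, rfl⟩ := hS
      rw [Finset.mem_filter, card_support_eq_two] at hρ
      obtain ⟨hρA, x, y, hxy, hsw⟩ := hρ
      have hρ' : τ * swap x y = ρ := by
        have : ρ⁻¹ * τ * swap x y = 1 := by rw [hsw, swap_mul_self]
        have h2 : ρ * (ρ⁻¹ * τ * swap x y) = ρ := by rw [this, mul_one]
        rw [← mul_assoc, ← mul_assoc, mul_inv_cancel, one_mul] at h2
        exact h2
      have hx : τ * swap x y ∈ A := by rw [hρ']; exact hρA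
      rw [Finset.mem_powersetCard, hsw, support_swap hxy, Finset.card_pair hxy]
      refine ⟨?_, rfl⟩
      intro z hz
      rw [Finset.mem_insert, Finset.mem_singleton] at hz
      rcases hz with rfl | rfl
      · exact mem_of_swap_partner hA hσ hc hxy hx
      · refine mem_of_swap_partner hA hσ hc hxy.symm ?_
        rwa [swap_comm]
    have hinj : Set.InjOn (fun ρ : Perm α => (ρ⁻¹ * τ).support)
        (A.filter (fun ρ => (ρ⁻¹ * τ).support.card = 2)) := by
      intro ρ hρ ρ' hρ' h
      simp only [Finset.coe_filter, Set.mem_ofPred_eq, card_support_eq_two] at hρ hρ'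
      simp only at h
      obtain ⟨x, y, hxy, hsw⟩ := hρ.2
      have h1 : (ρ'⁻¹ * τ) = swap x y := by
        apply swap_of_support hρ'.2
        rw [← h, hsw, support_swap hxy]
      have h2 : ρ⁻¹ * τ = ρ'⁻¹ * τ := by rw [hsw, h1]
      have h3 := mul_right_cancel h2
      exact inv_injective h3
    have hcard : (X.powersetCard 2).card ≤
        ((A.filter (fun ρ => (ρ⁻¹ * τ).support.card = 2)).image (fun ρ => (ρ⁻¹ * τ).support)).card := by
      rw [Finset.card_image_of_injOn hinj, htr, Finset.card_powersetCard, hc]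
    have heq := Finset.eq_of_subset_of_card_le hmaps hcard
    have hmem : ({i, j} : Finset α) ∈ X.powersetCard 2 := by
      rw [Finset.mem_powersetCard, Finset.card_pair hij]
      refine ⟨?_, rfl⟩
      intro z hz
      rw [Finset.mem_insert, Finset.mem_singleton] at hz
      rcases hz with rfl | rfl
      · exact hi
      · exact hj
    rw [← heq, Finset.mem_image] at hmem
    obtain ⟨ρ, hρ, hs⟩ := hmem
    rw [Finset.mem_filter, card_support_eq_two] at hρ
    have h1 := swap_of_support hρ.2 hs
    have hρ' : τ * swap i j = ρ := by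
      have : ρ⁻¹ * τ * swap i j = 1 := by rw [h1, swap_mul_self]
      have h2 : ρ * (ρ⁻¹ * τ * swap i j) = ρ := by rw [this, mul_one]
      rw [← mul_assoc, ← mul_assoc, mul_inv_cancel, one_mul] at h2
      exact h2
    rw [hρ']
    exact hρ.1

/-- the set `X` does not change when one passes to a transposition partner -/
theorem propagate {A : Finset (Perm α)} {m : ℕ} (hm : 3 ≤ m)
    (hA : ∀ σ ∈ A, ∀ τ ∈ A, (σ⁻¹ * τ).support.card ≤ m)
    (htr : ∀ τ ∈ A, (A.filter (fun ρ => (ρ⁻¹ * τ).support.card = 2)).card = m.choose 2)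
    (hcy : ∀ τ ∈ A, ∃ σ ∈ A, (σ⁻¹ * τ).IsCycle ∧ (σ⁻¹ * τ).support.card = m)
    {τ : Perm α} {X : Finset α} (hXc : X.card = m)
    (hX : ∀ i j, i ≠ j → (τ * swap i j ∈ A ↔ i ∈ X ∧ j ∈ X))
    (hτ : τ ∈ A) {i j : α} (hij : i ≠ j) (hi : i ∈ X) (hj : j ∈ X) :
    τ * swap i j ∈ A ∧ ∀ a b, a ≠ b → (τ * swap i j * swap a b ∈ A ↔ a ∈ X ∧ b ∈ X) := by
  have hτ' : τ * swap i j ∈ A := (hX i j hij).2 ⟨hi, hj⟩
  refine ⟨hτ', ?_⟩
  obtain ⟨σ, hσ, hcyc, hcard⟩ := hcy _ hτ'
  have hP := fun a b (hab : a ≠ b) => all_pairs hA hσ hcard (htr _ hτ') hab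
  have hback : τ * swap i j * swap i j ∈ A := by
    rw [mul_assoc, swap_mul_self, mul_one]; exact hτ
  have hij' := (hP i j hij).1 hback
  set c := σ⁻¹ * (τ * swap i j) with hc
  have hsub : X ⊆ c.support := by
    intro k hk
    by_contra hkc
    have hki : i ≠ k := by rintro rfl; exact hkc hij'.1
    have hkj : j ≠ k := by rintro rfl; exact hkc hij'.2
    have hkd : k ∉ (c * swap i j).support := by
      rw [mem_support, not_not, Perm.mul_apply, swap_apply_of_ne_of_ne hki.symm hkj.symm]
      simpa using hkc
    have hτe : σ⁻¹ * τ = c * swap i j := by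
      rw [hc, ← mul_assoc, mul_assoc (σ⁻¹ * τ), swap_mul_self, mul_one]
    -- the two partners `τ (i k)` and `τ (j k)`
    have h1 := hA σ hσ _ ((hX i k hki).2 ⟨hi, hk⟩)
    have h2 := hA σ hσ _ ((hX j k hkj).2 ⟨hj, hk⟩)
    rw [← mul_assoc, hτe, support_mul_swap_of_notMem hkd hki] at h1
    rw [← mul_assoc, hτe, support_mul_swap_of_notMem hkd hkj] at h2
    have hci : c i = j := by
      by_contra hcij
      have hs : insert k c.support ⊆ insert i (insert k (c * swap i j).support) := by
        intro x hx
        rw [Finset.mem_insert] at hx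
        rw [Finset.mem_insert, Finset.mem_insert]
        rcases hx with rfl | hx
        · right; left; rfl
        · by_cases hxi : x = i
          · left; exact hxi
          · right; right
            rw [mem_support, Perm.mul_apply]
            by_cases hxj : x = j
            · subst hxj
              rw [swap_apply_right]
              exact hcij
            · rw [swap_apply_of_ne_of_ne hxi hxj]
              simpa using hx
      have h3 := Finset.card_le_card hs
      rw [Finset.card_insert_of_notMem hkc] at h3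
      omega
    have hcj : c j = i := by
      by_contra hcji
      have hs : insert k c.support ⊆ insert j (insert k (c * swap i j).support) := by
        intro x hx
        rw [Finset.mem_insert] at hx
        rw [Finset.mem_insert, Finset.mem_insert]
        rcases hx with rfl | hx
        · right; left; rfl
        · by_cases hxj : x = j
          · left; exact hxj
          · right; right
            rw [mem_support, Perm.mul_apply]
            by_cases hxi : x = i
            · subst hxi
              rw [swap_apply_left]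
              exact hcji
            · rw [swap_apply_of_ne_of_ne hxi hxj]
              simpa using hx
      have h3 := Finset.card_le_card hs
      rw [Finset.card_insert_of_notMem hkc] at h3
      omega
    -- so the cycle `c` is the transposition `(i j)`
    have hcc : c = swap i j := by
      have := hcyc.eq_swap_of_apply_apply_eq_self (x := i) (by rw [hci]; exact hij.symm)
        (by rw [hci, hcj])
      rw [this, hci]
    rw [hcc, card_support_swap hij] at hcard
    omega
  have heq : X = c.support := Finset.eq_of_subset_of_card_le hsub (by rw [hcard, hXc])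
  intro a b hab
  rw [hP a b hab, ← heq]

/-- **The star.** -/
theorem star_of_counts {A : Finset (Perm α)} {m : ℕ} (hm : 3 ≤ m)
    (hAc : A.card = m.factorial)
    (hA : ∀ σ ∈ A, ∀ τ ∈ A, (σ⁻¹ * τ).support.card ≤ m)
    (htr : ∀ τ ∈ A, (A.filter (fun ρ => (ρ⁻¹ * τ).support.card = 2)).card = m.choose 2)
    (hcy : ∀ τ ∈ A, ∃ σ ∈ A, (σ⁻¹ * τ).IsCycle ∧ (σ⁻¹ * τ).support.card = m)
    {τ : Perm α} (hτ : τ ∈ A) :
    ∃ X : Finset α, X.card = m ∧ ∀ σ, σ ∈ A ↔ ∀ i, i ∉ X → σ i = τ i := by
  classical
  obtain ⟨σ, hσ, hcyc, hcard⟩ := hcy _ hτ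
  refine ⟨(σ⁻¹ * τ).support, hcard, ?_⟩
  set X := (σ⁻¹ * τ).support with hXdef
  have hX : ∀ i j, i ≠ j → (τ * swap i j ∈ A ↔ i ∈ X ∧ j ∈ X) :=
    fun i j hij => all_pairs hA hσ hcard (htr _ hτ) hij
  have hind : ∀ g : Perm {x // x ∈ X}, τ * ofSubtype g ∈ A ∧
      ∀ a b, a ≠ b → (τ * ofSubtype g * swap a b ∈ A ↔ a ∈ X ∧ b ∈ X) := by
    intro g
    induction g using Equiv.Perm.swap_induction_on' with
    | one =>
      rw [map_one, mul_one]
      exact ⟨hτ, hX⟩
    | mul_swap f x y hxy ih =>
      have hxy' : (x : α) ≠ y := fun h => hxy (Subtype.ext h)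
      have h := propagate hm hA htr hcy hcard ih.2 ih.1 hxy' x.2 y.2
      have he : ofSubtype (f * swap x y) = ofSubtype f * swap (x : α) (y : α) := by
        rw [map_mul, ofSubtype_swap_eq]
      rw [he, ← mul_assoc]
      exact h
  -- count
  let S : Finset (Perm α) := (Finset.univ : Finset (Perm {x // x ∈ X})).image
    (fun g => τ * ofSubtype g)
  have hS : S ⊆ A := by
    intro x hx
    obtain ⟨g, -, rfl⟩ := Finset.mem_image.1 hx
    exact (hind g).1
  have hinj : Function.Injective (fun g : Perm {x // x ∈ X} => τ * ofSubtype g) := by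
    intro g g' h
    exact ofSubtype_injective (mul_left_cancel h)
  have hSc : S.card = m.factorial := by
    rw [Finset.card_image_of_injective _ hinj, Finset.card_univ, Fintype.card_perm,
      Fintype.card_coe, hcard]
  have hSA : S = A := Finset.eq_of_subset_of_card_le hS (by rw [hSc, hAc])
  intro ρ
  constructor
  · intro hρ i hi
    rw [← hSA] at hρ
    obtain ⟨g, -, rfl⟩ := Finset.mem_image.1 hρ
    rw [Perm.mul_apply, ofSubtype_apply_of_not_mem g hi]
  · intro hρ
    rw [← hSA]
    have hfix : ∀ i, i ∉ X → (τ⁻¹ * ρ) i = i := by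
      intro i hi
      rw [Perm.mul_apply, hρ i hi, ← Perm.mul_apply, inv_mul_cancel, Perm.one_apply]
    have hmem : ∀ x, (τ⁻¹ * ρ) x ≠ x → x ∈ X := by
      intro x hx
      by_contra h
      exact hx (hfix x h)
    have hpres : ∀ x, x ∈ X ↔ (τ⁻¹ * ρ) x ∈ X := by
      intro x
      constructor
      · intro hx
        by_contra h
        have h2 := hfix _ h
        have h3 := (τ⁻¹ * ρ).injective h2
        rw [h3] at h
        exact h hx
      · intro hx
        by_contra h
        rw [hfix x h] at hx
        exact h hx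
    refine Finset.mem_image.2 ⟨(τ⁻¹ * ρ).subtypePerm (fun x => (hpres x).symm), Finset.mem_univ _, ?_⟩
    rw [ofSubtype_subtypePerm]
    · rw [← mul_assoc, mul_inv_cancel, one_mul]
    · exact hmem

end Pool.TInt
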