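import Pool.Agent.Work.MP_46fa68_h4.Onto
import Pool.Agent.Work.MP_46fa68_h4.Elem
import Pool.Agent.Work.MP_46fa68_h4.Star

/-!
# MP_46fa68_co, U3: the case of equality

If the harmonic function `a` of the ratio bound is positive on all the shapes whose first row is shorter
than `m`, every extremal family is a star.
-/

set_option autoImplicit false

open Finset Equiv

namespace Pool.JM

variable {N : ℕ}

theorem G_sub_Rw {M : ℕ} (hM : N < M) {m : ℕ} (hm : m ≤ N) (b c : Finset ℕ → ℝ)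
    (h : ∀ C ∈ Lv M m, C ≠ Rw M m → b C = c C) (h0 : b (Rw M m) = 0) {g : Perm (Fin N)}
    (hg : Sn m g) :
    G N M b m g 1 = G N M c m g 1 - c (Rw M m) * (1 / (m.factorial : ℝ)) := by
  have hR := Rw_mem (show 0 < M by omega) m
  have e : G N M b m = G N M c m - c (Rw M m) • P N M m (Rw M m) := by
    unfold G
    rw [← Finset.add_sum_erase _ _ hR, ← Finset.add_sum_erase (Lv M m) (fun B => c B • P N M m B) hR,
      h0, zero_smul, zero_add, add_sub_cancel_left]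
    refine Finset.sum_congr rfl fun B hB => ?_
    rw [h B (mem_of_mem_erase hB) (ne_of_mem_erase hB)]
  rw [e, Matrix.sub_apply, Matrix.smul_apply, P_Rw hM hm hg, smul_eq_mul]

section main

variable {M m : ℕ}

/-- the relation of a tight family for a class function of level `m` -/
theorem rel (hM : N < M) (hm2 : 2 ≤ m) (hm : m ≤ N) (a : Finset ℕ → ℝ)
    (h1 : ∀ k, m ≤ k → k < N → ∀ C ∈ Lv M k, a C = ∑ x ∈ ad C, w C x * a (mv C x))
    (h2 : ∀ C ∈ Lv M m, a C = 1) (h3 : ∀ B ∈ Lv M N, 0 ≤ a B)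
    (h4 : ∀ B ∈ Lv M N, (∀ x ∈ B, x < M - 1 + m) → 0 < a B)
    (A : Finset (Perm (Fin N)))
    (hA : ∀ σ ∈ A, ∀ τ ∈ A, N - m ≤ (univ.filter fun i => σ i = τ i).card)
    (heq : (A.card : ℝ) * a (Rw M N) = N.factorial) (hc : A.card = m.factorial)
    (c : Finset ℕ → ℝ) {τ : Perm (Fin N)} (hτ : τ ∈ A) :
    ∃ ρ : Perm (Fin N) → Perm (Fin N),
      (∀ σ ∈ A, Sn m (ρ σ * (τ * σ⁻¹) * (ρ σ)⁻¹)) ∧
      ∑ σ ∈ A, G N M c m (ρ σ * (τ * σ⁻¹) * (ρ σ)⁻¹) 1 = c (Rw M m) := by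
  classical
  obtain ⟨b, hb1, hb2, hb3, hb4⟩ := onto hm hM hm2 c
  have ho := ortho hM hm a h1 h2 h3 A hA heq b (fun B hB hne => by
    refine ⟨h4 B hB (hb1 B hB hne), ?_⟩
    rintro rfl
    have := hb1 _ hB hne (M - 1 + N) (by unfold Rw; exact mem_insert_self _ _)
    omega) τ
  have hfix : ∀ σ : Perm (Fin N), ∃ ρ : Perm (Fin N), σ ∈ A → Sn m (ρ * (τ * σ⁻¹) * ρ⁻¹) := by
    intro σ
    by_cases hσ : σ ∈ A
    · have hcard : N - m ≤ (univ.filter fun i => (τ * σ⁻¹) i = i).card := by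
        refine (hA τ hτ σ hσ).trans ?_
        refine Finset.card_le_card_of_injOn σ ?_ (σ.injective.injOn)
        intro i hi
        have hi' : τ i = σ i := (mem_filter.1 hi).2
        refine mem_coe.2 (mem_filter.2 ⟨mem_univ _, ?_⟩)
        rw [Perm.mul_apply, show σ⁻¹ (σ i) = i from σ.symm_apply_apply i, hi']
      obtain ⟨ρ, hρ⟩ := conj_small hcard
      exact ⟨ρ, fun _ => hρ⟩
    · exact ⟨1, fun h => absurd h hσ⟩
  choose ρ hρ using hfix
  refine ⟨ρ, hρ, ?_⟩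
  have e1 : ∀ σ ∈ A, G N M b N (τ * σ⁻¹) 1 =
      G N M c m (ρ σ * (τ * σ⁻¹) * (ρ σ)⁻¹) 1 - c (Rw M m) * (1 / (m.factorial : ℝ)) := by
    intro σ hσ
    rw [G_val hM hm b hb2 (hρ σ hσ), G_sub_Rw hM hm b c hb3 hb4 (hρ σ hσ)]
  rw [Finset.sum_congr rfl e1, Finset.sum_sub_distrib, Finset.sum_const, hc, nsmul_eq_mul] at ho
  have hf : (m.factorial : ℝ) ≠ 0 := by exact_mod_cast m.factorial_ne_zero
  have e2 : (m.factorial : ℝ) * (c (Rw M m) * (1 / (m.factorial : ℝ))) = c (Rw M m) := by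
    field_simp
  rw [e2] at ho
  linarith

theorem yv_Rw_ne (hM : 0 < M) : yv M (Rw M m) ≠ 0 := by
  unfold yv
  rw [if_pos]
  · exact div_ne_zero (Ph_ne hM _) (Ph_ne hM _)
  · unfold dg
    have : ((Rw M m).filter fun b => M ≤ b) ⊆ {M - 1 + m} := by
      intro x hx
      rw [mem_filter] at hx
      unfold Rw at hx
      rw [mem_insert, mem_range] at hx
      rw [mem_singleton]
      rcases hx.1 with h | h
      · exact h
      · omega
    have := Finset.card_le_card this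
    rwa [card_singleton] at this

theorem conj_eq (σ τ ρ : Perm (Fin N)) :
    ρ * (τ * σ⁻¹) * ρ⁻¹ = (ρ * σ) * (σ⁻¹ * τ) * (ρ * σ)⁻¹ := by
  rw [mul_inv_rev]
  group

/-- **The case of equality.** -/
theorem star (hM : N < M) (hm3 : 3 ≤ m) (hm : m ≤ N) (a : Finset ℕ → ℝ)
    (h1 : ∀ k, m ≤ k → k < N → ∀ C ∈ Lv M k, a C = ∑ x ∈ ad C, w C x * a (mv C x))
    (h2 : ∀ C ∈ Lv M m, a C = 1) (h3 : ∀ B ∈ Lv M N, 0 ≤ a B)
    (h4 : ∀ B ∈ Lv M N, (∀ x ∈ B, x < M - 1 + m) → 0 < a B)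
    (hR : (N.factorial : ℝ) / m.factorial ≤ a (Rw M N))
    (A : Finset (Perm (Fin N)))
    (hA : ∀ σ ∈ A, ∀ τ ∈ A, N - m ≤ (univ.filter fun i => σ i = τ i).card)
    (hc : A.card = m.factorial) :
    ∃ X : Finset (Fin N), X.card = m ∧
      ∃ τ ∈ A, ∀ σ : Perm (Fin N), σ ∈ A ↔ ∀ i, i ∉ X → σ i = τ i := by
  have hf : (0 : ℝ) < m.factorial := by exact_mod_cast m.factorial_pos
  have heq : (A.card : ℝ) * a (Rw M N) = N.factorial := by
    refine le_antisymm (ratio a hM hm h1 h2 h3 A hA) ?_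
    rw [hc]
    rw [div_le_iff₀ hf] at hR
    linarith
  have hne : A.Nonempty := by
    rw [← Finset.card_pos, hc]
    exact m.factorial_pos
  obtain ⟨τ₀, hτ₀⟩ := hne
  have hsup : ∀ σ ∈ A, ∀ τ ∈ A, (σ⁻¹ * τ).support.card ≤ m := by
    intro σ hσ τ hτ
    have h5 := hA σ hσ τ hτ
    have h6 : (σ⁻¹ * τ).support = univ.filter fun i => ¬ σ i = τ i := by
      ext i
      rw [Perm.mem_support, mem_filter, Perm.mul_apply]
      simp only [mem_univ, true_and, ne_eq, not_iff_not]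
      rw [Perm.inv_eq_iff_eq]
      exact eq_comm
    have h7 := Finset.card_filter_add_card_filter_not (s := (univ : Finset (Fin N)))
      (fun i => σ i = τ i)
    rw [card_univ, Fintype.card_fin] at h7
    rw [h6]
    omega
  have htr : ∀ τ ∈ A, (A.filter (fun ρ => (ρ⁻¹ * τ).support.card = 2)).card = m.choose 2 := by
    intro τ hτ
    obtain ⟨ρ, hρ, hs⟩ := rel hM (by omega) hm a h1 h2 h3 h4 A hA heq hc (cs1 M) hτ
    rw [G_cs1 hM hm, cs1_Rw (by omega)] at hs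
    have e : ∀ σ ∈ A, W N m (ρ σ * (τ * σ⁻¹) * (ρ σ)⁻¹) 1 =
        if (σ⁻¹ * τ).support.card = 2 then (1 : ℝ) else 0 := by
      intro σ hσ
      rw [W_apply _ (hρ σ hσ), conj_eq, Perm.card_support_conj]
    rw [Finset.sum_congr rfl e, ← Finset.sum_filter, Finset.sum_const, nsmul_eq_mul, mul_one] at hs
    exact_mod_cast hs
  have hcy : ∀ τ ∈ A, ∃ σ ∈ A, (σ⁻¹ * τ).IsCycle ∧ (σ⁻¹ * τ).support.card = m := by
    intro τ hτ
    obtain ⟨ρ, hρ, hs⟩ := rel hM (by omega) hm a h1 h2 h3 h4 A hA heq hc (yv M) hτ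
    rw [G_yv hM (by omega) hm] at hs
    have hne : ∑ σ ∈ A, Y N m (ρ σ * (τ * σ⁻¹) * (ρ σ)⁻¹) 1 ≠ 0 := by
      rw [hs]; exact yv_Rw_ne (by omega)
    obtain ⟨σ, hσ, hne'⟩ := Finset.exists_ne_zero_of_sum_ne_zero hne
    obtain ⟨n, rfl⟩ : ∃ n, m = n + 2 := ⟨m - 2, by omega⟩
    obtain ⟨h5, h6⟩ := Y_support n hm _ _ hne'
    rw [inv_one, mul_one, conj_eq] at h5 h6
    refine ⟨σ, hσ, ?_, ?_⟩
    · have h7 := h5.conj (g := (ρ σ * σ)⁻¹)
      have e : (ρ σ * σ)⁻¹ * (ρ σ * σ * (σ⁻¹ * τ) * (ρ σ * σ)⁻¹) * ((ρ σ * σ)⁻¹)⁻¹ = σ⁻¹ * τ := by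
        group
      rwa [e] at h7
    · have h8 := congrArg Finset.card h6
      rw [Perm.card_support_conj, Fin.card_filter_val_lt, min_eq_right hm] at h8
      exact h8
  obtain ⟨X, hX, hXA⟩ := Pool.TInt.star_of_counts hm3 hc hsup htr hcy hτ₀
  exact ⟨X, hX, τ₀, hτ₀, hXA⟩

end main

end Pool.JM
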